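import Pool.Agent.Helper533.ConvexObstacle.Lower

open MeasureTheory Metric Set

namespace Pool.Agent.Helper533.ConvexObstacle

/-- first facts on `lambda1` -/
theorem exists_test {U : Set ℂ} (hU : IsOpen U) (hne : U.Nonempty) : ∃ u, IsTest U u := by
  obtain ⟨c, hc⟩ := hne
  obtain ⟨r, hr, hrU⟩ := Metric.isOpen_iff.mp hU c hc
  let f : ContDiffBump c := ⟨r / 4, r / 2, by positivity, by linarith⟩
  refine ⟨f, f.contDiff, f.hasCompactSupport, ?_, c, ?_⟩
  · rw [f.tsupport_eq]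
    exact (closedBall_subset_ball (by show r / 2 < r; linarith)).trans hrU
  · have : f c = 1 := f.one_of_mem_closedBall (mem_closedBall_self f.rIn_pos.le)
    rw [this]; norm_num

theorem rayleigh_nonneg (u : ℂ → ℝ) : 0 ≤ rayleigh u := by
  unfold rayleigh
  apply div_nonneg
  · exact integral_nonneg fun z => by positivity
  · exact integral_nonneg fun z => by positivity

theorem lambda1_le {U : Set ℂ} {u : ℂ → ℝ} (h : IsTest U u) : lambda1 U ≤ rayleigh u := by
  apply csInf_le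
  · exact ⟨0, by rintro q ⟨v, _, rfl⟩; exact rayleigh_nonneg v⟩
  · exact ⟨u, h, rfl⟩

theorem le_lambda1 {U : Set ℂ} (hU : IsOpen U)
    (hne : U.Nonempty) {a : ℝ} (h : ∀ u, IsTest U u → a ≤ rayleigh u) : a ≤ lambda1 U := by
  obtain ⟨u, hu⟩ := exists_test hU hne
  have hne' : {q : ℝ | ∃ u : ℂ → ℝ, IsTest U u ∧ q = rayleigh u}.Nonempty :=
    ⟨rayleigh u, u, hu, rfl⟩
  apply le_csInf hne'
  rintro q ⟨v, hv, rfl⟩
  exact h v hv

theorem lambda1_mono {U V : Set ℂ} (hU : IsOpen U) (hne : U.Nonempty) (h : U ⊆ V) :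
    lambda1 V ≤ lambda1 U := by
  apply le_lambda1 hU hne
  intro u hu
  exact lambda1_le ⟨hu.1, hu.2.1, hu.2.2.1.trans h, hu.2.2.2⟩

theorem integral_sq_pos {U : Set ℂ} {u : ℂ → ℝ} (h : IsTest U u) : 0 < ∫ z, (u z) ^ 2 := by
  obtain ⟨h1, h2, h3, z, hz⟩ := h
  have hc : Continuous (fun z => (u z) ^ 2) := h1.continuous.pow 2
  have hs : HasCompactSupport (fun z => (u z) ^ 2) := by
    apply h2.of_isClosed_subset (isClosed_tsupport _)
    apply closure_mono
    intro y hy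
    rw [Function.mem_support] at hy ⊢
    intro h0
    apply hy
    simp [h0]
  apply hc.integral_pos_of_hasCompactSupport_nonneg_nonzero hs (x := z)
  · intro y; positivity
  · positivity

/-- Rayleigh quotients and isometries -/
theorem isometry_integrals (L : ℂ ≃ₗᵢ[ℝ] ℂ) (u : ℂ → ℝ) :
    (∫ z, u (L z) ^ 2 = ∫ z, u z ^ 2) ∧
      (∫ z, ‖gradient (fun z => u (L z)) z‖ ^ 2 = ∫ z, ‖gradient u z‖ ^ 2) := by
  have hmp : MeasurePreserving L volume volume := L.measurePreserving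
  have hme : MeasurableEmbedding L := L.toHomeomorph.measurableEmbedding
  constructor
  · exact hmp.integral_comp hme (fun z => u z ^ 2)
  · have e : ∀ z, ‖gradient (fun z => u (L z)) z‖ = ‖gradient u (L z)‖ := by
      intro z
      rw [norm_gradient, norm_gradient]
      have h1 : fderiv ℝ (fun z => u (L z)) z = (fderiv ℝ u (L z)).comp (L : ℂ →L[ℝ] ℂ) := by
        have := L.toContinuousLinearEquiv.comp_right_fderiv (f := u) (x := z)
        exact this
      rw [h1]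
      exact ContinuousLinearMap.opNorm_comp_linearIsometryEquiv _ L
    simp_rw [e]
    exact hmp.integral_comp hme (fun z => ‖gradient u z‖ ^ 2)

theorem lower_all (P : Prof) (r : ℝ) (hr1 : 1 / 2 ≤ r) (hr2 : r < 1)
    (hκ : 4 * P.j ^ 2 * (100 * P.K ^ 2 * (1 - r) ^ 2) ≤ 1 / 4) (C₀ : ℝ) (hC₀ : 0 < C₀) (A : ℝ) (hA : 0 < A) :
    ∃ N₀ : ℕ, ∀ n : ℕ, N₀ ≤ 2 * n → ∀ u : ℂ → ℝ, ContDiff ℝ 1 u → HasCompactSupport u →
      tsupport u ⊆ Om (2 * n) P.q → ∀ K : Set ℂ, Convex ℝ K → closedBall (0:ℂ) r ⊆ K →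
      (∀ z ∈ K, u z = 0) → ∀ p ∈ K, 1 - C₀ / ((2 * n : ℕ) : ℝ) ≤ ‖p‖ →
      (P.Lam (2 * n) + A / ((2 * n : ℕ) : ℝ) ^ 2) * ∫ z, u z ^ 2 ≤ ∫ z, ‖gradient u z‖ ^ 2 := by
  obtain ⟨N₀, hN₀⟩ := lower_core P r hr1 hr2 hκ C₀ hC₀ A hA
  refine ⟨max N₀ 1, ?_⟩
  intro n hn u hu huc hus K hK hrK huK p hp hpn
  have hn1 : N₀ ≤ 2 * n := (le_max_left _ _).trans hn
  have hn2 : 1 ≤ 2 * n := (le_max_right _ _).trans hn
  set N := 2 * n with hN
  have hNpos : (0:ℝ) < N := by
    have : 0 < N := by omega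
    exact_mod_cast this
  have hpi := Real.pi_pos
  -- the rotation angle
  set k : ℤ := round (N * p.arg / (2 * Real.pi)) with hk
  set β : ℝ := 2 * Real.pi * k / N with hβ
  have hround : |N * p.arg / (2 * Real.pi) - k| ≤ 1 / 2 := abs_sub_round _
  have hα : |p.arg - β| ≤ Real.pi / N := by
    have e : p.arg - β = (2 * Real.pi / N) * (N * p.arg / (2 * Real.pi) - k) := by
      rw [hβ]; field_simp
    rw [e, abs_mul, abs_of_pos (by positivity)]
    calc 2 * Real.pi / N * |N * p.arg / (2 * Real.pi) - k| ≤ 2 * Real.pi / N * (1 / 2) :=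
          mul_le_mul_of_nonneg_left hround (by positivity)
      _ = Real.pi / N := by ring
  set L : ℂ ≃ₗᵢ[ℝ] ℂ := rotation (Circle.exp β) with hL
  have hLz : ∀ z, L z = Complex.exp (β * Complex.I) * z := by
    intro z
    rw [hL, rotation_apply, Circle.coe_exp]
  have hrot : Complex.exp (β * Complex.I) ^ N = 1 := by
    rw [← Complex.exp_nat_mul]
    rw [Complex.exp_eq_one_iff]
    refine ⟨k, ?_⟩
    rw [hβ]
    push_cast
    have : (N:ℂ) ≠ 0 := by
      have : N ≠ 0 := by omega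
      exact_mod_cast this
    field_simp
  have hLpow : ∀ z, (L z) ^ N = z ^ N := by
    intro z
    rw [hLz, mul_pow, hrot, one_mul]
  have hLOm : ∀ z, L z ∈ Om N P.q ↔ z ∈ Om N P.q := by
    intro z
    unfold Om
    simp only [mem_setOf_eq, hLpow]
  have hLn : ∀ z, ‖L z‖ = ‖z‖ := fun z => L.norm_map z
  set v : ℂ → ℝ := fun z => u (L z) with hv
  obtain ⟨i1, i2⟩ := isometry_integrals L u
  rw [← i1, ← i2]
  have hvs : tsupport v = L ⁻¹' tsupport u := by
    have := tsupport_comp_eq_preimage u L.toHomeomorph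
    exact this
  refine hN₀ n hn1 v (hu.comp L.contDiff) ?_ ?_ (L ⁻¹' K) ?_ ?_ ?_ ‖p‖ (p.arg - β) hpn hα ?_
  · exact huc.comp_homeomorph L.toHomeomorph
  · rw [hvs]
    intro z hz
    exact (hLOm z).mp (hus hz)
  · exact hK.linear_preimage L.toLinearEquiv.toLinearMap
  · intro z hz
    apply hrK
    rw [mem_closedBall, dist_zero_right] at hz ⊢
    rw [hLn]; exact hz
  · intro z hz
    exact huK _ hz
  · show L (zz ‖p‖ (p.arg - β)) ∈ K
    have : L (zz ‖p‖ (p.arg - β)) = p := by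
      rw [hLz]
      unfold zz
      have h1 : Complex.exp (β * Complex.I) * (‖p‖ * Complex.exp (((p.arg - β : ℝ) : ℂ) * Complex.I)) =
          ‖p‖ * Complex.exp (p.arg * Complex.I) := by
        rw [mul_left_comm, ← Complex.exp_add]
        congr 2
        push_cast
        ring
      rw [h1, Complex.norm_mul_exp_arg_mul_I]
    rw [this]; exact hp

end Pool.Agent.Helper533.ConvexObstacle
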