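import Pool.Agent.Helper533.ConvexObstacle.Upper2

open MeasureTheory Metric Set

namespace Pool.Agent.Helper533.ConvexObstacle

theorem far_of_big {P : Prof} {N : ℕ} (hbig : P.Big N) : 2 ≤ P.ρ₁ ^ N := by
  have hg := P.g_pos
  have h1 := one_add_mul_le_pow (a := P.g / 3) (by linarith) N
  have h2 : (36:ℝ) ≤ P.g * N := hbig
  have h3 : (1 + P.g / 3) = P.ρ₁ := rfl
  rw [h3] at h1
  linarith

theorem upper (P : Prof) (δ : ℝ) (hδ : 0 < δ) (hδ2 : δ < 1 / 2) :
    ∃ C₁ : ℝ, 0 < C₁ ∧ ∀ n : ℕ, n ≠ 0 → P.Big (2 * n) →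
      lambda1 (Om (2 * n) P.q \ closedBall 0 (1 - δ)) ≤ P.Lam (2 * n) + C₁ / ((2 * n : ℕ) : ℝ) ^ 2 := by
  obtain ⟨M, hM, hmain⟩ := test_fn P δ hδ hδ2
  have hg := P.g_pos
  have hC := P.C_pos
  have hc0 := P.hc
  have hj0 := P.hj0
  set V2 : ℝ := (volume : Measure ℂ).real (ball (0:ℂ) 2) with hV2
  have hV20 : 0 ≤ V2 := measureReal_nonneg
  set B : Set ℂ := ball ((1 + P.g / 2 : ℝ) : ℂ) (P.g / 6) with hB
  set Vb : ℝ := (volume : Measure ℂ).real B with hVb
  have hVb0 : 0 < Vb := by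
    rw [hVb]
    apply ENNReal.toReal_pos (measure_ball_pos volume _ (by positivity)).ne' measure_ball_lt_top.ne
  set c₂ : ℝ := (P.c * (P.g / 6)) ^ 2 * Vb with hc₂
  have hc₂0 : 0 < c₂ := by positivity
  set C₁ : ℝ := (18 * P.C ^ 2 * M ^ 2 * V2 + 1 + 2304 * (4 * P.j ^ 2) * P.C ^ 2 * V2) / c₂ with hC₁
  refine ⟨C₁, by positivity, ?_⟩
  intro n hn hbig
  have hfar := far_of_big hbig
  set N := 2 * n with hN
  have hNne := hbig.ne
  have hNp : (0:ℝ) < N := by positivity
  set a2 := 8 * M ^ 2 * (4 * P.j * 2 * (2 * 2 ^ N)) ^ 2 with ha2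
  have ha20 : 0 < a2 := by positivity
  obtain ⟨τ, hτ0, hτm, hτA⟩ := small_area P hNne (1 / (N ^ 2 * a2)) (by positivity) (P.c * (P.g / 6) / 2) (by positivity)
  obtain ⟨v, hv, hv1, hv2, hv3⟩ := hmain N hbig hfar τ hτ0 (by linarith)
  refine (lambda1_le hv).trans ?_
  obtain ⟨hvs, hvc, hvt, _⟩ := hv
  have hvOm : tsupport v ⊆ Om N P.q := fun z hz => (hvt hz).1
  have hvs1 : ContDiff ℝ 1 v := hvs.of_le (by simp)
  obtain ⟨g1, g2, g3⟩ := ground P hNne v hvs1 hvc hvOm
  -- bound of the energy part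
  set A := {z | z ∈ Om N P.q ∧ P.U N z ≤ 2 * τ} with hA
  have hAm : MeasurableSet A := by
    have hcont : ContinuousOn (P.U N) (Om N P.q) := fun z hz =>
      (U_contDiffAt P hz).continuousAt.continuousWithinAt
    have : A = Om N P.q \ (Om N P.q ∩ P.U N ⁻¹' (Ioi (2 * τ))) := by
      ext z
      simp only [hA, mem_setOf_eq, mem_sdiff, mem_inter_iff, mem_preimage, mem_Ioi, not_and, not_lt]
      constructor
      · rintro ⟨h1, h2⟩; exact ⟨h1, fun _ => h2⟩
      · rintro ⟨h1, h2⟩; exact ⟨h1, h2 h1⟩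
    rw [this]
    exact (isOpen_Om N P.q).measurableSet.diff
      (hcont.isOpen_inter_preimage (isOpen_Om N P.q) isOpen_Ioi).measurableSet
  have hAfin : (volume : Measure ℂ) A ≠ ⊤ := by
    apply ne_top_of_le_ne_top (measure_ball_lt_top (μ := (volume : Measure ℂ)) (x := (0:ℂ)) (r := 2)).ne
    apply measure_mono
    intro z hz
    rw [mem_ball, dist_zero_right]
    exact norm_lt_two_of_Om hNne hz.1
  have hbm : MeasurableSet (ball (0:ℂ) 2) := measurableSet_ball
  have ib : ∀ a : ℝ, Integrable ((ball (0:ℂ) 2).indicator (fun _ => a)) := fun a =>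
    (integrable_indicator_iff hbm).mpr (integrableOn_const measure_ball_lt_top.ne)
  have iA : ∀ a : ℝ, Integrable (A.indicator (fun _ => a)) := fun a =>
    (integrable_indicator_iff hAm).mpr (integrableOn_const hAfin)
  have eb : ∀ a : ℝ, ∫ z, (ball (0:ℂ) 2).indicator (fun _ => a) z = V2 * a := fun a => by
    rw [integral_indicator hbm, setIntegral_const, smul_eq_mul]
  have eA : ∀ a : ℝ, ∫ z, A.indicator (fun _ => a) z = (volume : Measure ℂ).real A * a := fun a => by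
    rw [integral_indicator hAm, setIntegral_const, smul_eq_mul]
  have iE : Integrable (fun z => P.U N z ^ 2 * ‖gradient (fun z => v z / P.U N z) z‖ ^ 2) := by
    have hφc : HasCompactSupport (fun z => v z / P.U N z) := IsCompact.of_isClosed_subset hvc (isClosed_tsupport _) g2
    have hsub : tsupport (fun z => ‖gradient (fun z => v z / P.U N z) z‖ ^ 2) ⊆ tsupport (fun z => v z / P.U N z) := by
      apply closure_minimal _ (isClosed_tsupport _)
      intro z hz
      by_contra hcon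
      apply hz
      simp [gradient_tsupport hcon]
    have := integrable_tsupport (w := fun z => v z / P.U N z) (a := fun z => ‖gradient (fun z => v z / P.U N z) z‖ ^ 2)
      (b := fun z => P.U N z ^ 2)
      hφc ((gradient_cont g1).norm.pow 2) hsub
      (fun z hz => ((U_contDiffAt P (hvOm (g2 hz))).continuousAt.pow 2))
    refine this.congr (Filter.Eventually.of_forall fun z => ?_)
    ring
  have bE : ∫ z, P.U N z ^ 2 * ‖gradient (fun z => v z / P.U N z) z‖ ^ 2 ≤
      (18 * P.C ^ 2 * M ^ 2 * V2 + 1) / N ^ 2 := by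
    have h1 : ∫ z, P.U N z ^ 2 * ‖gradient (fun z => v z / P.U N z) z‖ ^ 2 ≤
        ∫ z, ((ball (0:ℂ) 2).indicator (fun _ => 18 * P.C ^ 2 * M ^ 2 / (N:ℝ) ^ 2) z + A.indicator (fun _ => a2) z) :=
      integral_mono iE ((ib _).add (iA _)) hv3
    rw [integral_add (ib _) (iA _), eb, eA] at h1
    have h2 : (volume : Measure ℂ).real A * a2 ≤ 1 / N ^ 2 := by
      calc (volume : Measure ℂ).real A * a2 ≤ (1 / (N ^ 2 * a2)) * a2 := mul_le_mul_of_nonneg_right hτA ha20.le
        _ = 1 / N ^ 2 := by field_simp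
    calc _ ≤ V2 * (18 * P.C ^ 2 * M ^ 2 / (N:ℝ) ^ 2) + (volume : Measure ℂ).real A * a2 := h1
      _ ≤ V2 * (18 * P.C ^ 2 * M ^ 2 / (N:ℝ) ^ 2) + 1 / N ^ 2 := by linarith
      _ = _ := by ring
  -- potential
  have hi1 : Integrable (fun z => v z ^ 2) := integrable_sq hvs1.continuous hvc
  have hVc : ∀ z ∈ Om N P.q, ContinuousAt (P.V N) z := by
    intro z hz
    unfold Prof.V
    have c1 : ContinuousAt (Rf N) z := (Rf_contDiffAt hz (n := 0)).continuousAt
    have c2 : ContinuousAt (pf N) z := ((pf_diff N P.q).differentiableAt ((isOpen_Om N P.q).mem_nhds hz)).continuousAt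
    exact (((continuousAt_const.mul c1).pow 2).div_const _).mul (c2.norm.pow 2)
  have hi3 : Integrable (fun z => P.V N z * v z ^ 2) := by
    have := integrable_tsupport (w := v) (a := fun z => v z ^ 2) (b := P.V N) hvc (hvs1.continuous.pow 2)
      (tsupport_sub_of_zero (fun z h => by simp [h])) (fun z hz => hVc z (hvOm hz))
    exact this.congr (Filter.Eventually.of_forall fun z => by ring)
  have hLam := P.Lam_le N hNne
  have hLam0 := P.Lam_pos N
  set a3 := 2304 * (4 * P.j ^ 2) * P.C ^ 2 / (N:ℝ) ^ 2 with ha3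
  have ha30 : 0 ≤ a3 := by positivity
  have bV : ∫ z, P.V N z * v z ^ 2 ≤ P.Lam N * (∫ z, v z ^ 2) + V2 * a3 := by
    rw [← eb a3, ← integral_const_mul, ← integral_add (hi1.const_mul _) (ib _)]
    apply integral_mono hi3 ((hi1.const_mul _).add (ib _))
    intro z
    show P.V N z * v z ^ 2 ≤ P.Lam N * v z ^ 2 + (ball (0:ℂ) 2).indicator (fun _ => a3) z
    by_cases hz : z ∈ Om N P.q
    · have hz2 := norm_lt_two_of_Om hNne hz
      rw [indicator_of_mem (show z ∈ ball (0:ℂ) 2 by rw [mem_ball, dist_zero_right]; exact hz2)]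
      have h1 := P.V_upper hn hz hz2.le
      have h2 := hv1 z hz
      have hU := P.U_pos hNne hz
      have hT := P.U_le hNne hz
      have h3 : v z ^ 2 ≤ P.C ^ 2 * P.T N z ^ 2 := by
        rw [← mul_pow]
        exact h2.trans (pow_le_pow_left₀ hU.le hT 2)
      rcases le_total (P.V N z) (P.Lam N) with hVL | hVL
      · have : P.V N z * v z ^ 2 ≤ P.Lam N * v z ^ 2 := mul_le_mul_of_nonneg_right hVL (sq_nonneg _)
        linarith
      · have h4 : (P.V N z - P.Lam N) * v z ^ 2 ≤ (P.V N z - P.Lam N) * (P.C ^ 2 * P.T N z ^ 2) :=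
          mul_le_mul_of_nonneg_left h3 (by linarith)
        have h5 : (P.V N z - P.Lam N) * (P.C ^ 2 * P.T N z ^ 2) = P.C ^ 2 * ((P.V N z - P.Lam N) * P.T N z ^ 2) := by ring
        have h6 : P.C ^ 2 * ((P.V N z - P.Lam N) * P.T N z ^ 2) ≤ P.C ^ 2 * (2304 * P.Lam N / (N:ℝ) ^ 2) :=
          mul_le_mul_of_nonneg_left h1 (sq_nonneg _)
        have h7 : P.C ^ 2 * (2304 * P.Lam N / (N:ℝ) ^ 2) ≤ a3 := by
          rw [ha3]
          have : P.C ^ 2 * (2304 * P.Lam N / (N:ℝ) ^ 2) = 2304 * P.Lam N * P.C ^ 2 / (N:ℝ) ^ 2 := by ring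
          rw [this]
          gcongr
        have h8 : P.V N z * v z ^ 2 = P.Lam N * v z ^ 2 + (P.V N z - P.Lam N) * v z ^ 2 := by ring
        linarith
    · have h0 : v z = 0 := by
        by_contra hcon
        exact hz (hvOm (subset_tsupport v hcon))
      have i2 : 0 ≤ (ball (0:ℂ) 2).indicator (fun _ => a3) z := indicator_nonneg (fun _ _ => ha30) z
      rw [h0]
      simpa using i2
  -- mass
  have hBm : MeasurableSet B := measurableSet_ball
  have hBfin : (volume : Measure ℂ) B ≠ ⊤ := measure_ball_lt_top.ne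
  have bm : c₂ ≤ ∫ z, v z ^ 2 := by
    have h1 : ∫ z, B.indicator (fun _ => (P.c * (P.g / 6)) ^ 2) z = c₂ := by
      rw [integral_indicator hBm, setIntegral_const, smul_eq_mul, hc₂]; ring
    rw [← h1]
    apply integral_mono ((integrable_indicator_iff hBm).mpr (integrableOn_const hBfin)) hi1
    intro z
    by_cases hz : z ∈ B
    · show B.indicator (fun _ => (P.c * (P.g / 6)) ^ 2) z ≤ v z ^ 2
      rw [indicator_of_mem hz]
      rw [hB, mem_ball, dist_eq_norm] at hz
      have hn1 : ‖(((1 + P.g / 2 : ℝ)) : ℂ)‖ = 1 + P.g / 2 := by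
        rw [Complex.norm_real, Real.norm_of_nonneg (by positivity)]
      have h2 : P.ρ₁ ≤ ‖z‖ := by
        have := norm_sub_norm_le (((1 + P.g / 2 : ℝ)) : ℂ) z
        rw [hn1, norm_sub_rev] at this
        have e : P.ρ₁ = 1 + P.g / 3 := rfl
        linarith
      have h3 : ‖z‖ ≤ P.ρ₂ := by
        have := norm_sub_norm_le z (((1 + P.g / 2 : ℝ)) : ℂ)
        rw [hn1] at this
        have e : P.ρ₂ = 1 + 2 * P.g / 3 := rfl
        linarith
      rw [hv2 z h2 h3]
      obtain ⟨e1, e2⟩ := core_Om' P hbig hfar z h2 h3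
      have e3 := P.U_ge hNne e1
      have e4 : P.c * (P.g / 6) ≤ P.U N z := (mul_le_mul_of_nonneg_left e2 hc0.le).trans e3
      exact pow_le_pow_left₀ (by positivity) e4 2
    · show B.indicator (fun _ => (P.c * (P.g / 6)) ^ 2) z ≤ v z ^ 2
      rw [indicator_of_notMem hz]
      positivity
  unfold rayleigh
  have hmass : 0 < ∫ z, v z ^ 2 := lt_of_lt_of_le hc₂0 bm
  rw [div_le_iff₀ hmass, g3]
  have hfin : (18 * P.C ^ 2 * M ^ 2 * V2 + 1) / N ^ 2 + V2 * a3 ≤ C₁ / N ^ 2 * ∫ z, v z ^ 2 := by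
    have h1 : (18 * P.C ^ 2 * M ^ 2 * V2 + 1) / N ^ 2 + V2 * a3 = C₁ / N ^ 2 * c₂ := by
      rw [hC₁, ha3]; field_simp
    rw [h1]
    exact mul_le_mul_of_nonneg_left bm (by positivity)
  have : (P.Lam N + C₁ / (N:ℝ) ^ 2) * ∫ z, v z ^ 2 = P.Lam N * (∫ z, v z ^ 2) + C₁ / N ^ 2 * ∫ z, v z ^ 2 := by ring
  rw [this]
  linarith

end Pool.Agent.Helper533.ConvexObstacle
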