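import Pool.Agent.Helper533.ConvexObstacle.Cut
import Pool.Agent.Helper533.ConvexObstacle.Upper3
import Pool.Agent.Helper533.ConvexObstacle.Lower2

open MeasureTheory Metric Set
open scoped Pointwise ENNReal

namespace Pool.Agent.Helper533.ConvexObstacle

theorem gain_ge {R h : ℝ} (hh : 0 < h) (hhR : h < R) (hR : R ≤ 2) :
    √(R - h) * (R - h) / 2 ≤ 2 * √(2 * R * (R - h)) - 2 * √(R ^ 2 - h ^ 2) := by
  set a := √(R - h) with ha
  set b := √(2 * R) with hb
  set c := √(R + h) with hc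
  have ha2 : a ^ 2 = R - h := Real.sq_sqrt (by linarith)
  have hb2 : b ^ 2 = 2 * R := Real.sq_sqrt (by linarith)
  have hc2 : c ^ 2 = R + h := Real.sq_sqrt (by linarith)
  have ha0 : 0 ≤ a := Real.sqrt_nonneg _
  have hb0 : 0 ≤ b := Real.sqrt_nonneg _
  have hc0 : 0 ≤ c := Real.sqrt_nonneg _
  have e1 : √(2 * R * (R - h)) = b * a := by rw [Real.sqrt_mul (by linarith)]
  have e2 : √(R ^ 2 - h ^ 2) = c * a := by
    have : R ^ 2 - h ^ 2 = (R + h) * (R - h) := by ring
    rw [this, Real.sqrt_mul (by linarith)]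
  rw [e1, e2, ← ha2]
  have hb4 : b ≤ 2 := by nlinarith
  have hcb : c ≤ b := by
    apply Real.sqrt_le_sqrt; linarith
  have h1 : a ^ 2 ≤ 4 * (b - c) := by
    have : a ^ 2 = (b - c) * (b + c) := by nlinarith
    rw [this]; nlinarith
  nlinarith

theorem closure_Om_subset (N : ℕ) (q : ℝ) :
    closure (Om N q) ⊆ {z | 1 / 2 ≤ ‖z ^ N - 1‖ ∧ ‖z ^ N - 1‖ ≤ q ^ N / 2} := by
  apply closure_minimal
  · intro z hz; exact ⟨hz.1.le, hz.2.le⟩
  · have h1 : Continuous (fun z : ℂ => ‖z ^ N - 1‖) := by fun_prop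
    exact (isClosed_le continuous_const h1).inter (isClosed_le h1 continuous_const)

theorem norm_le_of_closure {N : ℕ} (hN : N ≠ 0) {q : ℝ} (hq : 0 < q) (hq2 : 2 ≤ q ^ N) {z : ℂ}
    (hz : z ∈ closure (Om N q)) : ‖z‖ ≤ q := by
  have h1 := (closure_Om_subset N q hz).2
  apply le_of_pow_le hN hq.le
  have h2 : ‖z‖ ^ N - 1 ≤ ‖z ^ N - 1‖ := by
    have := norm_sub_norm_le (z ^ N) 1
    rw [norm_pow, norm_one] at this
    exact this
  linarith

theorem norm_ge_of_frontier {N : ℕ} (hN : N ≠ 0) {q : ℝ} (hq2 : 3 ≤ q ^ N) {z : ℂ}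
    (hz : z ∈ frontier (Om N q)) : 1 - 1 / (N:ℝ) ≤ ‖z‖ := by
  have hNp : (0:ℝ) < N := by positivity
  have hN1 : (1:ℝ) ≤ N := by exact_mod_cast Nat.one_le_iff_ne_zero.mpr hN
  have h1 := closure_Om_subset N q hz.1
  have h2 : z ∉ Om N q := by
    have := hz.2
    rwa [(isOpen_Om N q).interior_eq] at this
  have h3 : 1 / 2 ≤ ‖z‖ ^ N := by
    by_contra hcon
    push Not at hcon
    apply h2
    rw [← norm_pow] at hcon
    have e1 : 1 - ‖z ^ N‖ ≤ ‖z ^ N - 1‖ := by
      have := norm_sub_norm_le (1:ℂ) (z ^ N)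
      rw [norm_one, norm_sub_rev] at this
      exact this
    have e2 : ‖z ^ N - 1‖ ≤ ‖z ^ N‖ + 1 := by
      have := norm_sub_le (z ^ N) 1
      rw [norm_one] at this
      exact this
    exact ⟨by linarith, by linarith⟩
  apply le_of_pow_le hN (norm_nonneg _)
  refine le_trans ?_ h3
  have h4 : 1 - 1 / (N:ℝ) ≤ Real.exp (-(1 / N)) := by
    have := Real.add_one_le_exp (-(1 / (N:ℝ))); linarith
  have h5 : (1 - 1 / (N:ℝ)) ^ N ≤ Real.exp (-(1 / N)) ^ N :=
    pow_le_pow_left₀ (by rw [sub_nonneg, div_le_one hNp]; exact hN1) h4 N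
  rw [← Real.exp_nat_mul] at h5
  have h6 : (N:ℝ) * -(1 / N) = -1 := by field_simp
  rw [h6] at h5
  have h7 : Real.exp (-1) ≤ 1 / 2 := by
    rw [Real.exp_neg, inv_eq_one_div]
    apply one_div_le_one_div_of_le (by norm_num)
    have := Real.add_one_le_exp (1:ℝ)
    linarith
  linarith

/-- roots of unity in long convex sets -/
theorem root_mem {K : Set ℂ} (hK : Convex ℝ K) (hr : closedBall (0:ℂ) (1 / 2) ⊆ K) {N : ℕ} (hN : 13 ≤ N)
    {z : ℂ} (hz : z ∈ K) (hzn : 1 + 13 / (N:ℝ) ≤ ‖z‖) : ∃ ω ∈ K, ω ^ N = 1 := by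
  have hN0 : N ≠ 0 := by omega
  have hNp : (0:ℝ) < N := by positivity
  have hN13 : (13:ℝ) ≤ N := by exact_mod_cast hN
  have hpi := Real.pi_pos
  have hpi2 := Real.pi_lt_d2
  set k : ℤ := round (N * z.arg / (2 * Real.pi)) with hk
  set β : ℝ := 2 * Real.pi * k / N with hβ
  have hround : |N * z.arg / (2 * Real.pi) - k| ≤ 1 / 2 := abs_sub_round _
  have hα : |z.arg - β| ≤ Real.pi / N := by
    have e : z.arg - β = (2 * Real.pi / N) * (N * z.arg / (2 * Real.pi) - k) := by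
      rw [hβ]; field_simp
    rw [e, abs_mul, abs_of_pos (by positivity)]
    calc 2 * Real.pi / N * |N * z.arg / (2 * Real.pi) - k| ≤ 2 * Real.pi / N * (1 / 2) :=
          mul_le_mul_of_nonneg_left hround (by positivity)
      _ = Real.pi / N := by ring
  have hrot : Complex.exp (β * Complex.I) ^ N = 1 := by
    rw [← Complex.exp_nat_mul]
    rw [Complex.exp_eq_one_iff]
    refine ⟨k, ?_⟩
    rw [hβ]
    push_cast
    have : (N:ℂ) ≠ 0 := by exact_mod_cast hN0
    field_simp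
  refine ⟨Complex.exp (β * Complex.I), ?_, hrot⟩
  set ω := Complex.exp (β * Complex.I) with hω
  set σ := ‖z‖ with hσ
  have h13 : (0:ℝ) < 13 / N := by positivity
  have hσ1 : 1 < σ := by linarith
  have hσ0 : 0 < σ := by linarith
  have hzpol : z = σ * Complex.exp (z.arg * Complex.I) := (Complex.norm_mul_exp_arg_mul_I z).symm
  have hd : ‖ω - (1 / σ : ℝ) • z‖ ≤ Real.pi / N := by
    have e : (1 / σ : ℝ) • z = Complex.exp (z.arg * Complex.I) := by
      have : (1 / σ : ℝ) • z = ((1 / σ : ℝ) : ℂ) * z := Complex.real_smul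
      rw [this]
      calc ((1 / σ : ℝ) : ℂ) * z = ((1 / σ : ℝ) : ℂ) * (σ * Complex.exp (z.arg * Complex.I)) := by rw [← hzpol]
        _ = ((1 / σ * σ : ℝ) : ℂ) * Complex.exp (z.arg * Complex.I) := by push_cast; ring
        _ = _ := by
          have : 1 / σ * σ = 1 := by field_simp
          rw [this]; simp
    rw [e, norm_sub_rev]
    exact (norm_exp_sub _ _).trans hα
  have ht : 2 * Real.pi / N ≤ 1 - 1 / σ := by
    have h1 : 1 / σ ≤ 1 / (1 + 13 / N) := one_div_le_one_div_of_le (by positivity) hzn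
    have h2 : 1 / (1 + 13 / (N:ℝ)) = N / (N + 13) := by field_simp
    rw [h2] at h1
    have h3 : 2 * Real.pi / N ≤ 1 - N / (N + 13) := by
      rw [le_sub_iff_add_le, div_add_div _ _ hNp.ne' (by positivity), div_le_one (by positivity)]
      nlinarith
    linarith
  have ht0 : 0 < 1 - 1 / σ := lt_of_lt_of_le (by positivity) ht
  set t := 1 - 1 / σ with htdef
  have hb : (1 / t : ℝ) • (ω - (1 / σ : ℝ) • z) ∈ K := by
    apply hr
    rw [mem_closedBall, dist_zero_right, norm_smul, Real.norm_of_nonneg (by positivity)]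
    rw [one_div, inv_mul_le_iff₀ ht0]
    refine hd.trans ?_
    have : Real.pi / N = (2 * Real.pi / N) * (1 / 2) := by ring
    rw [this]
    exact mul_le_mul_of_nonneg_right ht (by norm_num)
  have := hK hz hb (by positivity : 0 ≤ 1 / σ) ht0.le (by rw [htdef]; ring)
  rw [smul_smul, mul_one_div_cancel ht0.ne', one_smul] at this
  simpa using this

/-- the obstacle contains a large ball -/
theorem adm_inner {P : Prof} {κ δ : ℝ} (hκ0 : 0 < κ) (hκ1 : κ < 1) (hδ0 : 0 < δ) (hδ1 : δ ≤ 1 / 100)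
    (hδ2 : δ ≤ √κ * κ / 32) {N : ℕ} (hN : 13 ≤ N) (hN2 : 416 / (√κ * κ) < N) (hq : 3 ≤ P.q ^ N)
    {K : Set ℂ} (hKcl : IsClosed K) (hc : Convex ℝ K) (hi : (interior K).Nonempty)
    (hKO : K ⊆ closure (Om N P.q)) (hKL : (μH[1] : Measure ℂ) (frontier K) = ENNReal.ofReal (1 - δ) * c₁) :
    IsCompact K ∧ closedBall 0 (1 - κ) ⊆ K ∧ K ⊆ closedBall 0 (1 + 13 / N) := by
  have hN0 : N ≠ 0 := by omega
  have hNp : (0:ℝ) < N := by positivity
  have hN13 : (13:ℝ) ≤ N := by exact_mod_cast hN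
  have hq0 := P.hq0
  have hq1 := P.hq
  have hq2 := P.hq2
  have hKq : K ⊆ closedBall 0 P.q := by
    intro z hz
    rw [mem_closedBall, dist_zero_right]
    exact norm_le_of_closure hN0 hq0 (by linarith) (hKO hz)
  have hK : IsCompact K := (isCompact_closedBall (0:ℂ) P.q).of_isClosed_subset hKcl hKq
  set c := c₁.toReal with hcdef
  have hc₁ : c₁ = ENNReal.ofReal c := (ENNReal.ofReal_toReal c₁_ne_top).symm
  have hc8 : c ≤ 8 := by
    have := ENNReal.toReal_mono (by norm_num) c₁_le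
    simpa using this
  have hc0 : 0 < c := ENNReal.toReal_pos c₁_pos.ne' c₁_ne_top
  -- real form of the cut inequality
  have hcut : ∀ R h : ℝ, 0 < h → h < R → R ≤ 2 → K ⊆ closedBall 0 R → ¬ closedBall 0 h ⊆ K →
      √(R - h) * (R - h) / 2 ≤ 8 * (R - (1 - δ)) ∨ R < 1 - δ := by
    intro R h hh hhR hR2 hKR hnot
    rcases lt_or_ge R (1 - δ) with hlt | hge
    · right; exact hlt
    left
    have h1 := cut hc hK hi hh hhR hKR hnot
    have hR0 : 0 < R := hh.trans hhR
    rw [hKL, hc₁, ← ENNReal.ofReal_mul (by linarith), ← ENNReal.ofReal_mul hR0.le,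
      ← ENNReal.ofReal_add (by nlinarith) (by positivity), ← ENNReal.ofReal_add (by positivity) (by positivity),
      ENNReal.ofReal_le_ofReal_iff (by positivity)] at h1
    have h2 := gain_ge hh hhR hR2
    have h3 : (R - (1 - δ)) * c ≤ (R - (1 - δ)) * 8 := mul_le_mul_of_nonneg_left hc8 (by linarith)
    nlinarith
  -- step 1
  have hs1 : closedBall (0:ℂ) (1 / 2) ⊆ K := by
    by_contra hnot
    rcases hcut P.q (1 / 2) (by norm_num) (by linarith) (by linarith) hKq hnot with h1 | h1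
    · have h2 : (1 / 2 : ℝ) ≤ P.q - 1 / 2 := by linarith
      have h3 : (0.7:ℝ) ≤ √(P.q - 1 / 2) := by
        apply Real.le_sqrt_of_sq_le
        norm_num; linarith
      nlinarith
    · linarith
  -- step 2
  have hs2 : K ⊆ closedBall 0 (1 + 13 / N) := by
    intro z hz
    rw [mem_closedBall, dist_zero_right]
    by_contra hcon
    push Not at hcon
    obtain ⟨ω, hω, hω1⟩ := root_mem hc hs1 hN hz hcon.le
    have := (closure_Om_subset N P.q (hKO hω)).1
    rw [hω1, sub_self, norm_zero] at this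
    linarith
  refine ⟨hK, ?_, hs2⟩
  by_contra hnot
  have hR2 : 1 + 13 / (N:ℝ) ≤ 2 := by
    have : 13 / (N:ℝ) ≤ 1 := by rw [div_le_one hNp]; exact hN13
    linarith
  have h13 : 0 < 13 / (N:ℝ) := by positivity
  have hs := Real.sqrt_pos.mpr hκ0
  rcases hcut (1 + 13 / N) (1 - κ) (by linarith) (by linarith) hR2 hs2 hnot with h1 | h1
  · have h2 : κ ≤ 1 + 13 / (N:ℝ) - (1 - κ) := by linarith
    have h3 : √κ ≤ √(1 + 13 / (N:ℝ) - (1 - κ)) := Real.sqrt_le_sqrt h2
    have h4 : √κ * κ ≤ √(1 + 13 / (N:ℝ) - (1 - κ)) * (1 + 13 / (N:ℝ) - (1 - κ)) :=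
      mul_le_mul h3 h2 hκ0.le (Real.sqrt_nonneg _)
    have h5 : 8 * (13 / (N:ℝ)) < √κ * κ / 4 := by
      rw [div_lt_iff₀ (by positivity)] at hN2
      have : 8 * (13 / (N:ℝ)) = 104 / N := by ring
      rw [this, div_lt_iff₀ hNp]
      linarith
    linarith
  · linarith

end Pool.Agent.Helper533.ConvexObstacle
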