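import Mathlib

open MeasureTheory Metric Set

namespace Pool.Agent.Helper533.ConvexObstacle

/-- Bessel type function. -/
noncomputable def J (x : ℝ) : ℝ := ∫ t in (0:ℝ)..Real.pi, Real.cos (x * Real.cos t)

noncomputable def J1 (x : ℝ) : ℝ := ∫ t in (0:ℝ)..Real.pi, -(Real.cos t * Real.sin (x * Real.cos t))

noncomputable def J2 (x : ℝ) : ℝ := ∫ t in (0:ℝ)..Real.pi, -(Real.cos t ^ 2 * Real.cos (x * Real.cos t))

theorem hasDerivAt_J (x : ℝ) : HasDerivAt J (J1 x) x := by
  have h := intervalIntegral.hasDerivAt_integral_of_dominated_loc_of_deriv_le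
    (μ := volume) (a := 0) (b := Real.pi) (x₀ := x) (s := univ)
    (F := fun x t => Real.cos (x * Real.cos t))
    (F' := fun x t => -(Real.cos t * Real.sin (x * Real.cos t))) (bound := fun _ => 1)
    Filter.univ_mem
    (Filter.Eventually.of_forall fun y => (by fun_prop : Continuous fun t => Real.cos (y * Real.cos t)).aestronglyMeasurable)
    ((by fun_prop : Continuous fun t => Real.cos (x * Real.cos t)).intervalIntegrable _ _)
    ((by fun_prop : Continuous fun t => -(Real.cos t * Real.sin (x * Real.cos t))).aestronglyMeasurable)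
    (Filter.Eventually.of_forall fun t _ y _ => by
      rw [norm_neg, norm_mul, Real.norm_eq_abs, Real.norm_eq_abs]
      have h1 := Real.abs_cos_le_one t
      have h2 := Real.abs_sin_le_one (y * Real.cos t)
      have h3 := abs_nonneg (Real.cos t)
      have h4 := abs_nonneg (Real.sin (y * Real.cos t))
      nlinarith)
    (intervalIntegrable_const)
    (Filter.Eventually.of_forall fun t _ y _ => by
      have h1 : HasDerivAt (fun y => y * Real.cos t) (1 * Real.cos t) y := (hasDerivAt_id y).mul_const _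
      exact h1.cos.congr_deriv (by ring))
  exact h.2

theorem hasDerivAt_J1 (x : ℝ) : HasDerivAt J1 (J2 x) x := by
  have h := intervalIntegral.hasDerivAt_integral_of_dominated_loc_of_deriv_le
    (μ := volume) (a := 0) (b := Real.pi) (x₀ := x) (s := univ)
    (F := fun x t => -(Real.cos t * Real.sin (x * Real.cos t)))
    (F' := fun x t => -(Real.cos t ^ 2 * Real.cos (x * Real.cos t))) (bound := fun _ => 1)
    Filter.univ_mem
    (Filter.Eventually.of_forall fun y => (by fun_prop : Continuous fun t => -(Real.cos t * Real.sin (y * Real.cos t))).aestronglyMeasurable)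
    ((by fun_prop : Continuous fun t => -(Real.cos t * Real.sin (x * Real.cos t))).intervalIntegrable _ _)
    ((by fun_prop : Continuous fun t => -(Real.cos t ^ 2 * Real.cos (x * Real.cos t))).aestronglyMeasurable)
    (Filter.Eventually.of_forall fun t _ y _ => by
      rw [norm_neg, norm_mul, Real.norm_eq_abs, Real.norm_eq_abs]
      have h1 := Real.abs_cos_le_one t
      have h2 := Real.abs_cos_le_one (y * Real.cos t)
      have h3 : |Real.cos t ^ 2| ≤ 1 := by
        rw [abs_pow]
        exact pow_le_one₀ (abs_nonneg _) h1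
      have h4 := abs_nonneg (Real.cos (y * Real.cos t))
      have h5 := abs_nonneg (Real.cos t ^ 2)
      nlinarith)
    (intervalIntegrable_const)
    (Filter.Eventually.of_forall fun t _ y _ => by
      have h1 : HasDerivAt (fun y => y * Real.cos t) (1 * Real.cos t) y := (hasDerivAt_id y).mul_const _
      exact (h1.sin.const_mul (Real.cos t)).fun_neg.congr_deriv (by ring))
  exact h.2

/-- Bessel's equation. -/
theorem J_ode (x : ℝ) : x * J2 x + J1 x + x * J x = 0 := by
  have h1 : ∫ t in (0:ℝ)..Real.pi, (Real.cos t * Real.sin (x * Real.cos t) +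
      Real.sin t * (Real.cos (x * Real.cos t) * (x * (-Real.sin t)))) = 0 := by
    have := intervalIntegral.integral_eq_sub_of_hasDerivAt (a := 0) (b := Real.pi)
      (f := fun t => Real.sin t * Real.sin (x * Real.cos t))
      (f' := fun t => Real.cos t * Real.sin (x * Real.cos t) +
        Real.sin t * (Real.cos (x * Real.cos t) * (x * (-Real.sin t))))
      (fun t _ => (Real.hasDerivAt_sin t).mul (((Real.hasDerivAt_cos t).const_mul x).sin))
      ((by fun_prop : Continuous _).intervalIntegrable _ _)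
    rw [this]; simp
  unfold J J1 J2
  rw [← intervalIntegral.integral_const_mul, ← intervalIntegral.integral_const_mul,
    ← intervalIntegral.integral_add, ← intervalIntegral.integral_add]
  · rw [← neg_eq_zero, ← intervalIntegral.integral_neg]
    refine Eq.trans ?_ h1
    apply intervalIntegral.integral_congr
    intro t _
    show -(x * -(Real.cos t ^ 2 * Real.cos (x * Real.cos t)) + -(Real.cos t * Real.sin (x * Real.cos t)) +
      x * Real.cos (x * Real.cos t)) = _
    have : Real.cos t ^ 2 = 1 - Real.sin t ^ 2 := by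
      have := Real.sin_sq_add_cos_sq t; linarith
    rw [this]
    ring
  · exact (by fun_prop : Continuous _).intervalIntegrable _ _
  · exact (by fun_prop : Continuous _).intervalIntegrable _ _
  · exact (by fun_prop : Continuous _).intervalIntegrable _ _
  · exact (by fun_prop : Continuous _).intervalIntegrable _ _

theorem J_zero : J 0 = Real.pi := by
  unfold J; simp

theorem J1_bound (x : ℝ) : |J1 x| ≤ Real.pi := by
  have := intervalIntegral.norm_integral_le_of_norm_le_const (a := (0:ℝ)) (b := Real.pi) (C := 1)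
    (f := fun t => -(Real.cos t * Real.sin (x * Real.cos t))) (by
      intro t _
      rw [norm_neg, norm_mul, Real.norm_eq_abs, Real.norm_eq_abs]
      have h1 := Real.abs_cos_le_one t
      have h2 := Real.abs_sin_le_one (x * Real.cos t)
      have h3 := abs_nonneg (Real.cos t)
      have h4 := abs_nonneg (Real.sin (x * Real.cos t))
      nlinarith)
  rw [Real.norm_eq_abs, sub_zero, one_mul, abs_of_pos Real.pi_pos] at this
  exact this

/-- no common zero of `J` and `J1` on the positive axis. -/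
theorem J_J1 (x : ℝ) (hx : 0 < x) : 0 < J x ^ 2 + J1 x ^ 2 := by
  -- `x^2 (J^2 + J1^2)` is monotone
  have hmono : ∀ a b : ℝ, 0 < a → a ≤ b → a ^ 2 * (J a ^ 2 + J1 a ^ 2) ≤ b ^ 2 * (J b ^ 2 + J1 b ^ 2) := by
    intro a b ha hab
    have hm : MonotoneOn (fun x => x ^ 2 * (J x ^ 2 + J1 x ^ 2)) (Icc a b) := by
      apply monotoneOn_of_hasDerivWithinAt_nonneg (convex_Icc a b)
        (f' := fun x => 2 * x * (J x ^ 2 + J1 x ^ 2) + x ^ 2 * (2 * J x * J1 x + 2 * J1 x * J2 x))
      · intro x _
        have h1 := ((hasDerivAt_J x).pow 2).continuousAt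
        have h2 := ((hasDerivAt_J1 x).pow 2).continuousAt
        exact (((continuous_pow 2).continuousAt).mul (h1.add h2)).continuousWithinAt
      · intro x _
        have h1 := (hasDerivAt_J x).pow 2
        have h2 := (hasDerivAt_J1 x).pow 2
        have h3 := (hasDerivAt_pow 2 x).mul (h1.add h2)
        apply HasDerivAt.hasDerivWithinAt
        refine h3.congr_deriv ?_
        simp only [Pi.add_apply, Pi.pow_apply]
        push_cast
        ring
      · intro x hx
        rw [interior_Icc] at hx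
        have hx0 : 0 < x := ha.trans hx.1
        have hode := J_ode x
        have h4 : x ^ 2 * (2 * J x * J1 x + 2 * J1 x * J2 x) = 2 * x * J1 x * (x * J2 x + x * J x) := by ring
        have h5 : x * J2 x + x * J x = - J1 x := by linarith
        rw [h4, h5]
        have : 2 * x * (J x ^ 2 + J1 x ^ 2) + 2 * x * J1 x * -J1 x = 2 * x * J x ^ 2 := by ring
        rw [this]
        positivity
    exact hm (left_mem_Icc.mpr hab) (right_mem_Icc.mpr hab) hab
  have hc : ContinuousAt J 0 := (hasDerivAt_J 0).continuousAt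
  have h0 : (0:ℝ) < J 0 := by rw [J_zero]; exact Real.pi_pos
  have h1 := hc.eventually (lt_mem_nhds h0)
  rw [Metric.eventually_nhds_iff] at h1
  obtain ⟨ε, hε, h2⟩ := h1
  set a := min (ε / 2) x with ha
  have ha0 : 0 < a := by positivity
  have hJa : 0 < J a := by
    apply h2
    rw [Real.dist_eq, sub_zero, abs_of_pos ha0]
    exact lt_of_le_of_lt (min_le_left _ _) (by linarith)
  have h3 := hmono a x ha0 (min_le_right _ _)
  have h4 : 0 < a ^ 2 * (J a ^ 2 + J1 a ^ 2) := by positivity
  by_contra hcon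
  push Not at hcon
  have h5 : x ^ 2 * (J x ^ 2 + J1 x ^ 2) ≤ 0 := by
    have := sq_nonneg x
    exact mul_nonpos_of_nonneg_of_nonpos this hcon
  linarith

/-- Sturm comparison: `J` has a zero in every `[X, X + π]`. -/
theorem J_zero_exists (X : ℝ) (hX : 0 < X) : ∃ x ∈ Icc X (X + Real.pi), J x = 0 := by
  by_contra hcon
  push Not at hcon
  have hpi := Real.pi_pos
  have hcont : Continuous J := continuous_iff_continuousAt.mpr fun x => (hasDerivAt_J x).continuousAt
  -- constant sign
  obtain ⟨σ, hσ, hs⟩ : ∃ σ : ℝ, σ ^ 2 = 1 ∧ ∀ x ∈ Icc X (X + Real.pi), 0 < σ * J x := by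
    rcases lt_or_gt_of_ne (hcon X (left_mem_Icc.mpr (by linarith))) with h | h
    · refine ⟨-1, by norm_num, fun x hx => ?_⟩
      by_contra hneg
      have h1 : 0 < J x := lt_of_le_of_ne (by linarith) (hcon x hx).symm
      have h2 := intermediate_value_Icc hx.1 hcont.continuousOn
      obtain ⟨y, hy, hy0⟩ := h2 (show (0:ℝ) ∈ Icc (J X) (J x) from ⟨h.le, h1.le⟩)
      exact hcon y ⟨hy.1, hy.2.trans hx.2⟩ hy0
    · refine ⟨1, by norm_num, fun x hx => ?_⟩
      by_contra hneg
      have h1 : J x < 0 := lt_of_le_of_ne (by linarith) (hcon x hx)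
      have h2 := intermediate_value_Icc' hx.1 hcont.continuousOn
      obtain ⟨y, hy, hy0⟩ := h2 (show (0:ℝ) ∈ Icc (J x) (J X) from ⟨h1.le, h.le⟩)
      exact hcon y ⟨hy.1, hy.2.trans hx.2⟩ hy0
  set G : ℝ → ℝ := fun x => √x * ((J x / (2 * x) + J1 x) * Real.sin (x - X) - J x * Real.cos (x - X)) with hG
  have hGd : ∀ x, 0 < x → HasDerivAt G (-(√x * (J x * Real.sin (x - X)) / (4 * x ^ 2))) x := by
    intro x hx
    have hsx : 0 < √x := Real.sqrt_pos.mpr hx
    have h1 : HasDerivAt (fun x => √x) (1 / (2 * √x)) x := Real.hasDerivAt_sqrt hx.ne'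
    have h2 : HasDerivAt (fun x : ℝ => 2 * x) (2 * 1) x := (hasDerivAt_id x).const_mul 2
    have h3 := (hasDerivAt_J x).div h2 (by positivity)
    have h4 : HasDerivAt (fun x => Real.sin (x - X)) (Real.cos (x - X) * 1) x :=
      ((hasDerivAt_id x).sub_const X).sin
    have h5 : HasDerivAt (fun x => Real.cos (x - X)) (-Real.sin (x - X) * 1) x :=
      ((hasDerivAt_id x).sub_const X).cos
    have h6 := h1.mul (((h3.add (hasDerivAt_J1 x)).mul h4).sub ((hasDerivAt_J x).mul h5))
    have hJ2 : J2 x = -(J1 x / x) - J x := by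
      have := J_ode x
      field_simp
      linarith
    rw [hJ2] at h6
    have hsq : √x * √x = x := Real.mul_self_sqrt hx.le
    refine h6.congr_deriv ?_
    simp only [Pi.add_apply, Pi.div_apply, Pi.sub_apply, Pi.mul_apply]
    have e1 : 1 / (2 * √x) = √x / (2 * x) := by
      field_simp
      nlinarith
    rw [e1]
    field_simp
    ring
  have hanti : AntitoneOn (fun x => σ * G x) (Icc X (X + Real.pi)) := by
    apply antitoneOn_of_hasDerivWithinAt_nonpos (convex_Icc _ _)
      (f' := fun x => σ * (-(√x * (J x * Real.sin (x - X)) / (4 * x ^ 2))))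
    · intro x hx
      exact ((hGd x (hX.trans_le hx.1)).const_mul σ).continuousAt.continuousWithinAt
    · intro x hx
      rw [interior_Icc] at hx
      exact ((hGd x (hX.trans hx.1)).const_mul σ).hasDerivWithinAt
    · intro x hx
      rw [interior_Icc] at hx
      have hx0 : 0 < x := hX.trans hx.1
      have h1 := hs x ⟨hx.1.le, hx.2.le⟩
      have h2 : 0 < Real.sin (x - X) := Real.sin_pos_of_pos_of_lt_pi (by linarith [hx.1]) (by linarith [hx.2])
      have h3 : σ * (-(√x * (J x * Real.sin (x - X)) / (4 * x ^ 2))) =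
        -((σ * J x) * (√x * Real.sin (x - X) / (4 * x ^ 2))) := by ring
      rw [h3]
      have : 0 < (σ * J x) * (√x * Real.sin (x - X) / (4 * x ^ 2)) := by positivity
      linarith
  have h1 := hanti (left_mem_Icc.mpr (by linarith)) (right_mem_Icc.mpr (by linarith)) (by linarith : X ≤ X + Real.pi)
  have h2 : σ * G X = -(√X * (σ * J X)) := by
    simp only [hG, sub_self, Real.sin_zero, Real.cos_zero]; ring
  have h3 : σ * G (X + Real.pi) = √(X + Real.pi) * (σ * J (X + Real.pi)) := by
    simp only [hG, add_sub_cancel_left, Real.sin_pi, Real.cos_pi]; ring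
  simp only [h2, h3] at h1
  have h4 := hs X (left_mem_Icc.mpr (by linarith))
  have h5 := hs (X + Real.pi) (right_mem_Icc.mpr (by linarith))
  have h6 : 0 < √X * (σ * J X) := mul_pos (Real.sqrt_pos.mpr hX) h4
  have h7 : 0 < √(X + Real.pi) * (σ * J (X + Real.pi)) := mul_pos (Real.sqrt_pos.mpr (by linarith)) h5
  linarith

theorem J_cont : Continuous J := continuous_iff_continuousAt.mpr fun x => (hasDerivAt_J x).continuousAt

theorem J1_cont : Continuous J1 := continuous_iff_continuousAt.mpr fun x => (hasDerivAt_J1 x).continuousAt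

theorem J_lip (x y : ℝ) : |J x - J y| ≤ Real.pi * |x - y| := by
  have := Convex.norm_image_sub_le_of_norm_hasDerivWithin_le (f := J) (f' := J1) (C := Real.pi) (s := univ)
    (fun z _ => (hasDerivAt_J z).hasDerivWithinAt) (fun z _ => by rw [Real.norm_eq_abs]; exact J1_bound z)
    convex_univ (mem_univ y) (mem_univ x)
  simpa [Real.norm_eq_abs] using this

/-- near a zero `J` is comparable to the distance to the zero. -/
theorem J_near_zero (x₀ : ℝ) (h0 : 0 < x₀) (hz : J x₀ = 0) :
    ∃ c > 0, ∃ δ > 0, ∀ x, |x - x₀| < δ → c * |x - x₀| ≤ |J x| := by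
  have h1 : J1 x₀ ≠ 0 := by
    have := J_J1 x₀ h0
    rw [hz] at this
    intro h
    rw [h] at this
    norm_num at this
  have h2 := (hasDerivAt_J x₀).isLittleO
  have h3 : 0 < |J1 x₀| / 2 := by positivity
  have h4 := h2.def h3
  rw [Metric.eventually_nhds_iff] at h4
  obtain ⟨δ, hδ, h5⟩ := h4
  refine ⟨|J1 x₀| / 2, h3, δ, hδ, fun x hx => ?_⟩
  have h6 := h5 (y := x) (by rw [Real.dist_eq]; exact hx)
  rw [hz, sub_zero, smul_eq_mul, Real.norm_eq_abs, Real.norm_eq_abs] at h6
  have h7 : |(x - x₀) * J1 x₀| - |J x| ≤ |J x - (x - x₀) * J1 x₀| := by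
    have := abs_sub_abs_le_abs_sub ((x - x₀) * J1 x₀) (J x)
    rw [abs_sub_comm ((x - x₀) * J1 x₀)] at this
    exact this
  rw [abs_mul] at h7
  nlinarith

/-- Consecutive zeros of `J` with small ratio, with two sided bounds between them. -/
theorem J_zeros : ∃ (j j' : ℝ) (σ : ℝ), 1 < j ∧ j < j' ∧ j' ≤ 1.01 * j ∧ (σ = 1 ∨ σ = -1) ∧
    J j = 0 ∧ J j' = 0 ∧ ∃ c > 0, ∀ x ∈ Icc j j', c * min (x - j) (j' - x) ≤ σ * J x := by
  have hpi := Real.pi_lt_four
  have hpi0 := Real.pi_pos
  obtain ⟨j, hj, hJj⟩ := J_zero_exists 1000 (by norm_num)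
  have hj1000 : 1000 ≤ j := hj.1
  obtain ⟨y, hy, hJy⟩ := J_zero_exists (j + 1) (by linarith)
  obtain ⟨c₁, hc₁, δ₁, hδ₁, h1⟩ := J_near_zero j (by linarith) hJj
  set Z : Set ℝ := {x | j + min δ₁ 1 / 2 ≤ x ∧ J x = 0} with hZ
  have hyZ : y ∈ Z := by
    refine ⟨?_, hJy⟩
    have : min δ₁ 1 ≤ 1 := min_le_right _ _
    linarith [hy.1]
  have hZc : IsClosed Z := by
    have : Z = Ici (j + min δ₁ 1 / 2) ∩ J ⁻¹' {0} := by
      ext x; simp [hZ]
    rw [this]
    exact isClosed_Ici.inter (isClosed_singleton.preimage J_cont)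
  have hZb : BddBelow Z := ⟨j + min δ₁ 1 / 2, fun x hx => hx.1⟩
  set j' := sInf Z with hj'
  have hj'Z : j' ∈ Z := hZc.csInf_mem ⟨y, hyZ⟩ hZb
  have hm0 : 0 < min δ₁ 1 := by positivity
  have hjj' : j < j' := by linarith [hj'Z.1]
  have hj'y : j' ≤ y := csInf_le hZb hyZ
  obtain ⟨c₂, hc₂, δ₂, hδ₂, h2⟩ := J_near_zero j' (by linarith) hj'Z.2
  -- no zero strictly between
  have hnz : ∀ x ∈ Ioo j j', J x ≠ 0 := by
    intro x hx h0
    by_cases hxd : x < j + min δ₁ 1 / 2
    · have h3 := h1 x (by
        rw [abs_of_pos (by linarith [hx.1])]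
        have : min δ₁ 1 ≤ δ₁ := min_le_left _ _
        linarith)
      rw [h0, abs_zero, abs_of_pos (by linarith [hx.1])] at h3
      have : 0 < c₁ * (x - j) := mul_pos hc₁ (by linarith [hx.1])
      linarith
    · have : x ∈ Z := ⟨not_lt.mp hxd, h0⟩
      have := csInf_le hZb this
      linarith [hx.2]
  -- constant sign
  obtain ⟨σ, hσ, hs⟩ : ∃ σ : ℝ, (σ = 1 ∨ σ = -1) ∧ ∀ x ∈ Ioo j j', 0 < σ * J x := by
    set m := (j + j') / 2 with hm
    have hmI : m ∈ Ioo j j' := ⟨by rw [hm]; linarith, by rw [hm]; linarith⟩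
    rcases lt_or_gt_of_ne (hnz m hmI) with h | h
    · refine ⟨-1, Or.inr rfl, fun x hx => ?_⟩
      by_contra hneg
      have h1 : 0 < J x := lt_of_le_of_ne (by linarith) (hnz x hx).symm
      have h2 := intermediate_value_uIcc (a := m) (b := x) (f := J) J_cont.continuousOn
      obtain ⟨y, hy, hy0⟩ := h2 (show (0:ℝ) ∈ uIcc (J m) (J x) from by
        rw [uIcc_of_le (by linarith)]; exact ⟨h.le, h1.le⟩)
      have hyI : y ∈ Ioo j j' := (convex_Ioo j j').ordConnected.uIcc_subset hmI hx hy
      exact hnz y hyI hy0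
    · refine ⟨1, Or.inl rfl, fun x hx => ?_⟩
      by_contra hneg
      have h1 : J x < 0 := lt_of_le_of_ne (by linarith) (hnz x hx)
      have h2 := intermediate_value_uIcc (a := m) (b := x) (f := J) J_cont.continuousOn
      obtain ⟨y, hy, hy0⟩ := h2 (show (0:ℝ) ∈ uIcc (J m) (J x) from by
        rw [uIcc_of_ge (by linarith)]; exact ⟨h1.le, h.le⟩)
      have hyI : y ∈ Ioo j j' := (convex_Ioo j j').ordConnected.uIcc_subset hmI hx hy
      exact hnz y hyI hy0
  refine ⟨j, j', σ, by linarith, hjj', ?_, hσ, hJj, hj'Z.2, ?_⟩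
  · have : y ≤ j + 1 + Real.pi := hy.2
    linarith
  have habs : ∀ x ∈ Icc j j', σ * J x = |J x| := by
    intro x hx
    have hnn : 0 ≤ σ * J x := by
      rcases eq_or_lt_of_le hx.1 with h | h
      · rw [← h, hJj, mul_zero]
      rcases eq_or_lt_of_le hx.2 with h' | h'
      · rw [h', hj'Z.2, mul_zero]
      exact (hs x ⟨h, h'⟩).le
    rw [← abs_of_nonneg hnn, abs_mul]
    rcases hσ with h | h <;> rw [h] <;> simp
  -- middle part by compactness
  set δ := min (min δ₁ δ₂) ((j' - j) / 2) / 2 with hδ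
  have hδ0 : 0 < δ := by
    rw [hδ]
    have : 0 < (j' - j) / 2 := by linarith
    positivity
  have hδa : 2 * δ ≤ δ₁ := by
    rw [hδ]
    have : min (min δ₁ δ₂) ((j' - j) / 2) ≤ δ₁ := (min_le_left _ _).trans (min_le_left _ _)
    linarith
  have hδb : 2 * δ ≤ δ₂ := by
    rw [hδ]
    have : min (min δ₁ δ₂) ((j' - j) / 2) ≤ δ₂ := (min_le_left _ _).trans (min_le_right _ _)
    linarith
  have hδc : 2 * δ ≤ (j' - j) / 2 := by
    rw [hδ]
    have : min (min δ₁ δ₂) ((j' - j) / 2) ≤ (j' - j) / 2 := min_le_right _ _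
    linarith
  obtain ⟨x₀, hx₀, hmin⟩ := (isCompact_Icc (a := j + δ) (b := j' - δ)).exists_isMinOn
    ⟨j + δ, left_mem_Icc.mpr (by linarith)⟩ (J_cont.abs.continuousOn)
  have hx₀' : x₀ ∈ Ioo j j' := ⟨by linarith [hx₀.1], by linarith [hx₀.2]⟩
  have hmpos : 0 < |J x₀| := abs_pos.mpr (hnz x₀ hx₀')
  set c := min (min c₁ c₂) (|J x₀| / (j' - j)) with hc
  have hc0 : 0 < c := by
    rw [hc]
    have : 0 < j' - j := by linarith
    positivity
  refine ⟨c, hc0, fun x hx => ?_⟩
  rw [habs x hx]
  have hmn : 0 ≤ min (x - j) (j' - x) := le_min (by linarith [hx.1]) (by linarith [hx.2])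
  by_cases hA : x < j + δ
  · have h3 := h1 x (by rw [abs_of_nonneg (by linarith [hx.1])]; linarith)
    rw [abs_of_nonneg (by linarith [hx.1] : 0 ≤ x - j)] at h3
    calc c * min (x - j) (j' - x) ≤ c₁ * (x - j) := by
          apply mul_le_mul ((min_le_left _ _).trans (min_le_left _ _)) (min_le_left _ _) hmn hc₁.le
      _ ≤ _ := h3
  by_cases hB : j' - δ < x
  · have h3 := h2 x (by rw [abs_sub_comm, abs_of_nonneg (by linarith [hx.2])]; linarith)
    rw [abs_sub_comm, abs_of_nonneg (by linarith [hx.2] : 0 ≤ j' - x)] at h3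
    calc c * min (x - j) (j' - x) ≤ c₂ * (j' - x) := by
          apply mul_le_mul ((min_le_left _ _).trans (min_le_right _ _)) (min_le_right _ _) hmn hc₂.le
      _ ≤ _ := h3
  · push Not at hA hB
    have h3 : |J x₀| ≤ |J x| := hmin ⟨hA, hB⟩
    calc c * min (x - j) (j' - x) ≤ |J x₀| / (j' - j) * (j' - j) := by
          apply mul_le_mul (min_le_right _ _) _ hmn (by
            have : 0 < j' - j := by linarith
            positivity)
          exact (min_le_left _ _).trans (by linarith [hx.2])
      _ = |J x₀| := by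
          have : j' - j ≠ 0 := by linarith
          field_simp
      _ ≤ _ := h3

end Pool.Agent.Helper533.ConvexObstacle
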