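import Mathlib

open MeasureTheory Metric Set Filter
open scoped Pointwise Topology

namespace Pool.Agent.Helper533.ConvexObstacle

open TopologicalSpace in
/-- sequential compactness for the Hausdorff distance -/
theorem hausdorff_subseq (K : ℕ → Set ℂ) (R : ℝ) (hcl : ∀ n, IsClosed (K n)) (hne : ∀ n, (K n).Nonempty)
    (hR : ∀ n, K n ⊆ closedBall 0 R) :
    ∃ K' : Set ℂ, IsCompact K' ∧ ∃ φ : ℕ → ℕ, StrictMono φ ∧
      (∀ ε > 0, ∀ᶠ n in atTop, (∀ x ∈ K (φ n), ∃ y ∈ K', dist x y < ε) ∧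
        (∀ y ∈ K', ∃ x ∈ K (φ n), dist x y < ε)) := by
  let X := closedBall (0:ℂ) R
  have hX : CompactSpace X := isCompact_iff_compactSpace.mp (isCompact_closedBall 0 R)
  let k : ℕ → NonemptyCompacts X := fun n =>
    ⟨⟨Subtype.val ⁻¹' K n, ((hcl n).preimage continuous_subtype_val).isCompact⟩, by
      obtain ⟨x, hx⟩ := hne n
      exact ⟨⟨x, hR n hx⟩, hx⟩⟩
  obtain ⟨k', φ, hφ, hlim⟩ := CompactSpace.tendsto_subseq k
  refine ⟨Subtype.val '' (k' : Set X), k'.isCompact.image continuous_subtype_val, φ, hφ, ?_⟩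
  intro ε hε
  have h1 := (Metric.tendsto_nhds.mp hlim) ε hε
  filter_upwards [h1] with n hn
  have hd : hausdorffDist ((k (φ n) : NonemptyCompacts X) : Set X) (k' : Set X) < ε := hn
  have hfin : hausdorffEDist ((k (φ n) : NonemptyCompacts X) : Set X) (k' : Set X) ≠ ⊤ :=
    hausdorffEDist_ne_top_of_nonempty_of_bounded (k (φ n)).nonempty k'.nonempty
      (k (φ n)).isCompact.isBounded k'.isCompact.isBounded
  constructor
  · intro x hx
    obtain ⟨y, hy, hxy⟩ := exists_dist_lt_of_hausdorffDist_lt (x := (⟨x, hR _ hx⟩ : X))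
      (show _ ∈ ((k (φ n) : NonemptyCompacts X) : Set X) from hx) hd hfin
    exact ⟨y.1, mem_image_of_mem _ hy, hxy⟩
  · rintro _ ⟨y, hy, rfl⟩
    obtain ⟨x, hx, hxy⟩ := exists_dist_lt_of_hausdorffDist_lt' hy hd hfin
    exact ⟨x.1, hx, hxy⟩

theorem shrink_mem {K : Set ℂ} (hc : Convex ℝ K) {r : ℝ} (hr : closedBall (0:ℂ) r ⊆ K) {η ε : ℝ} (hη : 0 < η) (hη1 : η < 1)
    (hε : ε ≤ η * r) (hr0 : 0 < r) {x y : ℂ} (hx : x ∈ K) (hxy : dist x y < ε) : (1 - η) • y ∈ K := by
  have h1η : 0 < 1 - η := by linarith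
  have hb : ((1 - η) / η) • (y - x) ∈ K := by
    apply hr
    rw [mem_closedBall, dist_zero_right, norm_smul, Real.norm_of_nonneg (by positivity), ← dist_eq_norm, dist_comm]
    have h0 : 0 ≤ dist x y := dist_nonneg
    calc (1 - η) / η * dist x y ≤ 1 / η * (η * r) := by
          apply mul_le_mul
          · gcongr; linarith
          · linarith
          · exact h0
          · positivity
      _ = r := by field_simp
  have := hc hx hb h1η.le hη.le (by ring)
  have e : (1 - η) • x + η • ((1 - η) / η) • (y - x) = (1 - η) • y := by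
    rw [smul_smul]
    have : η * ((1 - η) / η) = 1 - η := by field_simp
    rw [this, ← smul_add]
    congr 1
    abel
  rwa [e] at this

/-- **Blaschke selection.** -/
theorem blaschke (K : ℕ → Set ℂ) (r R : ℝ) (hr0 : 0 < r) (hc : ∀ n, Convex ℝ (K n)) (hcl : ∀ n, IsClosed (K n))
    (hr : ∀ n, closedBall 0 r ⊆ K n) (hR : ∀ n, K n ⊆ closedBall 0 R) (C : Set ℂ) (hC : IsClosed C)
    (hKC : ∀ n, K n ⊆ C) :
    ∃ K' : Set ℂ, IsCompact K' ∧ Convex ℝ K' ∧ closedBall 0 r ⊆ K' ∧ K' ⊆ C ∧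
      ∃ φ : ℕ → ℕ, StrictMono φ ∧
      (∀ η : ℝ, 0 < η → η < 1 → ∀ᶠ n in atTop, (1 - η) • K' ⊆ K (φ n) ∧ (1 - η) • K (φ n) ⊆ K') := by
  have hne : ∀ n, (K n).Nonempty := fun n => ⟨0, hr n (mem_closedBall_self hr0.le)⟩
  obtain ⟨K', hK', φ, hφ, happ⟩ := hausdorff_subseq K R hcl hne hR
  have hmem : ∀ z : ℂ, (∀ ε > 0, ∃ y ∈ K', dist z y < ε) → z ∈ K' := by
    intro z hz
    have : z ∈ closure K' := Metric.mem_closure_iff.mpr hz
    rwa [hK'.isClosed.closure_eq] at this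
  have hconv : Convex ℝ K' := by
    intro x hx y hy a b ha hb hab
    apply hmem
    intro ε hε
    obtain ⟨n, hn1, hn2⟩ := (happ (ε / 2) (by positivity)).exists
    obtain ⟨x', hx', hxx⟩ := hn2 x hx
    obtain ⟨y', hy', hyy⟩ := hn2 y hy
    obtain ⟨w, hw, hww⟩ := hn1 _ (hc _ hx' hy' ha hb hab)
    refine ⟨w, hw, ?_⟩
    have h1 : dist (a • x + b • y) (a • x' + b • y') ≤ ε / 2 := by
      rw [dist_eq_norm]
      have e : a • x + b • y - (a • x' + b • y') = a • (x - x') + b • (y - y') := by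
        rw [smul_sub, smul_sub]; abel
      rw [e]
      refine (norm_add_le _ _).trans ?_
      rw [norm_smul, norm_smul, Real.norm_of_nonneg ha, Real.norm_of_nonneg hb, ← dist_eq_norm, ← dist_eq_norm,
        dist_comm x, dist_comm y]
      nlinarith
    have := dist_triangle (a • x + b • y) (a • x' + b • y') w
    linarith
  have hrK' : closedBall 0 r ⊆ K' := by
    intro z hz
    apply hmem
    intro ε hε
    obtain ⟨n, hn1, -⟩ := (happ ε hε).exists
    exact hn1 z (hr _ hz)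
  refine ⟨K', hK', hconv, hrK', ?_, φ, hφ, ?_⟩
  · intro z hz
    have : z ∈ closure C := by
      rw [Metric.mem_closure_iff]
      intro ε hε
      obtain ⟨n, -, hn2⟩ := (happ ε hε).exists
      obtain ⟨x, hx, hxz⟩ := hn2 z hz
      exact ⟨x, hKC _ hx, by rw [dist_comm]; exact hxz⟩
    rwa [hC.closure_eq] at this
  · intro η hη hη1
    filter_upwards [happ (η * r) (by positivity)] with n hn
    constructor
    · rintro _ ⟨y, hy, rfl⟩
      obtain ⟨x, hx, hxy⟩ := hn.2 y hy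
      exact shrink_mem (hc _) (hr _) hη hη1 (le_refl _) hr0 hx hxy
    · rintro _ ⟨x, hx, rfl⟩
      obtain ⟨y, hy, hxy⟩ := hn.1 x hx
      rw [dist_comm] at hxy
      exact shrink_mem hconv hrK' hη hη1 (le_refl _) hr0 hy hxy

end Pool.Agent.Helper533.ConvexObstacle
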