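import Pool.Agent.Helper533.ConvexObstacle.Perim

open MeasureTheory Metric Set
open scoped Pointwise ENNReal

namespace Pool.Agent.Helper533.ConvexObstacle

theorem proj_lower {A : Set ℂ} {f : ℂ → ℝ} (hf : LipschitzWith 1 f) {a b : ℝ} (h : Ioo a b ⊆ f '' A) :
    ENNReal.ofReal (b - a) ≤ (μH[1] : Measure ℂ) A := by
  calc ENNReal.ofReal (b - a) = volume (Ioo a b) := Real.volume_Ioo.symm
    _ ≤ volume (f '' A) := measure_mono h
    _ = μH[1] (f '' A) := by rw [hausdorffMeasure_real]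
    _ ≤ ((1:NNReal) : ℝ≥0∞)^(1:ℝ) * μH[1] A := hf.hausdorffMeasure_image_le zero_le_one _
    _ = μH[1] A := by simp

theorem c₁_pos : 0 < c₁ := by
  have h1 : ENNReal.ofReal (1 - (-1)) ≤ c₁ := by
    apply proj_lower (f := Complex.re)
    · apply LipschitzWith.of_dist_le_mul
      intro x y
      rw [NNReal.coe_one, one_mul, Real.dist_eq, dist_eq_norm, ← Complex.sub_re]
      exact Complex.abs_re_le_norm _
    · intro x hx
      refine ⟨⟨x, √(1-x^2)⟩, ?_, rfl⟩
      rw [mem_sphere_zero_iff_norm, ← sq_eq_sq₀ (norm_nonneg _) zero_le_one, ← Complex.normSq_eq_norm_sq,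
        Complex.normSq_mk, Real.mul_self_sqrt]
      · ring
      · nlinarith [hx.1, hx.2]
  refine lt_of_lt_of_le ?_ h1
  rw [ENNReal.ofReal_pos]; norm_num

theorem c₁_le : c₁ ≤ 8 := by
  set S : Set ℂ := Icc (-1) 1 ×ℂ Icc (-1) 1 with hS
  have hSc : IsCompact S := isCompact_Icc.reProdIm isCompact_Icc
  have hsub : closedBall (0:ℂ) 1 ⊆ S := by
    intro z hz
    rw [mem_closedBall, dist_zero_right] at hz
    rw [hS, Complex.mem_reProdIm]
    have h1 := (Complex.abs_re_le_norm z).trans hz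
    have h2 := (Complex.abs_im_le_norm z).trans hz
    exact ⟨abs_le.mp h1, abs_le.mp h2⟩
  have h1 := perim_mono (convex_closedBall (0:ℂ) 1) (isCompact_closedBall 0 1)
    (by rw [interior_closedBall _ one_ne_zero]; exact nonempty_ball.mpr one_pos) hSc hsub
  rw [frontier_closedBall _ one_ne_zero] at h1
  refine h1.trans ?_
  have hfr : frontier S ⊆ (segment ℝ (⟨-1, 1⟩ : ℂ) ⟨1, 1⟩ ∪ segment ℝ (⟨-1, -1⟩ : ℂ) ⟨1, -1⟩) ∪
      (segment ℝ (⟨1, -1⟩ : ℂ) ⟨1, 1⟩ ∪ segment ℝ (⟨-1, -1⟩ : ℂ) ⟨-1, 1⟩) := by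
    rw [hS, Complex.frontier_reProdIm, closure_Icc, frontier_Icc (by norm_num)]
    intro z hz
    have key : ∀ t : ℝ, t ∈ Icc (-1:ℝ) 1 → 0 ≤ (1 - t) / 2 ∧ 0 ≤ (1 + t) / 2 := fun t ht =>
      ⟨by linarith [ht.2], by linarith [ht.1]⟩
    rcases hz with hz | hz
    · rw [Complex.mem_reProdIm] at hz
      obtain ⟨hr, him⟩ := hz
      obtain ⟨k1, k2⟩ := key _ hr
      left
      rcases him with him | him
      · right
        refine ⟨(1 - z.re) / 2, (1 + z.re) / 2, k1, k2, by ring, ?_⟩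
        apply Complex.ext
        · simp; ring
        · simp at him ⊢; rw [him]; ring
      · left
        refine ⟨(1 - z.re) / 2, (1 + z.re) / 2, k1, k2, by ring, ?_⟩
        apply Complex.ext
        · simp; ring
        · simp at him ⊢; rw [him]; ring
    · rw [Complex.mem_reProdIm] at hz
      obtain ⟨hr, him⟩ := hz
      obtain ⟨k1, k2⟩ := key _ him
      right
      rcases hr with hr | hr
      · right
        refine ⟨(1 - z.im) / 2, (1 + z.im) / 2, k1, k2, by ring, ?_⟩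
        apply Complex.ext
        · simp at hr ⊢; rw [hr]; ring
        · simp; ring
      · left
        refine ⟨(1 - z.im) / 2, (1 + z.im) / 2, k1, k2, by ring, ?_⟩
        apply Complex.ext
        · simp at hr ⊢; rw [hr]; ring
        · simp; ring
  have hseg : ∀ a b : ℂ, ‖a - b‖ = 2 → (μH[1] : Measure ℂ) (segment ℝ a b) ≤ 2 := by
    intro a b hab
    rw [hausdorffMeasure_segment, edist_dist, dist_eq_norm, hab]
    simp
  refine (measure_mono hfr).trans ((measure_union_le _ _).trans ?_)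
  have hn : ∀ z : ℂ, z.re ^ 2 + z.im ^ 2 = 4 → ‖z‖ = 2 := by
    intro z hz
    rw [← sq_eq_sq₀ (norm_nonneg _) (by norm_num), ← Complex.normSq_eq_norm_sq, Complex.normSq_apply]
    linarith
  have e : (8:ℝ≥0∞) = (2 + 2) + (2 + 2) := by norm_num
  rw [e]
  apply add_le_add
  · refine (measure_union_le _ _).trans (add_le_add (hseg _ _ (hn _ ?_)) (hseg _ _ (hn _ ?_))) <;> (simp; norm_num)
  · refine (measure_union_le _ _).trans (add_le_add (hseg _ _ (hn _ ?_)) (hseg _ _ (hn _ ?_))) <;> (simp; norm_num)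

theorem c₁_ne_top : c₁ ≠ ⊤ := ne_top_of_le_ne_top (by norm_num) c₁_le

theorem arc_aux {R h : ℝ} (hh : 0 < h) (hhR : h < R) :
    ∃ f : ℂ → ℝ, ∃ a b : ℝ, LipschitzWith 1 f ∧ b - a = √(2 * R * (R - h)) ∧
      Ioo a b ⊆ f '' {z : ℂ | ‖z‖ = R ∧ h < z.re ∧ 0 < z.im} := by
  have hR : 0 < R := hh.trans hhR
  set s : ℝ := √(R ^ 2 - h ^ 2) with hs
  have hs2 : s ^ 2 = R ^ 2 - h ^ 2 := Real.sq_sqrt (by nlinarith)
  set α := Real.arccos (h / R) with hα
  have hhR1 : h / R < 1 := by rw [div_lt_one hR]; exact hhR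
  have hhR0 : 0 < h / R := by positivity
  have hcos : Real.cos α = h / R := Real.cos_arccos (by linarith) hhR1.le
  have hsin : Real.sin α = s / R := by
    rw [hα, Real.sin_arccos, hs]
    rw [Real.sqrt_eq_iff_mul_self_eq (by nlinarith) (by positivity)]
    rw [div_mul_div_comm, Real.mul_self_sqrt (by nlinarith)]
    field_simp
  have hα0 : 0 < α := Real.arccos_pos.mpr hhR1
  have hαpi : α ≤ Real.pi / 2 := Real.arccos_le_pi_div_two.mpr hhR0.le
  have hpi := Real.pi_pos
  set d : ℂ := ⟨h - R, s⟩ with hd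
  have hdn : ‖d‖ ^ 2 = 2 * R * (R - h) := by
    rw [← Complex.normSq_eq_norm_sq, Complex.normSq_mk]
    nlinarith
  have hd0 : 0 < ‖d‖ := by
    rcases eq_or_lt_of_le (norm_nonneg d) with h0 | h0
    · rw [← h0] at hdn
      nlinarith
    · exact h0
  have hdeq : ‖d‖ = √(2 * R * (R - h)) := by
    rw [← hdn, Real.sqrt_sq (norm_nonneg _)]
  set f : ℂ → ℝ := fun z => inner ℝ d z / ‖d‖ with hf
  set γ : ℝ → ℂ := fun t => ⟨R * Real.cos t, R * Real.sin t⟩ with hγ
  have hγc : Continuous γ := by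
    have : γ = fun t => ((R * Real.cos t : ℝ) : ℂ) + ((R * Real.sin t : ℝ) : ℂ) * Complex.I := by
      ext t
      rw [hγ]
      exact (Complex.mk_eq_add_mul_I _ _)
    rw [this]
    fun_prop
  refine ⟨f, f (γ 0), f (γ α), ?_, ?_, ?_⟩
  · apply LipschitzWith.of_dist_le_mul
    intro x y
    rw [NNReal.coe_one, one_mul, Real.dist_eq, dist_eq_norm]
    have e : f x - f y = inner ℝ d (x - y) / ‖d‖ := by
      rw [hf]; simp only [inner_sub_right]; ring
    rw [e, abs_div, abs_of_pos hd0, div_le_iff₀ hd0]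
    have := abs_real_inner_le_norm d (x - y)
    linarith
  · have e : γ α - γ 0 = d := by
      apply Complex.ext
      · simp only [hγ, hd, Complex.sub_re, hcos, Real.cos_zero]; field_simp
      · simp only [hγ, hd, Complex.sub_im, hsin, Real.sin_zero]; field_simp; ring
    have e2 : f (γ α) - f (γ 0) = inner ℝ d (γ α - γ 0) / ‖d‖ := by
      rw [hf]; simp only [inner_sub_right]; ring
    rw [e2, e, real_inner_self_eq_norm_sq, ← hdeq]
    field_simp
  · have hcont : ContinuousOn (fun t => f (γ t)) (Icc 0 α) := by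
      apply Continuous.continuousOn
      have : Continuous f := by
        rw [hf]; exact (continuous_const.inner continuous_id).div_const _
      exact this.comp hγc
    have h1 := intermediate_value_Ioo hα0.le hcont
    intro y hy
    obtain ⟨t, ht, hty⟩ := h1 hy
    refine ⟨γ t, ⟨?_, ?_, ?_⟩, hty⟩
    · rw [← sq_eq_sq₀ (norm_nonneg _) hR.le, ← Complex.normSq_eq_norm_sq, Complex.normSq_mk]
      have := Real.cos_sq_add_sin_sq t
      nlinarith
    · have h2 : Real.cos α < Real.cos t := Real.cos_lt_cos_of_nonneg_of_le_pi ht.1.le (by linarith) ht.2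
      rw [hcos, div_lt_iff₀ hR] at h2
      show h < R * Real.cos t
      linarith
    · have h2 : 0 < Real.sin t := Real.sin_pos_of_pos_of_lt_pi ht.1 (by linarith [ht.2])
      show 0 < R * Real.sin t
      positivity

theorem arc_lower {R h : ℝ} (hh : 0 < h) (hhR : h < R) :
    ENNReal.ofReal (√(2 * R * (R - h))) ≤ (μH[1] : Measure ℂ) {z : ℂ | ‖z‖ = R ∧ h < z.re ∧ 0 < z.im} := by
  obtain ⟨f, a, b, h1, h2, h3⟩ := arc_aux hh hhR
  rw [← h2]
  exact proj_lower h1 h3

theorem arc_lower' {R h : ℝ} (hh : 0 < h) (hhR : h < R) :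
    ENNReal.ofReal (√(2 * R * (R - h))) ≤ (μH[1] : Measure ℂ) {z : ℂ | ‖z‖ = R ∧ h < z.re ∧ z.im < 0} := by
  obtain ⟨f, a, b, h1, h2, h3⟩ := arc_aux hh hhR
  rw [← h2]
  apply proj_lower (f := fun z => f ((starRingEnd ℂ) z))
  · apply LipschitzWith.of_dist_le_mul
    intro x y
    have h4 := h1.dist_le_mul ((starRingEnd ℂ) x) ((starRingEnd ℂ) y)
    have h5 : dist ((starRingEnd ℂ) x) ((starRingEnd ℂ) y) = dist x y := Complex.dist_conj_conj x y
    rw [h5] at h4
    exact h4
  · intro y hy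
    obtain ⟨z, ⟨hz1, hz2, hz3⟩, hz4⟩ := h3 hy
    refine ⟨(starRingEnd ℂ) z, ⟨?_, ?_, ?_⟩, ?_⟩
    · rw [RCLike.norm_conj]; exact hz1
    · simpa using hz2
    · simpa using hz3
    · simpa using hz4

theorem cut_arc {R h : ℝ} (hh : 0 < h) (hhR : h < R) :
    (μH[1] : Measure ℂ) {z : ℂ | ‖z‖ = R ∧ z.re ≤ h} + ENNReal.ofReal (2 * √(2 * R * (R - h))) ≤
      ENNReal.ofReal R * c₁ := by
  have hR : 0 < R := hh.trans hhR
  have h1 : (μH[1] : Measure ℂ) {z : ℂ | ‖z‖ = R} = ENNReal.ofReal R * c₁ := by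
    rw [← perim_ball hR, frontier_closedBall _ hR.ne']
    congr 1
    ext z
    simp
  set A := {z : ℂ | ‖z‖ = R ∧ z.re ≤ h}
  set B := {z : ℂ | ‖z‖ = R ∧ h < z.re ∧ 0 < z.im}
  set C := {z : ℂ | ‖z‖ = R ∧ h < z.re ∧ z.im < 0}
  have hBm : MeasurableSet B := by
    apply MeasurableSet.inter
    · exact (isClosed_eq continuous_norm continuous_const).measurableSet
    · exact ((isOpen_lt continuous_const Complex.continuous_re).inter
        (isOpen_lt continuous_const Complex.continuous_im)).measurableSet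
  have hCm : MeasurableSet C := by
    apply MeasurableSet.inter
    · exact (isClosed_eq continuous_norm continuous_const).measurableSet
    · exact ((isOpen_lt continuous_const Complex.continuous_re).inter
        (isOpen_lt Complex.continuous_im continuous_const)).measurableSet
  have d1 : Disjoint A B := by
    rw [Set.disjoint_left]; intro z hz hz2; exact absurd hz.2 (not_le.mpr hz2.2.1)
  have d2 : Disjoint (A ∪ B) C := by
    rw [Set.disjoint_left]
    rintro z (hz | hz) hz2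
    · exact absurd hz.2 (not_le.mpr hz2.2.1)
    · exact absurd hz.2.2 (not_lt.mpr hz2.2.2.le)
  have h2 : A ∪ B ∪ C ⊆ {z : ℂ | ‖z‖ = R} := by
    rintro z ((hz | hz) | hz)
    · exact hz.1
    · exact hz.1
    · exact hz.1
  calc (μH[1] : Measure ℂ) A + ENNReal.ofReal (2 * √(2 * R * (R - h)))
      = μH[1] A + ENNReal.ofReal (√(2 * R * (R - h))) + ENNReal.ofReal (√(2 * R * (R - h))) := by
        rw [two_mul, ENNReal.ofReal_add (Real.sqrt_nonneg _) (Real.sqrt_nonneg _), add_assoc]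
    _ ≤ μH[1] A + μH[1] B + μH[1] C := by
        gcongr
        · exact arc_lower hh hhR
        · exact arc_lower' hh hhR
    _ = μH[1] (A ∪ B ∪ C) := by
        rw [measure_union d2 hCm, measure_union d1 hBm]
    _ ≤ μH[1] {z : ℂ | ‖z‖ = R} := measure_mono h2
    _ = _ := h1

theorem cut_half {K : Set ℂ} (hc : Convex ℝ K) (hK : IsCompact K) (hi : (interior K).Nonempty)
    {R h : ℝ} (hh : 0 < h) (hhR : h < R) (hKR : K ⊆ closedBall 0 R) (hKh : ∀ z ∈ K, z.re ≤ h) :
    (μH[1] : Measure ℂ) (frontier K) + ENNReal.ofReal (2 * √(2 * R * (R - h))) ≤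
      ENNReal.ofReal R * c₁ + ENNReal.ofReal (2 * √(R ^ 2 - h ^ 2)) := by
  have hR : 0 < R := hh.trans hhR
  set S : Set ℂ := closedBall 0 R ∩ {z | z.re ≤ h} with hS
  have hSc : IsCompact S := (isCompact_closedBall 0 R).inter_right (isClosed_le Complex.continuous_re continuous_const)
  have h1 := perim_mono hc hK hi hSc (fun z hz => ⟨hKR hz, hKh z hz⟩)
  set s : ℝ := √(R ^ 2 - h ^ 2) with hs
  have hs2 : s ^ 2 = R ^ 2 - h ^ 2 := Real.sq_sqrt (by nlinarith)
  have hs0 : 0 ≤ s := Real.sqrt_nonneg _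
  have hspos : 0 < s := by
    rcases eq_or_lt_of_le hs0 with h0 | h0
    · rw [← h0] at hs2; nlinarith
    · exact h0
  have h2 : frontier S ⊆ {z : ℂ | ‖z‖ = R ∧ z.re ≤ h} ∪ segment ℝ (⟨h, -s⟩ : ℂ) ⟨h, s⟩ := by
    refine (frontier_inter_subset _ _).trans ?_
    rw [frontier_closedBall _ hR.ne', Complex.frontier_setOf_re_le,
      (isClosed_le Complex.continuous_re continuous_const).closure_eq,
      isClosed_closedBall.closure_eq]
    rintro z (⟨hz1, hz2⟩ | ⟨hz1, hz2⟩)
    · left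
      exact ⟨mem_sphere_zero_iff_norm.mp hz1, hz2⟩
    · right
      have hz3 : z.re = h := hz2
      rw [mem_closedBall, dist_zero_right] at hz1
      have hz4 : z.re ^ 2 + z.im ^ 2 ≤ R ^ 2 := by
        have := pow_le_pow_left₀ (norm_nonneg _) hz1 2
        rw [← Complex.normSq_eq_norm_sq, Complex.normSq_apply] at this
        linarith
      have hz5 : z.im ^ 2 ≤ s ^ 2 := by rw [hs2, ← hz3]; linarith
      have hz6 := abs_le_of_sq_le_sq' hz5 hs0
      refine ⟨(s - z.im) / (2 * s), (s + z.im) / (2 * s), ?_, ?_, ?_, ?_⟩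
      · apply div_nonneg <;> linarith [hz6.1, hz6.2]
      · apply div_nonneg <;> linarith [hz6.1, hz6.2]
      · field_simp; ring
      · apply Complex.ext
        · simp only [Complex.add_re, Complex.smul_re, smul_eq_mul]; rw [hz3]; field_simp; ring
        · simp only [Complex.add_im, Complex.smul_im, smul_eq_mul]; field_simp; ring
  have h3 : (μH[1] : Measure ℂ) (segment ℝ (⟨h, -s⟩ : ℂ) ⟨h, s⟩) = ENNReal.ofReal (2 * s) := by
    rw [hausdorffMeasure_segment, edist_dist, dist_eq_norm]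
    congr 1
    rw [← sq_eq_sq₀ (norm_nonneg _) (by positivity), ← Complex.normSq_eq_norm_sq, Complex.normSq_apply]
    simp
    ring
  calc (μH[1] : Measure ℂ) (frontier K) + ENNReal.ofReal (2 * √(2 * R * (R - h)))
      ≤ (μH[1] {z : ℂ | ‖z‖ = R ∧ z.re ≤ h} + ENNReal.ofReal (2 * s)) + ENNReal.ofReal (2 * √(2 * R * (R - h))) := by
        gcongr
        refine h1.trans ((measure_mono h2).trans ((measure_union_le _ _).trans ?_))
        rw [h3]
    _ = (μH[1] {z : ℂ | ‖z‖ = R ∧ z.re ≤ h} + ENNReal.ofReal (2 * √(2 * R * (R - h)))) + ENNReal.ofReal (2 * s) := by ring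
    _ ≤ _ := by
        gcongr
        exact cut_arc hh hhR

theorem perim_rot {K : Set ℂ} {ν : ℂ} (hν : ‖ν‖ = 1) :
    (μH[1] : Measure ℂ) (frontier (ν • K)) = μH[1] (frontier K) := by
  have hν0 : ν ≠ 0 := by rintro rfl; simp at hν
  have h1 : frontier (ν • K) = ν • frontier K := by
    have : (ν • K) = (Homeomorph.smulOfNeZero ν hν0) '' K := rfl
    rw [this, ← Homeomorph.image_frontier]
    rfl
  have h2 : ‖ν‖₊ = 1 := by ext; exact hν
  rw [h1, Measure.hausdorffMeasure_smul₀ zero_le_one hν0, NNReal.rpow_one, h2, one_smul]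

/-- **Cutting a convex set**: if `K` misses a point of the ball of radius `h` then it is short. -/
theorem cut {K : Set ℂ} (hc : Convex ℝ K) (hK : IsCompact K) (hi : (interior K).Nonempty)
    {R h : ℝ} (hh : 0 < h) (hhR : h < R) (hKR : K ⊆ closedBall 0 R) (hnot : ¬ closedBall 0 h ⊆ K) :
    (μH[1] : Measure ℂ) (frontier K) + ENNReal.ofReal (2 * √(2 * R * (R - h))) ≤
      ENNReal.ofReal R * c₁ + ENNReal.ofReal (2 * √(R ^ 2 - h ^ 2)) := by
  rw [not_subset] at hnot
  obtain ⟨x, hx1, hx2⟩ := hnot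
  obtain ⟨f, u, hfu, hux⟩ := geometric_hahn_banach_closed_point hc hK.isClosed hx2
  set ν := (InnerProductSpace.toDual ℝ ℂ).symm f with hν
  have hfν : ∀ w, f w = inner ℝ ν w := fun w => by
    rw [hν, InnerProductSpace.toDual_symm_apply]
  obtain ⟨y₀, hy₀⟩ := hi
  have hy₀K := interior_subset hy₀
  have hν0 : 0 < ‖ν‖ := by
    rw [norm_pos_iff]
    intro h0
    have h1 := hfu y₀ hy₀K
    rw [hfν, h0, inner_zero_left] at h1
    rw [hfν, h0, inner_zero_left] at hux
    linarith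
  rw [mem_closedBall, dist_zero_right] at hx1
  have hfx : f x ≤ ‖ν‖ * h := by
    rw [hfν]
    exact (real_inner_le_norm _ _).trans (mul_le_mul_of_nonneg_left hx1 hν0.le)
  set τ : ℂ := (starRingEnd ℂ) ν / ‖ν‖ with hτ
  have hτn : ‖τ‖ = 1 := by
    rw [hτ, norm_div, RCLike.norm_conj, Complex.norm_real, norm_norm, div_self hν0.ne']
  have hτ0 : τ ≠ 0 := by intro h0; rw [h0] at hτn; simp at hτn
  have hrot := perim_rot (K := K) hτn
  rw [← hrot]
  have hcτ : Convex ℝ (τ • K) := hc.linear_image (LinearMap.mulLeft ℝ τ)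
  apply cut_half hcτ (hK.smul τ) _ hh hhR
  · rintro _ ⟨z, hz, rfl⟩
    have := hKR hz
    rw [mem_closedBall, dist_zero_right] at this ⊢
    show ‖τ * z‖ ≤ R
    rw [norm_mul, hτn, one_mul]; exact this
  · rintro _ ⟨z, hz, rfl⟩
    show (τ * z).re ≤ h
    have h1 : (τ * z).re = f z / ‖ν‖ := by
      rw [hfν, Complex.inner, hτ, div_mul_eq_mul_div, Complex.div_ofReal_re, mul_comm z]
    rw [h1, div_le_iff₀ hν0]
    have h2 := hfu z hz
    linarith
  · rw [interior_smul₀ hτ0]
    exact ⟨τ • y₀, smul_mem_smul_set hy₀⟩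

end Pool.Agent.Helper533.ConvexObstacle
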