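import Pool.Agent.Helper533.ConvexObstacle.Adm

open MeasureTheory Metric Set Filter
open scoped Pointwise ENNReal Topology

namespace Pool.Agent.Helper533.ConvexObstacle

theorem mem_Om_of_sq {N : ℕ} {q : ℝ} (hQ : 0 ≤ q ^ N) {z : ℂ} (h1 : 1 / 4 < ‖z ^ N - 1‖ ^ 2)
    (h2 : ‖z ^ N - 1‖ ^ 2 < (q ^ N / 2) ^ 2) : z ∈ Om N q := by
  constructor
  · have := norm_nonneg (z ^ N - 1); nlinarith
  · exact lt_of_pow_lt_pow_left₀ 2 (by positivity) h2

theorem sq_of_mem_Om {N : ℕ} {q : ℝ} {z : ℂ} (h : z ∈ Om N q) :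
    1 / 4 < ‖z ^ N - 1‖ ^ 2 ∧ ‖z ^ N - 1‖ ^ 2 < (q ^ N / 2) ^ 2 := by
  have h1 := h.1; have h2 := h.2
  have := norm_nonneg (z ^ N - 1)
  constructor <;> nlinarith

theorem segment_zz (ρ ρ' θ : ℝ) (h : ρ ≤ ρ') {w : ℂ} (hw : w ∈ segment ℝ (zz ρ θ) (zz ρ' θ)) :
    ∃ s, ρ ≤ s ∧ s ≤ ρ' ∧ w = zz s θ := by
  obtain ⟨a, b, ha, hb, hab, rfl⟩ := hw
  refine ⟨a * ρ + b * ρ', ?_, ?_, ?_⟩
  · have : a = 1 - b := by linarith
    rw [this]
    nlinarith [mul_nonneg hb (sub_nonneg.mpr h)]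
  · have : b = 1 - a := by linarith
    rw [this]
    nlinarith [mul_nonneg ha (sub_nonneg.mpr h)]
  · unfold zz
    rw [Complex.real_smul, Complex.real_smul]
    push_cast
    ring

theorem joined_zero_aux {N : ℕ} (hN : N ≠ 0) {q : ℝ} (hq : 6 < q ^ N) {ρ θ : ℝ} (hρ : 0 ≤ ρ) (hρ2 : ρ ^ N ≤ 2)
    (hz : zz ρ θ ∈ Om N q) : JoinedIn (Om N q) 0 (zz ρ θ) := by
  have hNp : (0:ℝ) < N := by positivity
  have hpi := Real.pi_pos
  set φ : ℝ := N * θ with hφ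
  set k : ℤ := ⌊φ / (2 * Real.pi)⌋ with hk
  set ψ : ℝ := Real.pi + k * (2 * Real.pi) with hψ
  set θ' : ℝ := ψ / N with hθ'
  have hNθ' : N * θ' = ψ := by rw [hθ']; field_simp
  have hk1 : (k:ℝ) * (2 * Real.pi) ≤ φ := by
    have := Int.floor_le (φ / (2 * Real.pi))
    rwa [le_div_iff₀ (by positivity)] at this
  have hk2 : φ < (k + 1) * (2 * Real.pi) := by
    have := Int.lt_floor_add_one (φ / (2 * Real.pi))
    rwa [div_lt_iff₀ (by positivity)] at this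
  have habs : |φ - ψ| ≤ Real.pi := by rw [abs_le]; constructor <;> linarith
  have hcosψ : Real.cos ψ = -1 := by
    rw [hψ, Real.cos_add_int_mul_two_pi, Real.cos_pi]
  have hcos : ∀ x : ℝ, Real.cos (ψ + x) = - Real.cos x := by
    intro x
    have : ψ + x = (x + Real.pi) + k * (2 * Real.pi) := by rw [hψ]; ring
    rw [this, Real.cos_add_int_mul_two_pi, Real.cos_add_pi]
  have hρN : 0 ≤ ρ ^ N := by positivity
  -- radial part
  have h1 : JoinedIn (Om N q) 0 (zz ρ θ') := by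
    apply JoinedIn.of_segment_subset
    intro w hw
    have h00 : (0:ℂ) = zz 0 θ' := by unfold zz; simp
    rw [h00] at hw
    obtain ⟨s, hs0, hsρ, rfl⟩ := segment_zz 0 ρ θ' hρ hw
    have hsN : 0 ≤ s ^ N := by positivity
    have hsN2 : s ^ N ≤ 2 := (pow_le_pow_left₀ hs0 hsρ N).trans hρ2
    apply mem_Om_of_sq (by linarith)
    · rw [zz_sub_one_sq _ _ hs0, hNθ', hcosψ]
      nlinarith
    · rw [zz_sub_one_sq _ _ hs0, hNθ', hcosψ]
      nlinarith
  refine h1.trans ?_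
  have hcont : Continuous (fun t : ℝ => zz ρ ((1 - t) * θ' + t * θ)) := by
    unfold zz; fun_prop
  apply JoinedIn.ofLine (f := fun t : ℝ => zz ρ ((1 - t) * θ' + t * θ)) hcont.continuousOn
  · simp
  · simp
  · rintro _ ⟨t, ⟨ht0, ht1⟩, rfl⟩
    obtain ⟨k1, k2⟩ := sq_of_mem_Om hz
    rw [zz_sub_one_sq _ _ hρ] at k1 k2
    have e1 : N * ((1 - t) * θ' + t * θ) = ψ + t * (φ - ψ) := by
      have : N * ((1 - t) * θ' + t * θ) = (1 - t) * (N * θ') + t * (N * θ) := by ring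
      rw [this, hNθ']; ring
    have e2 : φ = ψ + (φ - ψ) := by ring
    have e3 : Real.cos (φ - ψ) ≤ Real.cos (t * (φ - ψ)) := by
      rw [← Real.cos_abs (φ - ψ), ← Real.cos_abs (t * (φ - ψ))]
      apply Real.cos_le_cos_of_nonneg_of_le_pi (abs_nonneg _) habs
      rw [abs_mul, abs_of_nonneg ht0]
      exact mul_le_of_le_one_left (abs_nonneg _) ht1
    have e4 : Real.cos (ψ + t * (φ - ψ)) ≤ Real.cos φ := by
      rw [hcos]
      nth_rewrite 2 [e2]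
      rw [hcos]
      linarith
    have e5 := Real.neg_one_le_cos (ψ + t * (φ - ψ))
    apply mem_Om_of_sq (by linarith)
    · simp only []
      rw [zz_sub_one_sq _ _ hρ, e1]
      have : ρ ^ N * Real.cos (ψ + t * (φ - ψ)) ≤ ρ ^ N * Real.cos φ := mul_le_mul_of_nonneg_left e4 hρN
      linarith
    · simp only []
      rw [zz_sub_one_sq _ _ hρ, e1]
      have : ρ ^ N * (-1) ≤ ρ ^ N * Real.cos (ψ + t * (φ - ψ)) := mul_le_mul_of_nonneg_left e5 hρN
      nlinarith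

theorem zero_mem_Om {N : ℕ} (hN : N ≠ 0) {q : ℝ} (hq : 6 < q ^ N) : (0:ℂ) ∈ Om N q := by
  constructor
  · rw [zero_pow hN]; norm_num
  · rw [zero_pow hN]; norm_num; linarith

theorem joined_zero {N : ℕ} (hN : N ≠ 0) {q : ℝ} (hq : 6 < q ^ N) {z : ℂ}
    (hz : z ∈ Om N q) : JoinedIn (Om N q) 0 z := by
  have hpol : z = zz ‖z‖ z.arg := (Complex.norm_mul_exp_arg_mul_I z).symm
  rw [hpol] at hz ⊢
  set ρ := ‖z‖
  set θ := z.arg
  have hρ : 0 ≤ ρ := norm_nonneg z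
  rcases le_or_gt (ρ ^ N) 2 with h | h
  · exact joined_zero_aux hN hq hρ h hz
  · set ρ' : ℝ := (2:ℝ) ^ ((N:ℝ)⁻¹) with hρ'
    have hρ'0 : 0 ≤ ρ' := by positivity
    have hρ'N : ρ' ^ N = 2 := Real.rpow_inv_natCast_pow (by norm_num) hN
    have hle : ρ' ≤ ρ := le_of_pow_le hN hρ (by rw [hρ'N]; exact h.le)
    have hseg : segment ℝ (zz ρ' θ) (zz ρ θ) ⊆ Om N q := by
      intro w hw
      obtain ⟨s, hs1, hs2, rfl⟩ := segment_zz ρ' ρ θ hle hw
      have hs0 : 0 ≤ s := hρ'0.trans hs1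
      have hsN : 2 ≤ s ^ N := by rw [← hρ'N]; exact pow_le_pow_left₀ hρ'0 hs1 N
      constructor
      · have := norm_sub_norm_le (zz s θ ^ N) 1
        rw [norm_zz_pow _ _ hs0, norm_one] at this
        linarith
      · refine lt_of_le_of_lt (mono_out s ρ θ hs0 hs2 N ?_) hz.2
        have := Real.cos_le_one (N * θ)
        linarith
    refine (joined_zero_aux hN hq hρ'0 hρ'N.le (hseg (left_mem_segment _ _ _))).trans ?_
    exact JoinedIn.of_segment_subset hseg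

theorem isConnected_Om {N : ℕ} (hN : N ≠ 0) {q : ℝ} (hq : 6 < q ^ N) : IsConnected (Om N q) :=
  IsPathConnected.isConnected ⟨0, zero_mem_Om hN hq, fun _ hz => joined_zero hN hq hz⟩

theorem isBounded_Om {P : Prof} {N : ℕ} (hN : N ≠ 0) : Bornology.IsBounded (Om N P.q) := by
  apply Metric.isBounded_ball (x := (0:ℂ)) (r := 2) |>.subset
  intro z hz
  rw [mem_ball, dist_zero_right]
  exact norm_lt_two_of_Om hN hz

theorem frontier_Om {N : ℕ} {q : ℝ} (hq : 6 < q ^ N) :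
    frontier {z : ℂ | ‖z ^ N - 1‖ ≤ q ^ N / 2} ⊆ frontier (Om N q) := by
  have hcont : Continuous (fun z : ℂ => ‖z ^ N - 1‖) := by fun_prop
  intro z hz
  have hz1 : ‖z ^ N - 1‖ = q ^ N / 2 := frontier_le_subset_eq hcont continuous_const hz
  have hzn : z ∉ Om N q := fun h => absurd h.2 (by rw [hz1]; exact lt_irrefl _)
  have hN : N ≠ 0 := by
    rintro rfl
    simp at hz1
  refine ⟨?_, by rwa [(isOpen_Om N q).interior_eq]⟩
  have hlim : Tendsto (fun t : ℝ => (t : ℂ) * z) (𝓝[<] 1) (𝓝 z) := by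
    have h1 : Tendsto (fun t : ℝ => (t : ℂ) * z) (𝓝 1) (𝓝 (((1:ℝ) : ℂ) * z)) := by
      apply Continuous.tendsto; fun_prop
    rw [Complex.ofReal_one, one_mul] at h1
    exact h1.mono_left nhdsWithin_le_nhds
  apply mem_closure_of_tendsto hlim
  have h2 : ∀ᶠ t : ℝ in 𝓝[<] 1, 1 / 2 < ‖((t : ℂ) * z) ^ N - 1‖ := by
    have h3 : ∀ᶠ w in 𝓝 z, 1 / 2 < ‖w ^ N - 1‖ := by
      apply hcont.continuousAt.eventually (lt_mem_nhds _)
      show 1 / 2 < ‖z ^ N - 1‖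
      rw [hz1]; linarith
    exact hlim.eventually h3
  have h4 : ∀ᶠ t : ℝ in 𝓝[<] 1, 0 < t := nhdsWithin_le_nhds (lt_mem_nhds one_pos)
  filter_upwards [h2, h4, self_mem_nhdsWithin] with t ht1 ht2 ht3
  refine ⟨ht1, ?_⟩
  have ht3' : t < 1 := ht3
  set τ : ℝ := t ^ N with hτ
  have hτ0 : 0 < τ := by positivity
  have hτ1 : τ < 1 := pow_lt_one₀ ht2.le ht3' hN
  have e1 : ((t : ℂ) * z) ^ N - 1 = (τ : ℂ) * (z ^ N - 1) - ((1 - τ : ℝ) : ℂ) := by
    rw [mul_pow, hτ]; push_cast; ring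
  rw [e1]
  refine lt_of_le_of_lt (norm_sub_le _ _) ?_
  rw [norm_mul, Complex.norm_real, Complex.norm_real, Real.norm_of_nonneg hτ0.le, Real.norm_of_nonneg (by linarith), hz1]
  nlinarith

theorem perim_Om {P : Prof} {N : ℕ} (hN : N ≠ 0) (hq : 6 < P.q ^ N) {δ : ℝ} (hδ : 0 < δ) (hδ1 : δ < 1) :
    ENNReal.ofReal (1 - δ) * c₁ < (μH[1] : Measure ℂ) (frontier (Om N P.q)) := by
  have h1 : ENNReal.ofReal (1 - δ) * c₁ < ENNReal.ofReal 1 * c₁ := by
    rw [ENNReal.mul_lt_mul_iff_left c₁_pos.ne' c₁_ne_top]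
    rw [ENNReal.ofReal_lt_ofReal_iff one_pos]
    linarith
  refine lt_of_lt_of_le h1 ?_
  rw [← perim_ball one_pos]
  have hcont : Continuous (fun z : ℂ => ‖z ^ N - 1‖) := by fun_prop
  refine le_trans (perim_mono (K' := {z : ℂ | ‖z ^ N - 1‖ ≤ P.q ^ N / 2}) (convex_closedBall _ _)
    (isCompact_closedBall _ _) ?_ ?_ ?_) (measure_mono (frontier_Om hq))
  · rw [interior_closedBall _ one_ne_zero]; exact nonempty_ball.mpr one_pos
  · apply Metric.isCompact_of_isClosed_isBounded (isClosed_le hcont continuous_const)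
    apply Metric.isBounded_closedBall (x := (0:ℂ)) (r := P.q) |>.subset
    intro z hz
    rw [mem_closedBall, dist_zero_right]
    apply le_of_pow_le hN P.hq0.le
    have h2 : ‖z‖ ^ N - 1 ≤ ‖z ^ N - 1‖ := by
      have := norm_sub_norm_le (z ^ N) 1
      rw [norm_pow, norm_one] at this
      exact this
    have h3 : ‖z ^ N - 1‖ ≤ P.q ^ N / 2 := hz
    linarith
  · intro z hz
    rw [mem_closedBall, dist_zero_right] at hz
    show ‖z ^ N - 1‖ ≤ P.q ^ N / 2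
    have h2 := norm_sub_le (z ^ N) 1
    rw [norm_pow, norm_one] at h2
    have h3 : ‖z‖ ^ N ≤ 1 := pow_le_one₀ (norm_nonneg _) hz
    linarith

theorem ball_sub_Om {N : ℕ} {q : ℝ} (hq : 6 < q ^ N) {δ : ℝ} (hδ1 : δ < 1) (hN : (1 - δ) ^ N < 1 / 2) :
    closedBall (0:ℂ) (1 - δ) ⊆ Om N q := by
  intro z hz
  rw [mem_closedBall, dist_zero_right] at hz
  have h1 : ‖z‖ ^ N ≤ (1 - δ) ^ N := pow_le_pow_left₀ (norm_nonneg _) hz N
  have h2 := norm_sub_le (z ^ N) 1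
  rw [norm_pow, norm_one] at h2
  have h3 := norm_sub_norm_le (1:ℂ) (z ^ N)
  rw [norm_pow, norm_one, norm_sub_rev] at h3
  exact ⟨by linarith, by linarith⟩

end Pool.Agent.Helper533.ConvexObstacle
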