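import Pool.Agent.Helper533.ConvexObstacle.Transport
import Pool.Agent.Helper533.ConvexObstacle.Blaschke
import Pool.Agent.Helper533.ConvexObstacle.Cut

open MeasureTheory Metric Set Filter
open scoped Pointwise ENNReal Topology

namespace Pool.Agent.Helper533.ConvexObstacle

/-- Admissible obstacles for `(Ω, L)`: convex bodies in the closure of `Ω` with perimeter `L`. -/
def IsAdm (Ω : Set ℂ) (L : ℝ≥0∞) (K : Set ℂ) : Prop :=
  IsClosed K ∧ Convex ℝ K ∧ (interior K).Nonempty ∧ K ⊆ closure Ω ∧ (μH[1] : Measure ℂ) (frontier K) = L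

theorem perim_limit {K' : Set ℂ} {K : ℕ → Set ℂ} {L : ℝ≥0∞} (hL : L ≠ ⊤)
    (hc' : Convex ℝ K') (hK' : IsCompact K') (hi' : (interior K').Nonempty)
    (hc : ∀ n, Convex ℝ (K n)) (hK : ∀ n, IsCompact (K n)) (hi : ∀ n, (interior (K n)).Nonempty)
    (hL' : ∀ n, (μH[1] : Measure ℂ) (frontier (K n)) = L)
    (h : ∀ η : ℝ, 0 < η → η < 1 → ∀ᶠ n in atTop, (1 - η) • K' ⊆ K n ∧ (1 - η) • K n ⊆ K') :
    (μH[1] : Measure ℂ) (frontier K') = L := by
  have key : ∀ η : ℝ, 0 < η → η < 1 →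
      ENNReal.ofReal (1 - η) * (μH[1] : Measure ℂ) (frontier K') ≤ L ∧
        ENNReal.ofReal (1 - η) * L ≤ (μH[1] : Measure ℂ) (frontier K') := by
    intro η h0 h1
    obtain ⟨n, hn1, hn2⟩ := (h η h0 h1).exists
    have h1η : 0 < 1 - η := by linarith
    constructor
    · rw [← perim_smul h1η, ← hL' n]
      apply perim_mono (hc'.smul _) (hK'.smul _) _ (hK n) hn1
      rw [interior_smul₀ h1η.ne']
      exact hi'.smul_set
    · rw [← hL' n, ← perim_smul h1η]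
      apply perim_mono ((hc n).smul _) ((hK n).smul _) _ hK' hn2
      rw [interior_smul₀ h1η.ne']
      exact (hi n).smul_set
  set P := (μH[1] : Measure ℂ) (frontier K') with hP
  have hPtop : P ≠ ⊤ := by
    intro hcon
    have h1 := (key (1 / 2) (by norm_num) (by norm_num)).1
    rw [hcon, ENNReal.mul_top (by rw [ne_eq, ENNReal.ofReal_eq_zero]; norm_num)] at h1
    exact hL (top_le_iff.mp h1)
  have hlim : Tendsto (fun η : ℝ => 1 - η) (𝓝[>] 0) (𝓝 1) := by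
    have : Tendsto (fun η : ℝ => 1 - η) (𝓝 0) (𝓝 (1 - 0)) := by
      apply Continuous.tendsto; fun_prop
    rw [sub_zero] at this
    exact this.mono_left nhdsWithin_le_nhds
  have hev : ∀ᶠ η : ℝ in 𝓝[>] 0, 0 < η ∧ η < 1 := by
    have h1 : ∀ᶠ η : ℝ in 𝓝[>] 0, η < 1 := nhdsWithin_le_nhds (gt_mem_nhds one_pos)
    filter_upwards [self_mem_nhdsWithin, h1] with η h2 h3 using ⟨h2, h3⟩
  have hkeyR : ∀ᶠ η : ℝ in 𝓝[>] 0, (1 - η) * P.toReal ≤ L.toReal ∧ (1 - η) * L.toReal ≤ P.toReal := by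
    filter_upwards [hev] with η hη
    obtain ⟨k1, k2⟩ := key η hη.1 hη.2
    constructor
    · have := ENNReal.toReal_mono hL k1
      rwa [ENNReal.toReal_mul, ENNReal.toReal_ofReal (by linarith [hη.2])] at this
    · have := ENNReal.toReal_mono hPtop k2
      rwa [ENNReal.toReal_mul, ENNReal.toReal_ofReal (by linarith [hη.2])] at this
  rw [← ENNReal.toReal_eq_toReal_iff' hPtop hL]
  apply le_antisymm
  · have h1 : Tendsto (fun η : ℝ => (1 - η) * P.toReal) (𝓝[>] 0) (𝓝 (1 * P.toReal)) := hlim.mul_const _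
    rw [one_mul] at h1
    exact le_of_tendsto h1 (hkeyR.mono fun _ h => h.1)
  · have h1 : Tendsto (fun η : ℝ => (1 - η) * L.toReal) (𝓝[>] 0) (𝓝 (1 * L.toReal)) := hlim.mul_const _
    rw [one_mul] at h1
    exact le_of_tendsto h1 (hkeyR.mono fun _ h => h.2)

theorem lambda1_nonneg (U : Set ℂ) : 0 ≤ lambda1 U := by
  apply Real.sInf_nonneg
  rintro q ⟨u, _, rfl⟩
  exact rayleigh_nonneg u

/-- The abstract existence argument. -/
theorem exists_min {Ω : Set ℂ} (hΩ : IsOpen Ω) (hΩb : Bornology.IsBounded Ω) {L : ℝ≥0∞} (hL : L ≠ ⊤)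
    {r R : ℝ} (hr : 0 < r) (hadm : ∀ K, IsAdm Ω L K → closedBall 0 r ⊆ K ∧ K ⊆ closedBall 0 R ∧ (Ω \ K).Nonempty)
    {K₀ : Set ℂ} (hK₀ : IsAdm Ω L K₀) {m' : ℝ} (hm : lambda1 (Ω \ K₀) < m') {ρ₀ ρ₁ : ℝ} (hρ₀ : 0 < ρ₀) (hρ : ρ₀ < ρ₁)
    (hfr : ∀ p ∈ frontier Ω, ρ₁ ≤ ‖p‖)
    (hgap : ∀ K, IsAdm Ω L K → ∀ p ∈ K, ρ₀ ≤ ‖p‖ → m' ≤ lambda1 (Ω \ K)) :
    ∃ K', IsAdm Ω L K' ∧ K' ⊆ Ω ∧ ∀ K, IsAdm Ω L K → lambda1 (Ω \ K') ≤ lambda1 (Ω \ K) := by
  set S : Set ℝ := {x | ∃ K, IsAdm Ω L K ∧ x = lambda1 (Ω \ K)} with hS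
  have hSne : S.Nonempty := ⟨_, K₀, hK₀, rfl⟩
  have hSb : BddBelow S := ⟨0, by rintro x ⟨K, -, rfl⟩; exact lambda1_nonneg _⟩
  obtain ⟨x, -, hx2, hx3⟩ := exists_seq_tendsto_sInf hSne hSb
  choose K hKadm hKx using hx3
  have hKcomp : ∀ n, IsCompact (K n) := fun n =>
    (isCompact_closedBall (0:ℂ) R).of_isClosed_subset (hKadm n).1 (hadm _ (hKadm n)).2.1
  obtain ⟨K', hK'c, hK'conv, hK'r, hK'C, φ, hφ, happ⟩ := blaschke K r R hr (fun n => (hKadm n).2.1) (fun n => (hKadm n).1)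
    (fun n => (hadm _ (hKadm n)).1) (fun n => (hadm _ (hKadm n)).2.1) (closure Ω) isClosed_closure
    (fun n => (hKadm n).2.2.2.1)
  have hlim : Tendsto (fun n => lambda1 (Ω \ K (φ n))) atTop (𝓝 (sInf S)) := by
    have h1 : (fun n => lambda1 (Ω \ K (φ n))) = x ∘ φ := by
      ext n; exact (hKx (φ n)).symm
    rw [h1]
    exact hx2.comp hφ.tendsto_atTop
  have hK'i : (interior K').Nonempty :=
    ⟨0, interior_mono hK'r (by rw [interior_closedBall _ hr.ne']; exact mem_ball_self hr)⟩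
  have hK'adm : IsAdm Ω L K' := by
    refine ⟨hK'c.isClosed, hK'conv, hK'i, hK'C, ?_⟩
    exact perim_limit (K := fun n => K (φ n)) hL hK'conv hK'c hK'i (fun n => (hKadm _).2.1) (fun n => hKcomp _)
      (fun n => (hKadm _).2.2.1) (fun n => (hKadm _).2.2.2.2) happ
  have hsInf : ∀ K, IsAdm Ω L K → sInf S ≤ lambda1 (Ω \ K) := fun K hK => csInf_le hSb ⟨K, hK, rfl⟩
  have hK'Ω : K' ⊆ Ω := by
    intro p hp
    by_contra hpΩ
    have hpf : p ∈ frontier Ω := ⟨hK'C hp, by rwa [hΩ.interior_eq]⟩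
    have h1 := hfr p hpf
    have hρ₁ : 0 < ρ₁ := hρ₀.trans hρ
    set η : ℝ := 1 - ρ₀ / ρ₁ with hη
    have hη0 : 0 < η := by rw [hη, sub_pos, div_lt_one hρ₁]; exact hρ
    have hη1 : η < 1 := by rw [hη]; have : 0 < ρ₀ / ρ₁ := by positivity
                           linarith
    have h2 : m' ≤ sInf S := by
      apply ge_of_tendsto hlim
      filter_upwards [happ η hη0 hη1] with n hn
      apply hgap _ (hKadm _) ((1 - η) • p) (hn.1 ⟨p, hp, rfl⟩)
      rw [norm_smul, Real.norm_of_nonneg (by linarith)]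
      have : 1 - η = ρ₀ / ρ₁ := by rw [hη]; ring
      rw [this, div_mul_eq_mul_div, le_div_iff₀ hρ₁]
      exact mul_le_mul_of_nonneg_left h1 hρ₀.le
    have h3 := hsInf K₀ hK₀
    linarith
  refine ⟨K', hK'adm, hK'Ω, ?_⟩
  have hmain : lambda1 (Ω \ K') ≤ sInf S := by
    have hS0 : 0 ≤ sInf S := by
      apply Real.sInf_nonneg
      rintro x ⟨K, -, rfl⟩
      exact lambda1_nonneg _
    apply le_of_forall_pos_le_add
    intro ε hε
    set e : ℝ := ε / (sInf S + 1) with he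
    have he0 : 0 < e := by positivity
    obtain ⟨η₀, hη₀, htr⟩ := shrink_transport hΩ hΩb hK'c hK'Ω e he0
    set η : ℝ := min (η₀ / 2) (1 / 2) with hη
    have hη0 : 0 < η := by positivity
    have hη1 : η < 1 := lt_of_le_of_lt (min_le_right _ _) (by norm_num)
    have hη2 : η < η₀ := lt_of_le_of_lt (min_le_left _ _) (by linarith)
    have h1 : lambda1 (Ω \ K') / (1 + e) ≤ sInf S := by
      apply ge_of_tendsto hlim
      filter_upwards [happ η hη0 hη1] with n hn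
      apply le_lambda1 (hΩ.sdiff (hKadm _).1) (hadm _ (hKadm _)).2.2
      intro u hu
      obtain ⟨v, hv1, hv2⟩ := htr η hη0.le hη2 (K (φ n)) hn.1 u hu
      rw [div_le_iff₀ (by positivity)]
      have := lambda1_le hv1
      linarith
    rw [div_le_iff₀ (by positivity)] at h1
    have h2 : sInf S * e ≤ ε := by
      rw [he, mul_div_assoc', div_le_iff₀ (by positivity)]
      nlinarith
    linarith
  intro K hK
  exact hmain.trans (hsInf K hK)

end Pool.Agent.Helper533.ConvexObstacle
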