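import Pool.Agent.Helper533.ConvexObstacle.Domain
import Pool.Agent.Helper533.ConvexObstacle.Exist

open MeasureTheory Metric Set Filter
open scoped Pointwise ENNReal Topology

namespace Pool.Agent.Helper533.ConvexObstacle

theorem main_aux : ∃ (N : ℕ) (q : ℝ) (L : ℝ), N ≠ 0 ∧ 1 < q ∧ 6 < q ^ N ∧
    IsConnected (Om N q) ∧ Bornology.IsBounded (Om N q) ∧ 0 < L ∧
    ENNReal.ofReal L < (μH[1] : Measure ℂ) (frontier (Om N q)) ∧
    (∀ K, IsAdm (Om N q) (ENNReal.ofReal L) K → (Om N q \ K).Nonempty) ∧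
    (∃ K, IsAdm (Om N q) (ENNReal.ofReal L) K ∧ K ⊆ Om N q ∧
      ∀ K', IsAdm (Om N q) (ENNReal.ofReal L) K' → lambda1 (Om N q \ K) ≤ lambda1 (Om N q \ K')) ∧
    (∀ K, IsAdm (Om N q) (ENNReal.ofReal L) K →
      (∀ K', IsAdm (Om N q) (ENNReal.ofReal L) K' → lambda1 (Om N q \ K) ≤ lambda1 (Om N q \ K')) → K ⊆ Om N q) := by
  obtain ⟨P⟩ := prof_exists
  have hj := P.hj0
  have hg := P.g_pos
  have hKp : 0 < P.K := by
    unfold Prof.K
    have := P.C_pos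
    have := P.hc
    positivity
  -- choice of κ
  set κ : ℝ := min (1 / 2) (1 / (40 * P.j * P.K)) with hκdef
  have hκ0 : 0 < κ := by positivity
  have hκh : κ ≤ 1 / 2 := min_le_left _ _
  have hκ2 : κ ≤ 1 / (40 * P.j * P.K) := min_le_right _ _
  have hκj : 4 * P.j ^ 2 * (100 * P.K ^ 2 * (1 - (1 - κ)) ^ 2) ≤ 1 / 4 := by
    have h1 : κ * (40 * P.j * P.K) ≤ 1 := by rwa [le_div_iff₀ (by positivity)] at hκ2
    have h2 : 0 ≤ κ * (40 * P.j * P.K) := by positivity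
    have h3 : (κ * (40 * P.j * P.K)) ^ 2 ≤ 1 := pow_le_one₀ h2 h1
    have h4 : 4 * P.j ^ 2 * (100 * P.K ^ 2 * (1 - (1 - κ)) ^ 2) = (κ * (40 * P.j * P.K)) ^ 2 / 4 := by ring
    rw [h4]; linarith
  -- choice of δ
  set δ : ℝ := min (1 / 100) (√κ * κ / 32) with hδdef
  have hsκ := Real.sqrt_pos.mpr hκ0
  have hδ0 : 0 < δ := by positivity
  have hδ1 : δ ≤ 1 / 100 := min_le_left _ _
  have hδ2 : δ ≤ √κ * κ / 32 := min_le_right _ _
  obtain ⟨C₁, hC₁, hup⟩ := upper P δ hδ0 (by linarith)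
  obtain ⟨N₀, hlow⟩ := lower_all P (1 - κ) (by linarith) (by linarith) hκj 2 (by norm_num) (C₁ + 1) (by positivity)
  -- choice of n
  have h2n : Tendsto (fun n : ℕ => 2 * n) atTop atTop := tendsto_id.const_mul_atTop' (by norm_num)
  have hcast : Tendsto (fun n : ℕ => ((2 * n : ℕ) : ℝ)) atTop atTop := tendsto_natCast_atTop_atTop.comp h2n
  have ev1 : ∀ᶠ n : ℕ in atTop, max N₀ 13 ≤ 2 * n := h2n.eventually_ge_atTop _
  have ev2 : ∀ᶠ n : ℕ in atTop, max (416 / (√κ * κ)) (40 / P.g) < ((2 * n : ℕ) : ℝ) := hcast.eventually_gt_atTop _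
  have ev3 : ∀ᶠ n : ℕ in atTop, 6 < P.q ^ (2 * n) :=
    ((tendsto_pow_atTop_atTop_of_one_lt P.hq).comp h2n).eventually_gt_atTop _
  have ev4 : ∀ᶠ n : ℕ in atTop, (1 - δ) ^ (2 * n) < 1 / 2 :=
    ((tendsto_pow_atTop_nhds_zero_of_lt_one (by linarith) (by linarith)).comp h2n).eventually
      (gt_mem_nhds (by norm_num))
  obtain ⟨n, hn1, hn2, hq6, hδN⟩ := (ev1.and (ev2.and (ev3.and ev4))).exists
  have hN₀ : N₀ ≤ 2 * n := (le_max_left _ _).trans hn1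
  have hN13 : 13 ≤ 2 * n := (le_max_right _ _).trans hn1
  have hn3 : 416 / (√κ * κ) < ((2 * n : ℕ) : ℝ) := lt_of_le_of_lt (le_max_left _ _) hn2
  have hn4 : 40 / P.g < ((2 * n : ℕ) : ℝ) := lt_of_le_of_lt (le_max_right _ _) hn2
  rw [div_lt_iff₀ hg] at hn4
  have hbig : P.Big (2 * n) := by
    show (36:ℝ) ≤ P.g * ((2 * n : ℕ) : ℝ)
    linarith
  have hn0 : n ≠ 0 := by omega
  have hup' := hup n hn0 hbig
  have hlow' := hlow n hN₀
  have hfar := far_of_big hbig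
  clear hup hlow ev1 ev2 ev3 ev4 h2n hcast
  set N := 2 * n with hN
  have hNne : N ≠ 0 := hbig.ne
  have hNp : (0:ℝ) < N := by positivity
  have hN13' : (13:ℝ) ≤ N := by exact_mod_cast hN13
  -- admissible sets
  have hc₁ : c₁ = ENNReal.ofReal c₁.toReal := (ENNReal.ofReal_toReal c₁_ne_top).symm
  have hc0 : 0 < c₁.toReal := ENNReal.toReal_pos c₁_pos.ne' c₁_ne_top
  set L : ℝ := (1 - δ) * c₁.toReal with hLdef
  have hL0 : 0 < L := by rw [hLdef]; apply mul_pos; linarith; exact hc0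
  have hLe : ENNReal.ofReal L = ENNReal.ofReal (1 - δ) * c₁ := by
    rw [hLdef, ENNReal.ofReal_mul (by linarith), ← hc₁]
  have hstruct : ∀ K, IsAdm (Om N P.q) (ENNReal.ofReal L) K →
      IsCompact K ∧ closedBall 0 (1 - κ) ⊆ K ∧ K ⊆ closedBall 0 (1 + 13 / N) := by
    rintro K ⟨h1, h2, h3, h4, h5⟩
    exact adm_inner hκ0 (by linarith) hδ0 hδ1 hδ2 hN13 hn3 (by linarith) h1 h2 h3 h4 (by rw [h5, hLe])
  have hdiff : ∀ K, IsAdm (Om N P.q) (ENNReal.ofReal L) K → (Om N P.q \ K).Nonempty := by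
    intro K hK
    have h1 := (hstruct K hK).2.2
    have hρ1 : ‖((P.ρ₁ : ℝ) : ℂ)‖ = P.ρ₁ := by
      rw [Complex.norm_real, Real.norm_of_nonneg]
      unfold Prof.ρ₁; positivity
    refine ⟨((P.ρ₁ : ℝ) : ℂ), (core_Om' P hbig hfar _ ?_ ?_).1, ?_⟩
    · rw [hρ1]
    · rw [hρ1]; unfold Prof.ρ₁ Prof.ρ₂; linarith
    · intro hcon
      have h2 := h1 hcon
      rw [mem_closedBall, dist_zero_right, hρ1] at h2
      unfold Prof.ρ₁ at h2
      have h3 : P.g / 3 ≤ 13 / N := by linarith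
      rw [div_le_div_iff₀ (by norm_num) hNp] at h3
      linarith
  -- the competitor
  have hK₀ : IsAdm (Om N P.q) (ENNReal.ofReal L) (closedBall 0 (1 - δ)) := by
    refine ⟨isClosed_closedBall, convex_closedBall _ _, ?_, ?_, ?_⟩
    · rw [interior_closedBall _ (by linarith)]; exact nonempty_ball.mpr (by linarith)
    · exact (ball_sub_Om hq6 (by linarith) hδN).trans subset_closure
    · rw [perim_ball (by linarith), hLe]
  set m' : ℝ := P.Lam N + (C₁ + 1) / (N:ℝ) ^ 2 with hm'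
  have hm : lambda1 (Om N P.q \ closedBall 0 (1 - δ)) < m' := by
    refine lt_of_le_of_lt hup' ?_
    rw [hm']
    have : C₁ / (N:ℝ) ^ 2 < (C₁ + 1) / (N:ℝ) ^ 2 := by
      rw [div_lt_div_iff_of_pos_right (by positivity)]; linarith
    linarith
  have hgap : ∀ K, IsAdm (Om N P.q) (ENNReal.ofReal L) K → ∀ p ∈ K, 1 - 2 / (N:ℝ) ≤ ‖p‖ →
      m' ≤ lambda1 (Om N P.q \ K) := by
    intro K hK p hp hpn
    apply le_lambda1 ((isOpen_Om N P.q).sdiff hK.1) (hdiff K hK)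
    intro u hu
    unfold rayleigh
    rw [le_div_iff₀ (integral_sq_pos hu)]
    refine hlow' u (hu.1.of_le (by simp)) hu.2.1 (fun z hz => (hu.2.2.1 hz).1) K hK.2.1 (hstruct K hK).2.1 ?_ p hp hpn
    intro z hz
    by_contra hcon
    exact (hu.2.2.1 (subset_tsupport u hcon)).2 hz
  have hfr : ∀ p ∈ frontier (Om N P.q), 1 - 1 / (N:ℝ) ≤ ‖p‖ := fun p hp =>
    norm_ge_of_frontier hNne (by linarith) hp
  have h12 : 1 - 2 / (N:ℝ) < 1 - 1 / N := by
    have : 1 / (N:ℝ) < 2 / N := by rw [div_lt_div_iff_of_pos_right hNp]; norm_num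
    linarith
  have hρ₀ : 0 < 1 - 2 / (N:ℝ) := by
    rw [sub_pos, div_lt_one hNp]; linarith
  refine ⟨N, P.q, L, hNne, P.hq, hq6, isConnected_Om hNne hq6, isBounded_Om hNne, hL0, ?_, hdiff, ?_, ?_⟩
  · rw [hLe]; exact perim_Om hNne hq6 hδ0 (by linarith)
  · exact exists_min (isOpen_Om N P.q) (isBounded_Om hNne) ENNReal.ofReal_ne_top (r := 1 - κ) (R := 1 + 13 / N)
      (by linarith) (fun K hK => ⟨(hstruct K hK).2.1, (hstruct K hK).2.2, hdiff K hK⟩) hK₀ hm hρ₀ h12 hfr hgap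
  · intro K hK hmin p hp
    by_contra hpΩ
    have hpf : p ∈ frontier (Om N P.q) := ⟨hK.2.2.2.1 hp, by rwa [(isOpen_Om N P.q).interior_eq]⟩
    have h1 := hgap K hK p hp (h12.le.trans (hfr p hpf))
    have h2 := hmin _ hK₀
    linarith

end Pool.Agent.Helper533.ConvexObstacle
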