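import Pool.Agent.Helper533.ConvexObstacle.Lemni

open MeasureTheory Metric Set

namespace Pool.Agent.Helper533.ConvexObstacle

/-- Data of the radial profile. -/
structure Prof where
  j : ℝ
  q : ℝ
  σ : ℝ
  c : ℝ
  hj : 1 < j
  hq : 1 < q
  hq2 : q ≤ 1.01
  hσ : σ = 1 ∨ σ = -1
  hJj : J j = 0
  hJq : J (j * q) = 0
  hc : 0 < c
  hlow : ∀ R ∈ Icc 1 q, c * min (R - 1) (q - R) ≤ σ * J (j * R)

theorem prof_exists : Nonempty Prof := by
  obtain ⟨j, j', σ, h1, h2, h3, h4, h5, h6, c, hc, h7⟩ := J_zeros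
  have hj0 : 0 < j := by linarith
  refine ⟨⟨j, j' / j, σ, c * j, h1, ?_, ?_, h4, h5, ?_, by positivity, ?_⟩⟩
  · rw [one_lt_div hj0]; exact h2
  · rw [div_le_iff₀ hj0]; exact h3
  · rw [mul_div_cancel₀ _ hj0.ne']; exact h6
  · intro R hR
    have hR2 : j * R ≤ j' := by
      have := hR.2
      rw [le_div_iff₀ hj0] at this
      linarith
    have h8 := h7 (j * R) ⟨by nlinarith [hR.1], hR2⟩
    have h9 : c * j * min (R - 1) (j' / j - R) = c * min (j * R - j) (j' - j * R) := by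
      rw [mul_assoc, mul_min_of_nonneg _ _ hj0.le]
      congr 2
      · ring
      · field_simp
    rw [h9]; exact h8

namespace Prof

variable (P : Prof)

theorem hj0 : 0 < P.j := by have := P.hj; linarith

theorem hq0 : 0 < P.q := by have := P.hq; linarith

theorem σσ : P.σ * P.σ = 1 := by rcases P.hσ with h | h <;> rw [h] <;> norm_num

/-- ground state -/
noncomputable def U (N : ℕ) (z : ℂ) : ℝ := P.σ * J (P.j * Rf N z)

/-- tent -/
noncomputable def T (N : ℕ) (z : ℂ) : ℝ := min (Rf N z - 1) (P.q - Rf N z)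

noncomputable def C : ℝ := 4 * P.j

theorem C_pos : 0 < P.C := by unfold C; have := P.hj0; positivity

theorem T_pos {N : ℕ} (hN : N ≠ 0) {z : ℂ} (hz : z ∈ Om N P.q) : 0 < P.T N z := by
  unfold T
  apply lt_min
  · linarith [Rf_gt_one hN hz]
  · linarith [Rf_lt hN P.hq0 hz]

theorem U_ge {N : ℕ} (hN : N ≠ 0) {z : ℂ} (hz : z ∈ Om N P.q) : P.c * P.T N z ≤ P.U N z :=
  P.hlow _ ⟨(Rf_gt_one hN hz).le, (Rf_lt hN P.hq0 hz).le⟩

theorem U_pos {N : ℕ} (hN : N ≠ 0) {z : ℂ} (hz : z ∈ Om N P.q) : 0 < P.U N z :=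
  lt_of_lt_of_le (mul_pos P.hc (P.T_pos hN hz)) (P.U_ge hN hz)

theorem U_le {N : ℕ} (hN : N ≠ 0) {z : ℂ} (hz : z ∈ Om N P.q) : P.U N z ≤ P.C * P.T N z := by
  have hpi := Real.pi_lt_four
  have hj0 := P.hj0
  have h1 := Rf_gt_one hN hz
  have h2 := Rf_lt hN P.hq0 hz
  have h3 : P.U N z ≤ |J (P.j * Rf N z)| := by
    unfold U
    rcases P.hσ with h | h
    · rw [h, one_mul]; exact le_abs_self _
    · rw [h, neg_one_mul]; exact neg_le_abs _
  have h4 : |J (P.j * Rf N z)| ≤ P.C * (Rf N z - 1) := by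
    have := J_lip (P.j * Rf N z) P.j
    rw [P.hJj, sub_zero] at this
    have e : P.j * Rf N z - P.j = P.j * (Rf N z - 1) := by ring
    rw [e, abs_of_pos (mul_pos hj0 (by linarith))] at this
    unfold C
    have h5 : 0 < P.j * (Rf N z - 1) := mul_pos hj0 (by linarith)
    nlinarith
  have h5 : |J (P.j * Rf N z)| ≤ P.C * (P.q - Rf N z) := by
    have := J_lip (P.j * Rf N z) (P.j * P.q)
    rw [P.hJq, sub_zero] at this
    have e : P.j * Rf N z - P.j * P.q = -(P.j * (P.q - Rf N z)) := by ring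
    have h5 : 0 < P.j * (P.q - Rf N z) := mul_pos hj0 (by linarith)
    rw [e, abs_neg, abs_of_pos h5] at this
    unfold C
    nlinarith
  unfold T
  rw [mul_min_of_nonneg _ _ P.C_pos.le]
  exact le_min (h3.trans h4) (h3.trans h5)

/-- potential of the ground state -/
noncomputable def V (N : ℕ) (z : ℂ) : ℝ := (P.j * Rf N z) ^ 2 / N ^ 2 * ‖pf N z‖ ^ 2

/-- approximate eigenvalue -/
noncomputable def Lam (N : ℕ) : ℝ := (P.j * Real.exp (Real.log 2 / N)) ^ 2

end Prof

theorem J_contDiffAt_aux (n : ℕ) : ContDiffOn ℝ n J (Ioi 0) ∧ ContDiffOn ℝ n J1 (Ioi 0) := by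
  induction n with
  | zero =>
    refine ⟨?_, ?_⟩
    · exact contDiffOn_zero.mpr J_cont.continuousOn
    · exact contDiffOn_zero.mpr J1_cont.continuousOn
  | succ n ih =>
    have hd : deriv J = J1 := by ext x; exact (hasDerivAt_J x).deriv
    have hd1 : deriv J1 = J2 := by ext x; exact (hasDerivAt_J1 x).deriv
    have e : ((n + 1 : ℕ) : WithTop ℕ∞) = (n : WithTop ℕ∞) + 1 := by push_cast; rfl
    rw [e]
    constructor
    · rw [contDiffOn_succ_iff_deriv_of_isOpen isOpen_Ioi]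
      refine ⟨fun x _ => (hasDerivAt_J x).differentiableAt.differentiableWithinAt, ?_, ?_⟩
      · intro h
        simp at h
      · rw [hd]; exact ih.2
    · rw [contDiffOn_succ_iff_deriv_of_isOpen isOpen_Ioi]
      refine ⟨fun x _ => (hasDerivAt_J1 x).differentiableAt.differentiableWithinAt, ?_, ?_⟩
      · intro h
        simp at h
      · rw [hd1]
        have h1 : ContDiffOn ℝ n (fun x => -(J1 x / x) - J x) (Ioi 0) := by
          apply ContDiffOn.sub _ ih.1
          apply ContDiffOn.neg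
          exact ih.2.div contDiffOn_id (fun x hx => (ne_of_gt hx))
        apply h1.congr
        intro x hx
        have hx0 : (0:ℝ) < x := hx
        have := J_ode x
        field_simp
        linarith

theorem J_contDiffAt {x : ℝ} (hx : 0 < x) : ContDiffAt ℝ (⊤ : ℕ∞) J x := by
  have : ContDiffOn ℝ (⊤ : ℕ∞) J (Ioi 0) := contDiffOn_infty.mpr fun n => (J_contDiffAt_aux n).1
  exact this.contDiffAt (isOpen_Ioi.mem_nhds hx)

theorem Rf_contDiffAt {N : ℕ} {q : ℝ} {z : ℂ} (hz : z ∈ Om N q) {n : WithTop ℕ∞} :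
    ContDiffAt ℝ n (Rf N) z := by
  unfold Rf
  exact (((contDiffAt_log hz).add contDiffAt_const).div_const _).exp

theorem U_contDiffAt (P : Prof) {N : ℕ} {z : ℂ} (hz : z ∈ Om N P.q) :
    ContDiffAt ℝ (⊤ : ℕ∞) (P.U N) z := by
  unfold Prof.U
  have h1 : ContDiffAt ℝ (⊤ : ℕ∞) (fun z => P.j * Rf N z) z := contDiffAt_const.mul (Rf_contDiffAt hz)
  have h2 : ContDiffAt ℝ (⊤ : ℕ∞) J (P.j * Rf N z) := J_contDiffAt (mul_pos P.hj0 (Rf_pos N z))
  have h3 : ContDiffAt ℝ (⊤ : ℕ∞) (fun z => J (P.j * Rf N z)) z :=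
    ContDiffAt.comp (g := J) (f := fun z => P.j * Rf N z) z h2 h1
  exact contDiffAt_const.mul h3

/-- Ground state substitution for the lemniscate domain. -/
theorem ground (P : Prof) {N : ℕ} (hN : N ≠ 0) (u : ℂ → ℝ) (hu : ContDiff ℝ 1 u)
    (huc : HasCompactSupport u) (hus : tsupport u ⊆ Om N P.q) :
    ContDiff ℝ 1 (fun z => u z / P.U N z) ∧ tsupport (fun z => u z / P.U N z) ⊆ tsupport u ∧
    ∫ z, ‖gradient u z‖ ^ 2 = (∫ z, P.U N z ^ 2 * ‖gradient (fun z => u z / P.U N z) z‖ ^ 2) +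
      ∫ z, P.V N z * u z ^ 2 := by
  set E : ℝ → ℝ := fun s => Real.exp ((s + Real.log 2) / N) with hE
  have hN' : (N:ℝ) ≠ 0 := by exact_mod_cast hN
  have hEd : ∀ s, HasDerivAt E (E s / N) s := by
    intro s
    have h1 : HasDerivAt (fun s : ℝ => (s + Real.log 2) / N) (1 / N) s :=
      ((hasDerivAt_id s).add_const _).div_const _
    refine h1.exp.congr_deriv ?_
    simp only [hE]; ring
  have hjE : ∀ s, HasDerivAt (fun s => P.j * E s) (P.j * E s / N) s := fun s => by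
    refine ((hEd s).const_mul P.j).congr_deriv ?_
    ring
  have hE0 : ∀ s, 0 < P.j * E s := fun s => mul_pos P.hj0 (Real.exp_pos _)
  have hG0 : ∀ s, HasDerivAt (fun s => P.σ * J (P.j * E s)) (P.σ * (J1 (P.j * E s) * (P.j * E s / N))) s := fun s =>
    (HasDerivAt.comp s (hasDerivAt_J _) (hjE s)).const_mul P.σ
  have hG1 : ∀ s, HasDerivAt (fun s => P.σ * (J1 (P.j * E s) * (P.j * E s / N)))
      (-(P.j * E s) ^ 2 / N ^ 2 * (P.σ * J (P.j * E s))) s := fun s => by
    have h1 := (HasDerivAt.comp s (hasDerivAt_J1 _) (hjE s)).mul ((hjE s).div_const N)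
    have h2 := h1.const_mul P.σ
    refine h2.congr_deriv ?_
    have h3 := J_ode (P.j * E s)
    have h4 : J2 (P.j * E s) * (P.j * E s) = - J1 (P.j * E s) - P.j * E s * J (P.j * E s) := by linarith
    have h5 : J2 (P.j * E s) * (P.j * E s / N) * (P.j * E s / N) = (J2 (P.j * E s) * (P.j * E s)) * (P.j * E s) / N ^ 2 := by
      field_simp
    simp only [Function.comp_def]
    rw [h5, h4]
    field_simp
    ring
  have hG2c : Continuous (fun s => -(P.j * E s) ^ 2 / N ^ 2 * (P.σ * J (P.j * E s))) := by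
    have hEc : Continuous E := by simp only [hE]; fun_prop
    have := J_cont.comp (hEc.const_mul P.j)
    fun_prop
  obtain ⟨h1, h2, h3⟩ := picone_eq (Om N P.q) (isOpen_Om N P.q) (pf N) (pf_diff N P.q)
    (fun z => Real.log ‖z ^ N - 1‖) (fun z hz => hasFDerivAt_log hz) (fun z hz => contDiffAt_log hz)
    (fun s => P.σ * J (P.j * E s)) (fun s => P.σ * (J1 (P.j * E s) * (P.j * E s / N)))
    (fun s => -(P.j * E s) ^ 2 / N ^ 2 * (P.σ * J (P.j * E s)))
    (fun z _ => hG0 _)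
    (fun z _ => by
      have e1 : ContDiffAt ℝ 1 (fun s => P.j * E s) (Real.log ‖z ^ N - 1‖) := by
        simp only [hE]; fun_prop
      have e2 : ContDiffAt ℝ 1 J (P.j * E (Real.log ‖z ^ N - 1‖)) :=
        (J_contDiffAt (hE0 _)).of_le (by simp)
      have e3 : ContDiffAt ℝ 1 (fun s => J (P.j * E s)) (Real.log ‖z ^ N - 1‖) :=
        ContDiffAt.comp (g := J) (Real.log ‖z ^ N - 1‖) e2 e1
      exact contDiffAt_const.mul e3)
    (fun z _ => hG1 _) (fun z _ => hG2c.continuousAt)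
    (fun z hz => P.U_pos hN hz) u hu huc hus
  refine ⟨h1, h2, ?_⟩
  have e2 : ∀ z, P.σ * J (P.j * E (Real.log ‖z ^ N - 1‖)) = P.U N z := fun z => rfl
  simp only [e2] at h3
  rw [h3, sub_eq_add_neg, ← integral_neg]
  congr 1
  congr 1
  ext z
  by_cases hz : z ∈ tsupport u
  · have hU := (P.U_pos hN (hus hz)).ne'
    unfold Prof.V
    have e3 : E (Real.log ‖z ^ N - 1‖) = Rf N z := rfl
    rw [e3]
    field_simp
  · have : u z = 0 := image_eq_zero_of_notMem_tsupport hz
    simp [this]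

end Pool.Agent.Helper533.ConvexObstacle
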