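import Pool.Agent.Helper533.ConvexObstacle.Defs

open MeasureTheory Metric Set

namespace Pool.Agent.Helper533.ConvexObstacle

theorem eventually_zero_of_notMem {w : ℂ → ℝ} {z : ℂ} (hz : z ∉ tsupport w) :
    w =ᶠ[nhds z] fun _ => 0 := by
  have : (tsupport w)ᶜ ∈ nhds z := (isClosed_tsupport w).isOpen_compl.mem_nhds hz
  filter_upwards [this] with y hy
  exact image_eq_zero_of_notMem_tsupport hy

theorem integrable_tsupport {w a b : ℂ → ℝ} (hwc : HasCompactSupport w) (ha : Continuous a)
    (has : tsupport a ⊆ tsupport w) (hb : ∀ z ∈ tsupport w, ContinuousAt b z) :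
    Integrable (fun z => a z * b z) := by
  have hac : HasCompactSupport a := IsCompact.of_isClosed_subset hwc (isClosed_tsupport a) has
  apply Continuous.integrable_of_hasCompactSupport
  · apply continuous_of_tsupport
    intro z hz
    have hz' : z ∈ tsupport w := has (tsupport_mul_subset_left hz)
    exact ha.continuousAt.mul (hb z hz')
  · exact hac.mul_right

/-- Integration by parts in one direction. -/
theorem ibp_dir (v : ℂ) (w : ℂ → ℝ) (hw : ContDiff ℝ 1 w)
    (hwc : HasCompactSupport w) (X X' : ℂ → ℝ)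
    (hX : ∀ z ∈ tsupport w, HasLineDerivAt ℝ X (X' z) z v)
    (hXc : ∀ z ∈ tsupport w, ContinuousAt X z)
    (hXc' : ∀ z ∈ tsupport w, ContinuousAt X' z) :
    ∫ z, w z * X' z = - ∫ z, (fderiv ℝ w z v) * X z := by
  have hwd : Differentiable ℝ w := hw.differentiable (by norm_num)
  have hwc0 : Continuous w := hw.continuous
  have hfd : Continuous (fun z => fderiv ℝ w z v) :=
    (hw.continuous_fderiv (by norm_num)).clm_apply continuous_const
  have hfs : tsupport (fun z => fderiv ℝ w z v) ⊆ tsupport w :=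
    tsupport_fderiv_apply_subset ℝ _
  have := integral_bilinear_hasLineDerivAt_right_eq_neg_left_of_integrable
    (μ := (volume : Measure ℂ))
    (f := w) (f' := fun z => fderiv ℝ w z v) (g := X) (g' := X')
    (v := v) (B := ContinuousLinearMap.mul ℝ ℝ)
    (by simpa using integrable_tsupport hwc hfd hfs hXc)
    (by simpa using integrable_tsupport hwc hwc0 (le_refl _) hXc')
    (by simpa using integrable_tsupport hwc hwc0 (le_refl _) hXc)
    (fun z _ => (hwd z).hasFDerivAt.hasLineDerivAt _)
    hX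
  simpa using this

theorem inner_conj (p v : ℂ) : inner ℝ ((starRingEnd ℂ) p) v = (p * v).re := by
  simp [Complex.inner]
  ring

/-- Integration by parts for `G ∘ h`, where `h` is a harmonic function whose complex derivative
is the holomorphic function `p`. -/
theorem ibp_harm (S : Set ℂ) (hS : IsOpen S) (p : ℂ → ℂ) (hp : DifferentiableOn ℂ p S) (h : ℂ → ℝ)
    (hh : ∀ z ∈ S, HasFDerivAt h (innerSL ℝ ((starRingEnd ℂ) (p z))) z)
    (G1 G2 : ℝ → ℝ) (hG : ∀ z ∈ S, HasDerivAt G1 (G2 (h z)) (h z))
    (hG2 : ∀ z ∈ S, ContinuousAt G2 (h z))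
    (w : ℂ → ℝ) (hw : ContDiff ℝ 1 w) (hwc : HasCompactSupport w) (hws : tsupport w ⊆ S) :
    ∫ z, fderiv ℝ w z ((G1 (h z) : ℂ) * (starRingEnd ℂ) (p z)) =
      - ∫ z, w z * (G2 (h z) * ‖p z‖ ^ 2) := by
  have hpa : ∀ z ∈ S, AnalyticAt ℂ p z := fun z hz => hp.analyticAt (hS.mem_nhds hz)
  have hpd : ∀ z ∈ S, HasDerivAt p (deriv p z) z := fun z hz =>
    (hp.differentiableAt (hS.mem_nhds hz)).hasDerivAt
  have hpc : ∀ z ∈ S, ContinuousAt p z := fun z hz => (hpd z hz).continuousAt
  have hpc' : ∀ z ∈ S, ContinuousAt (deriv p) z := fun z hz => (hpa z hz).deriv.continuousAt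
  have hhc : ∀ z ∈ S, ContinuousAt h z := fun z hz => (hh z hz).continuousAt
  have hG1c : ∀ z ∈ S, ContinuousAt (fun z => G1 (h z)) z := fun z hz =>
    ContinuousAt.comp (g := G1) (f := h) (hG z hz).continuousAt (hhc z hz)
  have hG2c : ∀ z ∈ S, ContinuousAt (fun z => G2 (h z)) z := fun z hz =>
    ContinuousAt.comp (g := G2) (f := h) (hG2 z hz) (hhc z hz)
  have hre : ∀ z ∈ S, ContinuousAt (fun z => (p z).re) z := fun z hz =>
    Complex.continuous_re.continuousAt.comp (hpc z hz)
  have him : ∀ z ∈ S, ContinuousAt (fun z => (p z).im) z := fun z hz =>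
    Complex.continuous_im.continuousAt.comp (hpc z hz)
  have hre' : ∀ z ∈ S, ContinuousAt (fun z => (deriv p z).re) z := fun z hz =>
    Complex.continuous_re.continuousAt.comp (hpc' z hz)
  -- real derivative of p
  have hpf : ∀ z ∈ S, HasFDerivAt p ((ContinuousLinearMap.toSpanSingleton ℂ (deriv p z)).restrictScalars ℝ) z :=
    fun z hz => (hpd z hz).hasFDerivAt.restrictScalars ℝ
  have h1 : ∫ z, w z * (G2 (h z) * (p z).re * (p z).re + G1 (h z) * (deriv p z).re) =
      - ∫ z, (fderiv ℝ w z 1) * (G1 (h z) * (p z).re) := by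
    apply ibp_dir 1 w hw hwc
    · intro z hz
      have hzS := hws hz
      have e1 : HasFDerivAt (fun z => (p z).re)
          (Complex.reCLM.comp ((ContinuousLinearMap.toSpanSingleton ℂ (deriv p z)).restrictScalars ℝ)) z :=
        Complex.reCLM.hasFDerivAt.comp z (hpf z hzS)
      have e2 := ((hG z hzS).comp_hasFDerivAt z (hh z hzS)).mul e1
      have e3 := e2.hasLineDerivAt 1
      have e4 : ((G1 ∘ h) z • Complex.reCLM.comp ((ContinuousLinearMap.toSpanSingleton ℂ (deriv p z)).restrictScalars ℝ) +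
          (p z).re • G2 (h z) • (innerSL ℝ) ((starRingEnd ℂ) (p z))) (1:ℂ) =
          G2 (h z) * (p z).re * (p z).re + G1 (h z) * (deriv p z).re := by
        simp [inner_conj]
        ring
      rw [e4] at e3
      exact e3
    · intro z hz
      exact (hG1c z (hws hz)).mul (hre z (hws hz))
    · intro z hz
      have hzS := hws hz
      exact (((hG2c z hzS).mul (hre z hzS)).mul (hre z hzS)).add ((hG1c z hzS).mul (hre' z hzS))
  have h2 : ∫ z, w z * (G2 (h z) * (p z).im * (p z).im - G1 (h z) * (deriv p z).re) =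
      - ∫ z, (fderiv ℝ w z Complex.I) * (-(G1 (h z) * (p z).im)) := by
    apply ibp_dir Complex.I w hw hwc
    · intro z hz
      have hzS := hws hz
      have e1 : HasFDerivAt (fun z => (p z).im)
          (Complex.imCLM.comp ((ContinuousLinearMap.toSpanSingleton ℂ (deriv p z)).restrictScalars ℝ)) z :=
        Complex.imCLM.hasFDerivAt.comp z (hpf z hzS)
      have e2 := (((hG z hzS).comp_hasFDerivAt z (hh z hzS)).mul e1).neg
      have e3 := e2.hasLineDerivAt Complex.I
      have e4 : (-((G1 ∘ h) z • Complex.imCLM.comp ((ContinuousLinearMap.toSpanSingleton ℂ (deriv p z)).restrictScalars ℝ) +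
          (p z).im • G2 (h z) • (innerSL ℝ) ((starRingEnd ℂ) (p z)))) (Complex.I) =
          G2 (h z) * (p z).im * (p z).im - G1 (h z) * (deriv p z).re := by
        simp [inner_conj]
        ring
      rw [e4] at e3
      exact e3
    · intro z hz
      exact ((hG1c z (hws hz)).mul (him z (hws hz))).neg
    · intro z hz
      have hzS := hws hz
      exact (((hG2c z hzS).mul (him z hzS)).mul (him z hzS)).sub ((hG1c z hzS).mul (hre' z hzS))
  have hfd : ∀ v : ℂ, Continuous (fun z => fderiv ℝ w z v) := fun v =>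
    (hw.continuous_fderiv (by norm_num)).clm_apply continuous_const
  have hfs : ∀ v : ℂ, tsupport (fun z => fderiv ℝ w z v) ⊆ tsupport w := fun v =>
    tsupport_fderiv_apply_subset ℝ _
  have i1 := integrable_tsupport hwc hw.continuous le_rfl
    (b := fun z => G2 (h z) * (p z).re * (p z).re + G1 (h z) * (deriv p z).re)
    (fun z hz => (((hG2c z (hws hz)).mul (hre z (hws hz))).mul (hre z (hws hz))).add
      ((hG1c z (hws hz)).mul (hre' z (hws hz))))
  have i2 := integrable_tsupport hwc hw.continuous le_rfl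
    (b := fun z => G2 (h z) * (p z).im * (p z).im - G1 (h z) * (deriv p z).re)
    (fun z hz => (((hG2c z (hws hz)).mul (him z (hws hz))).mul (him z (hws hz))).sub
      ((hG1c z (hws hz)).mul (hre' z (hws hz))))
  have i3 := integrable_tsupport hwc (hfd 1) (hfs 1) (b := fun z => G1 (h z) * (p z).re)
    (fun z hz => (hG1c z (hws hz)).mul (hre z (hws hz)))
  have i4 := integrable_tsupport hwc (hfd Complex.I) (hfs Complex.I) (b := fun z => -(G1 (h z) * (p z).im))
    (fun z hz => ((hG1c z (hws hz)).mul (him z (hws hz))).neg)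
  have e1 : ∫ z, fderiv ℝ w z ((G1 (h z) : ℂ) * (starRingEnd ℂ) (p z)) =
      (∫ z, (fderiv ℝ w z 1) * (G1 (h z) * (p z).re)) + ∫ z, (fderiv ℝ w z Complex.I) * (-(G1 (h z) * (p z).im)) := by
    rw [← integral_add i3 i4]
    congr 1
    ext z
    have : (G1 (h z) : ℂ) * (starRingEnd ℂ) (p z) = (G1 (h z) * (p z).re) • (1:ℂ) + (-(G1 (h z) * (p z).im)) • Complex.I := by
      apply Complex.ext <;> simp
    rw [this, map_add, map_smul, map_smul, smul_eq_mul, smul_eq_mul]
    ring
  have e2 : ∫ z, w z * (G2 (h z) * ‖p z‖ ^ 2) =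
      (∫ z, w z * (G2 (h z) * (p z).re * (p z).re + G1 (h z) * (deriv p z).re)) +
      ∫ z, w z * (G2 (h z) * (p z).im * (p z).im - G1 (h z) * (deriv p z).re) := by
    rw [← integral_add i1 i2]
    congr 1
    ext z
    rw [← Complex.normSq_eq_norm_sq, Complex.normSq_apply]
    ring
  rw [e1, e2, h1, h2]
  ring

end Pool.Agent.Helper533.ConvexObstacle
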