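import Pool.Agent.Helper533.ConvexObstacle.Picone
import Pool.Agent.Helper533.ConvexObstacle.Bessel

open MeasureTheory Metric Set

namespace Pool.Agent.Helper533.ConvexObstacle

/-- The domain between two lemniscates. -/
def Om (N : ℕ) (q : ℝ) : Set ℂ := {z | 1 / 2 < ‖z ^ N - 1‖ ∧ ‖z ^ N - 1‖ < q ^ N / 2}

theorem isOpen_Om (N : ℕ) (q : ℝ) : IsOpen (Om N q) := by
  have h1 : Continuous (fun z : ℂ => ‖z ^ N - 1‖) := by fun_prop
  exact (isOpen_lt continuous_const h1).inter (isOpen_lt h1 continuous_const)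

/-- `Rf N z = (2 |z^N - 1|)^(1/N)`. -/
noncomputable def Rf (N : ℕ) (z : ℂ) : ℝ := Real.exp ((Real.log ‖z ^ N - 1‖ + Real.log 2) / N)

theorem Rf_pos (N : ℕ) (z : ℂ) : 0 < Rf N z := Real.exp_pos _

theorem Rf_pow {N : ℕ} (hN : N ≠ 0) {z : ℂ} (hz : 0 < ‖z ^ N - 1‖) : Rf N z ^ N = 2 * ‖z ^ N - 1‖ := by
  unfold Rf
  rw [← Real.exp_nat_mul]
  have : (N:ℝ) * ((Real.log ‖z ^ N - 1‖ + Real.log 2) / N) = Real.log ‖z ^ N - 1‖ + Real.log 2 := by
    field_simp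
  rw [this, Real.exp_add, Real.exp_log hz, Real.exp_log (by norm_num)]
  ring

theorem Om_norm_pos {N : ℕ} {q : ℝ} {z : ℂ} (hz : z ∈ Om N q) : 0 < ‖z ^ N - 1‖ := by
  have := hz.1; linarith

theorem Rf_gt_one {N : ℕ} (hN : N ≠ 0) {q : ℝ} {z : ℂ} (hz : z ∈ Om N q) : 1 < Rf N z := by
  by_contra hcon
  push Not at hcon
  have h1 := pow_le_one₀ (n := N) (Rf_pos N z).le hcon
  rw [Rf_pow hN (Om_norm_pos hz)] at h1
  have := hz.1
  linarith

theorem Rf_lt {N : ℕ} (hN : N ≠ 0) {q : ℝ} (hq : 0 < q) {z : ℂ} (hz : z ∈ Om N q) : Rf N z < q := by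
  by_contra hcon
  push Not at hcon
  have h1 := pow_le_pow_left₀ hq.le hcon N
  rw [Rf_pow hN (Om_norm_pos hz)] at h1
  have := hz.2
  linarith

/-- derivative of `log |z^N - 1|` -/
noncomputable def pf (N : ℕ) (z : ℂ) : ℂ := (N : ℂ) * z ^ (N - 1) / (z ^ N - 1)

theorem norm_pf (N : ℕ) (z : ℂ) : ‖pf N z‖ = N * ‖z‖ ^ (N - 1) / ‖z ^ N - 1‖ := by
  unfold pf
  rw [norm_div, norm_mul, norm_pow]
  simp

theorem pf_diff (N : ℕ) (q : ℝ) : DifferentiableOn ℂ (pf N) (Om N q) := by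
  intro z hz
  have h1 : z ^ N - 1 ≠ 0 := norm_pos_iff.mp (Om_norm_pos hz)
  apply DifferentiableAt.differentiableWithinAt
  unfold pf
  exact (by fun_prop : DifferentiableAt ℂ (fun z : ℂ => (N:ℂ) * z ^ (N - 1)) z).div
    (by fun_prop : DifferentiableAt ℂ (fun z : ℂ => z ^ N - 1) z) h1

theorem hasFDerivAt_log {N : ℕ} {q : ℝ} {z : ℂ} (hz : z ∈ Om N q) :
    HasFDerivAt (fun z : ℂ => Real.log ‖z ^ N - 1‖) (innerSL ℝ ((starRingEnd ℂ) (pf N z))) z := by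
  have h0 := Om_norm_pos hz
  have h1 : z ^ N - 1 ≠ 0 := norm_pos_iff.mp h0
  have h2 : HasDerivAt (fun z : ℂ => z ^ N - 1) ((N:ℂ) * z ^ (N - 1)) z := (hasDerivAt_pow N z).sub_const 1
  have h3 := h2.hasFDerivAt.restrictScalars ℝ
  have h4 := h3.norm_sq
  have h5 : HasFDerivAt (fun z : ℂ => Real.log (‖z ^ N - 1‖ ^ 2)) _ z :=
    h4.log (by positivity)
  have h6 := h5.const_mul (1 / 2 : ℝ)
  have h7 : (fun z : ℂ => (1 / 2 : ℝ) * Real.log (‖z ^ N - 1‖ ^ 2)) = fun z : ℂ => Real.log ‖z ^ N - 1‖ := by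
    ext y
    rw [Real.log_pow]
    push_cast
    ring
  rw [h7] at h6
  refine h6.congr_fderiv ?_
  ext v
  have h8 : (innerSL ℝ ((starRingEnd ℂ) (pf N z))) v = (pf N z * v).re := by
    rw [innerSL_apply_apply, inner_conj]
  rw [h8]
  simp only [FunLike.coe_smul, Pi.smul_apply, ContinuousLinearMap.coe_comp,
    Function.comp_apply, innerSL_apply_apply, smul_eq_mul, ContinuousLinearMap.coe_restrictScalars',
    ContinuousLinearMap.toSpanSingleton_apply, Complex.inner, nsmul_eq_mul]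
  unfold pf
  have h9 : (N:ℂ) * z ^ (N - 1) / (z ^ N - 1) * v = (v * ((N:ℂ) * z ^ (N - 1)) * (starRingEnd ℂ) (z ^ N - 1)) / ((‖z ^ N - 1‖ ^ 2 : ℝ) : ℂ) := by
    have : ((‖z ^ N - 1‖ ^ 2 : ℝ) : ℂ) = (z ^ N - 1) * (starRingEnd ℂ) (z ^ N - 1) := by
      rw [Complex.mul_conj, Complex.normSq_eq_norm_sq]
    rw [this]
    have h10 : (starRingEnd ℂ) (z ^ N - 1) ≠ 0 := by
      rw [ne_eq, map_eq_zero]; exact h1
    field_simp
  rw [h9, Complex.div_ofReal_re]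
  field_simp
  simp
  ring

theorem contDiffAt_log {N : ℕ} {q : ℝ} {z : ℂ} (hz : z ∈ Om N q) {n : WithTop ℕ∞} :
    ContDiffAt ℝ n (fun z : ℂ => Real.log ‖z ^ N - 1‖) z := by
  have h1 : z ^ N - 1 ≠ 0 := norm_pos_iff.mp (Om_norm_pos hz)
  have h2 : ContDiffAt ℝ n (fun z : ℂ => z ^ N - 1) z := by fun_prop
  exact (h2.norm ℝ h1).log (norm_ne_zero_iff.mpr h1)

/-- power comparison -/
theorem le_of_pow_le {a b : ℝ} {N : ℕ} (hN : N ≠ 0) (hb : 0 ≤ b) (h : a ^ N ≤ b ^ N) : a ≤ b :=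
  le_of_pow_le_pow_left₀ hN hb h

theorem four_le (N : ℕ) (hN : N ≠ 0) : (4:ℝ) ≤ (1 + 3 / N) ^ N := by
  have hN' : (0:ℝ) < N := by positivity
  have := one_add_mul_le_pow (a := (3 / N : ℝ)) (by have : (0:ℝ) ≤ 3 / N := by positivity
                                                    linarith) N
  have h2 : (N:ℝ) * (3 / N) = 3 := by field_simp
  rw [h2] at this
  linarith

theorem Rf_le {N : ℕ} (hN : N ≠ 0) {z : ℂ} (hz : 0 < ‖z ^ N - 1‖) :
    Rf N z ≤ (1 + 3 / N) * max 1 ‖z‖ := by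
  have hN' : (0:ℝ) < N := by positivity
  apply le_of_pow_le hN (by positivity)
  rw [Rf_pow hN hz, mul_pow]
  have h1 : ‖z ^ N - 1‖ ≤ ‖z‖ ^ N + 1 := by
    have := norm_sub_le (z ^ N) 1
    rw [norm_pow, norm_one] at this
    exact this
  have h2 : ‖z‖ ^ N ≤ (max 1 ‖z‖) ^ N := pow_le_pow_left₀ (norm_nonneg _) (le_max_right _ _) N
  have h3 : 1 ≤ (max 1 ‖z‖) ^ N := one_le_pow₀ (le_max_left _ _)
  have h4 := four_le N hN
  have h5 : 4 * (max 1 ‖z‖) ^ N ≤ (1 + 3 / N) ^ N * (max 1 ‖z‖) ^ N :=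
    mul_le_mul_of_nonneg_right h4 (by positivity)
  linarith

/-- `(1+c/N)^N ≤ exp c` -/
theorem one_add_pow_le (c : ℝ) (hc : 0 ≤ c) (N : ℕ) (hN : N ≠ 0) : (1 + c / N) ^ N ≤ Real.exp c := by
  have hN' : (0:ℝ) < N := by positivity
  have h1 : 1 + c / N ≤ Real.exp (c / N) := by
    have := Real.add_one_le_exp (c / N); linarith
  calc (1 + c / N) ^ N ≤ (Real.exp (c / N)) ^ N := pow_le_pow_left₀ (by positivity) h1 N
    _ = Real.exp c := by
      rw [← Real.exp_nat_mul]; congr 1; field_simp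

theorem Rf_ge_of {N : ℕ} (hN : N ≠ 0) {z : ℂ} (hz : 0 < ‖z ^ N - 1‖) (m : ℝ) (hm : 0 < m) (c : ℝ) (hc : 0 ≤ c)
    (h : Real.exp c * m ^ N ≤ 2 * ‖z ^ N - 1‖) : (1 + c / N) * m ≤ Rf N z := by
  have hN' : (0:ℝ) < N := by positivity
  apply le_of_pow_le hN (Rf_pos N z).le
  rw [Rf_pow hN hz, mul_pow]
  have h1 := mul_le_mul_of_nonneg_right (one_add_pow_le c hc N hN) (by positivity : 0 ≤ m ^ N)
  linarith

theorem exp_half_lt : Real.exp (1 / 2) < 2 := by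
  have h1 := Real.exp_one_lt_d9
  have h2 : Real.exp (1 / 2) * Real.exp (1 / 2) = Real.exp 1 := by rw [← Real.exp_add]; norm_num
  have h3 := Real.exp_pos (1 / 2)
  nlinarith

theorem exp_tenth_lt : Real.exp (1 / 10) < 1.2 := by
  have h1 := exp_half_lt
  have h2 : (Real.exp (1 / 10)) ^ 5 = Real.exp (1 / 2) := by rw [← Real.exp_nat_mul]; norm_num
  have h3 := Real.exp_pos (1 / 10)
  by_contra hcon
  push Not at hcon
  have h4 := pow_le_pow_left₀ (by norm_num : (0:ℝ) ≤ 1.2) hcon 5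
  rw [h2] at h4
  norm_num at h4
  linarith

theorem norm_sub_one_sq (w : ℂ) : ‖w - 1‖ ^ 2 = ‖w‖ ^ 2 - 2 * w.re + 1 := by
  rw [← Complex.normSq_eq_norm_sq, ← Complex.normSq_eq_norm_sq,
    Complex.normSq_apply, Complex.normSq_apply]
  simp
  ring

/-- on good lines -/
theorem Rf_good {N : ℕ} (hN : N ≠ 0) {z : ℂ} (hz : (z ^ N).re ≤ 0) :
    (1 + (1 / 2) / N) * max 1 ‖z‖ ≤ Rf N z := by
  have h1 : (max 1 ‖z‖) ^ N ≤ ‖z ^ N - 1‖ := by
    have hsq : ‖z ^ N - 1‖ ^ 2 = ‖z‖ ^ N * ‖z‖ ^ N - 2 * (z ^ N).re + 1 := by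
      rw [norm_sub_one_sq, norm_pow]; ring
    apply le_of_sq_le_sq _ (norm_nonneg _)
    rw [hsq]
    rcases le_total 1 ‖z‖ with h | h
    · rw [max_eq_right h]
      nlinarith
    · rw [max_eq_left h, one_pow, one_pow]
      have : 0 ≤ ‖z‖ ^ N * ‖z‖ ^ N := by positivity
      linarith
  have h2 : 0 < ‖z ^ N - 1‖ := lt_of_lt_of_le (by positivity) h1
  apply Rf_ge_of hN h2 _ (by positivity) _ (by norm_num)
  have h3 := exp_half_lt
  have h4 : 0 < (max 1 ‖z‖) ^ N := by positivity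
  nlinarith

end Pool.Agent.Helper533.ConvexObstacle
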