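import Pool.Agent.Helper533.ConvexObstacle.Neg

open MeasureTheory Metric Set

namespace Pool.Agent.Helper533.ConvexObstacle

theorem int_sq_inv' (e : ℝ) (he : 0 < e) (b : ℝ) (hb : 1 ≤ b) :
    ∫ t in (1:ℝ)..b, 1 / (t - 1 + e) ^ 2 ≤ 1 / e := by
  have h := int_sq_inv (1 / e) (by positivity) b hb
  have h1 : ∫ t in (1:ℝ)..b, 1 / (t - 1 + e) ^ 2 = ∫ t in (1:ℝ)..b, 1 / e ^ 2 * (1 / (1 + 1 / e * (t - 1)) ^ 2) := by
    apply intervalIntegral.integral_congr
    intro t ht
    rw [uIcc_of_le hb] at ht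
    have h2 : t - 1 + e ≠ 0 := by
      have := ht.1
      have : 0 < t - 1 + e := by linarith
      exact this.ne'
    show 1 / (t - 1 + e) ^ 2 = 1 / e ^ 2 * (1 / (1 + 1 / e * (t - 1)) ^ 2)
    have h3 : 1 + 1 / e * (t - 1) = (t - 1 + e) / e := by field_simp; ring
    rw [h3]
    field_simp
  rw [h1, intervalIntegral.integral_const_mul]
  calc 1 / e ^ 2 * ∫ t in (1:ℝ)..b, 1 / (1 + 1 / e * (t - 1)) ^ 2 ≤ 1 / e ^ 2 * (1 / (1 / e)) :=
        mul_le_mul_of_nonneg_left h (by positivity)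
    _ = 1 / e := by field_simp

namespace Ctx

variable {P : Prof} {N : ℕ} {r : ℝ} {φ : ℂ → ℝ} (h : Ctx P N r φ)
include h

theorem good_ray (θ t : ℝ) (hcos : Real.cos (N * θ) ≤ 0) (ht0 : 0 < t) (ht : t ≤ P.ρ₂) :
    zz t θ ∈ Om N P.q ∧ P.g / 6 ≤ P.q - Rf N (zz t θ) ∧ (1 + (1 / 2) / N) * max 1 t ≤ Rf N (zz t θ) := by
  have hn : ‖zz t θ‖ = t := norm_zz t θ ht0.le
  have hre : (zz t θ ^ N).re ≤ 0 := by
    rw [zz_pow_re]
    exact mul_nonpos_of_nonneg_of_nonpos (by positivity) hcos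
  have h1 := Rf_good h.big.ne hre
  rw [hn] at h1
  have h2 : 1 / 2 < ‖zz t θ ^ N - 1‖ := by
    have h3 : 1 ≤ ‖zz t θ ^ N - 1‖ := by
      apply le_of_sq_le_sq _ (norm_nonneg _)
      rw [norm_sub_one_sq]
      nlinarith [sq_nonneg ‖zz t θ ^ N‖]
    linarith
  obtain ⟨h4, h5⟩ := P.mem_Om h.big h2 (by rw [hn]; exact ht)
  exact ⟨h4, h5, h1⟩

/-- the key estimate near the touching point, on good rays -/
theorem est_good (θ ρs ρ' : ℝ) (hcos : Real.cos (N * θ) ≤ 0) (h1 : r ≤ ρs) (h2 : ρs ≤ 1)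
    (hz : φ (zz ρs θ) = 0) (h3 : P.ρ₁ ≤ ρ') (h4 : ρ' ≤ P.ρ₂) :
    φ (zz ρ' θ) ^ 2 ≤ (16 * N ^ 2 * (1 - ρs) + 288 * N) / P.c ^ 2 * P.DD N r φ θ := by
  have hr1 := h.hr1; have hr2 := h.hr2
  have hNp := h.Npos
  have hg := P.g_pos
  have hg2 := P.g_le
  have hc0 := P.hc
  have hρ1 := P.ρ₁_gt
  have hρ12 := P.ρ₁_lt
  have hρ2 := P.ρ₂_lt
  have hD := h.DD_nonneg θ
  have hi := h.big.inv
  -- part a
  have ha := h.two_pt θ ρs 1 h1 h2 (by norm_num) (P.c * (1 / (2 * N))) 1 (by positivity) one_pos (by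
    intro t ht
    obtain ⟨e1, e2, e3⟩ := h.good_ray θ t hcos (by linarith [ht.1]) (by linarith [ht.2])
    rw [max_eq_left ht.2, mul_one] at e3
    have e4 : 1 / (2 * (N:ℝ)) ≤ P.T N (zz t θ) := by
      unfold Prof.T
      have e5 : (1 / 2) / (N:ℝ) = 1 / (2 * N) := by field_simp
      have e6 : 1 / (2 * (N:ℝ)) = (1 / 2) * (1 / N) := by field_simp
      apply le_min
      · linarith
      · linarith
    rw [div_one]
    exact (mul_le_mul_of_nonneg_left e4 hc0.le).trans (P.U_ge h.big.ne e1))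
  rw [hz, sub_zero] at ha
  have ha' : φ (zz 1 θ) ^ 2 ≤ 8 * N ^ 2 * (1 - ρs) / P.c ^ 2 * P.DD N r φ θ := by
    have e : (P.c * (1 / (2 * (N:ℝ)))) ^ 2 * φ (zz 1 θ) ^ 2 = P.c ^ 2 / (4 * N ^ 2) * φ (zz 1 θ) ^ 2 := by
      field_simp; ring
    rw [e] at ha
    have e2 : φ (zz 1 θ) ^ 2 = (4 * N ^ 2 / P.c ^ 2) * (P.c ^ 2 / (4 * N ^ 2) * φ (zz 1 θ) ^ 2) := by
      field_simp
    rw [e2]
    calc (4 * N ^ 2 / P.c ^ 2) * (P.c ^ 2 / (4 * N ^ 2) * φ (zz 1 θ) ^ 2)
        ≤ (4 * N ^ 2 / P.c ^ 2) * (2 * 1 ^ 2 * (1 - ρs) * P.DD N r φ θ) :=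
          mul_le_mul_of_nonneg_left ha (by positivity)
      _ = _ := by ring
  -- part b
  have hfc : Continuous (fun t => fderiv ℝ φ (zz t θ) (Complex.exp (θ * Complex.I))) :=
    ((h.hφ.continuous_fderiv (by norm_num)).comp (zz_cont1 θ)).clm_apply continuous_const
  have hb1 : φ (zz ρ' θ) - φ (zz 1 θ) = ∫ t in (1:ℝ)..ρ', fderiv ℝ φ (zz t θ) (Complex.exp (θ * Complex.I)) := by
    rw [intervalIntegral.integral_eq_sub_of_hasDerivAt (f := fun t => φ (zz t θ))
      (fun t _ => hasDerivAt_ray φ h.hφ t θ) (hfc.intervalIntegrable _ _)]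
  set e : ℝ := 1 / (2 * N) with he
  have he0 : 0 < e := by rw [he]; positivity
  set W : ℝ → ℝ := fun t => (P.c / 6) ^ 2 * (t - 1 + e) ^ 2 with hW
  have hWpos : ∀ t ∈ Icc 1 ρ', 0 < W t := by
    intro t ht
    have : 0 < t - 1 + e := by linarith [ht.1]
    simp only [hW]; positivity
  have hWc : Continuous W := by simp only [hW]; fun_prop
  have hb2 := cs_weighted 1 ρ' (by linarith) _ W hfc.continuousOn hWc.continuousOn hWpos
  rw [← hb1] at hb2
  have hb3 : ∫ t in (1:ℝ)..ρ', 1 / W t ≤ 36 / P.c ^ 2 * (2 * N) := by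
    have e1 : ∫ t in (1:ℝ)..ρ', 1 / W t = ∫ t in (1:ℝ)..ρ', 36 / P.c ^ 2 * (1 / (t - 1 + e) ^ 2) := by
      apply intervalIntegral.integral_congr
      intro t ht
      rw [uIcc_of_le (by linarith)] at ht
      have h5 : t - 1 + e ≠ 0 := by
        have : 0 < t - 1 + e := by linarith [ht.1]
        exact this.ne'
      simp only [hW]
      field_simp
      norm_num
    rw [e1, intervalIntegral.integral_const_mul]
    apply mul_le_mul_of_nonneg_left _ (by positivity)
    have := int_sq_inv' e he0 ρ' (by linarith)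
    have e2 : 1 / e = 2 * N := by rw [he]; field_simp
    rwa [e2] at this
  have hb4 : ∫ t in (1:ℝ)..ρ', W t * (fderiv ℝ φ (zz t θ) (Complex.exp (θ * Complex.I))) ^ 2 ≤ 2 * P.DD N r φ θ := by
    refine le_trans ?_ (h.dint θ 1 ρ' hr2.le (by linarith) (by linarith))
    apply intervalIntegral.integral_mono_on (by linarith)
    · exact (hWc.mul (hfc.pow 2)).intervalIntegrable _ _
    · exact (h.dd_cont.comp (zz_cont1 θ)).intervalIntegrable _ _
    · intro t ht
      obtain ⟨e1, e2, e3⟩ := h.good_ray θ t hcos (by linarith [ht.1]) (by linarith [ht.2])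
      rw [max_eq_right ht.1] at e3
      have e4 : (t - 1 + e) / 6 ≤ P.T N (zz t θ) := by
        have e5 : (1 / 2) / (N:ℝ) = e := by rw [he]; field_simp
        rw [e5] at e3
        have e6 : t + e ≤ Rf N (zz t θ) := by nlinarith [ht.1]
        have e7 : e ≤ P.g / 36 := by
          have : e = (1 / 2) * (1 / N) := by rw [he]; field_simp
          linarith
        unfold Prof.T
        apply le_min
        · linarith [ht.1]
        · have : t - 1 ≤ 2 * P.g / 3 := by
            have : P.ρ₂ = 1 + 2 * P.g / 3 := rfl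
            linarith [ht.2]
          linarith
      have e8 : P.c / 6 * (t - 1 + e) ≤ P.U N (zz t θ) := by
        refine le_trans ?_ (P.U_ge h.big.ne e1)
        calc P.c / 6 * (t - 1 + e) = P.c * ((t - 1 + e) / 6) := by ring
          _ ≤ _ := mul_le_mul_of_nonneg_left e4 hc0.le
      have e9 : W t ≤ P.U N (zz t θ) ^ 2 := by
        simp only [hW]
        rw [← mul_pow]
        apply pow_le_pow_left₀ _ e8
        have : 0 < t - 1 + e := by linarith [ht.1]
        positivity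
      have e10 : (fderiv ℝ φ (zz t θ) (Complex.exp (θ * Complex.I))) ^ 2 ≤ ‖gradient φ (zz t θ)‖ ^ 2 := by
        rw [norm_gradient, ← sq_abs, ← Real.norm_eq_abs]
        apply pow_le_pow_left₀ (norm_nonneg _)
        have := (fderiv ℝ φ (zz t θ)).le_opNorm (Complex.exp (θ * Complex.I))
        rwa [Complex.norm_exp_ofReal_mul_I, mul_one] at this
      exact mul_le_mul e9 e10 (sq_nonneg _) (sq_nonneg _)
  have hb5 : (φ (zz ρ' θ) - φ (zz 1 θ)) ^ 2 ≤ 144 * N / P.c ^ 2 * P.DD N r φ θ := by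
    have i1 : 0 ≤ ∫ t in (1:ℝ)..ρ', W t * (fderiv ℝ φ (zz t θ) (Complex.exp (θ * Complex.I))) ^ 2 := by
      apply intervalIntegral.integral_nonneg (by linarith)
      intro t ht
      exact mul_nonneg (hWpos t ht).le (sq_nonneg _)
    calc (φ (zz ρ' θ) - φ (zz 1 θ)) ^ 2 ≤ (∫ t in (1:ℝ)..ρ', 1 / W t) *
          ∫ t in (1:ℝ)..ρ', W t * (fderiv ℝ φ (zz t θ) (Complex.exp (θ * Complex.I))) ^ 2 := hb2
      _ ≤ (36 / P.c ^ 2 * (2 * N)) * (2 * P.DD N r φ θ) := mul_le_mul hb3 hb4 i1 (by positivity)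
      _ = _ := by ring
  have hfin : φ (zz ρ' θ) ^ 2 ≤ 2 * φ (zz 1 θ) ^ 2 + 2 * (φ (zz ρ' θ) - φ (zz 1 θ)) ^ 2 := by
    nlinarith [sq_nonneg (φ (zz ρ' θ) - 2 * φ (zz 1 θ))]
  have hfin2 : (16 * (N:ℝ) ^ 2 * (1 - ρs) + 288 * N) / P.c ^ 2 * P.DD N r φ θ =
      2 * (8 * N ^ 2 * (1 - ρs) / P.c ^ 2 * P.DD N r φ θ) + 2 * (144 * N / P.c ^ 2 * P.DD N r φ θ) := by
    ring
  rw [hfin2]
  linarith

theorem SS_good (θ ρs : ℝ) (hcos : Real.cos (N * θ) ≤ 0) (h1 : r ≤ ρs) (h2 : ρs ≤ 1)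
    (hz : φ (zz ρs θ) = 0) :
    P.SS φ θ ≤ P.g / 3 * ((16 * N ^ 2 * (1 - ρs) + 288 * N) / P.c ^ 2) * P.DD N r φ θ := by
  have hc : Continuous (fun t => φ (zz t θ) ^ 2) := (h.hφ.continuous.comp (zz_cont1 θ)).pow 2
  have h3 : P.SS φ θ ≤ ∫ t in P.ρ₁..P.ρ₂, (16 * N ^ 2 * (1 - ρs) + 288 * N) / P.c ^ 2 * P.DD N r φ θ := by
    unfold Prof.SS
    apply intervalIntegral.integral_mono_on P.ρ₁_lt.le (hc.intervalIntegrable _ _) intervalIntegrable_const
    intro t ht
    exact h.est_good θ ρs t hcos h1 h2 hz ht.1 ht.2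
  rw [intervalIntegral.integral_const, P.ρ_sub, smul_eq_mul] at h3
  linarith

/-- total energy -/
theorem DD_cont : Continuous (fun θ => P.DD N r φ θ) := by
  unfold Prof.DD
  apply intervalIntegral.continuous_parametric_intervalIntegral_of_continuous' (f := fun θ t => t * P.dd N φ (zz t θ))
  have : Continuous (fun p : ℝ × ℝ => zz p.2 p.1) := by unfold zz; fun_prop
  exact continuous_snd.mul (h.dd_cont.comp this)

theorem MM_cont : Continuous (fun θ => P.MM N r φ θ) := by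
  unfold Prof.MM
  apply intervalIntegral.continuous_parametric_intervalIntegral_of_continuous' (f := fun θ t => t * P.mm N φ (zz t θ))
  have : Continuous (fun p : ℝ × ℝ => zz p.2 p.1) := by unfold zz; fun_prop
  exact continuous_snd.mul (h.mm_cont.comp this)

theorem NN_cont : Continuous (fun θ => P.NN N r φ θ) := by
  unfold Prof.NN
  apply intervalIntegral.continuous_parametric_intervalIntegral_of_continuous'
    (f := fun θ t => t * (Prof.om N (zz t θ) * P.mm N φ (zz t θ)))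
  have : Continuous (fun p : ℝ × ℝ => zz p.2 p.1) := by unfold zz; fun_prop
  exact continuous_snd.mul (((Prof.om_cont N).comp this).mul (h.mm_cont.comp this))

theorem SS_cont : Continuous (fun θ => P.SS φ θ) := by
  unfold Prof.SS
  apply intervalIntegral.continuous_parametric_intervalIntegral_of_continuous' (f := fun θ t => φ (zz t θ) ^ 2)
  have : Continuous (fun p : ℝ × ℝ => zz p.2 p.1) := by unfold zz; fun_prop
  exact (h.hφ.continuous.comp this).pow 2

/-- comparison of core masses on two rays -/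
theorem SS_comp (θ θ' : ℝ) (hθ : θ ∈ Icc (-Real.pi) Real.pi) (hθ' : θ' ∈ Icc (-Real.pi) Real.pi) :
    P.SS φ θ' ≤ 2 * P.SS φ θ + 4 * Real.pi * (38 / (P.c ^ 2 * P.g ^ 2)) * ∫ τ in (-Real.pi)..Real.pi, P.DD N r φ τ := by
  have hg := P.g_pos
  have hg2 := P.g_le
  have hc0 := P.hc
  have hpi := Real.pi_pos
  have hr1 := h.hr1; have hr2 := h.hr2
  have hρ1 := P.ρ₁_gt
  have hρ12 := P.ρ₁_lt
  have hρ2 := P.ρ₂_lt
  have hc : ∀ θ, Continuous (fun t => φ (zz t θ) ^ 2) := fun θ => (h.hφ.continuous.comp (zz_cont1 θ)).pow 2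
  set f' : ℝ → ℝ → ℝ := fun t τ => fderiv ℝ φ (zz t τ) (zz t τ * Complex.I) with hf'
  have hf'c2 : Continuous (fun p : ℝ × ℝ => f' p.1 p.2) := by
    simp only [hf']
    exact ((h.hφ.continuous_fderiv (by norm_num)).comp zz_cont).clm_apply (zz_cont.mul continuous_const)
  have hf'c : ∀ t, Continuous (fun τ => f' t τ) := fun t =>
    hf'c2.comp (by fun_prop : Continuous fun τ : ℝ => (t, τ))
  -- pointwise
  have hpt : ∀ t, φ (zz t θ') ^ 2 ≤ 2 * φ (zz t θ) ^ 2 + 4 * Real.pi * ∫ τ in (-Real.pi)..Real.pi, f' t τ ^ 2 := by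
    intro t
    have h1 : (φ (zz t θ') - φ (zz t θ)) ^ 2 ≤ 2 * Real.pi * ∫ τ in (-Real.pi)..Real.pi, f' t τ ^ 2 := by
      have key : ∀ a b : ℝ, -Real.pi ≤ a → a ≤ b → b ≤ Real.pi →
          (φ (zz t b) - φ (zz t a)) ^ 2 ≤ 2 * Real.pi * ∫ τ in (-Real.pi)..Real.pi, f' t τ ^ 2 := by
        intro a b ha hab hb
        have e1 : φ (zz t b) - φ (zz t a) = ∫ τ in a..b, f' t τ := by
          rw [intervalIntegral.integral_eq_sub_of_hasDerivAt (f := fun τ => φ (zz t τ))
            (fun τ _ => hasDerivAt_circle φ h.hφ t τ) ((hf'c t).intervalIntegrable _ _)]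
        have e2 := cs_plain a b hab _ (hf'c t).continuousOn
        rw [← e1] at e2
        have hsq : Continuous (fun τ => f' t τ ^ 2) := (hf'c t).pow 2
        have e3 : ∫ τ in a..b, f' t τ ^ 2 ≤ ∫ τ in (-Real.pi)..Real.pi, f' t τ ^ 2 := by
          have e4 : ∫ τ in (-Real.pi)..Real.pi, f' t τ ^ 2 = (∫ τ in (-Real.pi)..a, f' t τ ^ 2) +
              (∫ τ in a..b, f' t τ ^ 2) + ∫ τ in b..Real.pi, f' t τ ^ 2 := by
            rw [intervalIntegral.integral_add_adjacent_intervals, intervalIntegral.integral_add_adjacent_intervals]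
            all_goals exact hsq.intervalIntegrable _ _
          rw [e4]
          have e5 : 0 ≤ ∫ τ in (-Real.pi)..a, f' t τ ^ 2 :=
            intervalIntegral.integral_nonneg ha (fun _ _ => sq_nonneg _)
          have e6 : 0 ≤ ∫ τ in b..Real.pi, f' t τ ^ 2 :=
            intervalIntegral.integral_nonneg hb (fun _ _ => sq_nonneg _)
          linarith
        have e7 : 0 ≤ ∫ τ in a..b, f' t τ ^ 2 := intervalIntegral.integral_nonneg hab (fun _ _ => sq_nonneg _)
        calc _ ≤ (b - a) * ∫ τ in a..b, f' t τ ^ 2 := e2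
          _ ≤ (2 * Real.pi) * ∫ τ in (-Real.pi)..Real.pi, f' t τ ^ 2 :=
            mul_le_mul (by linarith) e3 e7 (by positivity)
      rcases le_total θ θ' with hle | hle
      · exact key θ θ' hθ.1 hle hθ'.2
      · have := key θ' θ hθ'.1 hle hθ.2
        have e : (φ (zz t θ') - φ (zz t θ)) ^ 2 = (φ (zz t θ) - φ (zz t θ')) ^ 2 := by ring
        rw [e]; exact this
    nlinarith [sq_nonneg (φ (zz t θ') - 2 * φ (zz t θ))]
  have hG : Continuous (fun t => ∫ τ in (-Real.pi)..Real.pi, f' t τ ^ 2) := by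
    apply intervalIntegral.continuous_parametric_intervalIntegral_of_continuous' (f := fun t τ => f' t τ ^ 2)
    exact hf'c2.pow 2
  have h1 : P.SS φ θ' ≤ ∫ t in P.ρ₁..P.ρ₂, (2 * φ (zz t θ) ^ 2 + 4 * Real.pi * ∫ τ in (-Real.pi)..Real.pi, f' t τ ^ 2) := by
    unfold Prof.SS
    apply intervalIntegral.integral_mono_on hρ12.le ((hc θ').intervalIntegrable _ _)
      (((hc θ).const_mul _).add (hG.const_mul _) |>.intervalIntegrable _ _)
    intro t _
    exact hpt t
  rw [intervalIntegral.integral_add (((hc θ).const_mul _).intervalIntegrable _ _)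
    ((hG.const_mul _).intervalIntegrable _ _), intervalIntegral.integral_const_mul,
    intervalIntegral.integral_const_mul] at h1
  have hswap : ∫ t in P.ρ₁..P.ρ₂, ∫ τ in (-Real.pi)..Real.pi, f' t τ ^ 2 =
      ∫ τ in (-Real.pi)..Real.pi, ∫ t in P.ρ₁..P.ρ₂, f' t τ ^ 2 := by
    apply intervalIntegral_intervalIntegral_swap
    have hcc : Continuous (Function.uncurry fun t τ => f' t τ ^ 2) := hf'c2.pow 2
    apply (hcc.continuousOn.integrableOn_compact (K := Icc P.ρ₁ P.ρ₂ ×ˢ Icc (-Real.pi) Real.pi)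
      (isCompact_Icc.prod isCompact_Icc)).mono_set
    rw [uIoc_of_le hρ12.le, uIoc_of_le (by linarith)]
    exact prod_mono Ioc_subset_Icc_self Ioc_subset_Icc_self
  have h2 : ∫ τ in (-Real.pi)..Real.pi, ∫ t in P.ρ₁..P.ρ₂, f' t τ ^ 2 ≤
      ∫ τ in (-Real.pi)..Real.pi, 38 / (P.c ^ 2 * P.g ^ 2) * P.DD N r φ τ := by
    apply intervalIntegral.integral_mono_on (by linarith)
    · apply Continuous.intervalIntegrable
      apply intervalIntegral.continuous_parametric_intervalIntegral_of_continuous' (f := fun τ t => f' t τ ^ 2)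
      exact (hf'c2.comp continuous_swap).pow 2
    · exact (h.DD_cont.const_mul _).intervalIntegrable _ _
    · intro τ _
      have hdc : Continuous (fun t => t * P.dd N φ (zz t τ)) := continuous_id.mul (h.dd_cont.comp (zz_cont1 τ))
      calc ∫ t in P.ρ₁..P.ρ₂, f' t τ ^ 2 ≤ ∫ t in P.ρ₁..P.ρ₂, 38 / (P.c ^ 2 * P.g ^ 2) * (t * P.dd N φ (zz t τ)) := by
            apply intervalIntegral.integral_mono_on hρ12.le
            · exact ((hf'c2.comp (by fun_prop : Continuous fun t : ℝ => (t, τ))).pow 2).intervalIntegrable _ _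
            · exact (hdc.const_mul _).intervalIntegrable _ _
            · intro t ht
              obtain ⟨e1, e2⟩ := h.core_Om τ t ht.1 ht.2
              have e3 := P.U_ge h.big.ne e1
              have e4 : P.c * (P.g / 6) ≤ P.U N (zz t τ) := (mul_le_mul_of_nonneg_left e2 hc0.le).trans e3
              have e5 : (P.c * (P.g / 6)) ^ 2 ≤ P.U N (zz t τ) ^ 2 := pow_le_pow_left₀ (by positivity) e4 2
              have ht1 : 1 ≤ t := by linarith [ht.1]
              have ht2 : t ≤ 1.01 := by linarith [ht.2]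
              have e6 : f' t τ ^ 2 ≤ t ^ 2 * ‖gradient φ (zz t τ)‖ ^ 2 := by
                rw [norm_gradient, ← mul_pow, ← sq_abs, ← Real.norm_eq_abs]
                apply pow_le_pow_left₀ (norm_nonneg _)
                have := (fderiv ℝ φ (zz t τ)).le_opNorm (zz t τ * Complex.I)
                rw [norm_mul, Complex.norm_I, mul_one, norm_zz t τ (by linarith)] at this
                rw [mul_comm]
                exact this
              have e7 : P.dd N φ (zz t τ) = P.U N (zz t τ) ^ 2 * ‖gradient φ (zz t τ)‖ ^ 2 := rfl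
              rw [e7]
              have e8 : (P.c * (P.g / 6)) ^ 2 * ‖gradient φ (zz t τ)‖ ^ 2 ≤ P.U N (zz t τ) ^ 2 * ‖gradient φ (zz t τ)‖ ^ 2 :=
                mul_le_mul_of_nonneg_right e5 (sq_nonneg _)
              have e9 : ‖gradient φ (zz t τ)‖ ^ 2 = 36 / (P.c ^ 2 * P.g ^ 2) * ((P.c * (P.g / 6)) ^ 2 * ‖gradient φ (zz t τ)‖ ^ 2) := by
                field_simp; norm_num
              have e10 : ‖gradient φ (zz t τ)‖ ^ 2 ≤ 36 / (P.c ^ 2 * P.g ^ 2) * (P.U N (zz t τ) ^ 2 * ‖gradient φ (zz t τ)‖ ^ 2) := by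
                rw [e9]
                apply mul_le_mul_of_nonneg_left _ (by positivity)
                rw [← e9]; exact e8
              set Gd := P.U N (zz t τ) ^ 2 * ‖gradient φ (zz t τ)‖ ^ 2 with hGd
              have hGd0 : 0 ≤ Gd := by positivity
              calc f' t τ ^ 2 ≤ t ^ 2 * ‖gradient φ (zz t τ)‖ ^ 2 := e6
                _ ≤ t ^ 2 * (36 / (P.c ^ 2 * P.g ^ 2) * Gd) := mul_le_mul_of_nonneg_left e10 (sq_nonneg _)
                _ = (36 * t) / (P.c ^ 2 * P.g ^ 2) * (t * Gd) := by ring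
                _ ≤ 38 / (P.c ^ 2 * P.g ^ 2) * (t * Gd) := by
                    have : 36 * t ≤ 38 := by linarith
                    gcongr
        _ = 38 / (P.c ^ 2 * P.g ^ 2) * ∫ t in P.ρ₁..P.ρ₂, t * P.dd N φ (zz t τ) :=
            intervalIntegral.integral_const_mul _ _
        _ ≤ _ := by
            apply mul_le_mul_of_nonneg_left _ (by positivity)
            unfold Prof.DD
            have e1 : ∫ t in r..2, t * P.dd N φ (zz t τ) = (∫ t in r..P.ρ₁, t * P.dd N φ (zz t τ)) +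
                (∫ t in P.ρ₁..P.ρ₂, t * P.dd N φ (zz t τ)) + ∫ t in P.ρ₂..2, t * P.dd N φ (zz t τ) := by
              rw [intervalIntegral.integral_add_adjacent_intervals, intervalIntegral.integral_add_adjacent_intervals]
              all_goals exact hdc.intervalIntegrable _ _
            rw [e1]
            have e2 : 0 ≤ ∫ t in r..P.ρ₁, t * P.dd N φ (zz t τ) := by
              apply intervalIntegral.integral_nonneg (by linarith)
              intro t ht
              exact mul_nonneg (by linarith [ht.1]) (P.dd_nonneg _ _ _)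
            have e3 : 0 ≤ ∫ t in P.ρ₂..2, t * P.dd N φ (zz t τ) := by
              apply intervalIntegral.integral_nonneg (by linarith)
              intro t ht
              exact mul_nonneg (by linarith [ht.1]) (P.dd_nonneg _ _ _)
            linarith
  rw [intervalIntegral.integral_const_mul] at h2
  rw [hswap] at h1
  have h3 : 4 * Real.pi * ∫ τ in (-Real.pi)..Real.pi, ∫ t in P.ρ₁..P.ρ₂, f' t τ ^ 2 ≤
      4 * Real.pi * (38 / (P.c ^ 2 * P.g ^ 2) * ∫ τ in (-Real.pi)..Real.pi, P.DD N r φ τ) :=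
    mul_le_mul_of_nonneg_left h2 (by positivity)
  have h4 : P.SS φ θ = ∫ t in P.ρ₁..P.ρ₂, φ (zz t θ) ^ 2 := rfl
  rw [← h4] at h1
  linarith

end Ctx

end Pool.Agent.Helper533.ConvexObstacle
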