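import Pool.Agent.Helper533.ConvexObstacle.Polar

open MeasureTheory Metric Set

namespace Pool.Agent.Helper533.ConvexObstacle

theorem norm_exp_sub (a b : ℝ) : ‖Complex.exp (a * Complex.I) - Complex.exp (b * Complex.I)‖ ≤ |a - b| := by
  have h1 : Complex.exp (a * Complex.I) - Complex.exp (b * Complex.I) =
      Complex.exp (b * Complex.I) * (Complex.exp (Complex.I * ((a - b : ℝ) : ℂ)) - 1) := by
    rw [mul_sub, mul_one, ← Complex.exp_add]
    congr 2
    push_cast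
    ring
  rw [h1, norm_mul, Complex.norm_exp_ofReal_mul_I, one_mul]
  have := Real.norm_exp_I_mul_ofReal_sub_one_le (x := a - b)
  rwa [Real.norm_eq_abs] at this

theorem norm_zz_sub (ρ a b : ℝ) (hρ : 0 ≤ ρ) : ‖zz ρ a - zz ρ b‖ ≤ ρ * |a - b| := by
  unfold zz
  rw [← mul_sub, norm_mul]
  have : ‖(ρ:ℂ)‖ = ρ := by simp [abs_of_nonneg hρ]
  rw [this]
  exact mul_le_mul_of_nonneg_left (norm_exp_sub a b) hρ

/-- a convex set containing a disc and a point contains a cone at this point -/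
theorem cone_mem (K : Set ℂ) (hK : Convex ℝ K) (r : ℝ) (hr : 0 < r) (hrK : closedBall (0:ℂ) r ⊆ K)
    (σ₀ σ α θ s : ℝ) (hσ₀ : 0 < σ₀) (hσ₀1 : σ₀ ≤ 1) (hσ : σ₀ ≤ σ) (hp : zz σ α ∈ K) (hs : |θ - α| ≤ s) (hs0 : 0 < s)
    (hsr : s ≤ r) : zz ((1 - s / r) * σ₀) θ ∈ K := by
  have h0K : (0:ℂ) ∈ K := hrK (mem_closedBall_self hr.le)
  have hσpos : 0 < σ := by linarith
  have hp0 : zz σ₀ α ∈ K := by
    have h1 : zz σ₀ α = (σ₀ / σ) • zz σ α + (1 - σ₀ / σ) • (0:ℂ) := by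
      rw [smul_zero, add_zero, Complex.real_smul]
      unfold zz
      have : (σ:ℂ) ≠ 0 := by
        have : σ ≠ 0 := by linarith
        exact_mod_cast this
      push_cast
      field_simp
    rw [h1]
    have h2 : σ₀ / σ ≤ 1 := by rw [div_le_one (by linarith)]; exact hσ
    have h3 : 0 ≤ σ₀ / σ := by positivity
    exact hK hp h0K h3 (by linarith) (by ring)
  set t := s / r with ht
  have ht0 : 0 < t := by positivity
  have ht1 : t ≤ 1 := by rw [ht, div_le_one hr]; exact hsr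
  set ρ := (1 - t) * σ₀ with hρ
  have hρ0 : 0 ≤ ρ := mul_nonneg (by linarith) hσ₀.le
  have hρ1 : ρ ≤ 1 := by
    rw [hρ]
    have : (1 - t) ≤ 1 := by linarith
    nlinarith
  set b : ℂ := (1 / t) • (zz ρ θ - zz ρ α) with hb
  have hbK : b ∈ K := by
    apply hrK
    rw [mem_closedBall, dist_zero_right, hb, norm_smul, Real.norm_of_nonneg (by positivity)]
    have h4 := norm_zz_sub ρ θ α hρ0
    have h5 : ρ * |θ - α| ≤ 1 * s := mul_le_mul hρ1 hs (abs_nonneg _) (by norm_num)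
    calc 1 / t * ‖zz ρ θ - zz ρ α‖ ≤ 1 / t * (1 * s) := mul_le_mul_of_nonneg_left (h4.trans h5) (by positivity)
      _ = r := by rw [ht]; field_simp
  have h6 : zz ρ θ = (1 - t) • zz σ₀ α + t • b := by
    have e1 : (1 - t) • zz σ₀ α = zz ρ α := by
      rw [Complex.real_smul]
      unfold zz
      rw [hρ]
      push_cast
      ring
    rw [e1, hb, smul_smul, mul_one_div_cancel ht0.ne', one_smul]
    ring
  rw [h6]
  exact hK hp0 hbK (by linarith) ht0.le (by ring)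

theorem norm_lt_two_of_Om {P : Prof} {N : ℕ} (hN : N ≠ 0) {z : ℂ} (hz : z ∈ Om N P.q) : ‖z‖ < 2 := by
  by_contra hcon
  push Not at hcon
  have h1 : (2:ℝ) ^ N ≤ ‖z‖ ^ N := pow_le_pow_left₀ (by norm_num) hcon N
  have h2 : ‖z‖ ^ N - 1 ≤ ‖z ^ N - 1‖ := by
    have := norm_sub_norm_le (z ^ N) 1
    rw [norm_pow, norm_one] at this
    exact this
  have h3 : P.q ^ N ≤ 2 ^ N := pow_le_pow_left₀ P.hq0.le (by linarith [P.hq2]) N
  have h4 := hz.2
  have h5 : (2:ℝ) ≤ 2 ^ N := by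
    calc (2:ℝ) = 2 ^ 1 := by norm_num
      _ ≤ 2 ^ N := pow_le_pow_right₀ (by norm_num) (by omega)
  linarith

theorem Ctx.totals {P : Prof} {N : ℕ} {r : ℝ} {φ : ℂ → ℝ} (h : Ctx P N r φ) :
    (∫ z, P.dd N φ z = P.Dt N r φ) ∧ (∫ z, P.mm N φ z = P.Mt N r φ) ∧
      (∫ z, Prof.om N z * P.mm N φ z = P.Nt N r φ) := by
  have hr1 := h.hr1; have hr2 := h.hr2
  have hout : ∀ z : ℂ, 2 ≤ ‖z‖ → z ∉ tsupport φ := by
    intro z hz hz'
    have := norm_lt_two_of_Om h.big.ne (h.hφs hz')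
    linarith
  have hdd0 : ∀ z, ‖z‖ ≤ r → P.dd N φ z = 0 := by
    have h1 : EqOn (P.dd N φ) (fun _ => 0) (closure (ball 0 r)) := by
      apply EqOn.closure _ h.dd_cont continuous_const
      intro z hz
      rw [mem_ball, dist_zero_right] at hz
      have hev : φ =ᶠ[nhds z] fun _ => 0 := by
        have : ball (0:ℂ) r ∈ nhds z := isOpen_ball.mem_nhds (by rwa [mem_ball, dist_zero_right])
        filter_upwards [this] with y hy
        rw [mem_ball, dist_zero_right] at hy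
        exact h.hz y hy.le
      have : gradient φ z = 0 := by simp [gradient, hev.fderiv_eq (𝕜 := ℝ)]
      simp [Prof.dd, this]
    intro z hz
    apply h1
    rw [closure_ball _ (by linarith), mem_closedBall, dist_zero_right]
    exact hz
  refine ⟨?_, ?_, ?_⟩
  · exact polar_int _ h.dd_cont r (by linarith) (by linarith) hdd0
      (fun z hz => by simp [Prof.dd, gradient_tsupport (hout z hz)])
  · exact polar_int _ h.mm_cont r (by linarith) (by linarith)
      (fun z hz => by simp [Prof.mm, h.hz z hz])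
      (fun z hz => by simp [Prof.mm, image_eq_zero_of_notMem_tsupport (hout z hz)])
  · exact polar_int _ ((Prof.om_cont N).mul h.mm_cont) r (by linarith) (by linarith)
      (fun z hz => by simp [Prof.mm, h.hz z hz])
      (fun z hz => by simp [Prof.mm, image_eq_zero_of_notMem_tsupport (hout z hz)])

theorem Ctx.Nt_le {P : Prof} {n : ℕ} {r : ℝ} {φ : ℂ → ℝ} (h : Ctx P (2 * n) r φ)
    (hr : r ≤ 1 - 1 / (4 * ((2 * n : ℕ) : ℝ))) :
    P.Nt (2 * n) r φ ≤ (100 * P.K ^ 2 * (1 - r) ^ 2 + 20 * P.K ^ 2 / ((2 * n : ℕ) : ℝ)) * P.Dt (2 * n) r φ +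
      P.A0 / ((2 * n : ℕ) : ℝ) ^ 2 * P.Mt (2 * n) r φ := by
  have hpi := Real.pi_pos
  unfold Prof.Nt Prof.Dt Prof.Mt
  rw [← intervalIntegral.integral_const_mul, ← intervalIntegral.integral_const_mul,
    ← intervalIntegral.integral_add ((h.DD_cont.const_mul _).intervalIntegrable _ _)
      ((h.MM_cont.const_mul _).intervalIntegrable _ _)]
  apply intervalIntegral.integral_mono_on (by linarith) (h.NN_cont.intervalIntegrable _ _)
    (((h.DD_cont.const_mul _).add (h.MM_cont.const_mul _)).intervalIntegrable _ _)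
  intro θ _
  exact h.NN_le hr θ

/-- geometry of the touching cone on the good cells -/
theorem touch_aux (K : Set ℂ) (hKc : Convex ℝ K) (r : ℝ) (hr1 : 1 / 2 ≤ r) (hr2 : r < 1)
    (hrK : closedBall (0:ℂ) r ⊆ K) (C₀ : ℝ) (hC₀ : 0 < C₀) (N : ℝ) (hNpos : 0 < N) (m : ℕ)
    (q5 : (12 * Real.pi + C₀) * (m + 1) / (1 - r) < N) (q7 : 2 * Real.pi * (m + 3) + C₀ + C₀ < N)
    (σ α : ℝ) (hσ : 1 - C₀ / N ≤ σ) (hα : |α| ≤ Real.pi / N) (hp : zz σ α ∈ K)
    (k : ℕ) (hk : k < m) (θ : ℝ)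
    (hθ : θ ∈ Icc ((2 * Real.pi * (k + 1) + Real.pi / 2) / N) ((2 * Real.pi * (k + 1) + 3 * Real.pi / 2) / N)) :
    ∃ ρs, r ≤ ρs ∧ ρs ≤ 1 ∧ zz ρs θ ∈ K ∧ N * (1 - ρs) ≤ (12 * Real.pi + C₀) * (k + 1) := by
  have hpi := Real.pi_pos
  have h1r : 0 < 1 - r := by linarith
  have hα2 := abs_le.mp hα
  have hk' : (k:ℝ) + 1 ≤ m := by exact_mod_cast hk
  have hk0 : (0:ℝ) ≤ k := by positivity
  have h1 := hθ.1
  have h2 := hθ.2
  rw [div_le_iff₀ hNpos] at h1
  rw [le_div_iff₀ hNpos] at h2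
  set s := θ - α with hs
  have hαN1 : α * N ≤ Real.pi := by
    have := hα2.2
    rwa [le_div_iff₀ hNpos] at this
  have hαN2 : -Real.pi ≤ α * N := by
    have := hα2.1
    have h3 : -(Real.pi / N) * N = -Real.pi := by field_simp
    have h4 := mul_le_mul_of_nonneg_right this hNpos.le
    linarith
  have hsN' : s * N = θ * N - α * N := by rw [hs]; ring
  have hpk : 0 ≤ Real.pi * k := by positivity
  have hsN : s * N ≤ 2 * Real.pi * (k + 3) := by
    rw [hsN']
    have : 2 * Real.pi * ((k:ℝ) + 3) = 2 * Real.pi * (k + 1) + 4 * Real.pi := by ring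
    linarith
  have hsN0 : 0 < s * N := by
    rw [hsN']
    have : 2 * Real.pi * ((k:ℝ) + 1) = 2 * (Real.pi * k) + 2 * Real.pi := by ring
    linarith
  have hs0 : 0 < s := pos_of_mul_pos_left hsN0 hNpos.le
  have e5 := q5
  rw [div_lt_iff₀ h1r] at e5
  have hpm : Real.pi * (k + 1) ≤ Real.pi * m := mul_le_mul_of_nonneg_left hk' hpi.le
  have hsle : s ≤ r := by
    have e2 : s * N * 2 ≤ N := by
      have e6 : N * (1 - r) ≤ N * (1/2) := mul_le_mul_of_nonneg_left (by linarith) hNpos.le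
      have e8 : 0 ≤ C₀ * ((m:ℝ) + 1) := by positivity
      have e9 : (12 * Real.pi + C₀) * ((m:ℝ) + 1) = 12 * (Real.pi * m) + 12 * Real.pi + C₀ * (m + 1) := by ring
      have e10 : 2 * Real.pi * ((k:ℝ) + 3) = 2 * (Real.pi * (k + 1)) + 4 * Real.pi := by ring
      rw [e9] at e5
      rw [e10] at hsN
      linarith
    have : s * 2 ≤ 1 := by
      have : s * 2 * N ≤ 1 * N := by linarith
      exact le_of_mul_le_mul_right this hNpos
    linarith
  have hC0N : C₀ / N < 1 := by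
    rw [div_lt_one hNpos]
    have : 0 ≤ 2 * Real.pi * ((m:ℝ) + 3) := by positivity
    linarith
  set σ₀ := 1 - C₀ / N with hσ₀
  have hσ₀0 : 0 < σ₀ := by linarith
  have hσ₀1 : σ₀ ≤ 1 := by
    have : 0 < C₀ / N := by positivity
    linarith
  have hsr : s / r ≤ 2 * s := by
    rw [div_le_iff₀ (by linarith)]
    nlinarith
  have hsr0 : 0 < s / r := by positivity
  have hNρ : N * (1 - (1 - s / r) * σ₀) ≤ (12 * Real.pi + C₀) * (k + 1) := by
    have e1 : 1 - (1 - s / r) * σ₀ ≤ 2 * s + C₀ / N := by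
      have : 1 - (1 - s / r) * σ₀ = s / r * σ₀ + C₀ / N := by rw [hσ₀]; ring
      rw [this]
      have : s / r * σ₀ ≤ s / r * 1 := mul_le_mul_of_nonneg_left hσ₀1 hsr0.le
      linarith
    have e2 : N * (2 * s + C₀ / N) = 2 * (s * N) + C₀ := by field_simp
    have e3 : N * (1 - (1 - s / r) * σ₀) ≤ N * (2 * s + C₀ / N) := mul_le_mul_of_nonneg_left e1 hNpos.le
    have e4 : (12 * Real.pi + C₀) * ((k:ℝ) + 1) = 12 * (Real.pi * k) + 12 * Real.pi + C₀ * k + C₀ := by ring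
    have e6 : 2 * (2 * Real.pi * ((k:ℝ) + 3)) = 4 * (Real.pi * k) + 12 * Real.pi := by ring
    have e7 : 0 ≤ C₀ * k := by positivity
    rw [e4]
    rw [e2] at e3
    linarith
  refine ⟨(1 - s / r) * σ₀, ?_, ?_, ?_, hNρ⟩
  · have e1 : (12 * Real.pi + C₀) * ((k:ℝ) + 1) ≤ (12 * Real.pi + C₀) * (m + 1) := by
      apply mul_le_mul_of_nonneg_left _ (by positivity); linarith
    have e3 : N * (1 - (1 - s / r) * σ₀) < N * (1 - r) := by linarith
    have e4 := lt_of_mul_lt_mul_left e3 hNpos.le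
    linarith
  · have h7 : (1 - s / r) ≤ 1 := by linarith
    have h8 : 0 ≤ 1 - s / r := by
      rw [sub_nonneg, div_le_one (by linarith)]; exact hsle
    calc (1 - s / r) * σ₀ ≤ 1 * 1 := mul_le_mul h7 hσ₀1 hσ₀0.le (by norm_num)
      _ = 1 := by norm_num
  · exact cone_mem K hKc r (by linarith) hrK σ₀ σ α θ s hσ₀0 hσ₀1 hσ hp (by
        rw [← hs, abs_of_pos hs0]) hs0 hsle

/-- algebra of the gain -/
theorem gain_alg (H B1 c1 E N2 S D M Y kk : ℝ) (hpi : 0 < Real.pi) (hH0 : 0 < H) (hB10 : 0 < B1) (hc10 : 0 < c1)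
    (hkk : 0 ≤ kk) (hE : E = 1 + kk) (hN2 : H ≤ N2) (hD0 : 0 ≤ D) (hM0 : 0 ≤ M)
    (hm : H * B1 / Real.pi ≤ S)
    (hlog : (Real.pi / B1 / N2 * S) * Y ≤ D) (hSt : M / c1 - kk * D ≤ Y) :
    H / (c1 * E) / N2 * M ≤ D := by
  have hN20 : 0 < N2 := by linarith
  have hE0 : 0 < E := by rw [hE]; linarith
  rcases le_total Y 0 with hY0 | hY0
  · have e1 : M / c1 ≤ (E - 1) * D := by rw [hE]; linarith
    have e2 : M ≤ c1 * ((E - 1) * D) := by rw [div_le_iff₀ hc10] at e1; linarith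
    have e3 : H / (c1 * E) / N2 ≤ 1 / (c1 * E) := by
      rw [div_div, div_le_div_iff₀ (by positivity) (by positivity)]
      have h0 : 0 < c1 * E := by positivity
      nlinarith
    calc H / (c1 * E) / N2 * M ≤ 1 / (c1 * E) * (c1 * ((E - 1) * D)) := by
          apply mul_le_mul e3 e2 hM0 (by positivity)
      _ = ((E - 1) / E) * D := by field_simp
      _ ≤ 1 * D := by
          apply mul_le_mul_of_nonneg_right _ hD0
          rw [div_le_one hE0]; linarith
      _ = D := one_mul _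
  · have e0 : H / N2 ≤ Real.pi / B1 / N2 * S := by
      have e1 : H ≤ Real.pi / B1 * S := by
        calc H = Real.pi / B1 * (H * B1 / Real.pi) := by field_simp
          _ ≤ _ := mul_le_mul_of_nonneg_left hm (by positivity)
      calc H / N2 ≤ (Real.pi / B1 * S) / N2 := by gcongr
        _ = _ := by ring
    have e1 : H / N2 * Y ≤ D := (mul_le_mul_of_nonneg_right e0 hY0).trans hlog
    have hh1 : H / N2 ≤ 1 := by rw [div_le_one hN20]; exact hN2
    have hh0 : 0 ≤ H / N2 := by positivity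
    have e2 : H / N2 * (M / c1 - kk * D) ≤ D := (mul_le_mul_of_nonneg_left hSt hh0).trans e1
    have e4 : H / N2 * (kk * D) ≤ 1 * (kk * D) := mul_le_mul_of_nonneg_right hh1 (by positivity)
    have e3 : H / N2 * (M / c1) ≤ E * D := by
      rw [hE]
      have e6 : H / N2 * (M / c1 - kk * D) = H / N2 * (M / c1) - H / N2 * (kk * D) := by ring
      rw [e6] at e2
      linarith
    have e5 : H / (c1 * E) / N2 * M = (H / N2 * (M / c1)) / E := by field_simp
    rw [e5, div_le_iff₀ hE0]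
    linarith

/-- Lower bound for obstacles reaching (almost) the wall, normalised angle. -/
theorem lower_core (P : Prof) (r : ℝ) (hr1 : 1 / 2 ≤ r) (hr2 : r < 1)
    (hκ : 4 * P.j ^ 2 * (100 * P.K ^ 2 * (1 - r) ^ 2) ≤ 1 / 4) (C₀ : ℝ) (hC₀ : 0 < C₀) (A : ℝ) (hA : 0 < A) :
    ∃ N₀ : ℕ, ∀ n : ℕ, N₀ ≤ 2 * n → ∀ u : ℂ → ℝ, ContDiff ℝ 1 u → HasCompactSupport u →
      tsupport u ⊆ Om (2 * n) P.q → ∀ K : Set ℂ, Convex ℝ K → closedBall (0:ℂ) r ⊆ K →
      (∀ z ∈ K, u z = 0) → ∀ σ α : ℝ, 1 - C₀ / ((2 * n : ℕ) : ℝ) ≤ σ →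
      |α| ≤ Real.pi / ((2 * n : ℕ) : ℝ) → zz σ α ∈ K →
      (P.Lam (2 * n) + A / ((2 * n : ℕ) : ℝ) ^ 2) * ∫ z, u z ^ 2 ≤ ∫ z, ‖gradient u z‖ ^ 2 := by
  have hpi := Real.pi_pos
  have hg := P.g_pos
  have hC := P.C_pos
  have hc0 := P.hc
  have hK := P.K_pos
  have hA0 := P.A0_pos
  have hX0 : 0 < P.X0 := by unfold Prof.X0; positivity
  have hj0 := P.hj0
  -- constants
  set B : ℝ := 12 * Real.pi + C₀ with hB
  have hBpos : 0 < B := by rw [hB]; positivity
  set B1 : ℝ := P.g / 3 * ((16 * B + 288) / P.c ^ 2) with hB1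
  have hB10 : 0 < B1 := by rw [hB1]; positivity
  set c1 : ℝ := 48 * Real.pi * P.g * P.C ^ 2 with hc1
  have hc10 : 0 < c1 := by rw [hc1]; positivity
  set E : ℝ := 1 + 8 * P.K ^ 2 / c1 + P.X0 / 2 with hE
  have hE0 : 0 < E := by rw [hE]; positivity
  set H : ℝ := 2 * c1 * E * (A + 4 * P.j ^ 2 * P.A0) with hH
  have hH0 : 0 < H := by rw [hH]; positivity
  obtain ⟨m, hm⟩ := ((Real.tendsto_sum_range_one_div_nat_succ_atTop.eventually_ge_atTop (H * B1 / Real.pi))).exists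
  obtain ⟨N₁, hN₁⟩ := exists_nat_gt (max (max (36 / P.g) (2 * m + 3)) (max (max (H + 1) (320 * P.j ^ 2 * P.K ^ 2))
    (max (max (B * (m + 1) / (1 - r)) (1 / (1 - r))) (2 * Real.pi * (m + 3) + C₀ + C₀))))
  refine ⟨N₁, ?_⟩
  intro n hn u hu huc hus K hKc hrK huK σ α hσ hα hp
  have hNR : (N₁:ℝ) ≤ ((2 * n : ℕ) : ℝ) := by exact_mod_cast hn
  set N := 2 * n with hN
  have hbig := lt_of_lt_of_le hN₁ hNR
  simp only [max_lt_iff] at hbig
  obtain ⟨⟨q1, q2⟩, ⟨q3, q4⟩, ⟨q5, q6⟩, q7⟩ := hbig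
  have hNpos : (0:ℝ) < N := by linarith
  have hNne : N ≠ 0 := by
    intro h0; rw [h0] at hNpos; simp at hNpos
  have h1r : 0 < 1 - r := by linarith
  have hBig : P.Big N := by
    unfold Prof.Big
    rw [div_lt_iff₀ hg] at q1
    linarith
  have hN1 : (1:ℝ) ≤ N := by linarith
  -- the substitution
  obtain ⟨g1, g2, g3⟩ := ground P hNne u hu huc hus
  set φ : ℂ → ℝ := fun z => u z / P.U N z with hφ
  have hctx : Ctx P N r φ := by
    refine ⟨hBig, ?_, g1, IsCompact.of_isClosed_subset huc (isClosed_tsupport _) g2, g2.trans hus, hr1, hr2, ?_⟩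
    · have h1 := one_add_mul_le_pow (a := P.g / 3) (by linarith) N
      have h2 : (36:ℝ) ≤ P.g * N := hBig
      have h3 : (1 + P.g / 3) = P.ρ₁ := rfl
      rw [h3] at h1
      linarith
    · intro z hz
      have : u z = 0 := huK z (hrK (by rwa [mem_closedBall, dist_zero_right]))
      simp [hφ, this]
  have hmm : ∀ z, P.mm N φ z = u z ^ 2 := by
    intro z
    by_cases hz : z ∈ tsupport u
    · have hU := (P.U_pos hNne (hus hz)).ne'
      unfold Prof.mm
      simp only [hφ]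
      field_simp
    · have : u z = 0 := image_eq_zero_of_notMem_tsupport hz
      simp [Prof.mm, hφ, this]
  obtain ⟨t1, t2, t3⟩ := hctx.totals
  have t2' : ∫ z, u z ^ 2 = P.Mt N r φ := by
    rw [← t2]; congr 1; ext z; exact (hmm z).symm
  have t3' : ∫ z, Prof.om N z * u z ^ 2 = P.Nt N r φ := by
    rw [← t3]; congr 1; ext z; rw [hmm z]
  have t1' : ∫ z, P.U N z ^ 2 * ‖gradient φ z‖ ^ 2 = P.Dt N r φ := t1
  set D := P.Dt N r φ with hD
  set M := P.Mt N r φ with hM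
  have hD0 : 0 ≤ D := hctx.Dt_nonneg
  have hM0 : 0 ≤ M := hctx.Mt_nonneg
  -- potential term
  have hV : P.Lam N * M - P.Lam N * P.Nt N r φ ≤ ∫ z, P.V N z * u z ^ 2 := by
    have hi1 : Integrable (fun z => u z ^ 2) := integrable_sq hu.continuous huc
    have hi2 : Integrable (fun z => Prof.om N z * u z ^ 2) := by
      have := integrable_tsupport (w := u) (a := fun z => u z ^ 2) (b := Prof.om N) huc (hu.continuous.pow 2)
        (tsupport_sub_of_zero (fun z h => by simp [h])) (fun z _ => (Prof.om_cont N).continuousAt)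
      exact this.congr (Filter.Eventually.of_forall fun z => by ring)
    have hVc : ∀ z ∈ Om N P.q, ContinuousAt (P.V N) z := by
      intro z hz
      unfold Prof.V
      have c1 : ContinuousAt (Rf N) z := (Rf_contDiffAt hz (n := 0)).continuousAt
      have c2 : ContinuousAt (pf N) z := ((pf_diff N P.q).differentiableAt ((isOpen_Om N P.q).mem_nhds hz)).continuousAt
      exact (((continuousAt_const.mul c1).pow 2).div_const _).mul (c2.norm.pow 2)
    have hi3 : Integrable (fun z => P.V N z * u z ^ 2) := by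
      have := integrable_tsupport (w := u) (a := fun z => u z ^ 2) (b := P.V N) huc (hu.continuous.pow 2)
        (tsupport_sub_of_zero (fun z h => by simp [h])) (fun z hz => hVc z (hus hz))
      exact this.congr (Filter.Eventually.of_forall fun z => by ring)
    rw [← t2', ← t3', ← integral_const_mul, ← integral_const_mul, ← integral_sub (hi1.const_mul _) (hi2.const_mul _)]
    apply integral_mono ((hi1.const_mul _).sub (hi2.const_mul _)) hi3
    intro z
    show P.Lam N * u z ^ 2 - P.Lam N * (Prof.om N z * u z ^ 2) ≤ P.V N z * u z ^ 2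
    by_cases hz : z ∈ tsupport u
    · have h1 := P.V_lower hNne (hus hz)
      have h2 : P.Lam N * (1 - Prof.om N z) ≤ P.V N z := h1
      have h3 : 0 ≤ u z ^ 2 := sq_nonneg _
      calc P.Lam N * u z ^ 2 - P.Lam N * (Prof.om N z * u z ^ 2) = (P.Lam N * (1 - Prof.om N z)) * u z ^ 2 := by ring
        _ ≤ _ := mul_le_mul_of_nonneg_right h2 h3
    · have : u z = 0 := image_eq_zero_of_notMem_tsupport hz
      simp [this]
  rw [g3, t1', t2']
  -- negative part
  have hNt := hctx.Nt_le (by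
    have : 1 / (4 * (N:ℝ)) ≤ 1 - r := by
      rw [div_le_iff₀ (by positivity)]
      rw [div_lt_iff₀ h1r] at q6
      nlinarith
    linarith)
  rw [← hD, ← hM] at hNt
  have hLam := P.Lam_le N hNne
  have hLam0 := P.Lam_pos N
  have hNeg : P.Lam N * P.Nt N r φ ≤ 1 / 2 * D + 4 * P.j ^ 2 * P.A0 / N ^ 2 * M := by
    have e1 : 0 ≤ (100 * P.K ^ 2 * (1 - r) ^ 2 + 20 * P.K ^ 2 / (N:ℝ)) * D + P.A0 / (N:ℝ) ^ 2 * M := by positivity
    calc P.Lam N * P.Nt N r φ ≤ P.Lam N * ((100 * P.K ^ 2 * (1 - r) ^ 2 + 20 * P.K ^ 2 / (N:ℝ)) * D + P.A0 / (N:ℝ) ^ 2 * M) :=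
          mul_le_mul_of_nonneg_left hNt hLam0.le
      _ ≤ (4 * P.j ^ 2) * ((100 * P.K ^ 2 * (1 - r) ^ 2 + 20 * P.K ^ 2 / (N:ℝ)) * D + P.A0 / (N:ℝ) ^ 2 * M) :=
          mul_le_mul_of_nonneg_right hLam e1
      _ = (4 * P.j ^ 2 * (100 * P.K ^ 2 * (1 - r) ^ 2) + 80 * P.j ^ 2 * P.K ^ 2 / N) * D +
          4 * P.j ^ 2 * P.A0 / N ^ 2 * M := by ring
      _ ≤ _ := by
          have e2 : 80 * P.j ^ 2 * P.K ^ 2 / (N:ℝ) ≤ 1 / 4 := by
            rw [div_le_iff₀ hNpos]; linarith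
          have e3 : (4 * P.j ^ 2 * (100 * P.K ^ 2 * (1 - r) ^ 2) + 80 * P.j ^ 2 * P.K ^ 2 / N) * D ≤ 1 / 2 * D :=
            mul_le_mul_of_nonneg_right (by linarith) hD0
          linarith
  -- the gain
  have hlog := hctx.log_gain m B hBpos (by
    rw [div_le_iff₀ hNpos]
    have h1 : (2 * (m:ℝ) + 3) ≤ N := q2.le
    have h2 := mul_le_mul_of_nonneg_left h1 hpi.le
    linarith) (by
    intro k hk θ hθ
    obtain ⟨ρs, a1, a2, a3, a4⟩ := touch_aux K hKc r hr1 hr2 hrK C₀ hC₀ N hNpos m q5 q7 σ α hσ hα hp k hk θ hθ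
    refine ⟨ρs, a1, a2, ?_, a4⟩
    have h0 : u (zz ρs θ) = 0 := huK _ a3
    show u (zz ρs θ) / P.U N (zz ρs θ) = 0
    rw [h0, zero_div])
  rw [← hD] at hlog
  have hMt := hctx.Mt_le
  rw [← hD, ← hM] at hMt
  have hgain := gain_alg H B1 c1 E ((N:ℝ) ^ 2) _ D M _ (8 * P.K ^ 2 / c1 + P.X0 / 2) hpi hH0 hB10 hc10
    (by positivity) (by rw [hE]; ring) (by nlinarith) hD0 hM0 hm hlog (by
      have : M / c1 - 8 * P.K ^ 2 / c1 * D ≤ P.St φ / (4 * Real.pi) := by
        have e1 : M / c1 - 8 * P.K ^ 2 / c1 * D = (M - 8 * P.K ^ 2 * D) / c1 := by ring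
        rw [e1, div_le_div_iff₀ hc10 (by positivity), hc1]
        have e2 : P.St φ * (48 * Real.pi * P.g * P.C ^ 2) = (12 * P.g * P.C ^ 2 * P.St φ) * (4 * Real.pi) := by ring
        rw [e2]
        apply mul_le_mul_of_nonneg_right _ (by positivity)
        linarith
      linarith)
  have hHc : H / (c1 * E) = 2 * (A + 4 * P.j ^ 2 * P.A0) := by rw [hH]; field_simp
  rw [hHc] at hgain
  have hfin : (A + 4 * P.j ^ 2 * P.A0) / N ^ 2 * M ≤ 1 / 2 * D := by
    have : 2 * (A + 4 * P.j ^ 2 * P.A0) / N ^ 2 * M = 2 * ((A + 4 * P.j ^ 2 * P.A0) / N ^ 2 * M) := by ring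
    linarith
  have hsplit : (A + 4 * P.j ^ 2 * P.A0) / (N:ℝ) ^ 2 * M = A / N ^ 2 * M + 4 * P.j ^ 2 * P.A0 / N ^ 2 * M := by ring
  rw [hsplit] at hfin
  have : (P.Lam N + A / (N:ℝ) ^ 2) * M = P.Lam N * M + A / N ^ 2 * M := by ring
  rw [this]
  linarith

end Pool.Agent.Helper533.ConvexObstacle
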