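import Pool.Agent.Helper533.ConvexObstacle.RayInt

open MeasureTheory Metric Set

namespace Pool.Agent.Helper533.ConvexObstacle

theorem int_sq_inv (n : ℝ) (hn : 0 < n) (b : ℝ) (hb : 1 ≤ b) :
    ∫ t in (1:ℝ)..b, 1 / (1 + n * (t - 1)) ^ 2 ≤ 1 / n := by
  have hd : ∀ t ∈ uIcc 1 b, HasDerivAt (fun t => -(1 / n) * (1 / (1 + n * (t - 1)))) (1 / (1 + n * (t - 1)) ^ 2) t := by
    intro t ht
    rw [uIcc_of_le hb] at ht
    have hp : 0 < 1 + n * (t - 1) := by
      have : 0 ≤ n * (t - 1) := mul_nonneg hn.le (by linarith [ht.1])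
      linarith
    have h1 : HasDerivAt (fun t : ℝ => 1 + n * (t - 1)) (n * 1) t :=
      (((hasDerivAt_id t).sub_const 1).const_mul n).const_add 1
    have h2 := (h1.inv hp.ne').const_mul (-(1 / n))
    simp only [one_div] at h2 ⊢
    refine h2.congr_deriv ?_
    field_simp
  have hc : ContinuousOn (fun t : ℝ => 1 / (1 + n * (t - 1)) ^ 2) (uIcc 1 b) := by
    intro t ht
    rw [uIcc_of_le hb] at ht
    have hp : 0 < 1 + n * (t - 1) := by
      have : 0 ≤ n * (t - 1) := mul_nonneg hn.le (by linarith [ht.1])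
      linarith
    apply ContinuousAt.continuousWithinAt
    apply ContinuousAt.div continuousAt_const (by fun_prop) (by positivity)
  rw [intervalIntegral.integral_eq_sub_of_hasDerivAt hd hc.intervalIntegrable]
  have hp : 0 < 1 + n * (b - 1) := by
    have : 0 ≤ n * (b - 1) := mul_nonneg hn.le (by linarith)
    linarith
  have : 0 ≤ 1 / n * (1 / (1 + n * (b - 1))) := by positivity
  simp only [sub_self, mul_zero, add_zero]
  linarith

namespace Prof
/-- constant -/
noncomputable def A0 (P : Prof) : ℝ :=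
  (27 / P.g + 600) * P.C ^ 2 * (36 / (P.c ^ 2 * P.g ^ 2)) + 72 / P.g ^ 2
theorem A0_pos (P : Prof) : 0 < P.A0 := by
  unfold A0
  have := P.g_pos; have := P.C_pos; have := P.hc
  positivity
end Prof

namespace Ctx

theorem NN_le {P : Prof} {n : ℕ} {r : ℝ} {φ : ℂ → ℝ} (h : Ctx P (2 * n) r φ)
    (hr : r ≤ 1 - 1 / (4 * ((2 * n : ℕ) : ℝ))) (θ : ℝ) :
    P.NN (2 * n) r φ θ ≤ (100 * P.K ^ 2 * (1 - r) ^ 2 + 20 * P.K ^ 2 / ((2 * n : ℕ) : ℝ)) * P.DD (2 * n) r φ θ +
      P.A0 / ((2 * n : ℕ) : ℝ) ^ 2 * P.MM (2 * n) r φ θ := by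
  have hn : n ≠ 0 := by
    have := h.big.ne
    omega
  have hnp : (0:ℝ) < n := by positivity
  have hNn : ((2 * n : ℕ) : ℝ) = 2 * n := by push_cast; ring
  have hNp := h.Npos
  have hg := P.g_pos
  have hg2 := P.g_le
  have hc0 := P.hc
  have hC := P.C_pos
  have hK := P.K_pos
  have hr1 := h.hr1; have hr2 := h.hr2
  have hρ1 := P.ρ₁_gt
  have hρ12 := P.ρ₁_lt
  have hρ2 := P.ρ₂_lt
  have hD := h.DD_nonneg θ
  have hS := SS_nonneg P φ θ
  have hM := h.MM_nonneg θ
  set N := 2 * n with hN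
  set D := P.DD N r φ θ with hDdef
  set S := P.SS φ θ with hSdef
  set M := P.MM N r φ θ with hMdef
  set a := 1 - 1 / (4 * (N:ℝ)) with ha
  have ha1 : a ≤ 1 := by
    have : 0 < 1 / (4 * (N:ℝ)) := by positivity
    linarith
  have hcont : Continuous (fun t => t * (Prof.om N (zz t θ) * P.mm N φ (zz t θ))) :=
    continuous_id.mul (((Prof.om_cont N).comp (zz_cont1 θ)).mul (h.ms_cont θ))
  have hsplit : P.NN N r φ θ = (∫ t in r..a, t * (Prof.om N (zz t θ) * P.mm N φ (zz t θ))) +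
      (∫ t in a..1, t * (Prof.om N (zz t θ) * P.mm N φ (zz t θ))) +
      (∫ t in (1:ℝ)..P.ρ₁, t * (Prof.om N (zz t θ) * P.mm N φ (zz t θ))) +
      ∫ t in P.ρ₁..2, t * (Prof.om N (zz t θ) * P.mm N φ (zz t θ)) := by
    unfold Prof.NN
    rw [intervalIntegral.integral_add_adjacent_intervals, intervalIntegral.integral_add_adjacent_intervals,
      intervalIntegral.integral_add_adjacent_intervals]
    all_goals exact hcont.intervalIntegrable _ _
  have hom1 : ∀ t, 0 ≤ t → t ≤ 1 → Prof.om N (zz t θ) = 2 := by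
    intro t ht0 ht
    unfold Prof.om
    rw [norm_zz t θ ht0, max_eq_left ht, one_pow, div_one]
  have hom2 : ∀ t, 1 ≤ t → Prof.om N (zz t θ) = 2 / t ^ N := by
    intro t ht
    unfold Prof.om
    rw [norm_zz t θ (by linarith), max_eq_right ht]
  -- piece 1
  have p1 : ∫ t in r..a, t * (Prof.om N (zz t θ) * P.mm N φ (zz t θ)) ≤ 100 * P.K ^ 2 * (1 - r) ^ 2 * D := by
    have h1 : ∫ t in r..a, t * (Prof.om N (zz t θ) * P.mm N φ (zz t θ)) ≤
        ∫ t in r..a, 2 * (50 * P.K ^ 2 * (1 - r) * D) := by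
      apply intervalIntegral.integral_mono_on hr (hcont.intervalIntegrable _ _) intervalIntegrable_const
      intro t ht
      rw [hom1 t (by linarith [ht.1]) (by linarith [ht.2])]
      have h2 := h.est_ring θ t ht.1 ht.2
      have h3 := P.mm_nonneg N φ (zz t θ)
      have h4 : t ≤ 1 := by linarith [ht.2]
      have h5 : 0 ≤ t := by linarith [ht.1]
      nlinarith
    rw [intervalIntegral.integral_const, smul_eq_mul] at h1
    have h6 : (a - r) * (2 * (50 * P.K ^ 2 * (1 - r) * D)) ≤ (1 - r) * (2 * (50 * P.K ^ 2 * (1 - r) * D)) := by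
      apply mul_le_mul_of_nonneg_right (by linarith)
      have : 0 ≤ 1 - r := by linarith
      positivity
    have h7 : (1 - r) * (2 * (50 * P.K ^ 2 * (1 - r) * D)) = 100 * P.K ^ 2 * (1 - r) ^ 2 * D := by ring
    linarith
  -- piece 2
  have p2 : ∫ t in a..1, t * (Prof.om N (zz t θ) * P.mm N φ (zz t θ)) ≤
      27 * P.C ^ 2 / (P.g * N ^ 3) * S + 2 * P.K ^ 2 / N * D := by
    set B := 6 / P.g * (P.C ^ 2 * (3 / (N:ℝ)) ^ 2) * S + 4 * P.K ^ 2 * D with hB
    have hB0 : 0 ≤ B := by rw [hB]; positivity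
    have h1 : ∫ t in a..1, t * (Prof.om N (zz t θ) * P.mm N φ (zz t θ)) ≤ ∫ t in a..1, 2 * B := by
      apply intervalIntegral.integral_mono_on ha1 (hcont.intervalIntegrable _ _) intervalIntegrable_const
      intro t ht
      have ht0 : 0 ≤ t := by linarith [ht.1]
      rw [hom1 t ht0 ht.2]
      have h2 := h.est_avg' θ t (by linarith [ht.1]) (by linarith [ht.2]) (3 / N) (by positivity) (by
        intro hz
        have h5 := Rf_le h.big.ne (Om_norm_pos hz)
        rw [norm_zz t θ ht0, max_eq_left ht.2, mul_one] at h5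
        have h6 : P.T N (zz t θ) ≤ Rf N (zz t θ) - 1 := min_le_left _ _
        linarith)
      have h3 := P.mm_nonneg N φ (zz t θ)
      have h4 := ht.2
      nlinarith
    rw [intervalIntegral.integral_const, smul_eq_mul] at h1
    have h2 : (1 - a) * (2 * B) = 27 * P.C ^ 2 / (P.g * N ^ 3) * S + 2 * P.K ^ 2 / N * D := by
      rw [ha, hB]; field_simp; ring
    linarith
  -- piece 3
  have p3 : ∫ t in (1:ℝ)..P.ρ₁, t * (Prof.om N (zz t θ) * P.mm N φ (zz t θ)) ≤
      600 * P.C ^ 2 / N ^ 2 * S + 18 * P.K ^ 2 / N * D := by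
    have h1 : ∫ t in (1:ℝ)..P.ρ₁, t * (Prof.om N (zz t θ) * P.mm N φ (zz t θ)) ≤
        ∫ t in (1:ℝ)..P.ρ₁, (1800 * P.C ^ 2 / (P.g * N ^ 2) * S + 9 * P.K ^ 2 * D * (1 / (1 + n * (t - 1)) ^ 2)) := by
      apply intervalIntegral.integral_mono_on hρ1.le (hcont.intervalIntegrable _ _)
      · apply ContinuousOn.intervalIntegrable
        intro t ht
        rw [uIcc_of_le hρ1.le] at ht
        have hp : 0 < 1 + n * (t - 1) := by
          have : 0 ≤ n * (t - 1) := mul_nonneg hnp.le (by linarith [ht.1])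
          linarith
        apply ContinuousAt.continuousWithinAt
        apply ContinuousAt.add continuousAt_const
        apply ContinuousAt.mul continuousAt_const
        apply ContinuousAt.div continuousAt_const (by fun_prop) (by positivity)
      · intro t ht
        rw [hom2 t ht.1]
        have ht1 : 1 ≤ t := ht.1
        have ht2 : t ≤ 1.01 := by linarith [ht.2]
        have htN : 1 ≤ t ^ N := one_le_pow₀ ht1
        have hτ0 : 0 ≤ 144 / (N:ℝ) ^ 2 * t ^ N := by positivity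
        have h2 := h.est_avg' θ t (by linarith) (by linarith) (Real.sqrt (144 / (N:ℝ) ^ 2 * t ^ N)) (Real.sqrt_nonneg _) (by
          intro hz
          apply Real.le_sqrt_of_sq_le
          have := P.T_sq_le hn hz (by rw [norm_zz t θ (by linarith)]; linarith)
          rw [norm_zz t θ (by linarith), max_eq_right ht1] at this
          exact this)
        rw [Real.sq_sqrt hτ0] at h2
        have h3 : (1 + n * (t - 1)) ^ 2 ≤ t ^ N := by
          have h4 := one_add_mul_le_pow (a := t - 1) (by linarith) n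
          have h5 : 0 ≤ (n:ℝ) * (t - 1) := mul_nonneg hnp.le (by linarith)
          rw [hN, mul_comm 2 n, pow_mul]
          apply pow_le_pow_left₀ (by linarith)
          calc 1 + (n:ℝ) * (t - 1) ≤ (1 + (t - 1)) ^ n := h4
            _ = t ^ n := by ring_nf
        have hp : 0 < 1 + n * (t - 1) := by
          have : 0 ≤ n * (t - 1) := mul_nonneg hnp.le (by linarith [ht.1])
          linarith
        have hm := P.mm_nonneg N φ (zz t θ)
        calc t * (2 / t ^ N * P.mm N φ (zz t θ)) ≤ 1.01 * (2 / t ^ N * P.mm N φ (zz t θ)) :=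
              mul_le_mul_of_nonneg_right ht2 (by positivity)
          _ ≤ 1.01 * (2 / t ^ N * (6 / P.g * (P.C ^ 2 * (144 / (N:ℝ) ^ 2 * t ^ N)) * S + 4 * P.K ^ 2 * D)) := by
              gcongr
          _ = 1745.28 * P.C ^ 2 / (P.g * N ^ 2) * S + 8.08 * P.K ^ 2 * D * (1 / t ^ N) := by
              field_simp
              ring
          _ ≤ 1800 * P.C ^ 2 / (P.g * N ^ 2) * S + 9 * P.K ^ 2 * D * (1 / (1 + n * (t - 1)) ^ 2) := by
              have h6 : 1 / t ^ N ≤ 1 / (1 + n * (t - 1)) ^ 2 := one_div_le_one_div_of_le (by positivity) h3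
              gcongr
              · norm_num
              · norm_num
    have i1 : IntervalIntegrable (fun t : ℝ => 9 * P.K ^ 2 * D * (1 / (1 + n * (t - 1)) ^ 2)) volume 1 P.ρ₁ := by
      apply ContinuousOn.intervalIntegrable
      intro t ht
      rw [uIcc_of_le hρ1.le] at ht
      have hp : 0 < 1 + n * (t - 1) := by
        have : 0 ≤ n * (t - 1) := mul_nonneg hnp.le (by linarith [ht.1])
        linarith
      apply ContinuousAt.continuousWithinAt
      apply ContinuousAt.mul continuousAt_const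
      apply ContinuousAt.div continuousAt_const (by fun_prop) (by positivity)
    rw [intervalIntegral.integral_add intervalIntegrable_const i1, intervalIntegral.integral_const,
      intervalIntegral.integral_const_mul, smul_eq_mul] at h1
    have h2 := int_sq_inv n hnp P.ρ₁ hρ1.le
    have h3 : 9 * P.K ^ 2 * D * ∫ t in (1:ℝ)..P.ρ₁, 1 / (1 + n * (t - 1)) ^ 2 ≤ 9 * P.K ^ 2 * D * (1 / n) :=
      mul_le_mul_of_nonneg_left h2 (by positivity)
    have h4 : 9 * P.K ^ 2 * D * (1 / n) = 18 * P.K ^ 2 / N * D := by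
      rw [hNn]; field_simp; ring
    have h5 : (P.ρ₁ - 1) * (1800 * P.C ^ 2 / (P.g * N ^ 2) * S) = 600 * P.C ^ 2 / N ^ 2 * S := by
      unfold Prof.ρ₁; field_simp; ring
    linarith
  -- piece 4
  have p4 : ∫ t in P.ρ₁..2, t * (Prof.om N (zz t θ) * P.mm N φ (zz t θ)) ≤ 72 / (P.g ^ 2 * N ^ 2) * M := by
    have hcM : Continuous (fun t => t * P.mm N φ (zz t θ)) := continuous_id.mul (h.ms_cont θ)
    have h1 : ∫ t in P.ρ₁..2, t * (Prof.om N (zz t θ) * P.mm N φ (zz t θ)) ≤
        ∫ t in P.ρ₁..2, 72 / (P.g ^ 2 * N ^ 2) * (t * P.mm N φ (zz t θ)) := by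
      apply intervalIntegral.integral_mono_on (by linarith) (hcont.intervalIntegrable _ _)
        ((hcM.const_mul _).intervalIntegrable _ _)
      intro t ht
      rw [hom2 t (by linarith [ht.1])]
      have ht0 : 0 < t := by linarith [ht.1]
      have h2 : (P.g * N / 6) ^ 2 ≤ t ^ N := by
        have h3 : P.ρ₁ ^ N ≤ t ^ N := pow_le_pow_left₀ (by linarith) ht.1 N
        have h4 := one_add_mul_le_pow (a := P.g / 3) (by linarith) n
        have h5 : (P.g * N / 6) ^ 2 ≤ P.ρ₁ ^ N := by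
          rw [hN, mul_comm 2 n, pow_mul]
          apply pow_le_pow_left₀ (by positivity)
          push_cast
          unfold Prof.ρ₁
          have : P.g * ((n:ℝ) * 2) / 6 = n * (P.g / 3) := by ring
          linarith
        linarith
      have hm := P.mm_nonneg N φ (zz t θ)
      have h6 : 2 / t ^ N ≤ 72 / (P.g ^ 2 * N ^ 2) := by
        have h7 : 2 / t ^ N ≤ 2 / (P.g * N / 6) ^ 2 := by
          apply div_le_div_of_nonneg_left (by norm_num) (by positivity) h2
        have h8 : 2 / (P.g * (N:ℝ) / 6) ^ 2 = 72 / (P.g ^ 2 * N ^ 2) := by field_simp; norm_num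
        linarith
      calc t * (2 / t ^ N * P.mm N φ (zz t θ)) ≤ t * (72 / (P.g ^ 2 * N ^ 2) * P.mm N φ (zz t θ)) := by
            gcongr
        _ = _ := by ring
    rw [intervalIntegral.integral_const_mul] at h1
    refine h1.trans (mul_le_mul_of_nonneg_left ?_ (by positivity))
    rw [hMdef]
    unfold Prof.MM
    have e1 : ∫ t in r..2, t * P.mm N φ (zz t θ) = (∫ t in r..P.ρ₁, t * P.mm N φ (zz t θ)) +
        (∫ t in P.ρ₁..2, t * P.mm N φ (zz t θ)) := by
      rw [intervalIntegral.integral_add_adjacent_intervals]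
      all_goals exact hcM.intervalIntegrable _ _
    rw [e1]
    have e2 : 0 ≤ ∫ t in r..P.ρ₁, t * P.mm N φ (zz t θ) := by
      apply intervalIntegral.integral_nonneg (by linarith)
      intro t ht
      exact mul_nonneg (by linarith [ht.1]) (P.mm_nonneg _ _ _)
    linarith
  have hS2 := h.SS_le θ
  rw [← hSdef, ← hMdef] at hS2
  have hN1 : (1:ℝ) ≤ N := by exact_mod_cast Nat.one_le_iff_ne_zero.mpr h.big.ne
  have hS3 : 27 * P.C ^ 2 / (P.g * (N:ℝ) ^ 3) * S + 600 * P.C ^ 2 / (N:ℝ) ^ 2 * S ≤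
      (27 / P.g + 600) * P.C ^ 2 / (N:ℝ) ^ 2 * S := by
    have : 27 * P.C ^ 2 / (P.g * (N:ℝ) ^ 3) ≤ 27 / P.g * P.C ^ 2 / (N:ℝ) ^ 2 := by
      have e : 27 / P.g * P.C ^ 2 / (N:ℝ) ^ 2 = 27 * P.C ^ 2 / (P.g * (N:ℝ) ^ 2) := by field_simp
      rw [e]
      apply div_le_div_of_nonneg_left (by positivity) (by positivity)
      apply mul_le_mul_of_nonneg_left _ hg.le
      nlinarith [sq_nonneg (N:ℝ), pow_pos hNp 2]
    have e : (27 / P.g + 600) * P.C ^ 2 / (N:ℝ) ^ 2 * S = 27 / P.g * P.C ^ 2 / (N:ℝ) ^ 2 * S + 600 * P.C ^ 2 / (N:ℝ) ^ 2 * S := by ring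
    rw [e]
    gcongr
  have hS4 : (27 / P.g + 600) * P.C ^ 2 / (N:ℝ) ^ 2 * S ≤
      (27 / P.g + 600) * P.C ^ 2 / (N:ℝ) ^ 2 * (36 / (P.c ^ 2 * P.g ^ 2) * M) := by
    gcongr
  have hfin : (27 / P.g + 600) * P.C ^ 2 / (N:ℝ) ^ 2 * (36 / (P.c ^ 2 * P.g ^ 2) * M) + 72 / (P.g ^ 2 * N ^ 2) * M =
      P.A0 / (N:ℝ) ^ 2 * M := by
    unfold Prof.A0
    field_simp
  rw [hsplit]
  have hdist : (100 * P.K ^ 2 * (1 - r) ^ 2 + 20 * P.K ^ 2 / (N:ℝ)) * D =
      100 * P.K ^ 2 * (1 - r) ^ 2 * D + 2 * P.K ^ 2 / N * D + 18 * P.K ^ 2 / N * D := by ring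
  rw [hdist]
  linarith

end Ctx

end Pool.Agent.Helper533.ConvexObstacle
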