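import Pool.Agent.Helper533.ConvexObstacle.VBound

open MeasureTheory Metric Set

namespace Pool.Agent.Helper533.ConvexObstacle

/-- weighted Cauchy-Schwarz on an interval -/
theorem cs_weighted (α β : ℝ) (hαβ : α ≤ β) (g W : ℝ → ℝ) (hg : ContinuousOn g (Icc α β))
    (hW : ContinuousOn W (Icc α β)) (hpos : ∀ t ∈ Icc α β, 0 < W t) :
    (∫ t in α..β, g t) ^ 2 ≤ (∫ t in α..β, 1 / W t) * ∫ t in α..β, W t * g t ^ 2 := by
  rcases eq_or_lt_of_le hαβ with h | h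
  · rw [← h]; simp
  have hu : uIcc α β = Icc α β := uIcc_of_le hαβ
  have c1 : ContinuousOn (fun t => 1 / W t) (Icc α β) :=
    continuousOn_const.div hW (fun t ht => (hpos t ht).ne')
  have c2 : ContinuousOn (fun t => W t * g t ^ 2) (Icc α β) := hW.mul (hg.pow 2)
  have i1 : IntervalIntegrable (fun t => 1 / W t) volume α β := by
    apply ContinuousOn.intervalIntegrable; rw [hu]; exact c1
  have i2 : IntervalIntegrable (fun t => W t * g t ^ 2) volume α β := by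
    apply ContinuousOn.intervalIntegrable; rw [hu]; exact c2
  have i3 : IntervalIntegrable g volume α β := by
    apply ContinuousOn.intervalIntegrable; rw [hu]; exact hg
  set I := ∫ t in α..β, g t with hI
  set A := ∫ t in α..β, 1 / W t with hA
  have hA0 : 0 < A := by
    apply intervalIntegral.intervalIntegral_pos_of_pos_on i1 _ h
    intro t ht
    have := hpos t ⟨ht.1.le, ht.2.le⟩
    positivity
  set s := I / A with hs
  have h0 : 0 ≤ ∫ t in α..β, (W t * g t ^ 2 - 2 * s * g t + s ^ 2 * (1 / W t)) := by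
    apply intervalIntegral.integral_nonneg hαβ
    intro t ht
    have hp := hpos t ht
    have : W t * g t ^ 2 - 2 * s * g t + s ^ 2 * (1 / W t) = W t * (g t - s / W t) ^ 2 := by
      field_simp
      ring
    rw [this]
    positivity
  rw [intervalIntegral.integral_add (i2.sub (i3.const_mul _)) (i1.const_mul _),
    intervalIntegral.integral_sub i2 (i3.const_mul _), intervalIntegral.integral_const_mul,
    intervalIntegral.integral_const_mul, ← hI, ← hA] at h0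
  have h1 : 2 * s * I = 2 * I ^ 2 / A := by rw [hs]; ring
  have h2 : s ^ 2 * A = I ^ 2 / A := by rw [hs]; field_simp
  rw [h1, h2] at h0
  have h3 : I ^ 2 / A ≤ ∫ t in α..β, W t * g t ^ 2 := by
    have : 2 * I ^ 2 / A = 2 * (I ^ 2 / A) := by ring
    linarith
  rw [div_le_iff₀ hA0] at h3
  linarith

theorem cs_plain (α β : ℝ) (hαβ : α ≤ β) (g : ℝ → ℝ) (hg : ContinuousOn g (Icc α β)) :
    (∫ t in α..β, g t) ^ 2 ≤ (β - α) * ∫ t in α..β, g t ^ 2 := by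
  have := cs_weighted α β hαβ g (fun _ => 1) hg continuousOn_const (fun _ _ => one_pos)
  simpa using this

/-- polar coordinates -/
noncomputable def zz (ρ θ : ℝ) : ℂ := (ρ : ℂ) * Complex.exp (θ * Complex.I)

theorem norm_zz (ρ θ : ℝ) (hρ : 0 ≤ ρ) : ‖zz ρ θ‖ = ρ := by
  unfold zz
  rw [norm_mul, Complex.norm_exp_ofReal_mul_I, mul_one]
  simp [abs_of_nonneg hρ]

theorem zz_cont : Continuous (fun p : ℝ × ℝ => zz p.1 p.2) := by
  unfold zz; fun_prop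

theorem zz_cont1 (θ : ℝ) : Continuous (fun ρ : ℝ => zz ρ θ) := by
  unfold zz; fun_prop

theorem zz_cont2 (ρ : ℝ) : Continuous (fun θ : ℝ => zz ρ θ) := by
  unfold zz; fun_prop

theorem zz_pow (ρ θ : ℝ) (N : ℕ) : zz ρ θ ^ N = ((ρ ^ N : ℝ) : ℂ) * Complex.exp ((N * θ : ℝ) * Complex.I) := by
  unfold zz
  rw [mul_pow, ← Complex.exp_nat_mul]
  push_cast
  congr 2
  ring

theorem zz_pow_re (ρ θ : ℝ) (N : ℕ) : (zz ρ θ ^ N).re = ρ ^ N * Real.cos (N * θ) := by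
  rw [zz_pow, Complex.re_ofReal_mul, Complex.exp_ofReal_mul_I_re]

theorem norm_zz_pow (ρ θ : ℝ) (hρ : 0 ≤ ρ) (N : ℕ) : ‖zz ρ θ ^ N‖ = ρ ^ N := by
  rw [norm_pow, norm_zz ρ θ hρ]

theorem zz_sub_one_sq (ρ θ : ℝ) (hρ : 0 ≤ ρ) (N : ℕ) :
    ‖zz ρ θ ^ N - 1‖ ^ 2 = (ρ ^ N) ^ 2 - 2 * (ρ ^ N * Real.cos (N * θ)) + 1 := by
  rw [norm_sub_one_sq, norm_zz_pow ρ θ hρ, zz_pow_re]

/-- monotonicity outwards -/
theorem mono_out (ρ t θ : ℝ) (hρ : 0 ≤ ρ) (hρt : ρ ≤ t) (N : ℕ) (h : Real.cos (N * θ) ≤ ρ ^ N) :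
    ‖zz ρ θ ^ N - 1‖ ≤ ‖zz t θ ^ N - 1‖ := by
  apply le_of_sq_le_sq _ (norm_nonneg _)
  rw [zz_sub_one_sq ρ θ hρ, zz_sub_one_sq t θ (hρ.trans hρt)]
  have h1 : ρ ^ N ≤ t ^ N := pow_le_pow_left₀ hρ hρt N
  nlinarith [mul_nonneg (sub_nonneg.mpr h1) (sub_nonneg.mpr h), sq_nonneg (t ^ N - ρ ^ N)]

/-- monotonicity inwards -/
theorem mono_in (ρ t θ : ℝ) (ht : 0 ≤ t) (hρt : t ≤ ρ) (N : ℕ) (h : ρ ^ N ≤ Real.cos (N * θ)) :
    ‖zz ρ θ ^ N - 1‖ ≤ ‖zz t θ ^ N - 1‖ := by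
  apply le_of_sq_le_sq _ (norm_nonneg _)
  rw [zz_sub_one_sq ρ θ (ht.trans hρt), zz_sub_one_sq t θ ht]
  have h1 : t ^ N ≤ ρ ^ N := pow_le_pow_left₀ ht hρt N
  nlinarith [mul_nonneg (sub_nonneg.mpr h1) (sub_nonneg.mpr h), sq_nonneg (t ^ N - ρ ^ N)]

theorem Rf_mono {N : ℕ} {y z : ℂ} (hy : 0 < ‖y ^ N - 1‖) (h : ‖y ^ N - 1‖ ≤ ‖z ^ N - 1‖) :
    Rf N y ≤ Rf N z := by
  unfold Rf
  apply Real.exp_le_exp.mpr
  gcongr

/-- mid lines -/
theorem Rf_mid {N : ℕ} (hN : N ≠ 0) {z : ℂ} (hz : (z ^ N).re ≤ 0.8 * ‖z ^ N‖) :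
    0.6 ≤ ‖z ^ N - 1‖ ∧ 1 + (1 / 10) / N ≤ Rf N z := by
  have h1 : 0.6 ≤ ‖z ^ N - 1‖ := by
    apply le_of_sq_le_sq _ (norm_nonneg _)
    rw [norm_sub_one_sq]
    nlinarith [sq_nonneg (‖z ^ N‖ - 0.8)]
  refine ⟨h1, ?_⟩
  have h2 : 0 < ‖z ^ N - 1‖ := by linarith
  have := Rf_ge_of hN h2 1 one_pos (1 / 10) (by norm_num) (by
    have := exp_tenth_lt
    rw [one_pow, mul_one]
    linarith)
  rwa [mul_one] at this

/-- far out -/
theorem Rf_far {N : ℕ} (hN : N ≠ 0) {z : ℂ} (hz : 2 ≤ ‖z‖ ^ N) (hz0 : 0 < ‖z‖) :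
    0 < ‖z ^ N - 1‖ ∧ ‖z‖ ≤ Rf N z := by
  have hb3 : ‖z‖ ^ N - 1 ≤ ‖z ^ N - 1‖ := by
    have := norm_sub_norm_le (z ^ N) 1
    rw [norm_pow, norm_one] at this
    exact this
  have h2 : 0 < ‖z ^ N - 1‖ := by linarith
  refine ⟨h2, ?_⟩
  have := Rf_ge_of hN h2 ‖z‖ hz0 0 le_rfl (by
    rw [Real.exp_zero, one_mul]
    linarith)
  simpa using this

/-- derivative along a ray -/
theorem hasDerivAt_ray (φ : ℂ → ℝ) (hφ : ContDiff ℝ 1 φ) (t θ : ℝ) :
    HasDerivAt (fun t => φ (zz t θ)) (fderiv ℝ φ (zz t θ) (Complex.exp (θ * Complex.I))) t := by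
  have h1 : HasDerivAt (fun t : ℝ => zz t θ) (Complex.exp (θ * Complex.I)) t := by
    unfold zz
    have := (Complex.ofRealCLM.hasDerivAt (x := t)).mul_const (Complex.exp (θ * Complex.I))
    simpa using this
  exact ((hφ.differentiable (by norm_num)) (zz t θ)).hasFDerivAt.comp_hasDerivAt t h1

theorem hasDerivAt_circle (φ : ℂ → ℝ) (hφ : ContDiff ℝ 1 φ) (t θ : ℝ) :
    HasDerivAt (fun θ => φ (zz t θ)) (fderiv ℝ φ (zz t θ) (zz t θ * Complex.I)) θ := by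
  have h1 : HasDerivAt (fun θ : ℝ => zz t θ) (zz t θ * Complex.I) θ := by
    unfold zz
    have h2 : HasDerivAt (fun θ : ℝ => (θ : ℂ) * Complex.I) (1 * Complex.I) θ := by
      have := (Complex.ofRealCLM.hasDerivAt (x := θ)).mul_const Complex.I
      simpa using this
    have h3 := (h2.cexp).const_mul (t : ℂ)
    refine h3.congr_deriv ?_
    ring
  exact ((hφ.differentiable (by norm_num)) (zz t θ)).hasFDerivAt.comp_hasDerivAt θ h1

/-- estimate along a ray with a lower bound `c₀` for the ground state -/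
theorem line_est (P : Prof) (N : ℕ) (φ : ℂ → ℝ) (hφ : ContDiff ℝ 1 φ) (θ α β : ℝ) (hαβ : α ≤ β)
    (hd : Continuous (fun z => P.U N z ^ 2 * ‖gradient φ z‖ ^ 2))
    (c₀ : ℝ) (hc₀ : 0 ≤ c₀) (h : ∀ t ∈ Icc α β, c₀ ≤ P.U N (zz t θ)) :
    c₀ ^ 2 * (φ (zz β θ) - φ (zz α θ)) ^ 2 ≤
      (β - α) * ∫ t in α..β, P.U N (zz t θ) ^ 2 * ‖gradient φ (zz t θ)‖ ^ 2 := by
  have hfc : Continuous (fun t => fderiv ℝ φ (zz t θ) (Complex.exp (θ * Complex.I))) :=
    ((hφ.continuous_fderiv (by norm_num)).comp (zz_cont1 θ)).clm_apply continuous_const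
  have h1 : φ (zz β θ) - φ (zz α θ) = ∫ t in α..β, fderiv ℝ φ (zz t θ) (Complex.exp (θ * Complex.I)) := by
    rw [intervalIntegral.integral_eq_sub_of_hasDerivAt (f := fun t => φ (zz t θ))
      (fun t _ => hasDerivAt_ray φ hφ t θ) (hfc.intervalIntegrable _ _)]
  have h2 := cs_plain α β hαβ _ hfc.continuousOn
  rw [← h1] at h2
  calc c₀ ^ 2 * (φ (zz β θ) - φ (zz α θ)) ^ 2
      ≤ c₀ ^ 2 * ((β - α) * ∫ t in α..β, (fderiv ℝ φ (zz t θ) (Complex.exp (θ * Complex.I))) ^ 2) :=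
        mul_le_mul_of_nonneg_left h2 (by positivity)
    _ = (β - α) * ∫ t in α..β, c₀ ^ 2 * (fderiv ℝ φ (zz t θ) (Complex.exp (θ * Complex.I))) ^ 2 := by
        rw [intervalIntegral.integral_const_mul]; ring
    _ ≤ _ := by
        apply mul_le_mul_of_nonneg_left _ (by linarith)
        apply intervalIntegral.integral_mono_on hαβ
        · exact ((hfc.pow 2).const_mul _).intervalIntegrable _ _
        · exact (hd.comp (zz_cont1 θ)).intervalIntegrable _ _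
        · intro t ht
          have e1 : (fderiv ℝ φ (zz t θ) (Complex.exp (θ * Complex.I))) ^ 2 ≤ ‖gradient φ (zz t θ)‖ ^ 2 := by
            rw [norm_gradient, ← sq_abs, ← Real.norm_eq_abs]
            apply pow_le_pow_left₀ (norm_nonneg _)
            have := (fderiv ℝ φ (zz t θ)).le_opNorm (Complex.exp (θ * Complex.I))
            rwa [Complex.norm_exp_ofReal_mul_I, mul_one] at this
          have e2 : c₀ ^ 2 ≤ P.U N (zz t θ) ^ 2 := pow_le_pow_left₀ hc₀ (h t ht) 2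
          calc c₀ ^ 2 * (fderiv ℝ φ (zz t θ) (Complex.exp (θ * Complex.I))) ^ 2
              ≤ P.U N (zz t θ) ^ 2 * ‖gradient φ (zz t θ)‖ ^ 2 := by
                apply mul_le_mul e2 e1 (sq_nonneg _) (sq_nonneg _)
            _ = _ := rfl

end Pool.Agent.Helper533.ConvexObstacle
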