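import Pool.Agent.Helper533.ConvexObstacle.Defs

open MeasureTheory Metric Set
open scoped Pointwise ENNReal

namespace Pool.Agent.Helper533.ConvexObstacle

/-- nearest-point projection -/
theorem exists_proj {K : Set ℂ} (hc : Convex ℝ K) (hK : IsCompact K) (hne : K.Nonempty) :
    ∃ p : ℂ → ℂ, LipschitzWith 1 p ∧
      ∀ u v : ℂ, v ∈ K → (∀ w ∈ K, inner ℝ (u - v) (w - v) ≤ 0) → p u = v := by
  have h1 := exists_norm_eq_iInf_of_complete_convex hne hK.isComplete hc
  choose p hp1 hp2 using h1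
  have hp3 : ∀ u, ∀ w ∈ K, inner ℝ (u - p u) (w - p u) ≤ 0 := fun u =>
    (norm_eq_iInf_iff_real_inner_le_zero hc (hp1 u)).mp (hp2 u)
  refine ⟨p, ?_, ?_⟩
  · apply LipschitzWith.of_dist_le_mul
    intro x y
    rw [NNReal.coe_one, one_mul, dist_eq_norm, dist_eq_norm]
    have a1 := hp3 x (p y) (hp1 y)
    have a2 := hp3 y (p x) (hp1 x)
    have a3 : ‖p x - p y‖ ^ 2 ≤ inner ℝ (x - y) (p x - p y) := by
      rw [← real_inner_self_eq_norm_sq]
      simp only [inner_sub_left, inner_sub_right] at a1 a2 ⊢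
      rw [real_inner_comm (p x) (p y)] at *
      linarith
    have a4 : inner ℝ (x - y) (p x - p y) ≤ ‖x - y‖ * ‖p x - p y‖ := real_inner_le_norm _ _
    rcases eq_or_lt_of_le (norm_nonneg (p x - p y)) with h | h
    · rw [← h]; exact norm_nonneg _
    · nlinarith
  · intro u v hv h
    have a1 := hp3 u v hv
    have a2 := h (p u) (hp1 u)
    have a3 : ‖p u - v‖ ^ 2 ≤ 0 := by
      rw [← real_inner_self_eq_norm_sq]
      simp only [inner_sub_left, inner_sub_right] at a1 a2 ⊢
      rw [real_inner_comm (p u) v] at *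
      linarith
    have a4 : ‖p u - v‖ = 0 := by
      have := norm_nonneg (p u - v)
      nlinarith
    exact sub_eq_zero.mp (norm_eq_zero.mp a4)

/-- supporting direction at a boundary point -/
theorem exists_support {K : Set ℂ} (hc : Convex ℝ K) (hi : (interior K).Nonempty) {x : ℂ}
    (hx : x ∈ frontier K) : ∃ ν : ℂ, ν ≠ 0 ∧ ∀ w ∈ K, inner ℝ ν (w - x) ≤ 0 := by
  obtain ⟨f, hf⟩ := geometric_hahn_banach_open_point (x := x) hc.interior isOpen_interior hx.2
  set ν := (InnerProductSpace.toDual ℝ ℂ).symm f with hν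
  have hfν : ∀ w, f w = inner ℝ ν w := fun w => by
    rw [hν, InnerProductSpace.toDual_symm_apply]
  obtain ⟨y, hy⟩ := hi
  refine ⟨ν, ?_, ?_⟩
  · intro h0
    have := hf y hy
    rw [hfν, hfν, h0, inner_zero_left, inner_zero_left] at this
    exact lt_irrefl _ this
  · intro w hw
    rw [inner_sub_right, sub_nonpos, ← hfν, ← hfν]
    have hcl : w ∈ closure (interior K) := by
      rw [hc.closure_interior_eq_closure_of_nonempty_interior ⟨y, hy⟩]
      exact subset_closure hw
    have : closure (interior K) ⊆ {w | f w ≤ f x} :=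
      closure_minimal (fun w hw => (hf w hw).le) (isClosed_le f.continuous continuous_const)
    exact this hcl

/-- last point of a ray in a compact set is a boundary point -/
theorem exists_last {K : Set ℂ} (hK : IsCompact K) {x ν : ℂ} (hx : x ∈ K) (hν : ν ≠ 0) :
    ∃ t : ℝ, 0 ≤ t ∧ x + t • ν ∈ frontier K := by
  set S : Set ℝ := {t | 0 ≤ t ∧ x + t • ν ∈ K} with hS
  have hcont : Continuous (fun t : ℝ => x + t • ν) := by fun_prop
  have hSc : IsClosed S := (isClosed_le continuous_const continuous_id).inter (hK.isClosed.preimage hcont)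
  have hν' : 0 < ‖ν‖ := norm_pos_iff.mpr hν
  have hSb : Bornology.IsBounded S := by
    obtain ⟨B, hB⟩ := hK.isBounded.exists_norm_le
    rw [isBounded_iff_forall_norm_le]
    refine ⟨(B + ‖x‖) / ‖ν‖, fun t ht => ?_⟩
    rw [le_div_iff₀ hν']
    have h1 := hB _ ht.2
    have h2 : ‖t‖ * ‖ν‖ = ‖t • ν‖ := (norm_smul t ν).symm
    rw [h2]
    have h3 := norm_sub_le (x + t • ν) x
    rw [add_sub_cancel_left] at h3
    linarith
  have hScomp : IsCompact S := Metric.isCompact_of_isClosed_isBounded hSc hSb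
  have hSne : S.Nonempty := ⟨0, le_refl _, by simpa using hx⟩
  obtain ⟨t, ht, htmax⟩ := hScomp.exists_isGreatest hSne
  refine ⟨t, ht.1, subset_closure ht.2, ?_⟩
  intro hint
  have h1 : ∀ᶠ s in nhds t, x + s • ν ∈ K := by
    have := hcont.continuousAt.preimage_mem_nhds (mem_interior_iff_mem_nhds.mp hint)
    exact this
  have h2 : ∀ᶠ s in nhdsWithin t (Ioi t), x + s • ν ∈ K := h1.filter_mono nhdsWithin_le_nhds
  obtain ⟨s, hs1, hs2⟩ := (h2.and self_mem_nhdsWithin).exists
  have h3 : t < s := hs2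
  have h4 : s ∈ S := ⟨ht.1.trans h3.le, hs1⟩
  have h5 : s ≤ t := htmax h4
  exact absurd h3 (not_lt.mpr h5)

/-- **Monotonicity of the perimeter.** -/
theorem perim_mono {K K' : Set ℂ} (hc : Convex ℝ K) (hK : IsCompact K) (hi : (interior K).Nonempty)
    (hK' : IsCompact K') (h : K ⊆ K') : (μH[1] : Measure ℂ) (frontier K) ≤ μH[1] (frontier K') := by
  have hne : K.Nonempty := hi.mono interior_subset
  obtain ⟨p, hp1, hp2⟩ := exists_proj hc hK hne
  have hsub : frontier K ⊆ p '' frontier K' := by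
    intro x hx
    have hxK : x ∈ K := hK.isClosed.frontier_subset hx
    obtain ⟨ν, hν, hν2⟩ := exists_support hc hi hx
    obtain ⟨t, ht, ht2⟩ := exists_last hK' (h hxK) hν
    refine ⟨x + t • ν, ht2, ?_⟩
    apply hp2 _ _ hxK
    intro w hw
    rw [add_sub_cancel_left, inner_smul_left]
    exact mul_nonpos_of_nonneg_of_nonpos (by simpa using ht) (hν2 w hw)
  calc (μH[1] : Measure ℂ) (frontier K) ≤ μH[1] (p '' frontier K') := measure_mono hsub
    _ ≤ ((1 : NNReal) : ℝ≥0∞) ^ (1:ℝ) * μH[1] (frontier K') := hp1.hausdorffMeasure_image_le zero_le_one _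
    _ = μH[1] (frontier K') := by simp

theorem perim_smul {K : Set ℂ} {t : ℝ} (ht : 0 < t) :
    (μH[1] : Measure ℂ) (frontier (t • K)) = ENNReal.ofReal t * μH[1] (frontier K) := by
  have h1 : frontier (t • K) = t • frontier K := by
    have : (t • K) = (Homeomorph.smulOfNeZero t ht.ne') '' K := rfl
    rw [this, ← Homeomorph.image_frontier]
    rfl
  rw [h1, Measure.hausdorffMeasure_smul₀ zero_le_one ht.ne', NNReal.rpow_one]
  rw [ENNReal.smul_def, smul_eq_mul]
  congr 1
  rw [ENNReal.ofReal, Real.nnnorm_of_nonneg ht.le]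
  congr 1
  ext
  simp [ht.le]

/-- length of the unit circle -/
noncomputable def c₁ : ℝ≥0∞ := (μH[1] : Measure ℂ) (sphere 0 1)

theorem perim_ball {r : ℝ} (hr : 0 < r) :
    (μH[1] : Measure ℂ) (frontier (closedBall 0 r)) = ENNReal.ofReal r * c₁ := by
  have h1 : closedBall (0:ℂ) r = r • closedBall (0:ℂ) 1 := by
    rw [smul_closedBall' hr.ne']
    simp [Real.norm_of_nonneg hr.le, abs_of_pos hr]
  rw [h1, perim_smul hr, frontier_closedBall _ one_ne_zero]
  rfl

end Pool.Agent.Helper533.ConvexObstacle
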