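import Pool.Agent.Helper533.ConvexObstacle.IBP

open MeasureTheory Metric Set

namespace Pool.Agent.Helper533.ConvexObstacle

theorem norm_gradient (u : ℂ → ℝ) (z : ℂ) : ‖gradient u z‖ = ‖fderiv ℝ u z‖ := by
  unfold gradient
  exact LinearIsometryEquiv.norm_map _ _

theorem fderiv_eq_inner (u : ℂ → ℝ) (z v : ℂ) : fderiv ℝ u z v = inner ℝ (gradient u z) v := by
  rw [gradient, InnerProductSpace.toDual_symm_apply]

theorem gradient_tsupport {u : ℂ → ℝ} {z : ℂ} (hz : z ∉ tsupport u) : gradient u z = 0 := by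
  have := (eventually_zero_of_notMem hz).fderiv_eq (𝕜 := ℝ)
  simp [gradient, this]

theorem gradient_cont {u : ℂ → ℝ} (hu : ContDiff ℝ 1 u) : Continuous (fun z => gradient u z) := by
  unfold gradient
  exact (LinearIsometryEquiv.continuous _).comp (hu.continuous_fderiv (by norm_num))

theorem integrable_gradient_sq {u : ℂ → ℝ} (hu : ContDiff ℝ 1 u) (huc : HasCompactSupport u) :
    Integrable (fun z => ‖gradient u z‖ ^ 2) := by
  apply Continuous.integrable_of_hasCompactSupport ((gradient_cont hu).norm.pow 2)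
  apply IsCompact.of_isClosed_subset huc (isClosed_tsupport _)
  apply closure_minimal _ (isClosed_tsupport u)
  intro z hz
  by_contra hcon
  apply hz
  simp [gradient_tsupport hcon]

theorem tsupport_sub_of_zero {f u : ℂ → ℝ} (h : ∀ z, u z = 0 → f z = 0) : tsupport f ⊆ tsupport u := by
  apply closure_mono
  intro z hz
  rw [Function.mem_support] at hz ⊢
  intro h0
  exact hz (h z h0)

theorem integrable_sq {u : ℂ → ℝ} (hu : Continuous u) (huc : HasCompactSupport u) :
    Integrable (fun z => u z ^ 2) := by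
  apply Continuous.integrable_of_hasCompactSupport (hu.pow 2)
  exact IsCompact.of_isClosed_subset huc (isClosed_tsupport _)
    (tsupport_sub_of_zero (fun z h => by simp [h]))

theorem contDiff_of_tsupport {n : WithTop ℕ∞} {f : ℂ → ℝ} (h : ∀ z ∈ tsupport f, ContDiffAt ℝ n f z) :
    ContDiff ℝ n f := by
  rw [contDiff_iff_contDiffAt]
  intro z
  by_cases hz : z ∈ tsupport f
  · exact h z hz
  · exact (contDiffAt_const (c := (0:ℝ))).congr_of_eventuallyEq (eventually_zero_of_notMem hz)

/-- Ground state substitution. -/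
theorem picone_eq (S : Set ℂ) (hS : IsOpen S) (p : ℂ → ℂ) (hp : DifferentiableOn ℂ p S) (h : ℂ → ℝ)
    (hh : ∀ z ∈ S, HasFDerivAt h (innerSL ℝ ((starRingEnd ℂ) (p z))) z)
    (hhs : ∀ z ∈ S, ContDiffAt ℝ 1 h z)
    (G G1 G2 : ℝ → ℝ) (hG0 : ∀ z ∈ S, HasDerivAt G (G1 (h z)) (h z))
    (hGs : ∀ z ∈ S, ContDiffAt ℝ 1 G (h z))
    (hG : ∀ z ∈ S, HasDerivAt G1 (G2 (h z)) (h z))
    (hG2 : ∀ z ∈ S, ContinuousAt G2 (h z)) (hpos : ∀ z ∈ S, 0 < G (h z))
    (u : ℂ → ℝ) (hu : ContDiff ℝ 1 u) (huc : HasCompactSupport u) (hus : tsupport u ⊆ S) :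
    ContDiff ℝ 1 (fun z => u z / G (h z)) ∧ tsupport (fun z => u z / G (h z)) ⊆ tsupport u ∧
    ∫ z, ‖gradient u z‖ ^ 2 = (∫ z, G (h z) ^ 2 * ‖gradient (fun z => u z / G (h z)) z‖ ^ 2) -
      ∫ z, u z ^ 2 / G (h z) * (G2 (h z) * ‖p z‖ ^ 2) := by
  set U : ℂ → ℝ := fun z => G (h z) with hU
  set φ : ℂ → ℝ := fun z => u z / U z with hφ
  have hUs : ∀ z ∈ S, ContDiffAt ℝ 1 U z := fun z hz => (hGs z hz).comp z (hhs z hz)
  have hts : tsupport φ ⊆ tsupport u := tsupport_sub_of_zero (fun z h => by simp [hφ, h])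
  have hφs : ContDiff ℝ 1 φ := by
    apply contDiff_of_tsupport
    intro z hz
    have hzS := hus (hts hz)
    exact hu.contDiffAt.div (hUs z hzS) (hpos z hzS).ne'
  set ζ : ℂ → ℝ := fun z => u z ^ 2 / U z with hζ
  have hts2 : tsupport ζ ⊆ tsupport u := tsupport_sub_of_zero (fun z h => by simp [hζ, h])
  have hζs : ContDiff ℝ 1 ζ := by
    apply contDiff_of_tsupport
    intro z hz
    have hzS := hus (hts2 hz)
    exact (hu.contDiffAt.pow 2).div (hUs z hzS) (hpos z hzS).ne'
  have hζc : HasCompactSupport ζ := IsCompact.of_isClosed_subset huc (isClosed_tsupport _) hts2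
  have hφc : HasCompactSupport φ := IsCompact.of_isClosed_subset huc (isClosed_tsupport _) hts
  have hibp := ibp_harm S hS p hp h hh G1 G2 hG hG2 ζ hζs hζc (hts2.trans hus)
  refine ⟨hφs, hts, ?_⟩
  -- gradient of U
  set X : ℂ → ℂ := fun z => (G1 (h z) : ℂ) * (starRingEnd ℂ) (p z) with hX
  have hUd : ∀ z ∈ S, HasFDerivAt U (innerSL ℝ (X z)) z := by
    intro z hz
    have h1 := (hG0 z hz).comp_hasFDerivAt z (hh z hz)
    have h2 : innerSL ℝ (X z) = G1 (h z) • innerSL ℝ ((starRingEnd ℂ) (p z)) := by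
      rw [hX]
      have : (G1 (h z) : ℂ) * (starRingEnd ℂ) (p z) = G1 (h z) • (starRingEnd ℂ) (p z) := by
        rw [Complex.real_smul]
      simp only [this, map_smul]
    rw [h2]
    exact h1
  have hpt : ∀ z, ‖gradient u z‖ ^ 2 = U z ^ 2 * ‖gradient φ z‖ ^ 2 + fderiv ℝ ζ z (X z) := by
    intro z
    by_cases hz : z ∈ tsupport u
    · have hzS := hus hz
      have hUz := hpos z hzS
      have hUz' : U z ≠ 0 := hUz.ne'
      have hUzd := hUd z hzS
      have hne : ∀ᶠ y in nhds z, U y ≠ 0 := hUzd.continuousAt.eventually_ne hUz'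
      have hφd : DifferentiableAt ℝ φ z := hφs.differentiable (by norm_num) z
      -- u = U φ near z
      have hev : u =ᶠ[nhds z] fun y => U y * φ y := by
        filter_upwards [hne] with y hy
        simp only [hφ]
        field_simp
      have hev2 : ζ =ᶠ[nhds z] fun y => U y * φ y ^ 2 := by
        filter_upwards [hne] with y hy
        simp only [hφ, hζ]
        field_simp
      have e1 : fderiv ℝ u z = U z • fderiv ℝ φ z + φ z • innerSL ℝ (X z) := by
        rw [hev.fderiv_eq]
        exact (hUzd.mul hφd.hasFDerivAt).fderiv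
      have e2 : fderiv ℝ ζ z = U z • ((2 * φ z) • fderiv ℝ φ z) + φ z ^ 2 • innerSL ℝ (X z) := by
        rw [hev2.fderiv_eq]
        have := hφd.hasFDerivAt.pow 2
        have h3 := (hUzd.mul this).fderiv
        simp only [Pi.mul_def, Pi.pow_apply] at h3
        rw [h3]
        simp
      have e3 : gradient u z = U z • gradient φ z + φ z • X z := by
        unfold gradient
        rw [e1, map_add]
        have a1 : (InnerProductSpace.toDual ℝ ℂ).symm (U z • fderiv ℝ φ z) = U z • (InnerProductSpace.toDual ℝ ℂ).symm (fderiv ℝ φ z) := by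
          simp
        have a2 : (InnerProductSpace.toDual ℝ ℂ).symm (φ z • innerSL ℝ (X z)) = φ z • X z := by
          rw [LinearIsometryEquiv.symm_apply_eq]
          ext v
          simp
          ring
        rw [a1, a2]
      rw [e3, e2, norm_add_sq_real, norm_smul, norm_smul]
      simp only [FunLike.coe_smul, FunLike.coe_add, Pi.smul_apply,
        Pi.add_apply, smul_eq_mul, innerSL_apply_apply, real_inner_self_eq_norm_sq, fderiv_eq_inner,
        inner_smul_left, inner_smul_right, Real.norm_eq_abs, mul_pow, sq_abs]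
      simp
      ring
    · have h1 := gradient_tsupport hz
      have h2 := gradient_tsupport (u := φ) (fun h' => hz (hts h'))
      have h3 : fderiv ℝ ζ z = 0 := by
        have := (eventually_zero_of_notMem (w := ζ) (fun h' => hz (hts2 h'))).fderiv_eq (𝕜 := ℝ)
        rw [this]; simp
      simp [h1, h2, h3]
  have hXc : ∀ z ∈ S, ContinuousAt X z := by
    intro z hz
    have c1 : ContinuousAt (fun z => G1 (h z)) z :=
      ContinuousAt.comp (g := G1) (f := h) (hG z hz).continuousAt (hh z hz).continuousAt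
    have c2 : ContinuousAt p z := (hp.differentiableAt (hS.mem_nhds hz)).continuousAt
    exact (Complex.continuous_ofReal.continuousAt.comp c1).mul (Complex.continuous_conj.continuousAt.comp c2)
  have i1 : Integrable (fun z => fderiv ℝ ζ z (X z)) := by
    have hsub : tsupport (fun z => fderiv ℝ ζ z (X z)) ⊆ tsupport ζ := by
      apply closure_minimal _ (isClosed_tsupport ζ)
      intro z hz
      by_contra hcon
      apply hz
      have := (eventually_zero_of_notMem hcon).fderiv_eq (𝕜 := ℝ)
      simp only [this]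
      simp
    apply Continuous.integrable_of_hasCompactSupport
    · apply continuous_of_tsupport
      intro z hz
      exact ((hζs.continuous_fderiv (by norm_num)).continuousAt).clm_apply (hXc z (hus (hts2 (hsub hz))))
    · exact IsCompact.of_isClosed_subset hζc (isClosed_tsupport _) hsub
  have i2 : Integrable (fun z => U z ^ 2 * ‖gradient φ z‖ ^ 2) := by
    have hsub : tsupport (fun z => ‖gradient φ z‖ ^ 2) ⊆ tsupport φ := by
      apply closure_minimal _ (isClosed_tsupport φ)
      intro z hz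
      by_contra hcon
      apply hz
      simp [gradient_tsupport hcon]
    have := integrable_tsupport (w := φ) (a := fun z => ‖gradient φ z‖ ^ 2) (b := fun z => U z ^ 2)
      hφc ((gradient_cont hφs).norm.pow 2) hsub
      (fun z hz => (hUs z (hus (hts hz))).continuousAt.pow 2)
    refine this.congr (Filter.Eventually.of_forall fun z => ?_)
    ring
  calc ∫ z, ‖gradient u z‖ ^ 2 = ∫ z, (U z ^ 2 * ‖gradient φ z‖ ^ 2 + fderiv ℝ ζ z (X z)) := by
        congr 1; ext z; exact hpt z
    _ = (∫ z, U z ^ 2 * ‖gradient φ z‖ ^ 2) + ∫ z, fderiv ℝ ζ z (X z) := integral_add i2 i1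
    _ = _ := by rw [hibp]; ring

end Pool.Agent.Helper533.ConvexObstacle
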