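import Pool.Agent.Helper533.ConvexObstacle.PlaneDefs
import Pool.Agent.Helper533.ConvexObstacle.Final

open MeasureTheory Metric Set
open scoped ENNReal

namespace Pool.Agent.Helper533.ConvexObstacle.PlaneDefs

/-- identification of the complex plane with the Euclidean plane -/
noncomputable def E : ℂ ≃ₗᵢ[ℝ] Plane := Complex.orthonormalBasisOneI.repr

theorem norm_gradient' (u : Plane → ℝ) (x : Plane) : ‖gradient u x‖ = ‖fderiv ℝ u x‖ := by
  unfold gradient
  rw [LinearIsometryEquiv.norm_map]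

theorem rayleigh_comp (u : Plane → ℝ) : rayleigh (fun z => u (E z)) = rayleighQuotient u := by
  have hmp : MeasurePreserving E volume volume := E.measurePreserving
  have hme : MeasurableEmbedding E := E.toHomeomorph.measurableEmbedding
  have h2 : ∫ z, (u (E z)) ^ 2 = ∫ x, (u x) ^ 2 := hmp.integral_comp hme (fun x => u x ^ 2)
  have h1 : ∫ z, ‖gradient (fun z => u (E z)) z‖ ^ 2 = ∫ x, ‖gradient u x‖ ^ 2 := by
    have e : ∀ z, ‖gradient (fun z => u (E z)) z‖ = ‖gradient u (E z)‖ := by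
      intro z
      rw [norm_gradient, norm_gradient']
      have h1 : fderiv ℝ (fun z => u (E z)) z = (fderiv ℝ u (E z)).comp (E : ℂ →L[ℝ] Plane) := by
        have := E.toContinuousLinearEquiv.comp_right_fderiv (f := u) (x := z)
        exact this
      rw [h1]
      exact ContinuousLinearMap.opNorm_comp_linearIsometryEquiv _ E
    simp_rw [e]
    exact hmp.integral_comp hme (fun x => ‖gradient u x‖ ^ 2)
  unfold rayleigh rayleighQuotient
  rw [h1, h2]

theorem test_comp {U : Set Plane} {u : Plane → ℝ} (h : IsTestFunction U u) :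
    IsTest (E ⁻¹' U) (fun z => u (E z)) := by
  obtain ⟨h1, h2, h3, x, hx⟩ := h
  refine ⟨h1.comp E.contDiff, h2.comp_homeomorph E.toHomeomorph, ?_, E.symm x, by simpa using hx⟩
  have := tsupport_comp_eq_preimage u E.toHomeomorph
  have h4 : tsupport (fun z => u (E z)) = E ⁻¹' tsupport u := this
  rw [h4]
  exact preimage_mono h3

theorem test_comp_symm {U : Set Plane} {v : ℂ → ℝ} (h : IsTest (E ⁻¹' U) v) :
    IsTestFunction U (fun x => v (E.symm x)) := by
  obtain ⟨h1, h2, h3, x, hx⟩ := h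
  refine ⟨h1.comp E.symm.contDiff, h2.comp_homeomorph E.symm.toHomeomorph, ?_, E x, by simpa using hx⟩
  have := tsupport_comp_eq_preimage v E.symm.toHomeomorph
  have h4 : tsupport (fun z => v (E.symm z)) = E.symm ⁻¹' tsupport v := this
  rw [h4]
  intro y hy
  have := h3 hy
  simpa using this

theorem eig_eq {U : Set Plane} (hU : IsOpen U) (hne : U.Nonempty) :
    firstEigenvalue U = ENNReal.ofReal (lambda1 (E ⁻¹' U)) := by
  apply le_antisymm
  · apply ENNReal.le_of_forall_pos_le_add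
    intro ε hε _
    have hopen : IsOpen (E ⁻¹' U) := hU.preimage E.continuous
    have hne' : (E ⁻¹' U).Nonempty := by
      obtain ⟨x, hx⟩ := hne
      exact ⟨E.symm x, by simpa using hx⟩
    obtain ⟨u₀, hu₀⟩ := exists_test hopen hne'
    have hSne : {q : ℝ | ∃ u : ℂ → ℝ, IsTest (E ⁻¹' U) u ∧ q = rayleigh u}.Nonempty := ⟨_, u₀, hu₀, rfl⟩
    obtain ⟨q, ⟨v, hv, rfl⟩, hq⟩ := exists_lt_of_csInf_lt hSne
      (show sInf {q : ℝ | ∃ u : ℂ → ℝ, IsTest (E ⁻¹' U) u ∧ q = rayleigh u} < lambda1 (E ⁻¹' U) + ε by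
        unfold lambda1
        have : (0:ℝ) < ε := by exact_mod_cast hε
        linarith)
    have hr : rayleighQuotient (fun x => v (E.symm x)) = rayleigh v := by
      rw [← rayleigh_comp]
      simp
    calc firstEigenvalue U ≤ ENNReal.ofReal (rayleighQuotient (fun x => v (E.symm x))) :=
          iInf₂_le _ (test_comp_symm hv)
      _ ≤ ENNReal.ofReal (lambda1 (E ⁻¹' U) + ε) := by
          rw [hr]; exact ENNReal.ofReal_le_ofReal hq.le
      _ ≤ ENNReal.ofReal (lambda1 (E ⁻¹' U)) + ENNReal.ofReal ε := ENNReal.ofReal_add_le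
      _ = _ := by rw [ENNReal.ofReal_coe_nnreal]
  · apply le_iInf₂
    intro u hu
    apply ENNReal.ofReal_le_ofReal
    rw [← rayleigh_comp]
    exact lambda1_le (test_comp hu)

theorem adm_iff (Ω K : Set Plane) (L : ℝ) :
    IsAdmissible Ω L K ↔ IsAdm (E ⁻¹' Ω) (ENNReal.ofReal L) (E ⁻¹' K) := by
  have e1 : IsClosed K ↔ IsClosed (E ⁻¹' K) := (E.toHomeomorph.isClosed_preimage (s := K)).symm
  have e2 : Convex ℝ K ↔ Convex ℝ (E ⁻¹' K) := by
    constructor
    · intro h; exact h.linear_preimage E.toLinearEquiv.toLinearMap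
    · intro h
      have h1 := h.linear_preimage E.symm.toLinearEquiv.toLinearMap
      have h2 : (E.symm.toLinearEquiv.toLinearMap) ⁻¹' (E ⁻¹' K) = K := by
        ext x
        show E (E.symm x) ∈ K ↔ x ∈ K
        rw [E.apply_symm_apply]
      rwa [h2] at h1
  have e3 : (interior K).Nonempty ↔ (interior (E ⁻¹' K)).Nonempty := by
    have h1 : E ⁻¹' interior K = interior (E ⁻¹' K) := E.toHomeomorph.preimage_interior K
    rw [← h1]
    constructor
    · rintro ⟨x, hx⟩; exact ⟨E.symm x, by simpa using hx⟩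
    · rintro ⟨x, hx⟩; exact ⟨E x, hx⟩
  have e4 : K ⊆ closure Ω ↔ (E ⁻¹' K) ⊆ closure (E ⁻¹' Ω) := by
    have h1 : E ⁻¹' closure Ω = closure (E ⁻¹' Ω) := E.toHomeomorph.preimage_closure Ω
    rw [← h1]
    constructor
    · intro h; exact preimage_mono h
    · intro h x hx
      have := h (show E.symm x ∈ E ⁻¹' K by simpa using hx)
      simpa using this
  have e5 : (Measure.hausdorffMeasure 1 : Measure Plane) (frontier K) =
      (Measure.hausdorffMeasure 1 : Measure ℂ) (frontier (E ⁻¹' K)) := by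
    have h1 : E ⁻¹' frontier K = frontier (E ⁻¹' K) := E.toHomeomorph.preimage_frontier K
    rw [← h1]
    exact (E.toIsometryEquiv.hausdorffMeasure_preimage 1 (frontier K)).symm
  unfold IsAdmissible IsAdm
  rw [e1, e2, e3, e4, e5]

theorem preimage_diff' (Ω K : Set Plane) : E ⁻¹' (Ω \ K) = (E ⁻¹' Ω) \ (E ⁻¹' K) := rfl

theorem plane_main : ∃ (N : ℕ) (q : ℝ) (L : ℝ), N ≠ 0 ∧ 1 < q ∧ 6 < q ^ N ∧
    IsOpen (E.symm ⁻¹' (Om N q)) ∧ IsConnected (E.symm ⁻¹' (Om N q)) ∧ Bornology.IsBounded (E.symm ⁻¹' (Om N q)) ∧ 0 < L ∧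
    ENNReal.ofReal L < (Measure.hausdorffMeasure 1 : Measure Plane) (frontier (E.symm ⁻¹' (Om N q))) ∧
    (∃ K, IsMinimizer (E.symm ⁻¹' (Om N q)) L K) ∧
    (∀ K, IsMinimizer (E.symm ⁻¹' (Om N q)) L K → K ⊆ E.symm ⁻¹' (Om N q)) := by
  obtain ⟨N, q, L, h1, h2, h3, h4, h5, h6, h7, h8, ⟨K, hK1, hK2, hK3⟩, h10⟩ := main_aux
  set Ω' : Set Plane := E.symm ⁻¹' (Om N q) with hΩ'
  have hpre : E ⁻¹' Ω' = Om N q := by
    ext z
    show E.symm (E z) ∈ Om N q ↔ z ∈ Om N q
    rw [E.symm_apply_apply]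
  have hopen : IsOpen Ω' := (isOpen_Om N q).preimage E.symm.continuous
  have hadm : ∀ K', IsAdmissible Ω' L K' ↔ IsAdm (Om N q) (ENNReal.ofReal L) (E ⁻¹' K') := by
    intro K'
    rw [adm_iff, hpre]
  have hne : ∀ K', IsAdmissible Ω' L K' → (Ω' \ K').Nonempty := by
    intro K' hK'
    obtain ⟨z, hz1, hz2⟩ := h8 _ ((hadm K').mp hK')
    exact ⟨E z, by show E.symm (E z) ∈ Om N q; rwa [E.symm_apply_apply], hz2⟩
  have heig : ∀ K', IsAdmissible Ω' L K' →
      firstEigenvalue (Ω' \ K') = ENNReal.ofReal (lambda1 (Om N q \ (E ⁻¹' K'))) := by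
    intro K' hK'
    rw [eig_eq (hopen.sdiff hK'.1) (hne K' hK'), preimage_diff', hpre]
  have hsymm : ∀ A : Set ℂ, E ⁻¹' (E.symm ⁻¹' A) = A := by
    intro A
    ext z
    show E.symm (E z) ∈ A ↔ z ∈ A
    rw [E.symm_apply_apply]
  have him : E.symm ⁻¹' (Om N q) = E '' (Om N q) := by
    ext x
    constructor
    · intro hx; exact ⟨E.symm x, hx, E.apply_symm_apply x⟩
    · rintro ⟨z, hz, rfl⟩
      show E.symm (E z) ∈ Om N q
      rwa [E.symm_apply_apply]
  refine ⟨N, q, L, h1, h2, h3, hopen, ?_, ?_, h6, ?_, ?_, ?_⟩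
  · rw [him]
    exact h4.image E E.continuous.continuousOn
  · rw [him]
    exact E.lipschitz.isBounded_image h5
  · have e1 : frontier Ω' = E.symm ⁻¹' frontier (Om N q) := (E.symm.toHomeomorph.preimage_frontier (Om N q)).symm
    rw [e1]
    have e2 := E.symm.toIsometryEquiv.hausdorffMeasure_preimage 1 (frontier (Om N q))
    have e3 : (Measure.hausdorffMeasure 1 : Measure Plane) (E.symm ⁻¹' frontier (Om N q)) =
      (Measure.hausdorffMeasure 1 : Measure ℂ) (frontier (Om N q)) := e2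
    rw [e3]; exact h7
  · refine ⟨E.symm ⁻¹' K, ?_, ?_⟩
    · rw [hadm, hsymm]; exact hK1
    · intro K' hK'
      have ha : IsAdmissible Ω' L (E.symm ⁻¹' K) := by rw [hadm, hsymm]; exact hK1
      rw [heig K' hK', heig _ ha, hsymm]
      exact ENNReal.ofReal_le_ofReal (hK3 _ ((hadm K').mp hK'))
  · intro K' hK'
    have hmin : ∀ K'', IsAdm (Om N q) (ENNReal.ofReal L) K'' → lambda1 (Om N q \ (E ⁻¹' K')) ≤ lambda1 (Om N q \ K'') := by
      intro K'' hK''
      have ha : IsAdmissible Ω' L (E.symm ⁻¹' K'') := by rw [hadm, hsymm]; exact hK''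
      have := hK'.2 _ ha
      rw [heig _ hK'.1, heig _ ha, hsymm] at this
      rwa [ENNReal.ofReal_le_ofReal_iff (lambda1_nonneg _)] at this
    have h11 := h10 _ ((hadm K').mp hK'.1) hmin
    intro x hx
    have := h11 (show E.symm x ∈ E ⁻¹' K' by simpa using hx)
    exact this

end Pool.Agent.Helper533.ConvexObstacle.PlaneDefs
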