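import Mathlib

open MeasureTheory Metric Set
open scoped ENNReal

namespace Pool.Agent.Helper533.ConvexObstacle.PlaneDefs

/-- The Euclidean plane. -/
abbrev Plane : Type := EuclideanSpace ℝ (Fin 2)

/-- `u` is a smooth function with compact support contained in `U`, not identically zero. -/
def IsTestFunction (U : Set Plane) (u : Plane → ℝ) : Prop :=
  ContDiff ℝ (⊤ : ℕ∞) u ∧ HasCompactSupport u ∧ tsupport u ⊆ U ∧ ∃ x, u x ≠ 0

/-- Rayleigh quotient. -/
noncomputable def rayleighQuotient (u : Plane → ℝ) : ℝ :=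
  (∫ x, ‖gradient u x‖ ^ 2) / (∫ x, (u x) ^ 2)

/-- First eigenvalue of the Dirichlet Laplacian on `U` (infinite if `U` is empty). -/
noncomputable def firstEigenvalue (U : Set Plane) : ℝ≥0∞ :=
  ⨅ (u : Plane → ℝ) (_ : IsTestFunction U u), ENNReal.ofReal (rayleighQuotient u)

/-- `K` is a convex body contained in the closure of `Ω`, with perimeter `L`. -/
def IsAdmissible (Ω : Set Plane) (L : ℝ) (K : Set Plane) : Prop :=
  IsClosed K ∧ Convex ℝ K ∧ (interior K).Nonempty ∧ K ⊆ closure Ω ∧
    (Measure.hausdorffMeasure 1 : Measure Plane) (frontier K) = ENNReal.ofReal L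

/-- `K` is a minimizer of the first Dirichlet eigenvalue of `Ω \ K` among the admissible sets. -/
def IsMinimizer (Ω : Set Plane) (L : ℝ) (K : Set Plane) : Prop :=
  IsAdmissible Ω L K ∧
    ∀ K', IsAdmissible Ω L K' → firstEigenvalue (Ω \ K) ≤ firstEigenvalue (Ω \ K')

end Pool.Agent.Helper533.ConvexObstacle.PlaneDefs
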