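import Pool.Agent.Helper533.ConvexObstacle.LogStep

open MeasureTheory Metric Set

namespace Pool.Agent.Helper533.ConvexObstacle

theorem polar_int (G : ℂ → ℝ) (hG : Continuous G) (r : ℝ) (hr : 0 < r) (hr2 : r ≤ 2)
    (h1 : ∀ z, ‖z‖ ≤ r → G z = 0) (h2 : ∀ z, 2 ≤ ‖z‖ → G z = 0) :
    ∫ z, G z = ∫ θ in (-Real.pi)..Real.pi, ∫ t in r..2, t * G (zz t θ) := by
  have hpi := Real.pi_pos
  rw [← Complex.integral_comp_polarCoord_symm]
  have e0 : ∀ p : ℝ × ℝ, p.1 • G (Complex.polarCoord.symm p) = p.1 * G (zz p.1 p.2) := by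
    intro p
    rw [Complex.polarCoord_symm_apply, smul_eq_mul]
    unfold zz
    rw [Complex.exp_mul_I]
    push_cast
    rfl
  simp_rw [e0]
  have htarget : polarCoord.target = Ioi (0:ℝ) ×ˢ Ioo (-Real.pi) Real.pi := rfl
  rw [htarget]
  have hcont : Continuous (fun p : ℝ × ℝ => p.1 * G (zz p.1 p.2)) := continuous_fst.mul (hG.comp zz_cont)
  have e1 : ∫ p in Ioi (0:ℝ) ×ˢ Ioo (-Real.pi) Real.pi, p.1 * G (zz p.1 p.2) =
      ∫ p in Ioc r 2 ×ˢ Ioo (-Real.pi) Real.pi, p.1 * G (zz p.1 p.2) := by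
    apply setIntegral_eq_of_subset_of_forall_sdiff_eq_zero
    · exact measurableSet_Ioi.prod measurableSet_Ioo
    · apply prod_mono _ le_rfl
      intro x hx
      exact lt_trans hr hx.1
    · rintro ⟨t, θ⟩ ⟨⟨ht0, hθ⟩, hn⟩
      have ht0' : (0:ℝ) < t := ht0
      have hn' : ¬ (r < t ∧ t ≤ 2) := fun hh => hn ⟨hh, hθ⟩
      show t * G (zz t θ) = 0
      have hnz : ‖zz t θ‖ = t := norm_zz t θ ht0'.le
      by_cases hc : r < t
      · have : 2 ≤ ‖zz t θ‖ := by
          rw [hnz]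
          by_contra hcon
          exact hn' ⟨hc, by linarith⟩
        rw [h2 _ this, mul_zero]
      · rw [h1 _ (by rw [hnz]; linarith), mul_zero]
  rw [e1]
  have hint : IntegrableOn (fun p : ℝ × ℝ => p.1 * G (zz p.1 p.2)) (Ioc r 2 ×ˢ Ioo (-Real.pi) Real.pi)
      ((volume : Measure ℝ).prod volume) := by
    apply (hcont.continuousOn.integrableOn_compact (K := Icc r 2 ×ˢ Icc (-Real.pi) Real.pi)
      (isCompact_Icc.prod isCompact_Icc)).mono_set
    exact prod_mono Ioc_subset_Icc_self Ioo_subset_Icc_self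
  rw [Measure.volume_eq_prod, setIntegral_prod _ hint]
  have e2 : ∫ x in Ioc r 2, ∫ y in Ioo (-Real.pi) Real.pi, x * G (zz x y) =
      ∫ x in r..2, ∫ y in (-Real.pi)..Real.pi, x * G (zz x y) := by
    rw [intervalIntegral.integral_of_le hr2]
    congr 1
    ext x
    rw [intervalIntegral.integral_of_le (by linarith), integral_Ioc_eq_integral_Ioo]
  show ∫ x in Ioc r 2, ∫ y in Ioo (-Real.pi) Real.pi, x * G (zz x y) = _
  rw [e2]
  apply intervalIntegral_intervalIntegral_swap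
  apply (hcont.continuousOn.integrableOn_compact (K := Icc r 2 ×ˢ Icc (-Real.pi) Real.pi)
      (isCompact_Icc.prod isCompact_Icc)).mono_set
  rw [uIoc_of_le hr2, uIoc_of_le (by linarith)]
  exact prod_mono Ioc_subset_Icc_self Ioc_subset_Icc_self

/-- sum of integrals over disjoint cells -/
theorem sum_cells (f : ℝ → ℝ) (hf : Continuous f) (hf0 : ∀ x, 0 ≤ f x) (a b : ℕ → ℝ)
    (hab : ∀ k, a k ≤ b k) (hba : ∀ k, b k ≤ a (k + 1)) (m : ℕ) :
    ∑ k ∈ Finset.range m, ∫ x in (a k)..(b k), f x ≤ ∫ x in (a 0)..(a m), f x := by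
  induction m with
  | zero => simp
  | succ m ih =>
    rw [Finset.sum_range_succ]
    have e : ∫ x in (a 0)..(a (m + 1)), f x = (∫ x in (a 0)..(a m), f x) + (∫ x in (a m)..(b m), f x) +
        ∫ x in (b m)..(a (m + 1)), f x := by
      rw [intervalIntegral.integral_add_adjacent_intervals, intervalIntegral.integral_add_adjacent_intervals]
      all_goals exact hf.intervalIntegrable _ _
    have e2 : 0 ≤ ∫ x in (b m)..(a (m + 1)), f x := intervalIntegral.integral_nonneg (hba m) (fun x _ => hf0 x)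
    linarith

namespace Prof
variable (P : Prof)
noncomputable def Dt (N : ℕ) (r : ℝ) (φ : ℂ → ℝ) : ℝ := ∫ θ in (-Real.pi)..Real.pi, P.DD N r φ θ
noncomputable def Mt (N : ℕ) (r : ℝ) (φ : ℂ → ℝ) : ℝ := ∫ θ in (-Real.pi)..Real.pi, P.MM N r φ θ
noncomputable def St (φ : ℂ → ℝ) : ℝ := ∫ θ in (-Real.pi)..Real.pi, P.SS φ θ
noncomputable def Nt (N : ℕ) (r : ℝ) (φ : ℂ → ℝ) : ℝ := ∫ θ in (-Real.pi)..Real.pi, P.NN N r φ θ
noncomputable def X0 : ℝ := 4 * Real.pi * (38 / (P.c ^ 2 * P.g ^ 2))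
end Prof

namespace Ctx

variable {P : Prof} {N : ℕ} {r : ℝ} {φ : ℂ → ℝ} (h : Ctx P N r φ)
include h

theorem Dt_nonneg : 0 ≤ P.Dt N r φ := by
  have hpi := Real.pi_pos
  exact intervalIntegral.integral_nonneg (by linarith) (fun θ _ => h.DD_nonneg θ)

theorem Mt_nonneg : 0 ≤ P.Mt N r φ := by
  have hpi := Real.pi_pos
  exact intervalIntegral.integral_nonneg (by linarith) (fun θ _ => h.MM_nonneg θ)

theorem Mt_le : P.Mt N r φ ≤ 12 * P.g * P.C ^ 2 * P.St φ + 8 * P.K ^ 2 * P.Dt N r φ := by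
  have hpi := Real.pi_pos
  unfold Prof.Mt Prof.St Prof.Dt
  rw [← intervalIntegral.integral_const_mul, ← intervalIntegral.integral_const_mul,
    ← intervalIntegral.integral_add ((h.SS_cont.const_mul _).intervalIntegrable _ _)
      ((h.DD_cont.const_mul _).intervalIntegrable _ _)]
  apply intervalIntegral.integral_mono_on (by linarith) (h.MM_cont.intervalIntegrable _ _)
    (((h.SS_cont.const_mul _).add (h.DD_cont.const_mul _)).intervalIntegrable _ _)
  intro θ _
  exact h.MM_le θ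

theorem St_le (θ : ℝ) (hθ : θ ∈ Icc (-Real.pi) Real.pi) :
    P.St φ ≤ 2 * Real.pi * (2 * P.SS φ θ + P.X0 * P.Dt N r φ) := by
  have hpi := Real.pi_pos
  unfold Prof.St
  have h1 : ∫ θ' in (-Real.pi)..Real.pi, P.SS φ θ' ≤
      ∫ _θ' in (-Real.pi)..Real.pi, (2 * P.SS φ θ + P.X0 * P.Dt N r φ) := by
    apply intervalIntegral.integral_mono_on (by linarith) (h.SS_cont.intervalIntegrable _ _)
      intervalIntegrable_const
    intro θ' hθ'
    exact h.SS_comp θ θ' hθ hθ'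
  rw [intervalIntegral.integral_const, smul_eq_mul] at h1
  have : Real.pi - -Real.pi = 2 * Real.pi := by ring
  rw [this] at h1
  exact h1

/-- the logarithmic gain -/
theorem log_gain (m : ℕ) (B : ℝ) (hB : 0 < B) (hm : (2 * Real.pi * (m + 1) + Real.pi) / N ≤ Real.pi)
    (htouch : ∀ k < m, ∀ θ ∈ Icc ((2 * Real.pi * (k + 1) + Real.pi / 2) / N)
      ((2 * Real.pi * (k + 1) + 3 * Real.pi / 2) / N),
      ∃ ρs, r ≤ ρs ∧ ρs ≤ 1 ∧ φ (zz ρs θ) = 0 ∧ N * (1 - ρs) ≤ B * (k + 1)) :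
    (Real.pi / (P.g / 3 * ((16 * B + 288) / P.c ^ 2)) / N ^ 2 * ∑ k ∈ Finset.range m, 1 / ((k:ℝ) + 1)) *
      (P.St φ / (4 * Real.pi) - P.X0 / 2 * P.Dt N r φ) ≤ P.Dt N r φ := by
  have hpi := Real.pi_pos
  have hNp := h.Npos
  have hg := P.g_pos
  have hc0 := P.hc
  set Y := P.St φ / (4 * Real.pi) - P.X0 / 2 * P.Dt N r φ with hY
  set B1 := P.g / 3 * ((16 * B + 288) / P.c ^ 2) with hB1
  have hB10 : 0 < B1 := by rw [hB1]; positivity
  have hsum0 : 0 ≤ ∑ k ∈ Finset.range m, 1 / ((k:ℝ) + 1) := Finset.sum_nonneg fun k _ => by positivity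
  rcases le_total Y 0 with hY0 | hY0
  · have h1 : (Real.pi / B1 / N ^ 2 * ∑ k ∈ Finset.range m, 1 / ((k:ℝ) + 1)) * Y ≤ 0 :=
      mul_nonpos_of_nonneg_of_nonpos (by positivity) hY0
    exact h1.trans h.Dt_nonneg
  set a : ℕ → ℝ := fun k => (2 * Real.pi * (k + 1) + Real.pi / 2) / N with ha
  set b : ℕ → ℝ := fun k => (2 * Real.pi * (k + 1) + 3 * Real.pi / 2) / N with hb
  have hba : ∀ k, b k - a k = Real.pi / N := by
    intro k
    simp only [ha, hb]
    field_simp
    ring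
  have hab : ∀ k, a k ≤ b k := by
    intro k
    have := hba k
    have : 0 < Real.pi / N := by positivity
    linarith
  have hbmono : ∀ k, b k ≤ a (k + 1) := by
    intro k
    simp only [ha, hb]
    apply div_le_div_of_nonneg_right _ hNp.le
    push_cast
    nlinarith
  have ham : a m ≤ Real.pi := by
    refine le_trans ?_ hm
    simp only [ha]
    apply div_le_div_of_nonneg_right _ hNp.le
    linarith
  have ha0 : 0 ≤ a 0 := by simp only [ha]; positivity
  have hmono : Monotone a := by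
    apply monotone_nat_of_le_succ
    intro k
    exact (hab k).trans (hbmono k)
  have h1 := sum_cells (fun θ => P.DD N r φ θ) h.DD_cont (fun θ => h.DD_nonneg θ) a b hab hbmono m
  have h2 : ∫ θ in (a 0)..(a m), P.DD N r φ θ ≤ P.Dt N r φ := by
    unfold Prof.Dt
    have e : ∫ θ in (-Real.pi)..Real.pi, P.DD N r φ θ = (∫ θ in (-Real.pi)..(a 0), P.DD N r φ θ) +
        (∫ θ in (a 0)..(a m), P.DD N r φ θ) + ∫ θ in (a m)..Real.pi, P.DD N r φ θ := by
      rw [intervalIntegral.integral_add_adjacent_intervals, intervalIntegral.integral_add_adjacent_intervals]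
      all_goals exact h.DD_cont.intervalIntegrable _ _
    rw [e]
    have e2 : 0 ≤ ∫ θ in (-Real.pi)..(a 0), P.DD N r φ θ :=
      intervalIntegral.integral_nonneg (by linarith) (fun θ _ => h.DD_nonneg θ)
    have e3 : 0 ≤ ∫ θ in (a m)..Real.pi, P.DD N r φ θ :=
      intervalIntegral.integral_nonneg ham (fun θ _ => h.DD_nonneg θ)
    linarith
  refine le_trans ?_ (h1.trans h2)
  rw [Finset.mul_sum, Finset.sum_mul]
  apply Finset.sum_le_sum
  intro k hk
  have hkm : k < m := Finset.mem_range.mp hk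
  have hbk : b k ≤ Real.pi := (hbmono k).trans ((hmono (by omega : k + 1 ≤ m)).trans ham)
  have hak : 0 ≤ a k := ha0.trans (hmono (Nat.zero_le k))
  have h3 : ∫ _θ in (a k)..(b k), Y / (B1 * N * (k + 1)) ≤ ∫ θ in (a k)..(b k), P.DD N r φ θ := by
    apply intervalIntegral.integral_mono_on (hab k) intervalIntegrable_const (h.DD_cont.intervalIntegrable _ _)
    intro θ hθ
    have hcos : Real.cos (N * θ) ≤ 0 := by
      have e1 : (N:ℝ) * θ - ((k + 1 : ℕ) : ℝ) * (2 * Real.pi) ∈ Icc (Real.pi / 2) (3 * Real.pi / 2) := by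
        have h5 := hθ.1
        have h6 := hθ.2
        simp only [ha, hb] at h5 h6
        rw [div_le_iff₀ hNp] at h5
        rw [le_div_iff₀ hNp] at h6
        push_cast
        constructor <;> linarith
      rw [← Real.cos_sub_nat_mul_two_pi ((N:ℝ) * θ) (k + 1)]
      apply Real.cos_nonpos_of_pi_div_two_le_of_le e1.1
      linarith [e1.2]
    obtain ⟨ρs, hs1, hs2, hs3, hs4⟩ := htouch k hkm θ hθ
    have h7 := h.SS_good θ ρs hcos hs1 hs2 hs3
    have h8 := h.St_le θ ⟨by linarith [hθ.1], by linarith [hθ.2]⟩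
    have hDθ := h.DD_nonneg θ
    have h9 : Y ≤ P.SS φ θ := by
      rw [hY, sub_le_iff_le_add, div_le_iff₀ (by positivity)]
      calc P.St φ ≤ 2 * Real.pi * (2 * P.SS φ θ + P.X0 * P.Dt N r φ) := h8
        _ = _ := by ring
    have h10 : (16 * (N:ℝ) ^ 2 * (1 - ρs) + 288 * N) ≤ (16 * B + 288) * (N * (k + 1)) := by
      have e1 : 16 * (N:ℝ) ^ 2 * (1 - ρs) = 16 * N * (N * (1 - ρs)) := by ring
      rw [e1]
      have e2 : 16 * (N:ℝ) * (N * (1 - ρs)) ≤ 16 * N * (B * (k + 1)) := mul_le_mul_of_nonneg_left hs4 (by positivity)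
      have e3 : 288 * (N:ℝ) ≤ 288 * (N * (k + 1)) := by
        have : (0:ℝ) ≤ k := by positivity
        nlinarith
      linarith
    have h11 : P.SS φ θ ≤ B1 * N * (k + 1) * P.DD N r φ θ := by
      calc P.SS φ θ ≤ P.g / 3 * ((16 * N ^ 2 * (1 - ρs) + 288 * N) / P.c ^ 2) * P.DD N r φ θ := h7
        _ ≤ P.g / 3 * (((16 * B + 288) * (N * (k + 1))) / P.c ^ 2) * P.DD N r φ θ := by gcongr
        _ = _ := by rw [hB1]; ring
    show Y / (B1 * N * (k + 1)) ≤ P.DD N r φ θ
    rw [div_le_iff₀ (by positivity)]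
    linarith
  rw [intervalIntegral.integral_const, hba k, smul_eq_mul] at h3
  refine le_trans (le_of_eq ?_) h3
  field_simp

end Ctx

end Pool.Agent.Helper533.ConvexObstacle
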