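import Pool.Agent.Helper533.ConvexObstacle.OneD

open MeasureTheory Metric Set

namespace Pool.Agent.Helper533.ConvexObstacle

namespace Prof

variable (P : Prof)

noncomputable def g : ℝ := P.q - 1
noncomputable def ρ₁ : ℝ := 1 + P.g / 3
noncomputable def ρ₂ : ℝ := 1 + 2 * P.g / 3
noncomputable def K : ℝ := 6 * P.C / P.c

theorem g_pos : 0 < P.g := by unfold g; linarith [P.hq]
theorem g_le : P.g ≤ 0.01 := by unfold g; linarith [P.hq2]
theorem K_pos : 0 < P.K := by unfold K; have := P.C_pos; have := P.hc; positivity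

theorem q_eq : P.q = 1 + P.g := by unfold g; ring

/-- standing assumption on `N` -/
def Big (N : ℕ) : Prop := 36 ≤ P.g * N

theorem Big.ne {P : Prof} {N : ℕ} (h : P.Big N) : N ≠ 0 := by
  rintro rfl
  unfold Big at h
  norm_num at h

theorem Big.inv {P : Prof} {N : ℕ} (h : P.Big N) : 1 / (N:ℝ) ≤ P.g / 36 := by
  have h0 : (0:ℝ) < N := by have := h.ne; positivity
  unfold Big at h
  rw [div_le_iff₀ h0]
  linarith

theorem mem_Om {N : ℕ} (hN : P.Big N) {z : ℂ} (hz : 1 / 2 < ‖z ^ N - 1‖) (hz2 : ‖z‖ ≤ P.ρ₂) :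
    z ∈ Om N P.q ∧ P.g / 6 ≤ P.q - Rf N z := by
  have hg := P.g_pos
  have hg2 := P.g_le
  have hi := hN.inv
  have h0 : 0 < ‖z ^ N - 1‖ := by linarith
  have h1 := Rf_le hN.ne h0
  have h2 : max 1 ‖z‖ ≤ P.ρ₂ := max_le (by unfold ρ₂; linarith) hz2
  have h3 : 3 / (N:ℝ) ≤ P.g / 12 := by
    have : 3 / (N:ℝ) = 3 * (1 / N) := by ring
    rw [this]; linarith
  have h4 : 0 ≤ 3 / (N:ℝ) := by positivity
  have h5 : Rf N z ≤ P.q - P.g / 6 := by
    have h6 : (1 + 3 / N) * max 1 ‖z‖ ≤ (1 + P.g / 12) * P.ρ₂ := by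
      apply mul_le_mul (by linarith) h2 (by positivity) (by linarith)
    have h7 : (1 + P.g / 12) * P.ρ₂ ≤ P.q - P.g / 6 := by
      rw [P.q_eq]; unfold ρ₂
      nlinarith
    linarith
  refine ⟨⟨hz, ?_⟩, by linarith⟩
  have h8 : Rf N z ^ N < P.q ^ N := pow_lt_pow_left₀ (by linarith) (Rf_pos N z).le hN.ne
  rw [Rf_pow hN.ne h0] at h8
  linarith

theorem T_le_g {N : ℕ} (z : ℂ) : P.T N z ≤ P.g := by
  unfold T g
  have h1 : min (Rf N z - 1) (P.q - Rf N z) ≤ Rf N z - 1 := min_le_left _ _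
  have h2 : min (Rf N z - 1) (P.q - Rf N z) ≤ P.q - Rf N z := min_le_right _ _
  have h3 := P.hq
  linarith

/-- comparison of `U` at two points from a comparison of tents. -/
theorem U_comp {N : ℕ} (hN : N ≠ 0) {y z : ℂ} (hy : y ∈ Om N P.q) (hz : z ∈ Om N P.q) (a : ℝ)
    (h : P.T N z ≤ a * P.T N y) (ha : 0 ≤ a) : P.U N z / (a * P.C / P.c) ≤ P.U N y ∨ a = 0 := by
  rcases eq_or_lt_of_le ha with h0 | h0
  · right; exact h0.symm
  left
  have hC := P.C_pos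
  have hc := P.hc
  have h1 := P.U_le hN hz
  have h2 := P.U_ge hN hy
  rw [div_le_iff₀ (by positivity)]
  have h3 : P.U N y * (a * P.C / P.c) = (P.U N y / P.c) * (a * P.C) := by field_simp
  rw [h3]
  have h4 : P.T N y ≤ P.U N y / P.c := by rw [le_div_iff₀ hc]; linarith
  calc P.U N z ≤ P.C * P.T N z := h1
    _ ≤ P.C * (a * P.T N y) := mul_le_mul_of_nonneg_left h hC.le
    _ ≤ P.C * (a * (P.U N y / P.c)) := by gcongr
    _ = _ := by ring

theorem U_comp6 {N : ℕ} (hN : N ≠ 0) {y z : ℂ} (hy : y ∈ Om N P.q) (hz : z ∈ Om N P.q)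
    (h : P.T N z ≤ 6 * P.T N y) : P.U N z / P.K ≤ P.U N y := by
  rcases P.U_comp hN hy hz 6 h (by norm_num) with h1 | h1
  · exact h1
  · norm_num at h1

/-- outward comparison -/
theorem comp_out {N : ℕ} (hN : P.Big N) (θ ρ t : ℝ) (hρ : 0 < ρ) (hρt : ρ ≤ t) (ht : t ≤ P.ρ₂)
    (hz : zz ρ θ ∈ Om N P.q) (hcos : Real.cos (N * θ) ≤ ρ ^ N) :
    P.U N (zz ρ θ) / P.K ≤ P.U N (zz t θ) := by
  have hg := P.g_pos
  have hm := mono_out ρ t θ hρ.le hρt N hcos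
  have hn : ‖zz t θ‖ = t := norm_zz t θ (by linarith)
  obtain ⟨h1, h2⟩ := P.mem_Om hN (z := zz t θ) (lt_of_lt_of_le hz.1 hm) (by rw [hn]; exact ht)
  apply P.U_comp6 hN.ne h1 hz
  have h3 := Rf_mono (Om_norm_pos hz) hm
  have h4 : P.T N (zz ρ θ) ≤ Rf N (zz ρ θ) - 1 := min_le_left _ _
  have h5 := P.T_le_g (N := N) (zz ρ θ)
  have h6 := P.T_pos hN.ne hz
  have h7 : P.T N (zz ρ θ) / 6 ≤ P.T N (zz t θ) := by
    have h8 : P.T N (zz t θ) = min (Rf N (zz t θ) - 1) (P.q - Rf N (zz t θ)) := rfl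
    rw [h8]
    apply le_min
    · linarith
    · linarith
  linarith

/-- inward comparison for points inside, before the hole -/
theorem comp_in {N : ℕ} (hN : P.Big N) (θ ρ t : ℝ) (ht0 : 0 < t) (hρt : t ≤ ρ) (hρ : ρ ≤ 1)
    (hz : zz ρ θ ∈ Om N P.q) (hcos : ρ ^ N ≤ Real.cos (N * θ)) :
    P.U N (zz ρ θ) / P.K ≤ P.U N (zz t θ) := by
  have hg := P.g_pos
  have hm := mono_in ρ t θ ht0.le hρt N hcos
  have hn : ‖zz t θ‖ = t := norm_zz t θ (by linarith)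
  obtain ⟨h1, h2⟩ := P.mem_Om hN (z := zz t θ) (lt_of_lt_of_le hz.1 hm) (by
    rw [hn]; unfold ρ₂; linarith)
  apply P.U_comp6 hN.ne h1 hz
  have h3 := Rf_mono (Om_norm_pos hz) hm
  have h4 : P.T N (zz ρ θ) ≤ Rf N (zz ρ θ) - 1 := min_le_left _ _
  have h5 := P.T_le_g (N := N) (zz ρ θ)
  have h6 := P.T_pos hN.ne hz
  have h7 : P.T N (zz ρ θ) / 6 ≤ P.T N (zz t θ) := by
    have h8 : P.T N (zz t θ) = min (Rf N (zz t θ) - 1) (P.q - Rf N (zz t θ)) := rfl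
    rw [h8]
    apply le_min
    · linarith
    · linarith
  linarith

/-- mid lines -/
theorem comp_mid {N : ℕ} (hN : P.Big N) (θ ρ t : ℝ) (ht0 : 0 < t) (hρ0 : 0 < ρ) (ht : t ≤ 1) (hρ : ρ ≤ 1)
    (hz : zz ρ θ ∈ Om N P.q) (hcos : Real.cos (N * θ) ≤ 0.8) :
    P.U N (zz ρ θ) / (5 * P.K) ≤ P.U N (zz t θ) := by
  have hg := P.g_pos
  have hi := hN.inv
  have hN0 : (0:ℝ) < N := by have := hN.ne; positivity
  have hn : ‖zz t θ‖ = t := norm_zz t θ (by linarith)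
  have hn' : ‖zz ρ θ‖ = ρ := norm_zz ρ θ (by linarith)
  have hm : 0.6 ≤ ‖zz t θ ^ N - 1‖ ∧ 1 + (1 / 10) / N ≤ Rf N (zz t θ) := by
    apply Rf_mid hN.ne
    rw [zz_pow_re, norm_zz_pow t θ ht0.le]
    have : 0 < t ^ N := by positivity
    nlinarith
  obtain ⟨h1, h2⟩ := P.mem_Om hN (z := zz t θ) (by linarith [hm.1]) (by
    rw [hn]; unfold ρ₂; linarith)
  have hK : 5 * P.K = 30 * P.C / P.c := by unfold K; ring
  rw [hK]
  have h4 : P.T N (zz ρ θ) ≤ 3 / N := by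
    have h5 := Rf_le hN.ne (Om_norm_pos hz)
    rw [hn', max_eq_left hρ, mul_one] at h5
    have h6 : P.T N (zz ρ θ) ≤ Rf N (zz ρ θ) - 1 := min_le_left _ _
    linarith
  have h7 : (1 / 10) / N ≤ P.T N (zz t θ) := by
    have h8 : P.T N (zz t θ) = min (Rf N (zz t θ) - 1) (P.q - Rf N (zz t θ)) := rfl
    rw [h8]
    apply le_min
    · linarith [hm.2]
    · have : (1 / 10) / (N:ℝ) = (1 / 10) * (1 / N) := by ring
      linarith
  have h9 : 3 / (N:ℝ) = 30 * ((1 / 10) / N) := by ring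
  rcases P.U_comp hN.ne h1 hz 30 (by linarith) (by norm_num) with h3 | h3
  · exact h3
  · norm_num at h3

/-- inward comparison from the outer zone to the core -/
theorem comp_outer {N : ℕ} (hN : P.Big N) (hfar : 2 ≤ P.ρ₁ ^ N) (θ ρ t : ℝ) (ht : P.ρ₁ ≤ t) (hρt : t ≤ ρ)
    (hz : zz ρ θ ∈ Om N P.q) : P.U N (zz ρ θ) / P.K ≤ P.U N (zz t θ) := by
  have hg := P.g_pos
  have hρ1 : 1 < P.ρ₁ := by unfold ρ₁; linarith
  have ht0 : 0 < t := by linarith
  have hcos : Real.cos (N * θ) ≤ t ^ N := (Real.cos_le_one _).trans (one_le_pow₀ (by linarith))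
  have hm := mono_out t ρ θ ht0.le hρt N hcos
  have hn : ‖zz t θ‖ = t := norm_zz t θ (by linarith)
  have htN : 2 ≤ ‖zz t θ‖ ^ N := by
    rw [hn]
    exact hfar.trans (pow_le_pow_left₀ (by linarith) ht N)
  have htN' := htN
  rw [hn] at htN'
  have h10 : t ^ N - 1 ≤ ‖zz t θ ^ N - 1‖ := by
    have := norm_sub_norm_le (zz t θ ^ N) 1
    rw [norm_pow, norm_one, hn] at this
    exact this
  have hzt : zz t θ ∈ Om N P.q := ⟨by linarith, lt_of_le_of_lt hm hz.2⟩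
  obtain ⟨h0, h1⟩ := Rf_far hN.ne htN (by rw [hn]; exact ht0)
  rw [hn] at h1
  apply P.U_comp6 hN.ne hzt hz
  have h3 := Rf_mono h0 hm
  have h4 : P.T N (zz ρ θ) ≤ P.q - Rf N (zz ρ θ) := min_le_right _ _
  have h5 := P.T_le_g (N := N) (zz ρ θ)
  have h6 := P.T_pos hN.ne hz
  have h7 : P.T N (zz ρ θ) / 6 ≤ P.T N (zz t θ) := by
    have h8 : P.T N (zz t θ) = min (Rf N (zz t θ) - 1) (P.q - Rf N (zz t θ)) := rfl
    rw [h8]
    apply le_min
    · have : P.ρ₁ = 1 + P.g / 3 := rfl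
      linarith
    · linarith
  linarith

end Prof

end Pool.Agent.Helper533.ConvexObstacle
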