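import Pool.Agent.Helper533.ConvexObstacle.Ray

open MeasureTheory Metric Set

namespace Pool.Agent.Helper533.ConvexObstacle

/-- the standing assumptions on `φ = u / U`. -/
structure Ctx (P : Prof) (N : ℕ) (r : ℝ) (φ : ℂ → ℝ) : Prop where
  big : P.Big N
  far : 2 ≤ P.ρ₁ ^ N
  hφ : ContDiff ℝ 1 φ
  hφc : HasCompactSupport φ
  hφs : tsupport φ ⊆ Om N P.q
  hr1 : 1 / 2 ≤ r
  hr2 : r < 1
  hz : ∀ z, ‖z‖ ≤ r → φ z = 0

namespace Prof
variable (P : Prof)
/-- energy density -/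
noncomputable def dd (N : ℕ) (φ : ℂ → ℝ) (z : ℂ) : ℝ := P.U N z ^ 2 * ‖gradient φ z‖ ^ 2
/-- mass density -/
noncomputable def mm (N : ℕ) (φ : ℂ → ℝ) (z : ℂ) : ℝ := P.U N z ^ 2 * φ z ^ 2
/-- energy on a ray -/
noncomputable def DD (N : ℕ) (r : ℝ) (φ : ℂ → ℝ) (θ : ℝ) : ℝ := ∫ t in r..2, t * P.dd N φ (zz t θ)
/-- mass on a ray -/
noncomputable def MM (N : ℕ) (r : ℝ) (φ : ℂ → ℝ) (θ : ℝ) : ℝ := ∫ t in r..2, t * P.mm N φ (zz t θ)
/-- core mass on a ray -/
noncomputable def SS (φ : ℂ → ℝ) (θ : ℝ) : ℝ := ∫ t in P.ρ₁..P.ρ₂, φ (zz t θ) ^ 2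
theorem dd_nonneg (N : ℕ) (φ : ℂ → ℝ) (z : ℂ) : 0 ≤ P.dd N φ z := by unfold dd; positivity
theorem mm_nonneg (N : ℕ) (φ : ℂ → ℝ) (z : ℂ) : 0 ≤ P.mm N φ z := by unfold mm; positivity
theorem ρ₁_gt : 1 < P.ρ₁ := by unfold ρ₁; have := P.g_pos; linarith
theorem ρ₁_lt : P.ρ₁ < P.ρ₂ := by unfold ρ₁ ρ₂; have := P.g_pos; linarith
theorem ρ₂_lt : P.ρ₂ < 1.01 := by unfold ρ₂; have := P.g_le; have := P.g_pos; linarith
theorem ρ_sub : P.ρ₂ - P.ρ₁ = P.g / 3 := by unfold ρ₁ ρ₂; ring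
end Prof

namespace Ctx

variable {P : Prof} {N : ℕ} {r : ℝ} {φ : ℂ → ℝ} (h : Ctx P N r φ)
include h

theorem Npos : (0:ℝ) < N := by have := h.big.ne; positivity

theorem dd_cont : Continuous (P.dd N φ) := by
  apply continuous_of_tsupport
  intro z hz
  have hsub : tsupport (P.dd N φ) ⊆ tsupport φ := by
    apply closure_minimal _ (isClosed_tsupport φ)
    intro z hz
    by_contra hcon
    apply hz
    simp [Prof.dd, gradient_tsupport hcon]
  have hzO := h.hφs (hsub hz)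
  exact ((U_contDiffAt P hzO).continuousAt.pow 2).mul ((gradient_cont h.hφ).continuousAt.norm.pow 2)

theorem mm_cont : Continuous (P.mm N φ) := by
  apply continuous_of_tsupport
  intro z hz
  have hsub : tsupport (P.mm N φ) ⊆ tsupport φ := tsupport_sub_of_zero (fun z h0 => by simp [Prof.mm, h0])
  have hzO := h.hφs (hsub hz)
  exact ((U_contDiffAt P hzO).continuousAt.pow 2).mul (h.hφ.continuous.continuousAt.pow 2)

theorem φ_zero {z : ℂ} (hz : z ∉ Om N P.q) : φ z = 0 := by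
  by_contra hcon
  exact hz (h.hφs (subset_tsupport φ hcon))

theorem DD_nonneg (θ : ℝ) : 0 ≤ P.DD N r φ θ := by
  unfold Prof.DD
  have := h.hr1; have := h.hr2
  apply intervalIntegral.integral_nonneg (by linarith)
  intro t ht
  exact mul_nonneg (by linarith [ht.1]) (P.dd_nonneg _ _ _)

theorem MM_nonneg (θ : ℝ) : 0 ≤ P.MM N r φ θ := by
  unfold Prof.MM
  have := h.hr1; have := h.hr2
  apply intervalIntegral.integral_nonneg (by linarith)
  intro t ht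
  exact mul_nonneg (by linarith [ht.1]) (P.mm_nonneg _ _ _)

omit h in
theorem SS_nonneg (P : Prof) (φ : ℂ → ℝ) (θ : ℝ) : 0 ≤ P.SS φ θ := by
  unfold Prof.SS
  apply intervalIntegral.integral_nonneg P.ρ₁_lt.le
  intro t ht
  positivity

theorem dint (θ α β : ℝ) (hα : r ≤ α) (hαβ : α ≤ β) (hβ : β ≤ 2) :
    ∫ t in α..β, P.dd N φ (zz t θ) ≤ 2 * P.DD N r φ θ := by
  have hr1 := h.hr1; have hr2 := h.hr2
  have hc := h.dd_cont.comp (zz_cont1 θ)
  have hc' : Continuous (fun t => t * P.dd N φ (zz t θ)) := continuous_id.mul hc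
  calc ∫ t in α..β, P.dd N φ (zz t θ) ≤ ∫ t in α..β, 2 * (t * P.dd N φ (zz t θ)) := by
        apply intervalIntegral.integral_mono_on hαβ (hc.intervalIntegrable _ _)
          ((hc'.const_mul 2).intervalIntegrable _ _)
        intro t ht
        have h1 : 1 / 2 ≤ t := by linarith [ht.1]
        have h2 := P.dd_nonneg N φ (zz t θ)
        show P.dd N φ (zz t θ) ≤ 2 * (t * P.dd N φ (zz t θ))
        nlinarith
    _ = 2 * ∫ t in α..β, t * P.dd N φ (zz t θ) := intervalIntegral.integral_const_mul _ _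
    _ ≤ 2 * P.DD N r φ θ := by
        apply mul_le_mul_of_nonneg_left _ (by norm_num)
        unfold Prof.DD
        have e1 : ∫ t in r..2, t * P.dd N φ (zz t θ) = (∫ t in r..α, t * P.dd N φ (zz t θ)) +
            (∫ t in α..β, t * P.dd N φ (zz t θ)) + ∫ t in β..2, t * P.dd N φ (zz t θ) := by
          rw [intervalIntegral.integral_add_adjacent_intervals, intervalIntegral.integral_add_adjacent_intervals]
          all_goals exact hc'.intervalIntegrable _ _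
        rw [e1]
        have e2 : 0 ≤ ∫ t in r..α, t * P.dd N φ (zz t θ) := by
          apply intervalIntegral.integral_nonneg hα
          intro t ht
          exact mul_nonneg (by linarith [ht.1]) (P.dd_nonneg _ _ _)
        have e3 : 0 ≤ ∫ t in β..2, t * P.dd N φ (zz t θ) := by
          apply intervalIntegral.integral_nonneg hβ
          intro t ht
          exact mul_nonneg (by linarith [ht.1]) (P.dd_nonneg _ _ _)
        linarith

/-- two-point estimate from a comparison along the segment. -/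
theorem two_pt (θ α β : ℝ) (hα : r ≤ α) (hαβ : α ≤ β) (hβ : β ≤ 2) (a k : ℝ) (ha : 0 ≤ a) (hk : 0 < k)
    (hU : ∀ t ∈ Icc α β, a / k ≤ P.U N (zz t θ)) :
    a ^ 2 * (φ (zz β θ) - φ (zz α θ)) ^ 2 ≤ 2 * k ^ 2 * (β - α) * P.DD N r φ θ := by
  have h1 := line_est P N φ h.hφ θ α β hαβ h.dd_cont (a / k) (by positivity) hU
  have h2 := h.dint θ α β hα hαβ hβ
  have h3 : (β - α) * ∫ t in α..β, P.U N (zz t θ) ^ 2 * ‖gradient φ (zz t θ)‖ ^ 2 ≤
      (β - α) * (2 * P.DD N r φ θ) := mul_le_mul_of_nonneg_left h2 (by linarith)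
  have h4 : a ^ 2 * (φ (zz β θ) - φ (zz α θ)) ^ 2 = k ^ 2 * ((a / k) ^ 2 * (φ (zz β θ) - φ (zz α θ)) ^ 2) := by
    field_simp
  rw [h4]
  calc k ^ 2 * ((a / k) ^ 2 * (φ (zz β θ) - φ (zz α θ)) ^ 2) ≤ k ^ 2 * ((β - α) * (2 * P.DD N r φ θ)) :=
        mul_le_mul_of_nonneg_left (h1.trans h3) (by positivity)
    _ = _ := by ring

/-- generic estimate -/
theorem est0 (θ ρ ρ' : ℝ) (hρ : r ≤ ρ) (hρ2 : ρ ≤ 2) (h1 : P.ρ₁ ≤ ρ') (h2 : ρ' ≤ P.ρ₂) :
    P.mm N φ (zz ρ θ) ≤ 2 * P.U N (zz ρ θ) ^ 2 * φ (zz ρ' θ) ^ 2 + 4 * P.K ^ 2 * P.DD N r φ θ := by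
  have hr1 := h.hr1; have hr2 := h.hr2
  have hD := h.DD_nonneg θ
  have hK := P.K_pos
  have hρ₂ := P.ρ₂_lt
  have hρ₁ := P.ρ₁_gt
  by_cases hz : zz ρ θ ∈ Om N P.q
  swap
  · unfold Prof.mm
    rw [h.φ_zero hz]
    have : 0 ≤ 2 * P.U N (zz ρ θ) ^ 2 * φ (zz ρ' θ) ^ 2 := by positivity
    have : 0 ≤ 4 * P.K ^ 2 * P.DD N r φ θ := by positivity
    simp
    linarith
  have hU := P.U_pos h.big.ne hz
  -- it suffices to have the two point estimate
  suffices hs : P.U N (zz ρ θ) ^ 2 * (φ (zz ρ' θ) - φ (zz ρ θ)) ^ 2 ≤ 2 * P.K ^ 2 * P.DD N r φ θ ∨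
      P.mm N φ (zz ρ θ) ≤ 4 * P.K ^ 2 * P.DD N r φ θ by
    rcases hs with hs | hs
    · unfold Prof.mm
      have : P.U N (zz ρ θ) ^ 2 * φ (zz ρ θ) ^ 2 ≤ 2 * (P.U N (zz ρ θ) ^ 2 * φ (zz ρ' θ) ^ 2) +
          2 * (P.U N (zz ρ θ) ^ 2 * (φ (zz ρ' θ) - φ (zz ρ θ)) ^ 2) := by
        have e : φ (zz ρ θ) ^ 2 ≤ 2 * φ (zz ρ' θ) ^ 2 + 2 * (φ (zz ρ' θ) - φ (zz ρ θ)) ^ 2 := by
          nlinarith [sq_nonneg (2 * φ (zz ρ' θ) - φ (zz ρ θ))]
        have := mul_le_mul_of_nonneg_left e (sq_nonneg (P.U N (zz ρ θ)))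
        linarith
      linarith
    · have : 0 ≤ 2 * P.U N (zz ρ θ) ^ 2 * φ (zz ρ' θ) ^ 2 := by positivity
      linarith
  have hlen : ∀ x : ℝ, x ≤ 1 → 2 * P.K ^ 2 * x * P.DD N r φ θ ≤ 2 * P.K ^ 2 * P.DD N r φ θ := by
    intro x hx
    have : 0 ≤ 2 * P.K ^ 2 * P.DD N r φ θ := by positivity
    calc 2 * P.K ^ 2 * x * P.DD N r φ θ = (2 * P.K ^ 2 * P.DD N r φ θ) * x := by ring
      _ ≤ (2 * P.K ^ 2 * P.DD N r φ θ) * 1 := mul_le_mul_of_nonneg_left hx this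
      _ = _ := by ring
  by_cases hcase : ρ ≤ ρ'
  · by_cases hcos : Real.cos (N * θ) ≤ ρ ^ N
    · left
      have := h.two_pt θ ρ ρ' hρ hcase (by linarith) (P.U N (zz ρ θ)) P.K hU.le hK (fun t ht =>
        P.comp_out h.big θ ρ t (by linarith) ht.1 (ht.2.trans h2) hz hcos)
      exact this.trans (hlen _ (by linarith))
    · push Not at hcos
      right
      have hρ1 : ρ ≤ 1 := by
        by_contra hcon
        push Not at hcon
        have := one_le_pow₀ (n := N) hcon.le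
        have := Real.cos_le_one (N * θ)
        linarith
      have := h.two_pt θ r ρ le_rfl hρ hρ2 (P.U N (zz ρ θ)) P.K hU.le hK (fun t ht =>
        P.comp_in h.big θ ρ t (by linarith [ht.1]) ht.2 hρ1 hz hcos.le)
      rw [h.hz (zz r θ) (by rw [norm_zz _ _ (by linarith)]), sub_zero] at this
      have h3 := this.trans (hlen _ (by linarith))
      unfold Prof.mm
      have : 0 ≤ 2 * P.K ^ 2 * P.DD N r φ θ := by positivity
      linarith
  · push Not at hcase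
    left
    have := h.two_pt θ ρ' ρ (by linarith) hcase.le hρ2 (P.U N (zz ρ θ)) P.K hU.le hK (fun t ht =>
      P.comp_outer h.big h.far θ ρ t (h1.trans ht.1) ht.2 hz)
    have h3 := this.trans (hlen _ (by linarith))
    have h4 : (φ (zz ρ' θ) - φ (zz ρ θ)) ^ 2 = (φ (zz ρ θ) - φ (zz ρ' θ)) ^ 2 := by ring
    rw [h4]; exact h3

/-- estimate in the ring -/
theorem est_ring (θ ρ : ℝ) (hρ : r ≤ ρ) (hρ2 : ρ ≤ 1 - 1 / (4 * N)) :
    P.mm N φ (zz ρ θ) ≤ 50 * P.K ^ 2 * (1 - r) * P.DD N r φ θ := by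
  have hr1 := h.hr1; have hr2 := h.hr2
  have hD := h.DD_nonneg θ
  have hK := P.K_pos
  have hNp := h.Npos
  by_cases hz : zz ρ θ ∈ Om N P.q
  swap
  · unfold Prof.mm
    rw [h.φ_zero hz]
    have : 0 ≤ 50 * P.K ^ 2 * (1 - r) * P.DD N r φ θ := by
      have : 0 ≤ 1 - r := by linarith
      positivity
    simpa using this
  have hU := P.U_pos h.big.ne hz
  have hpos : 0 < 1 / (4 * (N:ℝ)) := by positivity
  have hρ1 : ρ ≤ 1 := by linarith
  have hpow : ρ ^ N ≤ 0.8 := by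
    have h1 : ρ ^ N ≤ (1 - 1 / (4 * N)) ^ N := pow_le_pow_left₀ (by linarith) hρ2 N
    have h2 : (1 - 1 / (4 * (N:ℝ))) ≤ Real.exp (-(1 / (4 * N))) := by
      have := Real.add_one_le_exp (-(1 / (4 * (N:ℝ)))); linarith
    have h3 : (1 - 1 / (4 * (N:ℝ))) ^ N ≤ (Real.exp (-(1 / (4 * N)))) ^ N :=
      pow_le_pow_left₀ (by linarith) h2 N
    have h4 : (Real.exp (-(1 / (4 * (N:ℝ))))) ^ N = Real.exp (-(1/4)) := by
      rw [← Real.exp_nat_mul]; congr 1; field_simp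
    have h5 : Real.exp (-(1/4)) ≤ 0.8 := by
      rw [Real.exp_neg, inv_le_comm₀ (Real.exp_pos _) (by norm_num)]
      have := Real.quadratic_le_exp_of_nonneg (x := 1/4) (by norm_num)
      norm_num at this ⊢
      linarith
    linarith
  have key : P.U N (zz ρ θ) ^ 2 * (φ (zz ρ θ) - φ (zz r θ)) ^ 2 ≤ 2 * (5 * P.K) ^ 2 * (ρ - r) * P.DD N r φ θ := by
    apply h.two_pt θ r ρ le_rfl hρ (by linarith) (P.U N (zz ρ θ)) (5 * P.K) hU.le (by positivity)
    intro t ht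
    by_cases hcos : Real.cos (N * θ) ≤ 0.8
    · exact P.comp_mid h.big θ ρ t (by linarith [ht.1]) (by linarith) (by linarith [ht.2]) hρ1 hz hcos
    · push Not at hcos
      have := P.comp_in h.big θ ρ t (by linarith [ht.1]) ht.2 hρ1 hz (by linarith)
      refine le_trans ?_ this
      apply div_le_div_of_nonneg_left hU.le hK
      linarith
  rw [h.hz (zz r θ) (by rw [norm_zz _ _ (by linarith)]), sub_zero] at key
  unfold Prof.mm
  refine key.trans ?_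
  have : 2 * (5 * P.K) ^ 2 * (ρ - r) * P.DD N r φ θ = (50 * P.K ^ 2 * P.DD N r φ θ) * (ρ - r) := by ring
  rw [this]
  have h6 : (50 * P.K ^ 2 * P.DD N r φ θ) * (ρ - r) ≤ (50 * P.K ^ 2 * P.DD N r φ θ) * (1 - r) :=
    mul_le_mul_of_nonneg_left (by linarith) (by positivity)
  linarith

end Ctx

end Pool.Agent.Helper533.ConvexObstacle
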