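import Pool.Agent.Helper533.ConvexObstacle.RayEst

open MeasureTheory Metric Set

namespace Pool.Agent.Helper533.ConvexObstacle

namespace Prof
/-- the weight of the negative part of the potential -/
noncomputable def om (N : ℕ) (z : ℂ) : ℝ := 2 / (max 1 ‖z‖) ^ N
/-- negative part on a ray -/
noncomputable def NN (P : Prof) (N : ℕ) (r : ℝ) (φ : ℂ → ℝ) (θ : ℝ) : ℝ :=
  ∫ t in r..2, t * (om N (zz t θ) * P.mm N φ (zz t θ))

theorem om_cont (N : ℕ) : Continuous (om N) := by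
  unfold om
  apply Continuous.div continuous_const
  · fun_prop
  · intro z
    have : (0:ℝ) < max 1 ‖z‖ := lt_of_lt_of_le one_pos (le_max_left _ _)
    positivity

theorem om_nonneg (N : ℕ) (z : ℂ) : 0 ≤ om N z := by unfold om; positivity
end Prof

namespace Ctx

variable {P : Prof} {N : ℕ} {r : ℝ} {φ : ℂ → ℝ} (h : Ctx P N r φ)
include h

theorem ms_cont (θ : ℝ) : Continuous (fun t => P.mm N φ (zz t θ)) := h.mm_cont.comp (zz_cont1 θ)

/-- averaged generic estimate -/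
theorem est_avg (θ ρ : ℝ) (hρ : r ≤ ρ) (hρ2 : ρ ≤ 2) :
    P.mm N φ (zz ρ θ) ≤ 6 / P.g * P.U N (zz ρ θ) ^ 2 * P.SS φ θ + 4 * P.K ^ 2 * P.DD N r φ θ := by
  have hg := P.g_pos
  have hc : Continuous (fun t => φ (zz t θ) ^ 2) := (h.hφ.continuous.comp (zz_cont1 θ)).pow 2
  have h1 : ∫ ρ' in P.ρ₁..P.ρ₂, P.mm N φ (zz ρ θ) ≤
      ∫ ρ' in P.ρ₁..P.ρ₂, (2 * P.U N (zz ρ θ) ^ 2 * φ (zz ρ' θ) ^ 2 + 4 * P.K ^ 2 * P.DD N r φ θ) := by
    apply intervalIntegral.integral_mono_on P.ρ₁_lt.le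
    · exact intervalIntegrable_const
    · exact ((hc.const_mul _).add continuous_const).intervalIntegrable _ _
    · intro t ht
      exact h.est0 θ ρ t hρ hρ2 ht.1 ht.2
  rw [intervalIntegral.integral_const, intervalIntegral.integral_add
    ((hc.const_mul _).intervalIntegrable _ _) intervalIntegrable_const,
    intervalIntegral.integral_const_mul, intervalIntegral.integral_const, P.ρ_sub, smul_eq_mul,
    smul_eq_mul] at h1
  have h2 : P.g / 3 * (6 / P.g * P.U N (zz ρ θ) ^ 2 * P.SS φ θ + 4 * P.K ^ 2 * P.DD N r φ θ) =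
      2 * P.U N (zz ρ θ) ^ 2 * P.SS φ θ + P.g / 3 * (4 * P.K ^ 2 * P.DD N r φ θ) := by
    field_simp
    ring
  have h3 : P.g / 3 * P.mm N φ (zz ρ θ) ≤
      P.g / 3 * (6 / P.g * P.U N (zz ρ θ) ^ 2 * P.SS φ θ + 4 * P.K ^ 2 * P.DD N r φ θ) := by
    rw [h2]
    exact h1
  exact le_of_mul_le_mul_left h3 (by positivity)

/-- crude version with `U ≤ C τ` -/
theorem est_avg' (θ ρ : ℝ) (hρ : r ≤ ρ) (hρ2 : ρ ≤ 2) (τ : ℝ) (hτ0 : 0 ≤ τ)
    (hτ : zz ρ θ ∈ Om N P.q → P.T N (zz ρ θ) ≤ τ) :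
    P.mm N φ (zz ρ θ) ≤ 6 / P.g * (P.C ^ 2 * τ ^ 2) * P.SS φ θ + 4 * P.K ^ 2 * P.DD N r φ θ := by
  have hg := P.g_pos
  have hD := h.DD_nonneg θ
  have hS := SS_nonneg P φ θ
  have hC := P.C_pos
  have hK := P.K_pos
  by_cases hz : zz ρ θ ∈ Om N P.q
  · have h1 := h.est_avg θ ρ hρ hρ2
    have h2 : P.U N (zz ρ θ) ^ 2 ≤ P.C ^ 2 * τ ^ 2 := by
      rw [← mul_pow]
      apply pow_le_pow_left₀ (P.U_pos h.big.ne hz).le
      exact (P.U_le h.big.ne hz).trans (mul_le_mul_of_nonneg_left (hτ hz) hC.le)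
    have h3 : 6 / P.g * P.U N (zz ρ θ) ^ 2 * P.SS φ θ ≤ 6 / P.g * (P.C ^ 2 * τ ^ 2) * P.SS φ θ := by
      gcongr
    linarith
  · have : P.mm N φ (zz ρ θ) = 0 := by unfold Prof.mm; rw [h.φ_zero hz]; simp
    rw [this]
    positivity

theorem MM_le (θ : ℝ) : P.MM N r φ θ ≤ 12 * P.g * P.C ^ 2 * P.SS φ θ + 8 * P.K ^ 2 * P.DD N r φ θ := by
  have hg := P.g_pos
  have hr1 := h.hr1; have hr2 := h.hr2
  have hD := h.DD_nonneg θ
  have hS := SS_nonneg P φ θ
  set A := 6 / P.g * (P.C ^ 2 * P.g ^ 2) * P.SS φ θ + 4 * P.K ^ 2 * P.DD N r φ θ with hA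
  have hA0 : 0 ≤ A := by rw [hA]; positivity
  have h1 : P.MM N r φ θ ≤ ∫ t in r..2, t * A := by
    unfold Prof.MM
    apply intervalIntegral.integral_mono_on (by linarith)
    · exact (continuous_id.mul (h.ms_cont θ)).intervalIntegrable _ _
    · exact (by fun_prop : Continuous fun t : ℝ => t * A).intervalIntegrable _ _
    · intro t ht
      apply mul_le_mul_of_nonneg_left _ (by linarith [ht.1])
      exact h.est_avg' θ t ht.1 ht.2 P.g hg.le (fun _ => P.T_le_g _)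
  rw [intervalIntegral.integral_mul_const, integral_id] at h1
  have h2 : ((2:ℝ) ^ 2 - r ^ 2) / 2 ≤ 2 := by nlinarith
  have h3 : ((2:ℝ) ^ 2 - r ^ 2) / 2 * A ≤ 2 * A := mul_le_mul_of_nonneg_right h2 hA0
  have h4 : 2 * A = 12 * P.g * P.C ^ 2 * P.SS φ θ + 8 * P.K ^ 2 * P.DD N r φ θ := by
    rw [hA]; field_simp; ring
  linarith

theorem core_Om (θ t : ℝ) (h1 : P.ρ₁ ≤ t) (h2 : t ≤ P.ρ₂) :
    zz t θ ∈ Om N P.q ∧ P.g / 6 ≤ P.T N (zz t θ) := by
  have hg := P.g_pos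
  have hρ1 := P.ρ₁_gt
  have hn : ‖zz t θ‖ = t := norm_zz t θ (by linarith)
  have htN : 2 ≤ ‖zz t θ‖ ^ N := by
    rw [hn]
    exact h.far.trans (pow_le_pow_left₀ (by linarith) h1 N)
  obtain ⟨h3, h4⟩ := Rf_far h.big.ne htN (by rw [hn]; linarith)
  have h10 : ‖zz t θ‖ ^ N - 1 ≤ ‖zz t θ ^ N - 1‖ := by
    have := norm_sub_norm_le (zz t θ ^ N) 1
    rw [norm_pow, norm_one] at this
    exact this
  obtain ⟨h5, h6⟩ := P.mem_Om h.big (z := zz t θ) (by linarith) (by rw [hn]; exact h2)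
  refine ⟨h5, ?_⟩
  unfold Prof.T
  apply le_min
  · rw [hn] at h4
    have : P.ρ₁ = 1 + P.g / 3 := rfl
    linarith
  · exact h6

theorem SS_le (θ : ℝ) : P.SS φ θ ≤ 36 / (P.c ^ 2 * P.g ^ 2) * P.MM N r φ θ := by
  have hg := P.g_pos
  have hc0 := P.hc
  have hr1 := h.hr1; have hr2 := h.hr2
  have hρ1 := P.ρ₁_gt
  have hρ12 := P.ρ₁_lt
  have hρ2 := P.ρ₂_lt
  have hcont : Continuous (fun t => t * P.mm N φ (zz t θ)) := continuous_id.mul (h.ms_cont θ)
  have hc : Continuous (fun t => φ (zz t θ) ^ 2) := (h.hφ.continuous.comp (zz_cont1 θ)).pow 2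
  calc P.SS φ θ ≤ ∫ t in P.ρ₁..P.ρ₂, 36 / (P.c ^ 2 * P.g ^ 2) * (t * P.mm N φ (zz t θ)) := by
        unfold Prof.SS
        apply intervalIntegral.integral_mono_on hρ12.le (hc.intervalIntegrable _ _)
          ((hcont.const_mul _).intervalIntegrable _ _)
        intro t ht
        obtain ⟨h1, h2⟩ := h.core_Om θ t ht.1 ht.2
        have h3 := P.U_ge h.big.ne h1
        have h4 : P.c * (P.g / 6) ≤ P.U N (zz t θ) := (mul_le_mul_of_nonneg_left h2 hc0.le).trans h3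
        have h5 : (P.c * (P.g / 6)) ^ 2 ≤ P.U N (zz t θ) ^ 2 := pow_le_pow_left₀ (by positivity) h4 2
        have h6 : 1 ≤ t := by linarith [ht.1]
        have h7 : 0 ≤ φ (zz t θ) ^ 2 := sq_nonneg _
        have h8 : φ (zz t θ) ^ 2 = 36 / (P.c ^ 2 * P.g ^ 2) * ((P.c * (P.g / 6)) ^ 2 * φ (zz t θ) ^ 2) := by
          field_simp; norm_num
        rw [h8]
        apply mul_le_mul_of_nonneg_left _ (by positivity)
        unfold Prof.mm
        have h9 : (P.c * (P.g / 6)) ^ 2 * φ (zz t θ) ^ 2 ≤ P.U N (zz t θ) ^ 2 * φ (zz t θ) ^ 2 :=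
          mul_le_mul_of_nonneg_right h5 h7
        have h10 : 0 ≤ P.U N (zz t θ) ^ 2 * φ (zz t θ) ^ 2 := by positivity
        nlinarith
    _ = 36 / (P.c ^ 2 * P.g ^ 2) * ∫ t in P.ρ₁..P.ρ₂, t * P.mm N φ (zz t θ) :=
        intervalIntegral.integral_const_mul _ _
    _ ≤ _ := by
        apply mul_le_mul_of_nonneg_left _ (by positivity)
        unfold Prof.MM
        have e1 : ∫ t in r..2, t * P.mm N φ (zz t θ) = (∫ t in r..P.ρ₁, t * P.mm N φ (zz t θ)) +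
            (∫ t in P.ρ₁..P.ρ₂, t * P.mm N φ (zz t θ)) + ∫ t in P.ρ₂..2, t * P.mm N φ (zz t θ) := by
          rw [intervalIntegral.integral_add_adjacent_intervals, intervalIntegral.integral_add_adjacent_intervals]
          all_goals exact hcont.intervalIntegrable _ _
        rw [e1]
        have e2 : 0 ≤ ∫ t in r..P.ρ₁, t * P.mm N φ (zz t θ) := by
          apply intervalIntegral.integral_nonneg (by linarith)
          intro t ht
          exact mul_nonneg (by linarith [ht.1]) (P.mm_nonneg _ _ _)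
        have e3 : 0 ≤ ∫ t in P.ρ₂..2, t * P.mm N φ (zz t θ) := by
          apply intervalIntegral.integral_nonneg (by linarith)
          intro t ht
          exact mul_nonneg (by linarith [ht.1]) (P.mm_nonneg _ _ _)
        linarith

end Ctx

end Pool.Agent.Helper533.ConvexObstacle
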