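import Pool.Agent.Helper533.ConvexObstacle.Lower2

open MeasureTheory Metric Set
open scoped Pointwise

namespace Pool.Agent.Helper533.ConvexObstacle

/-- Flow of a compactly supported field: comparison of Rayleigh quotients. -/
theorem transport (X : ℂ → ℂ) (hXs : ContDiff ℝ (⊤ : ℕ∞) X) (hXc : HasCompactSupport X) (e : ℝ) (he : 0 < e) :
    ∃ t₀ > 0, ∀ t : ℝ, 0 ≤ t → t < t₀ → ∀ u : ℂ → ℝ, ContDiff ℝ (⊤ : ℕ∞) u → HasCompactSupport u →
      (∃ z, u z ≠ 0) →
      ContDiff ℝ (⊤ : ℕ∞) (fun z => u (z + t • X z)) ∧ HasCompactSupport (fun z => u (z + t • X z)) ∧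
      tsupport (fun z => u (z + t • X z)) ⊆ (fun z => z + t • X z) ⁻¹' (tsupport u) ∧
      (∃ z, u (z + t • X z) ≠ 0) ∧
      rayleigh (fun z => u (z + t • X z)) ≤ (1 + e) * rayleigh u := by
  have hXd : Differentiable ℝ X := hXs.differentiable (by simp)
  obtain ⟨C₀, hC₀⟩ := (hXs.continuous_fderiv (by simp)).bounded_above_of_compact_support
    (hXc.fderiv ℝ)
  set C : ℝ := max C₀ 1 with hC
  have hC1 : 1 ≤ C := le_max_right _ _
  have hCb : ∀ z, ‖fderiv ℝ X z‖ ≤ C := fun z => (hC₀ z).trans (le_max_left _ _)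
  obtain ⟨D₀, hD₀⟩ := hXs.continuous.bounded_above_of_compact_support hXc
  set D : ℝ := max D₀ 1 with hD
  have hD1 : 1 ≤ D := le_max_right _ _
  have hDb : ∀ z, ‖X z‖ ≤ D := fun z => (hD₀ z).trans (le_max_left _ _)
  -- parameter for the determinant
  obtain ⟨a, ha0, ha1, hae⟩ : ∃ a : ℝ, 0 < a ∧ a < 1 ∧ (1 + a) ^ 2 * (1 + a) / (1 - a) ≤ 1 + e := by
    have hcont : ContinuousAt (fun a : ℝ => (1 + a) ^ 2 * (1 + a) / (1 - a)) 0 := by
      apply ContinuousAt.div <;> [fun_prop; fun_prop; norm_num]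
    have h1 : (fun a : ℝ => (1 + a) ^ 2 * (1 + a) / (1 - a)) 0 < 1 + e := by
      norm_num; exact he
    have h2 := hcont.eventually (gt_mem_nhds h1)
    rw [Metric.eventually_nhds_iff] at h2
    obtain ⟨ε, hε, h3⟩ := h2
    refine ⟨min (ε / 2) (1 / 2), by positivity, ?_, ?_⟩
    · exact lt_of_le_of_lt (min_le_right _ _) (by norm_num)
    · apply le_of_lt
      apply h3
      rw [Real.dist_eq, sub_zero, abs_of_pos (by positivity)]
      exact lt_of_le_of_lt (min_le_left _ _) (by linarith)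
  have hdet : ∃ b > 0, ∀ A : ℂ →L[ℝ] ℂ,
      ‖A - ContinuousLinearMap.id ℝ _‖ < b → |A.det - 1| < a := by
    have h1 : Continuous (fun A : ℂ →L[ℝ] ℂ => A.det) :=
      ContinuousLinearMap.continuous_det
    have h2 := (Metric.continuousAt_iff.mp (h1.continuousAt (x := ContinuousLinearMap.id ℝ _))) a ha0
    obtain ⟨b, hb, h3⟩ := h2
    refine ⟨b, hb, fun A hA => ?_⟩
    have := h3 (x := A) (by rw [dist_eq_norm]; exact hA)
    have hid : (ContinuousLinearMap.id ℝ ℂ).det = 1 := by
      simp [ContinuousLinearMap.det]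
    rw [Real.dist_eq, hid] at this
    exact this
  obtain ⟨b, hb, hdetb⟩ := hdet
  refine ⟨min (a / C) (b / C), by positivity, ?_⟩
  intro t ht0 ht u hu1 hu2 hw
  obtain ⟨w₀, hw₀⟩ := hw
  have hha : C * t < a := by
    have := lt_of_lt_of_le ht (min_le_left _ _)
    rw [lt_div_iff₀ (by linarith)] at this
    linarith
  have hhb : C * t < b := by
    have := lt_of_lt_of_le ht (min_le_right _ _)
    rw [lt_div_iff₀ (by linarith)] at this
    linarith
  set Φ : ℂ → ℂ := fun z => z + t • X z with hΦ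
  have hΦs : ContDiff ℝ (⊤ : ℕ∞) Φ := contDiff_id.add (hXs.const_smul t)
  have hLip : ∀ z w, ‖X z - X w‖ ≤ C * ‖z - w‖ := by
    intro z w
    exact Convex.norm_image_sub_le_of_norm_fderiv_le (𝕜 := ℝ) (f := X) (C := C) (s := univ)
      (fun z _ => hXd z) (fun z _ => hCb z) convex_univ (mem_univ w) (mem_univ z)
  have hinj : Function.Injective Φ := by
    intro z w hzw
    have h1 : z - w = t • (X w - X z) := by
      have : z + t • X z = w + t • X w := hzw
      rw [smul_sub]
      rw [sub_eq_sub_iff_add_eq_add, this, add_comm]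
    have h2 : ‖z - w‖ ≤ C * t * ‖z - w‖ := by
      conv_lhs => rw [h1]
      rw [norm_smul, Real.norm_of_nonneg ht0]
      have := hLip w z
      rw [norm_sub_rev w z] at this
      calc t * ‖X w - X z‖ ≤ t * (C * ‖z - w‖) := mul_le_mul_of_nonneg_left this ht0
        _ = _ := by ring
    have h3 : ‖z - w‖ = 0 := by
      by_contra hne
      have : 0 < ‖z - w‖ := lt_of_le_of_ne (norm_nonneg _) (Ne.symm hne)
      nlinarith
    exact sub_eq_zero.mp (norm_eq_zero.mp h3)
  have hsurj : Function.Surjective Φ := by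
    intro w
    set K : NNReal := ⟨C * t, by positivity⟩ with hK
    have hKc : (K : ℝ) = C * t := rfl
    have hcontr : ContractingWith K (fun z => w - t • X z) := by
      refine ⟨?_, ?_⟩
      · rw [← NNReal.coe_lt_coe, hKc, NNReal.coe_one]
        linarith
      · apply LipschitzWith.of_dist_le_mul
        intro z z'
        rw [dist_eq_norm, dist_eq_norm]
        have e1 : w - t • X z - (w - t • X z') = t • (X z' - X z) := by rw [smul_sub]; abel
        rw [e1, norm_smul, Real.norm_of_nonneg ht0]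
        have := hLip z' z
        rw [norm_sub_rev z' z] at this
        rw [hKc]
        calc t * ‖X z' - X z‖ ≤ t * (C * ‖z - z'‖) := mul_le_mul_of_nonneg_left this ht0
          _ = _ := by ring
    obtain ⟨z, hz, -⟩ := hcontr.exists_fixedPoint w (edist_ne_top _ _)
    refine ⟨z, ?_⟩
    have : w - t • X z = z := hz
    show z + t • X z = w
    nth_rewrite 1 [← this]
    abel
  have hΦd : ∀ z, HasFDerivAt Φ (ContinuousLinearMap.id ℝ _ + t • fderiv ℝ X z) z := by
    intro z
    exact (hasFDerivAt_id z).add ((hXd z).hasFDerivAt.const_smul t)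
  have hsmall : ∀ z, ‖(ContinuousLinearMap.id ℝ _ + t • fderiv ℝ X z) -
      ContinuousLinearMap.id ℝ ℂ‖ ≤ C * t := by
    intro z
    rw [add_sub_cancel_left, norm_smul, Real.norm_of_nonneg ht0, mul_comm]
    exact mul_le_mul_of_nonneg_right (hCb z) ht0
  have hdetz : ∀ z, |(ContinuousLinearMap.id ℝ ℂ +
      t • fderiv ℝ X z).det - 1| < a := fun z =>
    hdetb _ (lt_of_le_of_lt (hsmall z) hhb)
  have hnorm : ∀ z, ‖ContinuousLinearMap.id ℝ ℂ +
      t • fderiv ℝ X z‖ ≤ 1 + a := by
    intro z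
    have h1 := norm_add_le (ContinuousLinearMap.id ℝ ℂ) (t • fderiv ℝ X z)
    have h2 : ‖ContinuousLinearMap.id ℝ ℂ‖ ≤ 1 := ContinuousLinearMap.norm_id_le
    have h3 : ‖t • fderiv ℝ X z‖ ≤ C * t := by
      rw [norm_smul, Real.norm_of_nonneg ht0, mul_comm]
      exact mul_le_mul_of_nonneg_right (hCb z) ht0
    linarith
  -- change of variables
  have hcv : ∀ g : ℂ → ℝ,
      ∫ z, g z = ∫ z, |(ContinuousLinearMap.id ℝ ℂ +
        t • fderiv ℝ X z).det| * g (Φ z) := by
    intro g
    have := integral_image_eq_integral_abs_det_fderiv_smul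
      (volume : Measure ℂ) (s := univ) (f := Φ)
      (f' := fun z => ContinuousLinearMap.id ℝ ℂ + t • fderiv ℝ X z)
      MeasurableSet.univ (fun z _ => (hΦd z).hasFDerivWithinAt) hinj.injOn g
    rw [image_univ, hsurj.range_eq] at this
    simpa using this
  set v : ℂ → ℝ := fun z => u (z + t • X z) with hv
  have hvΦ : ∀ z, v z = u (Φ z) := fun z => rfl
  have hvs : ContDiff ℝ (⊤ : ℕ∞) v := hu1.comp hΦs
  have hvsub : tsupport v ⊆ Φ ⁻¹' (tsupport u) := by
    apply closure_minimal _ ((isClosed_tsupport u).preimage hΦs.continuous)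
    intro z hz
    exact subset_tsupport _ hz
  have hprecomp : IsCompact (Φ ⁻¹' (tsupport u)) := by
    rw [Metric.isCompact_iff_isClosed_bounded]
    refine ⟨(isClosed_tsupport u).preimage hΦs.continuous, ?_⟩
    obtain ⟨B, hB⟩ := hu2.isBounded.exists_norm_le
    rw [isBounded_iff_forall_norm_le]
    refine ⟨B + t * D, fun z hz => ?_⟩
    have h1 := hB (Φ z) hz
    have h2 : z = Φ z - t • X z := by simp [hΦ]
    rw [h2]
    have h3 := norm_sub_le (Φ z) (t • X z)
    have h4 : ‖t • X z‖ ≤ t * D := by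
      rw [norm_smul, Real.norm_of_nonneg ht0]
      exact mul_le_mul_of_nonneg_left (hDb z) ht0
    linarith
  have hvc : HasCompactSupport v := hprecomp.of_isClosed_subset (isClosed_tsupport _) hvsub
  have hvne : ∃ z, v z ≠ 0 := by
    obtain ⟨z, hz⟩ := hsurj w₀
    exact ⟨z, by rw [hvΦ, hz]; exact hw₀⟩
  refine ⟨hvs, hvc, hvsub, hvne, ?_⟩
  -- energies
  have hug : Continuous (fun z => ‖gradient u z‖ ^ 2) := by
    have : Continuous (fun z => gradient u z) := by
      unfold gradient
      exact (LinearIsometryEquiv.continuous _).comp (hu1.continuous_fderiv (by simp))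
    exact this.norm.pow 2
  have hvg : Continuous (fun z => ‖gradient v z‖ ^ 2) := by
    have : Continuous (fun z => gradient v z) := by
      unfold gradient
      exact (LinearIsometryEquiv.continuous _).comp (hvs.continuous_fderiv (by simp))
    exact this.norm.pow 2
  have hgz : ∀ f : ℂ → ℝ, ∀ z, z ∉ tsupport f → gradient f z = 0 := by
    intro f z hz
    have h0 : f =ᶠ[nhds z] fun _ => 0 := notMem_tsupport_iff_eventuallyEq.mp hz
    rw [gradient, h0.fderiv_eq]
    simp
  have hdetc : Continuous (fun z => |(ContinuousLinearMap.id ℝ ℂ +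
        t • fderiv ℝ X z).det|) := by
    apply Continuous.abs
    apply ContinuousLinearMap.continuous_det.comp
    exact continuous_const.add ((hXs.continuous_fderiv (by simp)).const_smul t)
  have hE : (1 - a) * ∫ z, ‖gradient v z‖ ^ 2 ≤ (1 + a) ^ 2 * ∫ z, ‖gradient u z‖ ^ 2 := by
    rw [hcv (fun z => ‖gradient u z‖ ^ 2), ← integral_const_mul, ← integral_const_mul]
    apply integral_mono
    · apply Continuous.integrable_of_hasCompactSupport (continuous_const.mul hvg)
      apply hvc.of_isClosed_subset (isClosed_tsupport _)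
      apply closure_minimal _ (isClosed_tsupport v)
      intro z hz
      by_contra hcon
      apply hz
      simp [hgz v z hcon]
    · apply Continuous.integrable_of_hasCompactSupport
      · exact continuous_const.mul (hdetc.mul (hug.comp hΦs.continuous))
      · apply hprecomp.of_isClosed_subset (isClosed_tsupport _)
        apply closure_minimal _ ((isClosed_tsupport u).preimage hΦs.continuous)
        intro z hz
        by_contra hcon
        apply hz
        simp [hgz u (Φ z) hcon]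
    · intro z
      simp only
      have h1 : ‖gradient v z‖ ≤ ‖gradient u (Φ z)‖ * (1 + a) := by
        have e1 : ‖gradient v z‖ = ‖fderiv ℝ v z‖ := by rw [gradient, LinearIsometryEquiv.norm_map]
        have e2 : ‖gradient u (Φ z)‖ = ‖fderiv ℝ u (Φ z)‖ := by rw [gradient, LinearIsometryEquiv.norm_map]
        rw [e1, e2]
        have e3 : fderiv ℝ v z = (fderiv ℝ u (Φ z)).comp (ContinuousLinearMap.id ℝ _ + t • fderiv ℝ X z) :=
          (((hu1.differentiable (by simp)) (Φ z)).hasFDerivAt.comp z (hΦd z)).fderiv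
        rw [e3]
        exact (ContinuousLinearMap.opNorm_comp_le _ _).trans
          (mul_le_mul_of_nonneg_left (hnorm z) (norm_nonneg _))
      have h2 : ‖gradient v z‖ ^ 2 ≤ (1 + a) ^ 2 * ‖gradient u (Φ z)‖ ^ 2 := by
        have := pow_le_pow_left₀ (norm_nonneg _) h1 2
        rw [mul_pow] at this
        linarith
      have h3 : 1 - a ≤ |(ContinuousLinearMap.id ℝ ℂ +
        t • fderiv ℝ X z).det| := by
        have := hdetz z
        rw [abs_lt] at this
        exact le_trans (by linarith) (le_abs_self _)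
      calc (1 - a) * ‖gradient v z‖ ^ 2 ≤ |(ContinuousLinearMap.id ℝ ℂ +
        t • fderiv ℝ X z).det| * ((1 + a) ^ 2 * ‖gradient u (Φ z)‖ ^ 2) :=
            mul_le_mul h3 h2 (by positivity) (by positivity)
        _ = _ := by ring
  have hM : ∫ z, u z ^ 2 ≤ (1 + a) * ∫ z, v z ^ 2 := by
    rw [hcv (fun z => u z ^ 2), ← integral_const_mul]
    apply integral_mono
    · apply Continuous.integrable_of_hasCompactSupport
      · exact hdetc.mul ((hu1.continuous.pow 2).comp hΦs.continuous)
      · apply hprecomp.of_isClosed_subset (isClosed_tsupport _)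
        apply closure_minimal _ ((isClosed_tsupport u).preimage hΦs.continuous)
        intro z hz
        by_contra hcon
        apply hz
        have : u (Φ z) = 0 := image_eq_zero_of_notMem_tsupport hcon
        simp [this]
    · apply Continuous.integrable_of_hasCompactSupport (continuous_const.mul (hvs.continuous.pow 2))
      apply hvc.of_isClosed_subset (isClosed_tsupport _)
      apply closure_minimal _ (isClosed_tsupport v)
      intro z hz
      by_contra hcon
      apply hz
      have : v z = 0 := image_eq_zero_of_notMem_tsupport hcon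
      simp [this]
    · intro z
      simp only
      have h3 : |(ContinuousLinearMap.id ℝ ℂ +
        t • fderiv ℝ X z).det| ≤ 1 + a := by
        have := hdetz z
        rw [abs_lt] at this
        rw [abs_le]
        constructor <;> linarith
      exact mul_le_mul_of_nonneg_right h3 (by positivity)
  have hup : 0 < ∫ z, u z ^ 2 := integral_sq_pos ⟨hu1, hu2, subset_univ _, w₀, hw₀⟩
  have hvp : 0 < ∫ z, v z ^ 2 := integral_sq_pos ⟨hvs, hvc, subset_univ _, hvne⟩
  have hEu : 0 ≤ ∫ z, ‖gradient u z‖ ^ 2 := integral_nonneg fun z => by positivity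
  have ha1' : 0 < 1 - a := by linarith
  unfold rayleigh
  rw [div_le_iff₀ hvp]
  have hk1 : ∫ z, ‖gradient v z‖ ^ 2 ≤ (1 + a) ^ 2 / (1 - a) * ∫ z, ‖gradient u z‖ ^ 2 := by
    rw [div_mul_eq_mul_div, le_div_iff₀ ha1']
    linarith
  have hk2 : (∫ z, ‖gradient u z‖ ^ 2) ≤ (∫ z, ‖gradient u z‖ ^ 2) / (∫ z, u z ^ 2) * ((1 + a) * ∫ z, v z ^ 2) := by
    rw [div_mul_eq_mul_div, le_div_iff₀ hup]
    exact mul_le_mul_of_nonneg_left hM hEu
  have hk3 : (1 + a) ^ 2 / (1 - a) * (1 + a) ≤ 1 + e := by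
    rw [div_mul_eq_mul_div]
    exact hae
  have hq : 0 ≤ (∫ z, ‖gradient u z‖ ^ 2) / (∫ z, u z ^ 2) * ∫ z, v z ^ 2 := by positivity
  calc ∫ z, ‖gradient v z‖ ^ 2 ≤ (1 + a) ^ 2 / (1 - a) * ∫ z, ‖gradient u z‖ ^ 2 := hk1
    _ ≤ (1 + a) ^ 2 / (1 - a) * ((∫ z, ‖gradient u z‖ ^ 2) / (∫ z, u z ^ 2) * ((1 + a) * ∫ z, v z ^ 2)) :=
        mul_le_mul_of_nonneg_left hk2 (by positivity)
    _ = ((1 + a) ^ 2 / (1 - a) * (1 + a)) * ((∫ z, ‖gradient u z‖ ^ 2) / (∫ z, u z ^ 2) * ∫ z, v z ^ 2) := by ring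
    _ ≤ (1 + e) * ((∫ z, ‖gradient u z‖ ^ 2) / (∫ z, u z ^ 2) * ∫ z, v z ^ 2) :=
        mul_le_mul_of_nonneg_right hk3 hq
    _ = _ := by ring

open scoped Manifold in
/-- Shrinking an interior obstacle changes the Rayleigh quotients by little. -/
theorem shrink_transport {Ω K' : Set ℂ} (hΩ : IsOpen Ω) (hΩb : Bornology.IsBounded Ω) (hK' : IsCompact K')
    (hsub : K' ⊆ Ω) (e : ℝ) (he : 0 < e) :
    ∃ η₀ > 0, ∀ η : ℝ, 0 ≤ η → η < η₀ → ∀ K : Set ℂ, (1 - η) • K' ⊆ K → ∀ u, IsTest (Ω \ K) u →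
      ∃ v, IsTest (Ω \ K') v ∧ rayleigh v ≤ (1 + e) * rayleigh u := by
  obtain ⟨f, hf0, hf1, -⟩ := exists_contMDiffMap_zero_one_of_isClosed (𝓘(ℝ, ℂ)) (n := ⊤)
    hΩ.isClosed_compl hK'.isClosed (by
      rw [Set.disjoint_left]; intro z hz hz2; exact hz (hsub hz2))
  have hfs : ContDiff ℝ (⊤ : ℕ∞) f := f.contMDiff.contDiff
  set X : ℂ → ℂ := fun z => -(f z • z) with hX
  have hXs : ContDiff ℝ (⊤ : ℕ∞) X := (hfs.smul contDiff_id).neg
  have hXc : HasCompactSupport X := by
    apply IsCompact.of_isClosed_subset (Metric.isCompact_of_isClosed_isBounded isClosed_closure hΩb.closure)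
      (isClosed_tsupport _)
    apply closure_mono
    intro z hz
    by_contra hcon
    apply hz
    have : f z = 0 := hf0 hcon
    simp [hX, this]
  obtain ⟨t₀, ht₀, hmain⟩ := transport X hXs hXc e he
  refine ⟨t₀, ht₀, ?_⟩
  intro η hη0 hη K hKK u hu
  obtain ⟨h1, h2, h3, h4, h5⟩ := hmain η hη0 hη u hu.1 hu.2.1 hu.2.2.2
  refine ⟨_, ⟨h1, h2, ?_, h4⟩, h5⟩
  intro z hz
  have h6 := hu.2.2.1 (h3 hz)
  constructor
  · by_contra hcon
    have h7 : f z = 0 := hf0 hcon
    have h8 : z + η • X z = z := by simp [hX, h7]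
    simp only [] at h6
    rw [h8] at h6
    exact hcon h6.1
  · intro hzK
    have h7 : f z = 1 := hf1 hzK
    apply h6.2
    apply hKK
    refine ⟨z, hzK, ?_⟩
    simp only [hX, h7, one_smul, smul_neg]
    rw [sub_smul, one_smul, sub_eq_add_neg]

end Pool.Agent.Helper533.ConvexObstacle
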