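import Pool.Agent.Helper533.ConvexObstacle.Lower2

open MeasureTheory Metric Set

namespace Pool.Agent.Helper533.ConvexObstacle

/-- gradient bound of the ground state -/
theorem U_grad (P : Prof) {N : ℕ} (hN : N ≠ 0) {z : ℂ} (hz : z ∈ Om N P.q) :
    ‖fderiv ℝ (P.U N) z‖ ≤ 4 * P.j * 2 * (2 * 2 ^ N) := by
  have hNp : (0:ℝ) < N := by positivity
  have hj0 := P.hj0
  have h1 : HasFDerivAt (fun z : ℂ => (Real.log ‖z ^ N - 1‖ + Real.log 2) / N)
      ((1 / (N:ℝ)) • innerSL ℝ ((starRingEnd ℂ) (pf N z))) z := by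
    have := ((hasFDerivAt_log hz).add_const (Real.log 2)).const_mul (1 / (N:ℝ))
    have e : (fun z : ℂ => (Real.log ‖z ^ N - 1‖ + Real.log 2) / N) =
        fun y : ℂ => 1 / (N:ℝ) * (Real.log ‖y ^ N - 1‖ + Real.log 2) := by
      ext y; ring
    rw [e]; exact this
  have h2 : HasFDerivAt (fun z => P.j * Rf N z)
      (P.j • (Rf N z • ((1 / (N:ℝ)) • innerSL ℝ ((starRingEnd ℂ) (pf N z))))) z := h1.exp.const_mul P.j
  have h3 : HasFDerivAt (P.U N)
      (P.σ • (J1 (P.j * Rf N z) • (P.j • (Rf N z • ((1 / (N:ℝ)) • innerSL ℝ ((starRingEnd ℂ) (pf N z))))))) z := by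
    have h4 : HasDerivAt J (J1 (P.j * Rf N z)) (P.j * Rf N z) := hasDerivAt_J _
    have h5 := (h4.comp_hasFDerivAt z h2).const_mul P.σ
    exact h5
  rw [h3.fderiv]
  simp only [norm_smul, innerSL_apply_norm, Real.norm_eq_abs]
  have hσ : |P.σ| = 1 := by rcases P.hσ with h | h <;> rw [h] <;> simp
  have hJ : |J1 (P.j * Rf N z)| ≤ 4 := (J1_bound _).trans Real.pi_lt_four.le
  have hR := Rf_lt hN P.hq0 hz
  have hR0 := Rf_pos N z
  have hq2 := P.hq2
  have hpf : 1 / (N:ℝ) * ‖(starRingEnd ℂ) (pf N z)‖ ≤ 2 * 2 ^ N := by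
    rw [Complex.norm_conj, norm_pf]
    have e1 : 1 / (N:ℝ) * (N * ‖z‖ ^ (N - 1) / ‖z ^ N - 1‖) = ‖z‖ ^ (N - 1) / ‖z ^ N - 1‖ := by field_simp
    rw [e1, div_le_iff₀ (Om_norm_pos hz)]
    have e2 := norm_lt_two_of_Om hN hz
    have e3 : ‖z‖ ^ (N - 1) ≤ 2 ^ (N - 1) := pow_le_pow_left₀ (norm_nonneg _) e2.le _
    have e4 : (2:ℝ) ^ (N - 1) ≤ 2 ^ N := pow_le_pow_right₀ (by norm_num) (by omega)
    have e5 := hz.1
    have e6 : (0:ℝ) < 2 ^ N := by positivity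
    nlinarith
  rw [hσ, one_mul, abs_of_pos hj0, abs_of_pos hR0, abs_of_nonneg (by positivity : (0:ℝ) ≤ 1 / N)]
  have h7 : 0 ≤ 1 / (N:ℝ) * ‖(starRingEnd ℂ) (pf N z)‖ := by positivity
  calc |J1 (P.j * Rf N z)| * (P.j * (Rf N z * (1 / (N:ℝ) * ‖(starRingEnd ℂ) (pf N z)‖)))
      ≤ 4 * (P.j * (2 * (2 * 2 ^ N))) := by
        apply mul_le_mul hJ _ (by positivity) (by norm_num)
        apply mul_le_mul_of_nonneg_left _ hj0.le
        apply mul_le_mul (by linarith) hpf h7 (by norm_num)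
    _ = _ := by ring

/-- closed core sets of the domain -/
theorem closed_core (P : Prof) {N : ℕ} (hN : N ≠ 0) (t : ℝ) (ht : 0 < t) (ht2 : t < P.q) :
    IsClosed {z : ℂ | (1 + t) ^ N / 2 ≤ ‖z ^ N - 1‖ ∧ ‖z ^ N - 1‖ ≤ (P.q - t) ^ N / 2} ∧
    {z : ℂ | (1 + t) ^ N / 2 ≤ ‖z ^ N - 1‖ ∧ ‖z ^ N - 1‖ ≤ (P.q - t) ^ N / 2} ⊆ Om N P.q := by
  have hc : Continuous (fun z : ℂ => ‖z ^ N - 1‖) := by fun_prop
  refine ⟨(isClosed_le continuous_const hc).inter (isClosed_le hc continuous_const), ?_⟩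
  rintro z ⟨h1, h2⟩
  have h3 : 1 < (1 + t) ^ N := one_lt_pow₀ (by linarith) hN
  have h4 : (P.q - t) ^ N < P.q ^ N := pow_lt_pow_left₀ (by linarith) (by linarith) hN
  exact ⟨by linarith, by linarith⟩

theorem chi_exists : ∃ χ : ℝ → ℝ, ContDiff ℝ (⊤ : ℕ∞) χ ∧ (∀ s, s ≤ 1 → χ s = 0) ∧ (∀ s, 2 ≤ s → χ s = 1) ∧
    (∀ s, 0 ≤ χ s ∧ χ s ≤ 1) ∧ (∃ M, 0 < M ∧ ∀ s, |deriv χ s| ≤ M) ∧
    (∀ s, s < 1 → deriv χ s = 0) ∧ (∀ s, 2 < s → deriv χ s = 0) := by
  set χ : ℝ → ℝ := fun s => Real.smoothTransition (s - 1) with hχ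
  have hs : ContDiff ℝ (⊤ : ℕ∞) χ := Real.smoothTransition.contDiff.comp (contDiff_id.sub contDiff_const)
  have h0 : ∀ s, s ≤ 1 → χ s = 0 := fun s hs => Real.smoothTransition.zero_of_nonpos (by linarith)
  have h1 : ∀ s, 2 ≤ s → χ s = 1 := fun s hs => Real.smoothTransition.one_of_one_le (by linarith)
  have d0 : ∀ s, s < 1 → deriv χ s = 0 := by
    intro s hs
    have : χ =ᶠ[nhds s] fun _ => 0 := by
      filter_upwards [isOpen_Iio.mem_nhds (show s ∈ Iio (1:ℝ) from hs)] with y hy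
      exact h0 y (le_of_lt hy)
    rw [this.deriv_eq]; simp
  have d1 : ∀ s, 2 < s → deriv χ s = 0 := by
    intro s hs
    have : χ =ᶠ[nhds s] fun _ => 1 := by
      filter_upwards [isOpen_Ioi.mem_nhds (show s ∈ Ioi (2:ℝ) from hs)] with y hy
      exact h1 y (le_of_lt hy)
    rw [this.deriv_eq]; simp
  refine ⟨χ, hs, h0, h1, fun s => ⟨Real.smoothTransition.nonneg _, Real.smoothTransition.le_one _⟩, ?_, d0, d1⟩
  have hc : Continuous (deriv χ) := hs.continuous_deriv (by simp)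
  obtain ⟨M, hM⟩ := (isCompact_Icc (a := (1:ℝ)) (b := 2)).exists_bound_of_continuousOn hc.continuousOn
  refine ⟨max M 1, by positivity, fun s => ?_⟩
  by_cases ha : s < 1
  · rw [d0 s ha, abs_zero]; positivity
  by_cases hb : 2 < s
  · rw [d1 s hb, abs_zero]; positivity
  · exact (hM s ⟨not_lt.mp ha, not_lt.mp hb⟩).trans (le_max_left _ _)

theorem core_Om' (P : Prof) {N : ℕ} (hbig : P.Big N) (hfar : 2 ≤ P.ρ₁ ^ N) (z : ℂ) (h1 : P.ρ₁ ≤ ‖z‖)
    (h2 : ‖z‖ ≤ P.ρ₂) : z ∈ Om N P.q ∧ P.g / 6 ≤ P.T N z := by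
  have hg := P.g_pos
  have hρ1 := P.ρ₁_gt
  have htN : 2 ≤ ‖z‖ ^ N := hfar.trans (pow_le_pow_left₀ (by linarith) h1 N)
  obtain ⟨h3, h4⟩ := Rf_far hbig.ne htN (by linarith)
  have h10 : ‖z‖ ^ N - 1 ≤ ‖z ^ N - 1‖ := by
    have := norm_sub_norm_le (z ^ N) 1
    rw [norm_pow, norm_one] at this
    exact this
  obtain ⟨h5, h6⟩ := P.mem_Om hbig (z := z) (by linarith) h2
  refine ⟨h5, ?_⟩
  unfold Prof.T
  apply le_min
  · have : P.ρ₁ = 1 + P.g / 3 := rfl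
    linarith
  · exact h6

/-- small values of the ground state occupy a small area -/
theorem small_area (P : Prof) {N : ℕ} (hN : N ≠ 0) (e : ℝ) (he : 0 < e) (τmax : ℝ) (hτ : 0 < τmax) :
    ∃ τ, 0 < τ ∧ τ ≤ τmax ∧ (volume : Measure ℂ).real {z | z ∈ Om N P.q ∧ P.U N z ≤ 2 * τ} ≤ e := by
  have hOm : Om N P.q ⊆ ball 0 2 := by
    intro z hz
    rw [mem_ball, dist_zero_right]
    exact norm_lt_two_of_Om hN hz
  set s : ℕ → Set ℂ := fun k => {z | z ∈ Om N P.q ∧ P.U N z ≤ 2 * (τmax / (k + 1))} with hs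
  have hmeas : ∀ k, MeasurableSet (s k) := by
    intro k
    have hcont : ContinuousOn (P.U N) (Om N P.q) := fun z hz =>
      (U_contDiffAt P hz).continuousAt.continuousWithinAt
    have : s k = Om N P.q \ (Om N P.q ∩ P.U N ⁻¹' (Ioi (2 * (τmax / (k + 1))))) := by
      ext z
      simp only [hs, mem_setOf_eq, mem_sdiff, mem_inter_iff, mem_preimage, mem_Ioi, not_and, not_lt]
      constructor
      · rintro ⟨h1, h2⟩; exact ⟨h1, fun _ => h2⟩
      · rintro ⟨h1, h2⟩; exact ⟨h1, h2 h1⟩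
    rw [this]
    exact (isOpen_Om N P.q).measurableSet.diff
      (hcont.isOpen_inter_preimage (isOpen_Om N P.q) isOpen_Ioi).measurableSet
  have hanti : Antitone s := by
    intro a b hab z hz
    refine ⟨hz.1, hz.2.trans ?_⟩
    gcongr
  have hfin : ∃ k, (volume : Measure ℂ) (s k) ≠ ⊤ := by
    refine ⟨0, ?_⟩
    apply ne_top_of_le_ne_top (measure_ball_lt_top (μ := (volume : Measure ℂ)) (x := (0:ℂ)) (r := 2)).ne
    exact measure_mono (fun z hz => hOm hz.1)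
  have hlim := tendsto_measure_iInter_atTop (μ := (volume : Measure ℂ))
    (fun k => (hmeas k).nullMeasurableSet) hanti hfin
  have hempty : ⋂ k, s k = ∅ := by
    rw [eq_empty_iff_forall_notMem]
    intro z hz
    rw [mem_iInter] at hz
    have h0 := hz 0
    have hU := P.U_pos hN h0.1
    obtain ⟨k, hk⟩ := exists_nat_gt (2 * τmax / P.U N z)
    have hk2 := (hz k).2
    rw [div_lt_iff₀ hU] at hk
    have h3 : P.U N z * (k + 1) ≤ 2 * τmax := by
      have : P.U N z ≤ 2 * τmax / (k + 1) := by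
        calc P.U N z ≤ 2 * (τmax / (k + 1)) := hk2
          _ = _ := by ring
      rwa [le_div_iff₀ (by positivity)] at this
    nlinarith
  rw [hempty, measure_empty] at hlim
  have h4 := hlim.eventually (gt_mem_nhds (show (0:ENNReal) < ENNReal.ofReal e from ENNReal.ofReal_pos.mpr he))
  obtain ⟨k, hk⟩ := h4.exists
  refine ⟨τmax / (k + 1), by positivity, ?_, ?_⟩
  · apply div_le_self hτ.le
    have : (0:ℝ) ≤ k := by positivity
    linarith
  · unfold Measure.real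
    rw [← ENNReal.toReal_ofReal he.le]
    exact ENNReal.toReal_mono ENNReal.ofReal_ne_top hk.le

end Pool.Agent.Helper533.ConvexObstacle
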