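import Pool.Agent.Helper533.ConvexObstacle.Upper

open MeasureTheory Metric Set

namespace Pool.Agent.Helper533.ConvexObstacle

/-- The test function. -/
theorem test_fn (P : Prof) (δ : ℝ) (hδ : 0 < δ) (hδ2 : δ < 1 / 2) :
    ∃ M : ℝ, 0 < M ∧ ∀ N : ℕ, P.Big N → 2 ≤ P.ρ₁ ^ N → ∀ τ : ℝ, 0 < τ → 2 * τ ≤ P.c * (P.g / 6) →
      ∃ v : ℂ → ℝ, IsTest (Om N P.q \ closedBall 0 (1 - δ)) v ∧
        (∀ z ∈ Om N P.q, v z ^ 2 ≤ P.U N z ^ 2) ∧
        (∀ z, P.ρ₁ ≤ ‖z‖ → ‖z‖ ≤ P.ρ₂ → v z = P.U N z) ∧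
        (∀ z, P.U N z ^ 2 * ‖gradient (fun z => v z / P.U N z) z‖ ^ 2 ≤
          (ball (0:ℂ) 2).indicator (fun _ => 18 * P.C ^ 2 * M ^ 2 / N ^ 2) z +
          {z | z ∈ Om N P.q ∧ P.U N z ≤ 2 * τ}.indicator (fun _ => 8 * M ^ 2 * (4 * P.j * 2 * (2 * 2 ^ N)) ^ 2) z) := by
  obtain ⟨χ, χs, χ0, χ1, χb, ⟨Mχ, hMχ, hMχb⟩, χd0, χd1⟩ := chi_exists
  let f : ContDiffBump (0:ℂ) := ⟨1 - 3 * δ / 4, 1 - δ / 2, by linarith, by linarith⟩
  set η : ℂ → ℝ := fun z => 1 - f z with hη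
  have hηs : ContDiff ℝ (⊤ : ℕ∞) η := contDiff_const.sub f.contDiff
  have hηb : ∀ z, 0 ≤ η z ∧ η z ≤ 1 := fun z => ⟨by simp only [hη]; linarith [f.le_one (x := z)],
    by simp only [hη]; linarith [f.nonneg (x := z)]⟩
  have hη0 : ∀ z, ‖z‖ ≤ 1 - 3 * δ / 4 → η z = 0 := by
    intro z hz
    have : f z = 1 := f.one_of_mem_closedBall (by rwa [mem_closedBall, dist_zero_right])
    simp [hη, this]
  have hη1 : ∀ z, 1 - δ / 2 ≤ ‖z‖ → η z = 1 := by
    intro z hz
    have : f z = 0 := f.zero_of_le_dist (by rwa [dist_zero_right])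
    simp [hη, this]
  obtain ⟨Mη₀, hMη₀⟩ := (f.contDiff (n := 1) |>.continuous_fderiv (by norm_num)).bounded_above_of_compact_support
    (f.hasCompactSupport.fderiv ℝ)
  set M := max (max Mη₀ Mχ) 1 with hM
  have hM0 : 0 < M := by positivity
  have hMη : ∀ z, ‖fderiv ℝ η z‖ ≤ M := by
    intro z
    have : fderiv ℝ η z = - fderiv ℝ f z := by
      simp only [hη]; rw [fderiv_const_sub]
    rw [this, norm_neg]
    exact (hMη₀ z).trans ((le_max_left _ _).trans (le_max_left _ _))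
  have hηd : ∀ z, 1 - δ / 2 < ‖z‖ → fderiv ℝ η z = 0 := by
    intro z hz
    have : η =ᶠ[nhds z] fun _ => 1 := by
      have ho : IsOpen {z : ℂ | 1 - δ / 2 < ‖z‖} := isOpen_lt continuous_const continuous_norm
      filter_upwards [ho.mem_nhds hz] with y hy
      exact hη1 y (le_of_lt hy)
    rw [this.fderiv_eq]; simp
  refine ⟨M, hM0, ?_⟩
  intro N hbig hfar τ hτ hτ2
  have hN := hbig.ne
  have hNp : (0:ℝ) < N := by positivity
  have hg := P.g_pos
  have hC := P.C_pos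
  have hc0 := P.hc
  have hj0 := P.hj0
  set w : ℂ → ℝ := fun z => P.U N z * (χ (P.U N z / τ) * η z) with hw
  set v : ℂ → ℝ := (Om N P.q).indicator w with hv
  have hvOm : ∀ z ∈ Om N P.q, v z = w z := fun z hz => indicator_of_mem hz _
  have hvn : ∀ z ∉ Om N P.q, v z = 0 := fun z hz => indicator_of_notMem hz _
  have hUs := fun z (hz : z ∈ Om N P.q) => U_contDiffAt P hz
  have hψs : ∀ z ∈ Om N P.q, ContDiffAt ℝ (⊤ : ℕ∞) (fun z => χ (P.U N z / τ) * η z) z := by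
    intro z hz
    have h1 : ContDiffAt ℝ (⊤ : ℕ∞) (fun z => P.U N z / τ) z := (hUs z hz).div_const _
    exact (ContDiffAt.comp (g := χ) (f := fun z => P.U N z / τ) z χs.contDiffAt h1).mul hηs.contDiffAt
  have hws : ∀ z ∈ Om N P.q, ContDiffAt ℝ (⊤ : ℕ∞) w z := fun z hz => (hUs z hz).mul (hψs z hz)
  have hvev : ∀ z ∈ Om N P.q, v =ᶠ[nhds z] w := by
    intro z hz
    filter_upwards [(isOpen_Om N P.q).mem_nhds hz] with y hy
    exact hvOm y hy
  -- closed set containing the support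
  set t := min (τ / P.C) (P.q / 2) with ht
  have ht0 : 0 < t := by have := P.hq0; positivity
  have ht1 : t < P.q := lt_of_le_of_lt (min_le_right _ _) (by linarith [P.hq0])
  obtain ⟨hFc, hFs⟩ := closed_core P hN t ht0 ht1
  set F := {z : ℂ | (1 + t) ^ N / 2 ≤ ‖z ^ N - 1‖ ∧ ‖z ^ N - 1‖ ≤ (P.q - t) ^ N / 2} with hF
  have hsupp : Function.support v ⊆ F ∩ {z | 1 - 3 * δ / 4 ≤ ‖z‖} := by
    intro z hz
    rw [Function.mem_support] at hz
    have hzO : z ∈ Om N P.q := by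
      by_contra hcon
      exact hz (hvn z hcon)
    rw [hvOm z hzO] at hz
    have h1 : χ (P.U N z / τ) ≠ 0 := fun h => hz (by simp [hw, h])
    have h2 : η z ≠ 0 := fun h => hz (by simp [hw, h])
    have h3 : 1 < P.U N z / τ := by
      by_contra hcon
      exact h1 (χ0 _ (not_lt.mp hcon))
    rw [lt_div_iff₀ hτ, one_mul] at h3
    have h4 := P.U_le hN hzO
    have h5 : t ≤ P.T N z := by
      refine (min_le_left _ _).trans ?_
      rw [div_le_iff₀ hC]; linarith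
    have h6 : 1 + t ≤ Rf N z := by
      have : P.T N z ≤ Rf N z - 1 := min_le_left _ _
      linarith
    have h7 : Rf N z ≤ P.q - t := by
      have : P.T N z ≤ P.q - Rf N z := min_le_right _ _
      linarith
    have h8 := pow_le_pow_left₀ (by linarith) h6 N
    have h9 := pow_le_pow_left₀ (Rf_pos N z).le h7 N
    rw [Rf_pow hN (Om_norm_pos hzO)] at h8 h9
    refine ⟨⟨by linarith, by linarith⟩, ?_⟩
    by_contra hcon
    have hcon' : ‖z‖ < 1 - 3 * δ / 4 := not_le.mp hcon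
    exact h2 (hη0 z hcon'.le)
  have hcl : IsClosed (F ∩ {z : ℂ | 1 - 3 * δ / 4 ≤ ‖z‖}) :=
    hFc.inter (isClosed_le continuous_const continuous_norm)
  have htsupp : tsupport v ⊆ F ∩ {z | 1 - 3 * δ / 4 ≤ ‖z‖} := closure_minimal hsupp hcl
  have htOm : tsupport v ⊆ Om N P.q := fun z hz => hFs (htsupp hz).1
  have hvs : ContDiff ℝ (⊤ : ℕ∞) v := by
    apply contDiff_of_tsupport
    intro z hz
    exact (hws z (htOm hz)).congr_of_eventuallyEq (hvev z (htOm hz))
  have hvc : HasCompactSupport v := by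
    apply IsCompact.of_isClosed_subset (isCompact_closedBall (0:ℂ) 2) (isClosed_tsupport _)
    intro z hz
    rw [mem_closedBall, dist_zero_right]
    exact (norm_lt_two_of_Om hN (htOm hz)).le
  have hcore : ∀ z, P.ρ₁ ≤ ‖z‖ → ‖z‖ ≤ P.ρ₂ → v z = P.U N z := by
    intro z h1 h2
    obtain ⟨e1, e2⟩ := core_Om' P hbig hfar z h1 h2
    have e3 := P.U_ge hN e1
    have e4 : 2 * τ ≤ P.U N z := by
      have := mul_le_mul_of_nonneg_left e2 hc0.le
      linarith
    rw [hvOm z e1]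
    simp only [hw]
    rw [χ1 _ (by rw [le_div_iff₀ hτ]; exact e4), hη1 z (by linarith [P.ρ₁_gt]), mul_one, mul_one]
  refine ⟨v, ⟨hvs, hvc, ?_, ?_⟩, ?_, hcore, ?_⟩
  · intro z hz
    refine ⟨htOm hz, ?_⟩
    intro hcon
    rw [mem_closedBall, dist_zero_right] at hcon
    have h1 : 1 - 3 * δ / 4 ≤ ‖z‖ := (htsupp hz).2
    linarith
  · refine ⟨(P.ρ₁ : ℂ), ?_⟩
    have hρ1 := P.ρ₁_gt
    have hn : ‖(P.ρ₁ : ℂ)‖ = P.ρ₁ := by simp [abs_of_pos (by linarith : 0 < P.ρ₁)]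
    have h1 : P.ρ₁ ≤ ‖(P.ρ₁ : ℂ)‖ := hn.ge
    have h2 : ‖(P.ρ₁ : ℂ)‖ ≤ P.ρ₂ := by rw [hn]; exact P.ρ₁_lt.le
    rw [hcore _ h1 h2]
    exact (P.U_pos hN (core_Om' P hbig hfar _ h1 h2).1).ne'
  · intro z hz
    rw [hvOm z hz]
    simp only [hw]
    rw [mul_pow]
    have h1 : (χ (P.U N z / τ) * η z) ^ 2 ≤ 1 := by
      apply pow_le_one₀
      · exact mul_nonneg (χb _).1 (hηb z).1
      · calc χ (P.U N z / τ) * η z ≤ 1 * 1 := mul_le_mul (χb _).2 (hηb z).2 (hηb z).1 (by norm_num)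
          _ = 1 := by norm_num
    nlinarith [sq_nonneg (P.U N z)]
  · intro z
    have hM1 : 1 ≤ M := le_max_right _ _
    set A := {z | z ∈ Om N P.q ∧ P.U N z ≤ 2 * τ} with hA
    set a1 := 18 * P.C ^ 2 * M ^ 2 / (N:ℝ) ^ 2 with ha1
    set a2 := 8 * M ^ 2 * (4 * P.j * 2 * (2 * 2 ^ N)) ^ 2 with ha2
    have ha10 : 0 ≤ a1 := by positivity
    have ha20 : 0 ≤ a2 := by positivity
    by_cases hzO : z ∈ Om N P.q
    swap
    · have h1 : z ∉ tsupport (fun z => v z / P.U N z) := by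
        intro hcon
        have : tsupport (fun z => v z / P.U N z) ⊆ tsupport v :=
          tsupport_sub_of_zero (fun z h => by simp [h])
        exact hzO (htOm (this hcon))
      rw [gradient_tsupport h1, norm_zero]
      have i1 : 0 ≤ (ball (0:ℂ) 2).indicator (fun _ => a1) z := indicator_nonneg (fun _ _ => ha10) z
      have i2 : 0 ≤ A.indicator (fun _ => a2) z := indicator_nonneg (fun _ _ => ha20) z
      simp only [ne_eq, OfNat.ofNat_ne_zero, not_false_eq_true, zero_pow, mul_zero]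
      linarith
    · have hzb : z ∈ ball (0:ℂ) 2 := by
        rw [mem_ball, dist_zero_right]; exact norm_lt_two_of_Om hN hzO
      rw [indicator_of_mem hzb]
      have hU := P.U_pos hN hzO
      have hev : (fun z => v z / P.U N z) =ᶠ[nhds z] fun z => χ (P.U N z / τ) * η z := by
        filter_upwards [(isOpen_Om N P.q).mem_nhds hzO] with y hy
        rw [hvOm y hy]
        have := (P.U_pos hN hy).ne'
        simp only [hw]
        field_simp
      have hUd : HasFDerivAt (P.U N) (fderiv ℝ (P.U N) z) z :=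
        ((hUs z hzO).differentiableAt (by simp)).hasFDerivAt
      have hUτ : HasFDerivAt (fun z => P.U N z / τ) ((1 / τ) • fderiv ℝ (P.U N) z) z := by
        have := hUd.const_mul (1 / τ)
        have e : (fun z => P.U N z / τ) = fun z => 1 / τ * P.U N z := by ext y; ring
        rw [e]; exact this
      have hχd : HasDerivAt χ (deriv χ (P.U N z / τ)) (P.U N z / τ) :=
        (χs.differentiable (by simp) _).hasDerivAt
      have hηd' : HasFDerivAt η (fderiv ℝ η z) z := (hηs.differentiable (by simp) z).hasFDerivAt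
      have hd : fderiv ℝ (fun z => χ (P.U N z / τ) * η z) z =
          χ (P.U N z / τ) • fderiv ℝ η z + η z • (deriv χ (P.U N z / τ) • ((1 / τ) • fderiv ℝ (P.U N) z)) :=
        ((hχd.comp_hasFDerivAt z hUτ).mul hηd').fderiv
      rw [norm_gradient, hev.fderiv_eq, hd]
      set X := fderiv ℝ η z with hX
      set G := fderiv ℝ (P.U N) z with hG
      set d := deriv χ (P.U N z / τ) with hdd
      have hGn := U_grad P hN hzO
      have hn1 : ‖χ (P.U N z / τ) • X‖ ≤ ‖X‖ := by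
        rw [norm_smul, Real.norm_of_nonneg (χb _).1]
        exact mul_le_of_le_one_left (norm_nonneg _) (χb _).2
      have hn2 : ‖η z • (d • ((1 / τ) • G))‖ ≤ |d| / τ * (4 * P.j * 2 * (2 * 2 ^ N)) := by
        rw [norm_smul, norm_smul, norm_smul, Real.norm_of_nonneg (hηb z).1, Real.norm_eq_abs,
          Real.norm_of_nonneg (by positivity : 0 ≤ 1 / τ)]
        have h1 : |d| * (1 / τ * ‖G‖) ≤ |d| * (1 / τ * (4 * P.j * 2 * (2 * 2 ^ N))) := by gcongr
        have h2 : 0 ≤ |d| * (1 / τ * ‖G‖) := by positivity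
        calc η z * (|d| * (1 / τ * ‖G‖)) ≤ 1 * (|d| * (1 / τ * (4 * P.j * 2 * (2 * 2 ^ N)))) :=
              mul_le_mul (hηb z).2 h1 h2 (by norm_num)
          _ = _ := by ring
      have hnorm : ‖χ (P.U N z / τ) • X + η z • (d • ((1 / τ) • G))‖ ≤
          ‖X‖ + |d| / τ * (4 * P.j * 2 * (2 * 2 ^ N)) := (norm_add_le _ _).trans (add_le_add hn1 hn2)
      set Y := |d| / τ * (4 * P.j * 2 * (2 * 2 ^ N)) with hY
      have hY0 : 0 ≤ Y := by positivity
      have hsq : ‖χ (P.U N z / τ) • X + η z • (d • ((1 / τ) • G))‖ ^ 2 ≤ 2 * ‖X‖ ^ 2 + 2 * Y ^ 2 := by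
        have h1 := pow_le_pow_left₀ (norm_nonneg _) hnorm 2
        nlinarith [sq_nonneg (‖X‖ - Y)]
      have p1 : P.U N z ^ 2 * (2 * ‖X‖ ^ 2) ≤ a1 := by
        by_cases hX0 : 1 - δ / 2 < ‖z‖
        · rw [hX, hηd z hX0, norm_zero]
          simp only [ne_eq, OfNat.ofNat_ne_zero, not_false_eq_true, zero_pow, mul_zero]
          exact ha10
        · have h1 : ‖z‖ ≤ 1 := by linarith
          have h2 : P.U N z ≤ P.C * (3 / N) := by
            refine (P.U_le hN hzO).trans (mul_le_mul_of_nonneg_left ?_ hC.le)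
            have h5 := Rf_le hN (Om_norm_pos hzO)
            rw [max_eq_left h1, mul_one] at h5
            have h6 : P.T N z ≤ Rf N z - 1 := min_le_left _ _
            linarith
          have h3 : P.U N z ^ 2 ≤ (P.C * (3 / N)) ^ 2 := pow_le_pow_left₀ hU.le h2 2
          have h4 : ‖X‖ ^ 2 ≤ M ^ 2 := pow_le_pow_left₀ (norm_nonneg _) (hMη z) 2
          calc P.U N z ^ 2 * (2 * ‖X‖ ^ 2) ≤ (P.C * (3 / N)) ^ 2 * (2 * M ^ 2) := by gcongr
            _ = a1 := by rw [ha1]; field_simp; ring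
      have p2 : P.U N z ^ 2 * (2 * Y ^ 2) ≤ A.indicator (fun _ => a2) z := by
        by_cases hz2 : P.U N z ≤ 2 * τ
        · rw [indicator_of_mem (show z ∈ A from ⟨hzO, hz2⟩)]
          have h1 : |d| ≤ M := (hMχb _).trans ((le_max_right _ _).trans (le_max_left _ _))
          have h2 : P.U N z ^ 2 ≤ (2 * τ) ^ 2 := pow_le_pow_left₀ hU.le hz2 2
          have h3 : Y ≤ M / τ * (4 * P.j * 2 * (2 * 2 ^ N)) := by
            rw [hY]; gcongr
          have h4 : Y ^ 2 ≤ (M / τ * (4 * P.j * 2 * (2 * 2 ^ N))) ^ 2 := pow_le_pow_left₀ hY0 h3 2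
          calc P.U N z ^ 2 * (2 * Y ^ 2) ≤ (2 * τ) ^ 2 * (2 * (M / τ * (4 * P.j * 2 * (2 * 2 ^ N))) ^ 2) := by gcongr
            _ = a2 := by rw [ha2]; field_simp; ring
        · push Not at hz2
          have h1 : d = 0 := χd1 _ (by rw [lt_div_iff₀ hτ]; exact hz2)
          have h2 : Y = 0 := by rw [hY, h1]; simp
          rw [h2]
          have i2 : 0 ≤ A.indicator (fun _ => a2) z := indicator_nonneg (fun _ _ => ha20) z
          simpa using i2
      calc P.U N z ^ 2 * ‖χ (P.U N z / τ) • X + η z • (d • ((1 / τ) • G))‖ ^ 2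
          ≤ P.U N z ^ 2 * (2 * ‖X‖ ^ 2 + 2 * Y ^ 2) := mul_le_mul_of_nonneg_left hsq (sq_nonneg _)
        _ = P.U N z ^ 2 * (2 * ‖X‖ ^ 2) + P.U N z ^ 2 * (2 * Y ^ 2) := by ring
        _ ≤ _ := add_le_add p1 p2

end Pool.Agent.Helper533.ConvexObstacle
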