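import Pool.Agent.Helper533.ConvexObstacle.Ground

open MeasureTheory Metric Set

namespace Pool.Agent.Helper533.ConvexObstacle

theorem sq_one_add_le (n : ℕ) (t : ℝ) (ht : 0 ≤ t) :
    (1 + ((2 * n : ℕ) : ℝ) * t) ^ 2 ≤ 4 * (1 + t) ^ (2 * n) := by
  have h1 := one_add_mul_le_pow (a := t) (by linarith) n
  have h2 : 0 ≤ 1 + (n:ℝ) * t := by positivity
  have h3 : (1 + (n:ℝ) * t) ^ 2 ≤ ((1 + t) ^ n) ^ 2 := pow_le_pow_left₀ h2 h1 2
  rw [mul_comm 2 n, pow_mul]
  push_cast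
  have h4 : 0 ≤ (n:ℝ) * t := by positivity
  nlinarith

namespace Prof

variable (P : Prof)

theorem T_le {N : ℕ} (hN : N ≠ 0) {z : ℂ} (hz : z ∈ Om N P.q) (hz2 : ‖z‖ ≤ 2) :
    P.T N z ≤ (max 1 ‖z‖ - 1) + 6 / N := by
  have hN' : (0:ℝ) < N := by positivity
  have h1 := Rf_le hN (Om_norm_pos hz)
  have h2 : P.T N z ≤ Rf N z - 1 := min_le_left _ _
  have h3 : max 1 ‖z‖ ≤ 2 := max_le (by norm_num) hz2
  have h4 : 3 / N * max 1 ‖z‖ ≤ 6 / N := by
    rw [div_mul_eq_mul_div]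
    gcongr
    linarith
  linarith

theorem T_sq_le {n : ℕ} (hn : n ≠ 0) {z : ℂ} (hz : z ∈ Om (2 * n) P.q) (hz2 : ‖z‖ ≤ 2) :
    P.T (2 * n) z ^ 2 ≤ 144 / ((2 * n : ℕ) : ℝ) ^ 2 * (max 1 ‖z‖) ^ (2 * n) := by
  have hN : 2 * n ≠ 0 := by omega
  have hN' : (0:ℝ) < ((2 * n : ℕ) : ℝ) := by
    have : 0 < 2 * n := by omega
    exact_mod_cast this
  have h1 := P.T_le hN hz hz2
  have h0 := P.T_pos hN hz
  set N : ℝ := ((2 * n : ℕ) : ℝ) with hNdef
  set t := max 1 ‖z‖ - 1 with ht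
  have ht0 : 0 ≤ t := by have := le_max_left 1 ‖z‖; linarith
  have h2 := sq_one_add_le n t ht0
  have h3 : (1 + t) = max 1 ‖z‖ := by rw [ht]; ring
  rw [h3] at h2
  have h4 : t + 6 / N ≤ 6 / N * (1 + N * t) := by
    have : 6 / N * (1 + N * t) = 6 / N + 6 * t := by field_simp
    rw [this]; linarith
  have h5 : P.T (2 * n) z ^ 2 ≤ (6 / N * (1 + N * t)) ^ 2 := pow_le_pow_left₀ h0.le (h1.trans h4) 2
  calc P.T (2 * n) z ^ 2 ≤ (6 / N * (1 + N * t)) ^ 2 := h5
    _ = 36 / N ^ 2 * (1 + N * t) ^ 2 := by ring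
    _ ≤ 36 / N ^ 2 * (4 * max 1 ‖z‖ ^ (2 * n)) := mul_le_mul_of_nonneg_left h2 (by positivity)
    _ = _ := by ring

theorem Lam_pos (N : ℕ) : 0 < P.Lam N := by
  unfold Lam
  have := P.hj0
  have := Real.exp_pos (Real.log 2 / N)
  positivity

theorem Lam_le (N : ℕ) (hN : N ≠ 0) : P.Lam N ≤ 4 * P.j ^ 2 := by
  unfold Lam
  have hN' : (1:ℝ) ≤ N := by exact_mod_cast Nat.one_le_iff_ne_zero.mpr hN
  have h1 : Real.exp (Real.log 2 / N) ≤ 2 := by
    calc Real.exp (Real.log 2 / N) ≤ Real.exp (Real.log 2) := by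
          apply Real.exp_le_exp.mpr
          apply div_le_self (Real.log_nonneg (by norm_num)) hN'
      _ = 2 := Real.exp_log (by norm_num)
  have h2 := Real.exp_pos (Real.log 2 / N)
  rw [mul_pow]
  have h3 : Real.exp (Real.log 2 / N) ^ 2 ≤ 2 ^ 2 := pow_le_pow_left₀ h2.le h1 2
  have h4 : 0 ≤ P.j ^ 2 := sq_nonneg _
  nlinarith

theorem V_nonneg (N : ℕ) (z : ℂ) : 0 ≤ P.V N z := by unfold V; positivity

/-- the auxiliary quantity `X`, with `V = Lam X²` -/
theorem V_eq {N : ℕ} (hN : N ≠ 0) {z : ℂ} (hz : z ∈ Om N P.q) (hz0 : z ≠ 0) :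
    ∃ X : ℝ, 0 < X ∧ P.V N z = P.Lam N * X ^ 2 ∧
      min 1 (‖z‖ ^ N / ‖z ^ N - 1‖) ≤ X ∧ X ≤ max 1 (‖z‖ ^ N / ‖z ^ N - 1‖) := by
  have hb := Om_norm_pos hz
  have hρ : 0 < ‖z‖ := norm_pos_iff.mpr hz0
  have hN' : (0:ℝ) < N := by positivity
  set b := ‖z ^ N - 1‖ with hbdef
  set ρ := ‖z‖ with hρdef
  set B := Real.exp (Real.log b / N) with hB
  have hB0 : 0 < B := Real.exp_pos _
  have hBN : B ^ N = b := by
    rw [hB, ← Real.exp_nat_mul]
    have : (N:ℝ) * (Real.log b / N) = Real.log b := by field_simp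
    rw [this, Real.exp_log hb]
  have hRf : Rf N z = Real.exp (Real.log 2 / N) * B := by
    unfold Rf
    rw [hB, ← Real.exp_add]
    congr 1
    ring
  have hpow : ρ ^ (N - 1) * ρ = ρ ^ N := by
    rw [← pow_succ]; congr 1; omega
  set X := B * ρ ^ (N - 1) / b with hX
  have hX0 : 0 < X := by positivity
  have hXr : X = (B / ρ) * (ρ ^ N / b) := by
    rw [hX, ← hpow]; field_simp
  have hXN : X ^ N = (ρ ^ N / b) ^ (N - 1) := by
    have h1 : X ^ N = (B / ρ) ^ N * (ρ ^ N / b) ^ N := by rw [hXr, mul_pow]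
    rw [h1, div_pow, hBN]
    have h2 : (ρ ^ N / b) ^ N = (ρ ^ N / b) ^ (N - 1) * (ρ ^ N / b) := by
      rw [← pow_succ]; congr 1; omega
    rw [h2]
    field_simp
  refine ⟨X, hX0, ?_, ?_, ?_⟩
  · unfold V Lam
    rw [norm_pf, hRf, hX]
    field_simp
    rw [← hρdef, ← hbdef]
    field_simp
  · rcases le_total 1 (ρ ^ N / b) with h | h
    · rw [min_eq_left h]
      by_contra hcon
      push Not at hcon
      have h3 : X ^ N < 1 := pow_lt_one₀ hX0.le hcon hN
      rw [hXN] at h3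
      have h4 := one_le_pow₀ (n := N - 1) h
      linarith
    · rw [min_eq_right h]
      have h5 : 1 ≤ B / ρ := by
        rw [one_le_div hρ]
        apply le_of_pow_le hN hB0.le
        rw [hBN]
        rwa [div_le_one hb] at h
      rw [hXr]
      have h6 : 0 ≤ ρ ^ N / b := by positivity
      nlinarith
  · rcases le_total 1 (ρ ^ N / b) with h | h
    · rw [max_eq_right h]
      have h5 : B / ρ ≤ 1 := by
        rw [div_le_one hρ]
        apply le_of_pow_le hN hρ.le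
        rw [hBN]
        rwa [one_le_div hb] at h
      rw [hXr]
      have h6 : 0 ≤ ρ ^ N / b := by positivity
      nlinarith
    · rw [max_eq_left h]
      by_contra hcon
      push Not at hcon
      have h3 : 1 < X ^ N := one_lt_pow₀ hcon hN
      rw [hXN] at h3
      have h6 : 0 ≤ ρ ^ N / b := by positivity
      have h4 := pow_le_one₀ (n := N - 1) h6 h
      linarith

theorem V_lower {N : ℕ} (hN : N ≠ 0) {z : ℂ} (hz : z ∈ Om N P.q) :
    P.Lam N * (1 - 2 / (max 1 ‖z‖) ^ N) ≤ P.V N z := by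
  have hL := P.Lam_pos N
  rcases le_total ‖z‖ 1 with h | h
  · rw [max_eq_left h, one_pow]
    have := P.V_nonneg N z
    nlinarith
  · rw [max_eq_right h]
    have hz0 : z ≠ 0 := by
      rintro rfl
      rw [norm_zero] at h
      linarith
    obtain ⟨X, hX0, hV, hX1, -⟩ := P.V_eq hN hz hz0
    rw [hV]
    apply mul_le_mul_of_nonneg_left _ hL.le
    have hb := Om_norm_pos hz
    have ha : 1 ≤ ‖z‖ ^ N := one_le_pow₀ h
    have hba : ‖z ^ N - 1‖ ≤ ‖z‖ ^ N + 1 := by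
      have := norm_sub_le (z ^ N) 1
      rw [norm_pow, norm_one] at this
      exact this
    set a := ‖z‖ ^ N with hadef
    have h1 : a / (a + 1) ≤ min 1 (a / ‖z ^ N - 1‖) := by
      apply le_min
      · rw [div_le_one (by linarith)]; linarith
      · gcongr
    have h2 : a / (a + 1) ≤ X := h1.trans hX1
    have h3 : a / (a + 1) = 1 - 1 / (a + 1) := by field_simp; ring
    have h4 : 0 ≤ a / (a + 1) := by positivity
    have h5 : (a / (a + 1)) ^ 2 ≤ X ^ 2 := pow_le_pow_left₀ h4 h2 2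
    have h6 : 1 / (a + 1) ≤ 1 / a := by
      apply one_div_le_one_div_of_le <;> linarith
    have h7 : 2 / a = 2 * (1 / a) := by ring
    rw [h7]
    rw [h3] at h5
    nlinarith [sq_nonneg (1 / (a + 1))]

theorem V_upper {n : ℕ} (hn : n ≠ 0) {z : ℂ} (hz : z ∈ Om (2 * n) P.q) (hz2 : ‖z‖ ≤ 2) :
    (P.V (2 * n) z - P.Lam (2 * n)) * P.T (2 * n) z ^ 2 ≤
      2304 * P.Lam (2 * n) / ((2 * n : ℕ) : ℝ) ^ 2 := by
  have hN : 2 * n ≠ 0 := by omega
  have hN' : (0:ℝ) < ((2 * n : ℕ) : ℝ) := by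
    have : 0 < 2 * n := by omega
    exact_mod_cast this
  have hL := P.Lam_pos (2 * n)
  have hT := P.T_sq_le hn hz hz2
  set N : ℕ := 2 * n with hNdef
  rcases eq_or_ne z 0 with h0 | h0
  · have hV0 : P.V N z = 0 := by
      unfold V
      rw [norm_pf, h0, norm_zero, zero_pow (by omega)]
      simp
    rw [hV0]
    have h1 : (0 - P.Lam N) * P.T N z ^ 2 ≤ 0 := by
      have := sq_nonneg (P.T N z)
      nlinarith
    have h2 : 0 ≤ 2304 * P.Lam N / (N:ℝ) ^ 2 := by positivity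
    linarith
  obtain ⟨X, hX0, hV, -, hX1⟩ := P.V_eq hN hz h0
  rw [hV]
  have hb := Om_norm_pos hz
  have hρ : 0 < ‖z‖ := norm_pos_iff.mpr h0
  have hb2 : 1 / 2 < ‖z ^ N - 1‖ := hz.1
  have hb3 : ‖z‖ ^ N - 1 ≤ ‖z ^ N - 1‖ := by
    have := norm_sub_norm_le (z ^ N) 1
    rw [norm_pow, norm_one] at this
    exact this
  set a := ‖z‖ ^ N with hadef
  set b := ‖z ^ N - 1‖ with hbdef
  have ha0 : 0 < a := by positivity
  have hX2 : X ^ 2 ≤ (max 1 (a / b)) ^ 2 := pow_le_pow_left₀ hX0.le hX1 2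
  have hmain : (X ^ 2 - 1) * (max 1 ‖z‖) ^ N ≤ 16 := by
    have hm1 : (1:ℝ) ≤ (max 1 ‖z‖) ^ N := one_le_pow₀ (le_max_left _ _)
    rcases le_total (a / b) 1 with hab | hab
    · rw [max_eq_left hab] at hX2
      have : X ^ 2 - 1 ≤ 0 := by linarith
      nlinarith
    rw [max_eq_right hab] at hX2
    have hm2 : (max 1 ‖z‖) ^ N ≤ max 1 a := by
      rcases le_total ‖z‖ 1 with h | h
      · rw [max_eq_left h, one_pow]; exact le_max_left _ _
      · rw [max_eq_right h]; exact le_max_right _ _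
    have hrhs : 0 ≤ (a / b) ^ 2 - 1 := by nlinarith
    have hmain2 : ((a / b) ^ 2 - 1) * max 1 a ≤ 16 := by
      rcases le_total a 2 with ha2 | ha2
      · -- a ≤ 2
        have h5 : a / b ≤ 2 * a := by
          rw [div_le_iff₀ hb]; nlinarith
        rcases le_total a 1 with ha1 | ha1
        · rw [max_eq_left ha1]
          have h6 : a / b ≤ 2 := by linarith
          nlinarith
        · rw [max_eq_right ha1]
          -- (a/b)^2 - 1, with b ≥ max(1/2, a-1)
          rcases le_total a (3/2) with h7 | h7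
          · have h8 : a / b ≤ 3 := by linarith
            have h9 : (a / b) ^ 2 ≤ 9 := by nlinarith
            nlinarith
          · have h8 : a / b ≤ 3 := by
              rw [div_le_iff₀ hb]; linarith
            have h9 : (a / b) ^ 2 ≤ 9 := by nlinarith
            nlinarith
      · rw [max_eq_right (by linarith)]
        have h5 : a / b ≤ a / (a - 1) := by
          gcongr
          linarith
        have h6 : (a / b) ^ 2 ≤ (a / (a - 1)) ^ 2 := pow_le_pow_left₀ (by positivity) h5 2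
        have h7 : ((a / (a - 1)) ^ 2 - 1) * a ≤ 16 := by
          have h8 : 0 < a - 1 := by linarith
          rw [div_pow, div_sub_one (by positivity), div_mul_eq_mul_div, div_le_iff₀ (by positivity)]
          nlinarith
        nlinarith
    calc (X ^ 2 - 1) * (max 1 ‖z‖) ^ N ≤ ((a / b) ^ 2 - 1) * (max 1 ‖z‖) ^ N := by
          apply mul_le_mul_of_nonneg_right _ (by positivity); linarith
      _ ≤ ((a / b) ^ 2 - 1) * max 1 a := mul_le_mul_of_nonneg_left hm2 hrhs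
      _ ≤ 16 := hmain2
  rcases le_total (X ^ 2 - 1) 0 with h | h
  · have h1 : (P.Lam N * X ^ 2 - P.Lam N) * P.T N z ^ 2 ≤ 0 := by
      have h2 := sq_nonneg (P.T N z)
      have h3 : P.Lam N * X ^ 2 - P.Lam N = P.Lam N * (X ^ 2 - 1) := by ring
      rw [h3]
      apply mul_nonpos_of_nonpos_of_nonneg _ h2
      exact mul_nonpos_of_nonneg_of_nonpos hL.le h
    have h2 : 0 ≤ 2304 * P.Lam N / (N:ℝ) ^ 2 := by positivity
    linarith
  · calc (P.Lam N * X ^ 2 - P.Lam N) * P.T N z ^ 2 = P.Lam N * ((X ^ 2 - 1) * P.T N z ^ 2) := by ring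
      _ ≤ P.Lam N * ((X ^ 2 - 1) * (144 / (N:ℝ) ^ 2 * (max 1 ‖z‖) ^ N)) := by
          apply mul_le_mul_of_nonneg_left _ hL.le
          exact mul_le_mul_of_nonneg_left hT h
      _ = P.Lam N * (144 / (N:ℝ) ^ 2) * ((X ^ 2 - 1) * (max 1 ‖z‖) ^ N) := by ring
      _ ≤ P.Lam N * (144 / (N:ℝ) ^ 2) * 16 := mul_le_mul_of_nonneg_left hmain (by positivity)
      _ = _ := by ring

end Prof

end Pool.Agent.Helper533.ConvexObstacle
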